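import Pool.Agent.N289.CV.Defs
set_option autoImplicit false
namespace Pool.Agent.N289.CV
open MeasureTheory Set Filter Topology

theorem Good.cont {N : E → ℝ} (hN : Good N) : Continuous N := by
  have h := hN.cvx.continuousOn isOpen_univ
  exact continuousOn_univ.mp h

theorem Good.zero {N : E → ℝ} (hN : Good N) : N 0 = 0 := by
  have h := hN.homog 0 le_rfl 0
  simpa using h

theorem Good.pos {N : E → ℝ} (hN : Good N) {x : E} (hx : x ≠ 0) : 0 < N x := by
  obtain ⟨c, hc, h⟩ := hN.lower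
  have h1 := h x
  have : 0 < c * ‖x‖ := mul_pos hc (norm_pos_iff.mpr hx)
  linarith

theorem Good.nonneg {N : E → ℝ} (hN : Good N) (x : E) : 0 ≤ N x := by
  by_cases hx : x = 0
  · rw [hx, hN.zero]
  · exact (hN.pos hx).le

theorem Good.ne_zero {N : E → ℝ} (hN : Good N) {x : E} (hx : 0 < N x) : x ≠ 0 := by
  rintro rfl
  rw [hN.zero] at hx
  exact lt_irrefl _ hx

theorem Good.contDiffAt {N : E → ℝ} (hN : Good N) {x : E} (hx : x ≠ 0) :
    ContDiffAt ℝ ((⊤ : ℕ∞) : WithTop ℕ∞) N x :=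
  hN.smooth.contDiffAt (isOpen_compl_singleton.mem_nhds hx)

theorem Good.differentiableAt {N : E → ℝ} (hN : Good N) {x : E} (hx : x ≠ 0) :
    DifferentiableAt ℝ N x :=
  (hN.contDiffAt hx).differentiableAt (by simp)

theorem Good.euler {N : E → ℝ} (hN : Good N) {x : E} (hx : x ≠ 0) : fderiv ℝ N x x = N x := by
  have h1 : HasDerivAt (fun t : ℝ => N (x + t • x)) (fderiv ℝ N x x) 0 := by
    have h := (hN.differentiableAt hx).hasFDerivAt
    have h2 : HasDerivAt (fun t : ℝ => x + t • x) x 0 := by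
      simpa using ((hasDerivAt_id (0:ℝ)).smul_const x).const_add x
    have h3 : HasFDerivAt N (fderiv ℝ N x) (x + (0:ℝ) • x) := by simpa using h
    exact h3.comp_hasDerivAt 0 h2
  have h2 : HasDerivAt (fun t : ℝ => (1 + t) * N x) (N x) 0 := by
    simpa using ((hasDerivAt_id (0:ℝ)).const_add 1).mul_const (N x)
  have h3 : (fun t : ℝ => N (x + t • x)) =ᶠ[𝓝 0] (fun t : ℝ => (1 + t) * N x) := by
    filter_upwards [eventually_gt_nhds (show (-1:ℝ) < 0 by norm_num)] with t ht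
    have : x + t • x = (1 + t) • x := by rw [add_smul, one_smul]
    rw [this, hN.homog (1 + t) (by linarith)]
  exact (h1.congr_of_eventuallyEq h3.symm).unique h2

theorem Good.supp' {N : E → ℝ} (hN : Good N) {x : E} (hx : x ≠ 0) (z : E) :
    N x + fderiv ℝ N x (z - x) ≤ N z := by
  have h1 : HasDerivAt (fun t : ℝ => N (x + t • (z - x))) (fderiv ℝ N x (z - x)) 0 := by
    have h := (hN.differentiableAt hx).hasFDerivAt
    have h2 : HasDerivAt (fun t : ℝ => x + t • (z - x)) (z - x) 0 := by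
      simpa using ((hasDerivAt_id (0:ℝ)).smul_const (z - x)).const_add x
    have h3 : HasFDerivAt N (fderiv ℝ N x) (x + (0:ℝ) • (z - x)) := by simpa using h
    exact h3.comp_hasDerivAt 0 h2
  have h2 : Tendsto (slope (fun t : ℝ => N (x + t • (z - x))) 0) (𝓝[>] 0) (𝓝 (fderiv ℝ N x (z - x))) :=
    (hasDerivAt_iff_tendsto_slope.mp h1).mono_left (nhdsWithin_mono _ (fun t ht => ne_of_gt ht))
  have h3 : ∀ᶠ t in 𝓝[>] (0:ℝ), slope (fun t : ℝ => N (x + t • (z - x))) 0 t ≤ N z - N x := by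
    filter_upwards [Ioo_mem_nhdsGT (show (0:ℝ) < 1 by norm_num)] with t ht
    have hconv := hN.cvx.2 (mem_univ x) (mem_univ z) (show (0:ℝ) ≤ 1 - t by linarith [ht.2])
      ht.1.le (by ring)
    have e : (1 - t) • x + t • z = x + t • (z - x) := by module
    rw [e] at hconv
    rw [slope_def_field]
    simp only [zero_smul, add_zero, sub_zero]
    rw [div_le_iff₀ ht.1]
    simp only [smul_eq_mul] at hconv
    nlinarith
  linarith [le_of_tendsto h2 h3]

theorem Good.supp {N : E → ℝ} (hN : Good N) {x : E} (hx : x ≠ 0) (z : E) : fderiv ℝ N x z ≤ N z := by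
  have h := hN.supp' hx z
  rw [map_sub, hN.euler hx] at h
  linarith

theorem Good.isCompact_le {N : E → ℝ} (hN : Good N) (r : ℝ) : IsCompact {x : E | N x ≤ r} := by
  obtain ⟨c, hc, h⟩ := hN.lower
  refine Metric.isCompact_of_isClosed_isBounded (isClosed_le hN.cont continuous_const) ?_
  refine (Metric.isBounded_closedBall (x := (0:E)) (r := r / c)).subset ?_
  intro x hx
  rw [mem_closedBall_zero_iff, le_div_iff₀ hc]
  have := h x
  simp only [mem_ofPred_eq] at hx
  linarith [mul_comm c ‖x‖]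

theorem decomp (v : E) : v = (v 0).re • (Pi.single 0 (1:ℂ) : E) + (v 0).im • (Pi.single 0 Complex.I : E)
    + (v 1).re • (Pi.single 1 (1:ℂ) : E) + (v 1).im • (Pi.single 1 Complex.I : E) := by
  ext j
  fin_cases j
  · simp
  · simp

theorem w_pair (N : E → ℝ) (x v : E) : w N 0 x * v 0 + w N 1 x * v 1 =
    (1/2 : ℂ) * ((fderiv ℝ N x v : ℝ) - Complex.I * (fderiv ℝ N x (Complex.I • v) : ℝ)) := by
  have h1 := congrArg (fderiv ℝ N x) (decomp v)
  have h2 := congrArg (fderiv ℝ N x) (decomp (Complex.I • v))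
  simp only [map_add, map_smul, smul_eq_mul] at h1 h2
  rw [h1, h2]
  simp only [w, Pi.smul_apply, smul_eq_mul, Complex.mul_re, Complex.mul_im, Complex.I_re, Complex.I_im]
  have e0 : v 0 = (v 0).re + (v 0).im * Complex.I := (Complex.re_add_im _).symm
  have e1 : v 1 = (v 1).re + (v 1).im * Complex.I := (Complex.re_add_im _).symm
  rw [e0, e1]
  simp only [Complex.add_re, Complex.add_im, Complex.ofReal_re, Complex.ofReal_im, Complex.mul_re,
    Complex.mul_im, Complex.I_re, Complex.I_im]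
  apply Complex.ext
  · simp only [Complex.add_re, Complex.add_im, Complex.ofReal_re, Complex.ofReal_im, Complex.mul_re,
      Complex.mul_im, Complex.I_re, Complex.I_im, Complex.sub_re, Complex.sub_im]
    norm_num
    ring
  · simp only [Complex.add_re, Complex.add_im, Complex.ofReal_re, Complex.ofReal_im, Complex.mul_re,
      Complex.mul_im, Complex.I_re, Complex.I_im, Complex.sub_re, Complex.sub_im]
    norm_num
    ring

theorem Phi_eq (N : E → ℝ) (x z : E) : Phi N x z =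
    (1/2 : ℂ) * ((fderiv ℝ N x (x - z) : ℝ) - Complex.I * (fderiv ℝ N x (Complex.I • (x - z)) : ℝ)) := by
  rw [← w_pair]; rfl

theorem Phi_re {N : E → ℝ} (hN : Good N) {x : E} (hx : x ≠ 0) (z : E) :
    (Phi N x z).re = (N x - fderiv ℝ N x z) / 2 := by
  rw [Phi_eq]
  have h : fderiv ℝ N x (x - z) = N x - fderiv ℝ N x z := by rw [map_sub, hN.euler hx]
  rw [h]
  simp only [Complex.sub_re, Complex.ofReal_re, Complex.mul_re, Complex.I_re, Complex.I_im,
    Complex.ofReal_im, Complex.sub_im, Complex.mul_im]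
  norm_num
  ring

theorem le_norm_Phi {N : E → ℝ} (hN : Good N) {x : E} (hx : x ≠ 0) (z : E) :
    (N x - N z) / 2 ≤ ‖Phi N x z‖ := by
  have h1 := Phi_re hN hx z
  have h2 := hN.supp hx z
  have h3 := Complex.re_le_norm (Phi N x z)
  linarith

theorem fderiv_contDiffOn {N : E → ℝ} (hN : Good N) :
    ContDiffOn ℝ ((⊤ : ℕ∞) : WithTop ℕ∞) (fderiv ℝ N) {0}ᶜ :=
  hN.smooth.fderiv_of_isOpen isOpen_compl_singleton (by exact_mod_cast le_top)

theorem w_contDiffOn {N : E → ℝ} (hN : Good N) (j : Fin 2) :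
    ContDiffOn ℝ ((⊤ : ℕ∞) : WithTop ℕ∞) (w N j) {0}ᶜ := by
  unfold w
  have h := fderiv_contDiffOn hN
  have h1 : ∀ v : E, ContDiffOn ℝ ((⊤ : ℕ∞) : WithTop ℕ∞) (fun x => ((fderiv ℝ N x v : ℝ) : ℂ)) {0}ᶜ :=
    fun v => Complex.ofRealCLM.contDiff.comp_contDiffOn (h.clm_apply contDiffOn_const)
  exact contDiffOn_const.mul ((h1 _).sub (contDiffOn_const.mul (h1 _)))

theorem w_contDiffAt {N : E → ℝ} (hN : Good N) (j : Fin 2) {x : E} (hx : x ≠ 0) :
    ContDiffAt ℝ ((⊤ : ℕ∞) : WithTop ℕ∞) (w N j) x :=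
  (w_contDiffOn hN j).contDiffAt (isOpen_compl_singleton.mem_nhds hx)

theorem isOpen_fst_ne : IsOpen {p : E × E | p.1 ≠ 0} :=
  isOpen_ne_fun continuous_fst continuous_const

theorem Phi_contDiffOn {N : E → ℝ} (hN : Good N) :
    ContDiffOn ℝ ((⊤ : ℕ∞) : WithTop ℕ∞) (Function.uncurry (Phi N)) {p | p.1 ≠ 0} := by
  have h : ∀ j : Fin 2, ContDiffOn ℝ ((⊤ : ℕ∞) : WithTop ℕ∞) (fun p : E × E => w N j p.1) {p | p.1 ≠ 0} :=
    fun j => (w_contDiffOn hN j).comp contDiff_fst.contDiffOn (fun p hp => hp)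
  have h2 : ∀ j : Fin 2, ContDiff ℝ ((⊤ : ℕ∞) : WithTop ℕ∞) (fun p : E × E => p.1 j - p.2 j) := fun j =>
    ((contDiff_apply ℝ ℂ j).comp contDiff_fst).sub ((contDiff_apply ℝ ℂ j).comp contDiff_snd)
  exact ((h 0).mul (h2 0).contDiffOn).add ((h 1).mul (h2 1).contDiffOn)

theorem Hs_contDiffOn {N : E → ℝ} (hN : Good N) : ContDiffOn ℝ ((⊤ : ℕ∞) : WithTop ℕ∞) (Hs N) {0}ᶜ :=
  (fderiv_contDiffOn hN).fderiv_of_isOpen isOpen_compl_singleton (by exact_mod_cast le_top)

theorem Hs_symm {N : E → ℝ} (hN : Good N) {x : E} (hx : x ≠ 0) (a b : E) : Hs N x a b = Hs N x b a := by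
  have h := (hN.contDiffAt hx).isSymmSndFDerivAt (by
    simp only [minSmoothness_of_isRCLikeNormedField]
    exact WithTop.coe_le_coe.mpr (le_top : (2 : ℕ∞) ≤ ⊤))
  exact h a b

theorem fderiv_hasFDerivAt {N : E → ℝ} (hN : Good N) {x : E} (hx : x ≠ 0) :
    HasFDerivAt (fderiv ℝ N) (Hs N x) x := by
  have h := (fderiv_contDiffOn hN).contDiffAt (isOpen_compl_singleton.mem_nhds hx)
  exact (h.differentiableAt (by simp)).hasFDerivAt

/-- monotonicity of the gradient -/
theorem Good.mono {N : E → ℝ} (hN : Good N) {x x' : E} (hx : x ≠ 0) (hx' : x' ≠ 0) :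
    0 ≤ (fderiv ℝ N x' - fderiv ℝ N x) (x' - x) := by
  have h1 := hN.supp' hx x'
  have h2 := hN.supp' hx' x
  have h3 : fderiv ℝ N x' (x - x') = - fderiv ℝ N x' (x' - x) := by rw [← map_neg]; congr 1; abel
  rw [h3] at h2
  simp only [sub_apply]
  linarith

theorem Hs_nonneg {N : E → ℝ} (hN : Good N) {x : E} (hx : x ≠ 0) (a : E) : 0 ≤ Hs N x a a := by
  have h1 : HasDerivAt (fun t : ℝ => fderiv ℝ N (x + t • a) a) (Hs N x a a) 0 := by
    have h2 : HasDerivAt (fun t : ℝ => x + t • a) a 0 := by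
      simpa using ((hasDerivAt_id (0:ℝ)).smul_const a).const_add x
    have h3 : HasFDerivAt (fderiv ℝ N) (Hs N x) (x + (0:ℝ) • a) := by
      simpa using fderiv_hasFDerivAt hN hx
    have h4 := h3.comp_hasDerivAt 0 h2
    have h5 := (ContinuousLinearMap.apply ℝ ℝ a).hasFDerivAt.comp_hasDerivAt 0 h4
    exact h5
  have h2 : Tendsto (slope (fun t : ℝ => fderiv ℝ N (x + t • a) a) 0) (𝓝[>] 0) (𝓝 (Hs N x a a)) :=
    (hasDerivAt_iff_tendsto_slope.mp h1).mono_left (nhdsWithin_mono _ (fun t ht => ne_of_gt ht))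
  have hc : ∀ᶠ t in 𝓝 (0:ℝ), x + t • a ≠ 0 := by
    have : Continuous (fun t : ℝ => x + t • a) := by fun_prop
    exact this.continuousAt.eventually_ne (by simpa using hx)
  have h3 : ∀ᶠ t in 𝓝[>] (0:ℝ), 0 ≤ slope (fun t : ℝ => fderiv ℝ N (x + t • a) a) 0 t := by
    filter_upwards [self_mem_nhdsWithin, hc.filter_mono nhdsWithin_le_nhds] with t ht hne
    have ht' : (0:ℝ) < t := ht
    have h := hN.mono hx hne
    rw [slope_def_field]
    simp only [zero_smul, add_zero, sub_zero]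
    refine div_nonneg ?_ ht'.le
    have e : x + t • a - x = t • a := by abel
    rw [e, map_smul, sub_apply, smul_eq_mul] at h
    exact nonneg_of_mul_nonneg_right h ht'
  exact ge_of_tendsto h2 h3

theorem fderiv_w {N : E → ℝ} (hN : Good N) {x : E} (hx : x ≠ 0) (j : Fin 2) (h : E) :
    fderiv ℝ (w N j) x h = (1/2 : ℂ) * (((Hs N x h (Pi.single j (1 : ℂ)) : ℝ) : ℂ)
    - Complex.I * ((Hs N x h (Pi.single j Complex.I) : ℝ) : ℂ)) := by
  have h1 : ∀ v : E, HasFDerivAt (fun x => ((fderiv ℝ N x v : ℝ) : ℂ))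
      (Complex.ofRealCLM.comp ((ContinuousLinearMap.apply ℝ ℝ v).comp (Hs N x))) x := fun v =>
    Complex.ofRealCLM.hasFDerivAt.comp x
      ((ContinuousLinearMap.apply ℝ ℝ v).hasFDerivAt.comp x (fderiv_hasFDerivAt hN hx))
  have h2 := (((h1 (Pi.single j (1 : ℂ))).sub ((h1 (Pi.single j Complex.I)).const_mul Complex.I)).const_mul
    (1/2 : ℂ))
  have h3 : HasFDerivAt (w N j) _ x := h2
  rw [h3.fderiv]
  simp

theorem fderiv_Phi {N : E → ℝ} (hN : Good N) {x : E} (hx : x ≠ 0) (z h : E) :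
    fderiv ℝ (fun x => Phi N x z) x h =
      (w N 0 x * h 0 + w N 1 x * h 1) +
      (1/2 : ℂ) * ((Hs N x h (x - z) : ℝ) - Complex.I * (Hs N x h (Complex.I • (x - z)) : ℝ)) := by
  have hw : ∀ j, HasFDerivAt (w N j) (fderiv ℝ (w N j) x) x := fun j =>
    ((w_contDiffAt hN j hx).differentiableAt (by simp)).hasFDerivAt
  have hp : ∀ j : Fin 2, HasFDerivAt (fun x : E => x j - z j) (ContinuousLinearMap.proj (R := ℝ) (φ := fun _ : Fin 2 => ℂ) j) x :=
    fun j => (hasFDerivAt_apply j x).sub_const (z j)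
  have h1 := ((hw 0).mul (hp 0)).add ((hw 1).mul (hp 1))
  have h2 : HasFDerivAt (fun x => Phi N x z) _ x := h1
  rw [h2.fderiv]
  simp only [add_apply, smul_apply, ContinuousLinearMap.proj_apply, smul_eq_mul]
  rw [fderiv_w hN hx, fderiv_w hN hx]
  have e1 := congrArg (Hs N x h) (decomp (x - z))
  have e2 := congrArg (Hs N x h) (decomp (Complex.I • (x - z)))
  simp only [map_add, map_smul, smul_eq_mul] at e1 e2
  rw [e1, e2]
  have e0 : ∀ j : Fin 2, x j - z j = (x - z) j := fun j => rfl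
  rw [e0, e0]
  generalize x - z = v
  generalize Hs N x h = L
  simp only [Pi.smul_apply, smul_eq_mul]
  generalize v 0 = a
  generalize v 1 = b
  generalize w N 0 x * h 0 = p
  generalize w N 1 x * h 1 = q
  apply Complex.ext
  · simp only [Complex.add_re, Complex.add_im, Complex.ofReal_re, Complex.ofReal_im, Complex.mul_re,
      Complex.mul_im, Complex.I_re, Complex.I_im, Complex.sub_re, Complex.sub_im]
    norm_num
    ring
  · simp only [Complex.add_re, Complex.add_im, Complex.ofReal_re, Complex.ofReal_im, Complex.mul_re,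
      Complex.mul_im, Complex.I_re, Complex.I_im, Complex.sub_re, Complex.sub_im]
    norm_num
    ring

end Pool.Agent.N289.CV
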