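import Mathlib

/-!
Definitions for the proof of MP_26d61a_an (sup-norm estimates for dbar on smooth bounded convex domains in C^2).
-/

set_option autoImplicit false

namespace Pool.Agent.N289.CV

open MeasureTheory Set Filter Topology

/-- `ℂ²` (with the sup norm and the product Lebesgue measure `volume`). -/
abbrev E := Fin 2 → ℂ

/-- The `j`-th Cauchy-Riemann operator `∂/∂z̄_j`. -/
noncomputable def dbar (j : Fin 2) (g : E → ℂ) (x : E) : ℂ :=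
  (1/2 : ℂ) * (fderiv ℝ g x (Pi.single j (1 : ℂ)) + Complex.I * fderiv ℝ g x (Pi.single j Complex.I))

/-- Euclidean norm squared. -/
noncomputable def sq (y : E) : ℝ := ‖y 0‖ ^ 2 + ‖y 1‖ ^ 2

/-- The Bochner-Martinelli kernel (up to a constant). -/
noncomputable def bk (j : Fin 2) (y : E) : ℂ := (starRingEnd ℂ) (y j) / ((sq y : ℝ) : ℂ) ^ 2

/-- Smooth gauges: `{N < 1}` is a smooth bounded convex domain containing `0`. -/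
structure Good (N : E → ℝ) : Prop where
  smooth : ContDiffOn ℝ ((⊤ : ℕ∞) : WithTop ℕ∞) N {0}ᶜ
  cvx : ConvexOn ℝ univ N
  homog : ∀ t : ℝ, 0 ≤ t → ∀ x, N (t • x) = t * N x
  lower : ∃ c : ℝ, 0 < c ∧ ∀ x, c * ‖x‖ ≤ N x

/-- `∂N/∂x_j` (holomorphic derivative). -/
noncomputable def w (N : E → ℝ) (j : Fin 2) (x : E) : ℂ :=
  (1/2 : ℂ) * (((fderiv ℝ N x (Pi.single j (1 : ℂ)) : ℝ) : ℂ)
    - Complex.I * ((fderiv ℝ N x (Pi.single j Complex.I) : ℝ) : ℂ))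

/-- The Leray section `Φ(x,z) = Σ_j ∂_jN(x) (x_j - z_j)`. -/
noncomputable def Phi (N : E → ℝ) (x z : E) : ℂ :=
  w N 0 x * (x 0 - z 0) + w N 1 x * (x 1 - z 1)

noncomputable def A (N : E → ℝ) (x z : E) : ℂ :=
  w N 0 x * (starRingEnd ℂ) (x 1 - z 1) - w N 1 x * (starRingEnd ℂ) (x 0 - z 0)

/-- The cut-off: `m = 0` if `N x ≤ 1/4` or `|Φ| ≤ c (1 - N x) / 2`, and `m = 1` if
`N x ≥ 1/2` and `2 |Φ|² ≥ c² (1 - N x)²`. -/
noncomputable def m (c : ℝ) (N : E → ℝ) (x z : E) : ℝ :=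
  Real.smoothTransition (4 * N x - 1) *
    Real.smoothTransition (4 * ‖Phi N x z‖ ^ 2 / (c * (1 - N x)) ^ 2 - 1)

/-- The auxiliary kernel with `Koppelman kernel = -BM/κ + (1/κ) (∂̄_{x1} M, -∂̄_{x0} M)`. -/
noncomputable def M (c : ℝ) (N : E → ℝ) (x z : E) : ℂ :=
  ((m c N x z : ℝ) : ℂ) * A N x z / (Phi N x z * ((sq (x - z) : ℝ) : ℂ))

/-- The auxiliary kernel without cut-off. -/
noncomputable def M0 (N : E → ℝ) (x z : E) : ℂ :=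
  A N x z / (Phi N x z * ((sq (x - z) : ℝ) : ℂ))

/-- `|∂̄_x Φ|`. -/
noncomputable def dPhi (N : E → ℝ) (x z : E) : ℝ :=
  ‖dbar 0 (fun x => Phi N x z) x‖ + ‖dbar 1 (fun x => Phi N x z) x‖

/-- The region of integration. -/
def Reg (c : ℝ) (N : E → ℝ) (z : E) : Set E :=
  {x | N x < 1 ∧ 1 / 4 ≤ N x ∧ c * (1 - N x) ≤ 2 * ‖Phi N x z‖}

/-- The three singular terms. -/
noncomputable def gg (c : ℝ) (N : E → ℝ) (x z : E) : ℝ :=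
  ‖Phi N x z‖⁻¹ * ‖x - z‖⁻¹ + dPhi N x z * (‖Phi N x z‖⁻¹) ^ 2 * ‖x - z‖⁻¹
    + {p : E | ‖Phi N p z‖ ≤ c * (1 - N p)}.indicator (fun p => ((1 - N p)⁻¹) ^ 2 * ‖p - z‖⁻¹) x

/-- The Bochner-Martinelli identity with constant `κ` (`κ = π²`, but the value plays no role). -/
def BMid (κ : ℝ) : Prop :=
  0 < κ ∧ ∀ g : E → ℂ, ContDiff ℝ 1 g → HasCompactSupport g → ∀ z : E,
    ∫ y : E, (dbar 0 g (z + y) * bk 0 y + dbar 1 g (z + y) * bk 1 y) = -(κ : ℂ) * g z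

/-- Uniform charts: for `z ∈ V` the map `x ↦ (Φ(x,z), τ x)` is injective on the open set `U` with Lipschitz
inverse, and the pull-back of integrals is bounded. -/
def IsChart (Φ : E → E → ℂ) (τ : E →L[ℝ] ℝ × ℝ) (U V : Set E) (C : ℝ) : Prop :=
  IsOpen U ∧ IsOpen V ∧ 0 < C ∧
  (∀ z ∈ V, ContinuousOn (fun x => Φ x z) U) ∧
  (∀ z ∈ V, ∀ x ∈ U, ∀ x' ∈ U, ‖x - x'‖ ≤ C * ‖((Φ x z - Φ x' z, τ x - τ x') : ℂ × (ℝ × ℝ))‖) ∧
  (∀ z ∈ V, ∀ S ⊆ U, MeasurableSet S → ∀ g : ℂ × (ℝ × ℝ) → ENNReal,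
    ∫⁻ x in S, g (Φ x z, τ x) ≤ ENNReal.ofReal C * ∫⁻ p in (fun x => (Φ x z, τ x)) '' S, g p)

/-- The second derivative of `N`. -/
noncomputable def Hs (N : E → ℝ) (x : E) : E →L[ℝ] E →L[ℝ] ℝ := fderiv ℝ (fderiv ℝ N) x

/-- the standard basis of `ℝ × ℝ`. -/
def ev (j : Fin 2) : ℝ × ℝ := if j = 0 then (1, 0) else (0, 1)

/-- The derivative in `x` of `(Φ(x,z), τ x)`. -/
noncomputable def DF (N : E → ℝ) (τ : E →L[ℝ] ℝ × ℝ) (x z : E) : E →L[ℝ] ℂ × (ℝ × ℝ) :=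
  (fderiv ℝ (fun x => Phi N x z) x).prod τ

/-- `h_j(x,z)`: the tangent vector of the curves along which `Φ` and `τ_{1-j}` are constant. -/
noncomputable def hv (N : E → ℝ) (τ : E →L[ℝ] ℝ × ℝ) (j : Fin 2) (x z : E) : E :=
  (DF N τ x z).inverse (0, ev j)

/-- `Q_j(x,z) = D²N(x)(h_j,h_j)`. -/
noncomputable def Qf (N : E → ℝ) (τ : E →L[ℝ] ℝ × ℝ) (j : Fin 2) (x z : E) : ℝ :=
  Hs N x (hv N τ j x z) (hv N τ j x z)

/-- The local form of the estimate. -/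
def LocP (N : E → ℝ) (T : Set (E × E)) : Prop :=
  ∃ c0 : ℝ, 0 < c0 ∧ ∀ c : ℝ, 0 < c → c ≤ c0 → ∃ B : ENNReal, B ≠ ⊤ ∧ ∀ z : E, N z < 1 →
    ∫⁻ x in Reg c N z ∩ {x | (x, z) ∈ T}, ENNReal.ofReal (gg c N x z) ≤ B

end Pool.Agent.N289.CV
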