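import Pool.Agent.N289.CV.Defs
import Pool.Agent.N289.CV.Basic

/-!
Project CV, task S12: the easy cases of the local estimate (helper583).
-/

set_option autoImplicit false

namespace Pool.Agent.N289.CV

open MeasureTheory Set Filter Topology

namespace S12

theorem finrank_E : Module.finrank ℝ E = 4 := by
  rw [Module.finrank_pi_fintype]
  simp

theorem int_inv_ball (R : ℝ) :
    ∫⁻ y in Metric.ball (0 : E) R, ENNReal.ofReal (‖y‖⁻¹) ≠ ⊤ := by
  have h : IntegrableOn (fun y : E => (‖y‖)⁻¹) (Metric.ball 0 R) := by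
    rw [integrableOn_fun_norm_addHaar (μ := (volume : Measure E)) (f := fun t => t⁻¹), finrank_E]
    have h1 : IntegrableOn (fun y : ℝ => y ^ 2) (Ioo 0 R) :=
      ((continuous_pow 2).continuousOn.integrableOn_Icc).mono_set Ioo_subset_Icc_self
    refine h1.congr_fun (fun y hy => ?_) measurableSet_Ioo
    have hy0 : y ≠ 0 := hy.1.ne'
    simp only [smul_eq_mul]
    field_simp
  exact h.lintegral_lt_top.ne

theorem lint_shift (R K : ℝ) (hK : 0 ≤ K) {S : Set E} (hS : ∀ x ∈ S, ‖x‖ ≤ R) {z : E}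
    (hz : ‖z‖ ≤ R) :
    ∫⁻ x in S, ENNReal.ofReal (K * ‖x - z‖⁻¹) ≤
      ENNReal.ofReal K * ∫⁻ y in Metric.ball (0 : E) (2 * R + 1), ENNReal.ofReal (‖y‖⁻¹) := by
  have hSb : S ⊆ {x : E | x - z ∈ Metric.ball (0 : E) (2 * R + 1)} := by
    intro x hx
    simp only [Metric.mem_ball, dist_zero_right, mem_ofPred_eq]
    have := norm_sub_le x z
    have := hS x hx
    linarith
  have hm : MeasurableSet {x : E | x - z ∈ Metric.ball (0 : E) (2 * R + 1)} :=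
    (Metric.isOpen_ball.preimage (continuous_id.sub continuous_const)).measurableSet
  calc ∫⁻ x in S, ENNReal.ofReal (K * ‖x - z‖⁻¹)
      ≤ ∫⁻ x in {x : E | x - z ∈ Metric.ball (0 : E) (2 * R + 1)},
          ENNReal.ofReal (K * ‖x - z‖⁻¹) := lintegral_mono_set hSb
    _ = ∫⁻ x, (Metric.ball (0 : E) (2 * R + 1)).indicator
          (fun y => ENNReal.ofReal (K * ‖y‖⁻¹)) (x - z) := by
        rw [← lintegral_indicator hm]
        rfl
    _ = ∫⁻ y, (Metric.ball (0 : E) (2 * R + 1)).indicator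
          (fun y => ENNReal.ofReal (K * ‖y‖⁻¹)) y :=
        lintegral_sub_right_eq_self _ z
    _ = ∫⁻ y in Metric.ball (0 : E) (2 * R + 1), ENNReal.ofReal (K * ‖y‖⁻¹) :=
        lintegral_indicator Metric.isOpen_ball.measurableSet _
    _ = ENNReal.ofReal K * ∫⁻ y in Metric.ball (0 : E) (2 * R + 1), ENNReal.ofReal (‖y‖⁻¹) := by
        simp_rw [ENNReal.ofReal_mul hK]
        rw [lintegral_const_mul _ (by fun_prop)]

/-! ### Continuity of the derivative of `Φ` in the first variable -/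

theorem Phi_contDiffAt {N : E → ℝ} (hN : Good N) {p : E × E} (hp : p.1 ≠ 0) :
    ContDiffAt ℝ ((⊤ : ℕ∞) : WithTop ℕ∞) (Function.uncurry (Phi N)) p :=
  (Phi_contDiffOn hN).contDiffAt (isOpen_fst_ne.mem_nhds hp)

theorem Phi_continuousAt {N : E → ℝ} (hN : Good N) {p : E × E} (hp : p.1 ≠ 0) :
    ContinuousAt (fun p : E × E => Phi N p.1 p.2) p :=
  (Phi_contDiffAt hN hp).continuousAt

theorem DPhi_eq {N : E → ℝ} (hN : Good N) {x : E} (hx : x ≠ 0) (z : E) :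
    fderiv ℝ (fun x => Phi N x z) x =
      (fderiv ℝ (Function.uncurry (Phi N)) (x, z)).comp (ContinuousLinearMap.inl ℝ E E) := by
  have h1 : HasFDerivAt (Function.uncurry (Phi N)) (fderiv ℝ (Function.uncurry (Phi N)) (x, z))
      (x, z) := ((Phi_contDiffAt hN (p := (x, z)) hx).differentiableAt (by simp)).hasFDerivAt
  have h2 : HasFDerivAt (fun e : E => (e, z)) (ContinuousLinearMap.inl ℝ E E) x :=
    hasFDerivAt_prodMk_left x z
  exact (HasFDerivAt.comp (g := Function.uncurry (Phi N)) x h1 h2).fderiv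

theorem DPhi_continuousOn {N : E → ℝ} (hN : Good N) :
    ContinuousOn (fun p : E × E => fderiv ℝ (fun x => Phi N x p.2) p.1) {p | p.1 ≠ 0} := by
  have h1 : ContinuousOn (fderiv ℝ (Function.uncurry (Phi N))) {p : E × E | p.1 ≠ 0} :=
    (Phi_contDiffOn hN).continuousOn_fderiv_of_isOpen isOpen_fst_ne (by simp)
  have h2 : ContinuousOn (fun p : E × E => (fderiv ℝ (Function.uncurry (Phi N)) p).comp
      (ContinuousLinearMap.inl ℝ E E)) {p : E × E | p.1 ≠ 0} :=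
    h1.clm_comp continuousOn_const
  refine h2.congr fun p hp => ?_
  exact DPhi_eq hN hp p.2

theorem DPhi_continuousAt {N : E → ℝ} (hN : Good N) {p : E × E} (hp : p.1 ≠ 0) :
    ContinuousAt (fun p : E × E => fderiv ℝ (fun x => Phi N x p.2) p.1) p :=
  (DPhi_continuousOn hN).continuousAt (isOpen_fst_ne.mem_nhds hp)

theorem dPhi_continuousAt {N : E → ℝ} (hN : Good N) {p : E × E} (hp : p.1 ≠ 0) :
    ContinuousAt (fun p : E × E => dPhi N p.1 p.2) p := by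
  have h1 := DPhi_continuousAt hN hp
  have h2 : ∀ h : E, ContinuousAt (fun p : E × E => fderiv ℝ (fun x => Phi N x p.2) p.1 h) p :=
    fun h => h1.clm_apply continuousAt_const
  have h3 : ∀ j : Fin 2, ContinuousAt (fun p : E × E => dbar j (fun x => Phi N x p.2) p.1) p := by
    intro j
    unfold dbar
    exact continuousAt_const.mul ((h2 _).add (continuousAt_const.mul (h2 _)))
  unfold dPhi
  exact (h3 0).norm.add (h3 1).norm

end S12

open S12 in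
/-- local estimate, easy cases -/
theorem local_easy {N : E → ℝ} (hN : Good N) {x0 z0 : E} (hx : 1 / 4 ≤ N x0) (hx' : N x0 ≤ 1)
    (hz : N z0 ≤ 1) (h : N x0 < 1 ∨ Phi N x0 z0 ≠ 0) : ∃ T ∈ 𝓝 (x0, z0), LocP N T := by
  have hx0 : x0 ≠ 0 := hN.ne_zero (by linarith)
  obtain ⟨D, hD0, hD⟩ : ∃ D : ℝ, 0 ≤ D ∧ ∀ᶠ p : E × E in 𝓝 (x0, z0), dPhi N p.1 p.2 ≤ D := by
    refine ⟨dPhi N x0 z0 + 1, ?_, ?_⟩
    · unfold dPhi
      positivity
    · have := (dPhi_continuousAt hN (p := (x0, z0)) hx0).eventually_lt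
        (continuousAt_const (y := dPhi N x0 z0 + 1)) (lt_add_one _)
      filter_upwards [this] with p hp using hp.le
  set R : ℝ := ‖x0‖ + ‖z0‖ + 1 with hR
  have hRx : ∀ᶠ p : E × E in 𝓝 (x0, z0), ‖p.1‖ ≤ R := by
    have h1 : ContinuousAt (fun p : E × E => ‖p.1‖) (x0, z0) := by fun_prop
    have h2 := h1.eventually_lt (continuousAt_const (y := R)) (by
      simp only [hR]
      linarith [norm_nonneg z0])
    filter_upwards [h2] with p hp using hp.le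
  have hRz : ∀ᶠ p : E × E in 𝓝 (x0, z0), ‖p.2‖ ≤ R := by
    have h1 : ContinuousAt (fun p : E × E => ‖p.2‖) (x0, z0) := by fun_prop
    have h2 := h1.eventually_lt (continuousAt_const (y := R)) (by
      simp only [hR]
      linarith [norm_nonneg x0])
    filter_upwards [h2] with p hp using hp.le
  obtain ⟨δ, hδ0, hδ⟩ : ∃ δ : ℝ, 0 < δ ∧ ∀ᶠ p : E × E in 𝓝 (x0, z0),
      N p.1 ≤ 1 - δ ∨ δ ≤ ‖Phi N p.1 p.2‖ := by
    rcases h with h | h
    · refine ⟨(1 - N x0) / 2, by linarith, ?_⟩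
      have h1 : ContinuousAt (fun p : E × E => N p.1) (x0, z0) :=
        (hN.cont.comp continuous_fst).continuousAt
      have h2 := h1.eventually_lt (continuousAt_const (y := 1 - (1 - N x0) / 2)) (by
        simp only
        linarith)
      filter_upwards [h2] with p hp using Or.inl hp.le
    · refine ⟨‖Phi N x0 z0‖ / 2, by positivity, ?_⟩
      have h1 : ContinuousAt (fun p : E × E => ‖Phi N p.1 p.2‖) (x0, z0) :=
        (Phi_continuousAt hN (p := (x0, z0)) hx0).norm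
      have h2 := (continuousAt_const (y := ‖Phi N x0 z0‖ / 2)).eventually_lt h1 (by
        simp only
        have : 0 < ‖Phi N x0 z0‖ := norm_pos_iff.2 h
        linarith)
      filter_upwards [h2] with p hp using Or.inr hp.le
  refine ⟨{p | dPhi N p.1 p.2 ≤ D ∧ ‖p.1‖ ≤ R ∧ ‖p.2‖ ≤ R ∧
    (N p.1 ≤ 1 - δ ∨ δ ≤ ‖Phi N p.1 p.2‖)}, ?_, ?_⟩
  · filter_upwards [hD, hRx, hRz, hδ] with p h1 h2 h3 h4 using ⟨h1, h2, h3, h4⟩
  refine ⟨1, one_pos, fun c hc _ => ?_⟩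
  obtain ⟨η, hη0, hη⟩ : ∃ η : ℝ, 0 < η ∧ ∀ x z : E, x ∈ Reg c N z →
      (N x ≤ 1 - δ ∨ δ ≤ ‖Phi N x z‖) →
      η ≤ ‖Phi N x z‖ ∧ (‖Phi N x z‖ ≤ c * (1 - N x) → η ≤ 1 - N x) := by
    refine ⟨min (min δ (c * δ / 2)) (δ / c), by positivity, ?_⟩
    rintro x z ⟨h1, h2, h3⟩ (h4 | h4)
    · refine ⟨?_, fun _ => ?_⟩
      · have h5 : c * δ ≤ c * (1 - N x) := mul_le_mul_of_nonneg_left (by linarith) hc.le
        calc _ ≤ c * δ / 2 := (min_le_left _ _).trans (min_le_right _ _)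
          _ ≤ _ := by linarith
      · calc _ ≤ δ := (min_le_left _ _).trans (min_le_left _ _)
          _ ≤ _ := by linarith
    · refine ⟨((min_le_left _ _).trans (min_le_left _ _)).trans h4, fun h5 => ?_⟩
      calc _ ≤ δ / c := min_le_right _ _
        _ ≤ _ := by
          rw [div_le_iff₀ hc]
          linarith
  set K : ℝ := η⁻¹ + D * η⁻¹ ^ 2 + η⁻¹ ^ 2 with hK
  have hK0 : 0 ≤ K := by positivity
  refine ⟨ENNReal.ofReal K * ∫⁻ y in Metric.ball (0 : E) (2 * R + 1), ENNReal.ofReal (‖y‖⁻¹),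
    ENNReal.mul_ne_top ENNReal.ofReal_ne_top (int_inv_ball _), fun z _ => ?_⟩
  set S : Set E := Reg c N z ∩ {x | (x, z) ∈ {p : E × E | dPhi N p.1 p.2 ≤ D ∧ ‖p.1‖ ≤ R ∧
    ‖p.2‖ ≤ R ∧ (N p.1 ≤ 1 - δ ∨ δ ≤ ‖Phi N p.1 p.2‖)}} with hS
  rcases S.eq_empty_or_nonempty with hSe | ⟨x1, hx1⟩
  · rw [hSe]
    simp
  have hzR : ‖z‖ ≤ R := hx1.2.2.2.1
  have hSR : ∀ x ∈ S, ‖x‖ ≤ R := fun x hx => hx.2.2.1
  refine le_trans ?_ (lint_shift R K hK0 hSR hzR)
  refine setLIntegral_mono (by fun_prop) fun x hx => ENNReal.ofReal_le_ofReal ?_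
  obtain ⟨hreg, hxD, hxR, -, hxδ⟩ := hx
  obtain ⟨e1, e2⟩ := hη x z hreg hxδ
  have hinv : ‖Phi N x z‖⁻¹ ≤ η⁻¹ := inv_anti₀ hη0 e1
  have hinv0 : 0 ≤ ‖Phi N x z‖⁻¹ := by positivity
  have hn0 : 0 ≤ ‖x - z‖⁻¹ := by positivity
  have t1 : ‖Phi N x z‖⁻¹ * ‖x - z‖⁻¹ ≤ η⁻¹ * ‖x - z‖⁻¹ :=
    mul_le_mul_of_nonneg_right hinv hn0
  have hsq : (‖Phi N x z‖⁻¹) ^ 2 ≤ η⁻¹ ^ 2 := pow_le_pow_left₀ hinv0 hinv 2
  have t2 : dPhi N x z * (‖Phi N x z‖⁻¹) ^ 2 * ‖x - z‖⁻¹ ≤ D * η⁻¹ ^ 2 * ‖x - z‖⁻¹ :=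
    mul_le_mul_of_nonneg_right (mul_le_mul hxD hsq (by positivity) hD0) hn0
  have t3 : ({p : E | ‖Phi N p z‖ ≤ c * (1 - N p)}.indicator
      (fun p => ((1 - N p)⁻¹) ^ 2 * ‖p - z‖⁻¹) x) ≤ η⁻¹ ^ 2 * ‖x - z‖⁻¹ := by
    by_cases hp : x ∈ {p : E | ‖Phi N p z‖ ≤ c * (1 - N p)}
    · rw [indicator_of_mem hp]
      have e3 := e2 hp
      have e4 : (1 - N x)⁻¹ ≤ η⁻¹ := inv_anti₀ hη0 e3
      have e5 : 0 ≤ (1 - N x)⁻¹ := inv_nonneg.2 (hη0.le.trans e3)
      exact mul_le_mul_of_nonneg_right (pow_le_pow_left₀ e5 e4 2) hn0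
    · rw [indicator_of_notMem hp]
      positivity
  unfold gg
  calc _ ≤ η⁻¹ * ‖x - z‖⁻¹ + D * η⁻¹ ^ 2 * ‖x - z‖⁻¹ + η⁻¹ ^ 2 * ‖x - z‖⁻¹ := by
        exact add_le_add (add_le_add t1 t2) t3
    _ = K * ‖x - z‖⁻¹ := by rw [hK]; ring

end Pool.Agent.N289.CV
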