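import Pool.Agent.N289.CV.Defs

set_option autoImplicit false

namespace Pool.Agent.N289.CV

open MeasureTheory Set Filter Topology

namespace S9

/-- Cauchy-Schwarz for a positive semidefinite form. -/
theorem cs (H : E →L[ℝ] E →L[ℝ] ℝ) (hs : ∀ a b, H a b = H b a) (hp : ∀ a, 0 ≤ H a a) (a b : E) :
    |H a b| ≤ Real.sqrt (H a a) * Real.sqrt (H b b) := by
  have h1 : ∀ t : ℝ, 0 ≤ H b b * (t * t) + 2 * H a b * t + H a a := by
    intro t
    have := hp (a + t • b)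
    have e : H (a + t • b) (a + t • b) = H b b * (t * t) + 2 * H a b * t + H a a := by
      simp only [map_add, map_smul, add_apply, smul_apply,
        smul_eq_mul]
      rw [hs b a]
      ring
    rwa [e] at this
  have h2 := discrim_le_zero h1
  rw [discrim] at h2
  have h3 : (H a b) ^ 2 ≤ H a a * H b b := by nlinarith
  rw [← Real.sqrt_mul (hp a)]
  exact Real.abs_le_sqrt h3

/-- `D h = w·h + 1/2 (H(h,v) - i H(h,iv))`. -/
noncomputable def D (H : E →L[ℝ] E →L[ℝ] ℝ) (w v : E) : E →ₗ[ℝ] ℂ where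
  toFun h := (w 0 * h 0 + w 1 * h 1) +
          (1/2 : ℂ) * ((H h v : ℝ) - Complex.I * (H h (Complex.I • v) : ℝ))
  map_add' := by
    intro x y
    simp only [Pi.add_apply, map_add, add_apply, Complex.ofReal_add]
    ring
  map_smul' := by
    intro c x
    simp only [Pi.smul_apply, map_smul, smul_apply, smul_eq_mul,
      Complex.ofReal_mul, Complex.real_smul, RingHom.id_apply]
    ring

theorem D_apply (H : E →L[ℝ] E →L[ℝ] ℝ) (w v h : E) : D H w v h = (w 0 * h 0 + w 1 * h 1) +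
          (1/2 : ℂ) * ((H h v : ℝ) - Complex.I * (H h (Complex.I • v) : ℝ)) := rfl

/-- The vector `n` with `w·n = 1`. -/
theorem exists_n (w : E) {c0 : ℝ} (hc0 : 0 < c0) (hw : c0 ≤ ‖w‖) :
    ∃ n : E, w 0 * n 0 + w 1 * n 1 = 1 ∧ ‖n‖ ≤ c0⁻¹ := by
  have hwp : 0 < ‖w‖ := hc0.trans_le hw
  obtain ⟨i, hi⟩ : ∃ i : Fin 2, ‖w i‖ = ‖w‖ := by
    by_contra hne
    push Not at hne
    have h1 : ∀ i, ‖w i‖ < ‖w‖ := fun i => lt_of_le_of_ne (norm_le_pi_norm w i) (hne i)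
    have := (pi_norm_lt_iff hwp).2 h1
    exact lt_irrefl _ this
  have hwi : w i ≠ 0 := by
    rw [← norm_pos_iff, hi]; exact hwp
  refine ⟨Pi.single i (w i)⁻¹, ?_, ?_⟩
  · fin_cases i
    · simp at hwi ⊢
      exact mul_inv_cancel₀ hwi
    · simp at hwi ⊢
      exact mul_inv_cancel₀ hwi
  · rw [Pi.norm_single, norm_inv, hi]
    exact inv_anti₀ hc0 hw

/-- main inequality for `u = v` or `u = iv` -/
theorem main (C0 c0 R : ℝ) (hC0 : 0 < C0) (hc0 : 0 < c0) (hR : 0 < R)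
    (H : E →L[ℝ] E →L[ℝ] ℝ) (w : E) (v : E) (q : ℝ)
    (hs : ∀ a b, H a b = H b a) (hp : ∀ a, 0 ≤ H a a) (hH : ‖H‖ ≤ C0) (hw : ‖w‖ ≤ C0)
    (hw0 : c0 ≤ ‖w‖) (hv : ‖v‖ ≤ R) (hq : 0 ≤ q)
    (hK : ∀ h : E, D H w v h = 0 → H h h ≤ q * ‖h‖ ^ 2) (u : E) (hu : ‖u‖ = ‖v‖)
    (hwu : ‖w 0 * u 0 + w 1 * u 1‖ = ‖w 0 * v 0 + w 1 * v 1‖) (h : E) :
    |H h u| ≤ (2 * C0 * Real.sqrt C0 * R / c0 + 2 * Real.sqrt C0 * (1 + 2 * C0 / c0) + C0 / c0 +
      2 * C0 * Real.sqrt C0 * (1 + 2 * C0 / c0) * R / c0) * ‖h‖ *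
      (Real.sqrt q * ‖v‖ + ‖w 0 * v 0 + w 1 * v 1‖) := by
  set ε := Real.sqrt q with hε
  set S := Real.sqrt C0 with hS
  set ω := ‖w 0 * v 0 + w 1 * v 1‖ with hω
  set C2 := 1 + 2 * C0 / c0 with hC2
  have hε0 : 0 ≤ ε := Real.sqrt_nonneg _
  have hS0 : 0 ≤ S := Real.sqrt_nonneg _
  have hω0 : 0 ≤ ω := norm_nonneg _
  have hC20 : 0 < C2 := by positivity
  have hv0 := norm_nonneg v
  have hh0 := norm_nonneg h
  have hb : ∀ a b : E, |H a b| ≤ C0 * ‖a‖ * ‖b‖ := by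
    intro a b
    have := H.le_opNorm₂ a b
    rw [Real.norm_eq_abs] at this
    refine this.trans ?_
    gcongr
  have hsq : ∀ a : E, Real.sqrt (H a a) ≤ S * ‖a‖ := by
    intro a
    rw [hS, ← Real.sqrt_sq (norm_nonneg a), ← Real.sqrt_mul hC0.le]
    apply Real.sqrt_le_sqrt
    have := hb a a
    rw [abs_of_nonneg (hp a)] at this
    calc H a a ≤ C0 * ‖a‖ * ‖a‖ := this
      _ = C0 * ‖a‖ ^ 2 := by ring
  have hsqK : ∀ a : E, D H w v a = 0 → Real.sqrt (H a a) ≤ ε * ‖a‖ := by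
    intro a ha
    rw [hε, ← Real.sqrt_sq (norm_nonneg a), ← Real.sqrt_mul hq]
    apply Real.sqrt_le_sqrt
    exact hK a ha
  have hIv : ‖Complex.I • v‖ = ‖v‖ := by rw [norm_smul, Complex.norm_I, one_mul]
  -- (1)
  have h1 : ∀ a : E, D H w v a = 0 → ‖w 0 * a 0 + w 1 * a 1‖ ≤ ε * S * ‖v‖ * ‖a‖ := by
    intro a ha
    have e : w 0 * a 0 + w 1 * a 1 =
        -((1/2 : ℂ) * ((H a v : ℝ) - Complex.I * (H a (Complex.I • v) : ℝ))) := by
      rw [D_apply] at ha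
      exact eq_neg_of_add_eq_zero_left ha
    rw [e, norm_neg, norm_mul]
    have e1 : ‖(1/2 : ℂ)‖ = 1/2 := by simp
    rw [e1]
    have b1 : |H a v| ≤ ε * ‖a‖ * (S * ‖v‖) :=
      (cs H hs hp a v).trans (mul_le_mul (hsqK a ha) (hsq v) (Real.sqrt_nonneg _) (by positivity))
    have b2 : |H a (Complex.I • v)| ≤ ε * ‖a‖ * (S * ‖v‖) := by
      refine (cs H hs hp a _).trans (mul_le_mul (hsqK a ha) ?_ (Real.sqrt_nonneg _) (by positivity))
      rw [← hIv]; exact hsq _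
    have b3 : ‖((H a v : ℝ) : ℂ) - Complex.I * (H a (Complex.I • v) : ℝ)‖ ≤
        |H a v| + |H a (Complex.I • v)| := by
      refine (norm_sub_le _ _).trans ?_
      rw [norm_mul, Complex.norm_I, one_mul, Complex.norm_real, Complex.norm_real,
        Real.norm_eq_abs, Real.norm_eq_abs]
    calc 1/2 * ‖((H a v : ℝ) : ℂ) - Complex.I * (H a (Complex.I • v) : ℝ)‖
        ≤ 1/2 * (|H a v| + |H a (Complex.I • v)|) := by gcongr
      _ ≤ 1/2 * (ε * ‖a‖ * (S * ‖v‖) + ε * ‖a‖ * (S * ‖v‖)) := by gcongr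
      _ = ε * S * ‖v‖ * ‖a‖ := by ring
  obtain ⟨n, hn1, hn2⟩ := exists_n w hc0 hw0
  -- trivial bound
  have hω2 : ω ≤ 2 * C0 * ‖v‖ := by
    rw [hω]
    refine (norm_add_le _ _).trans ?_
    rw [norm_mul, norm_mul]
    have a1 : ‖w 0‖ ≤ C0 := (norm_le_pi_norm w 0).trans hw
    have a2 : ‖w 1‖ ≤ C0 := (norm_le_pi_norm w 1).trans hw
    have a3 := norm_le_pi_norm v 0
    have a4 := norm_le_pi_norm v 1
    calc ‖w 0‖ * ‖v 0‖ + ‖w 1‖ * ‖v 1‖ ≤ C0 * ‖v‖ + C0 * ‖v‖ := by gcongr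
      _ = 2 * C0 * ‖v‖ := by ring
  have hpos1 : 0 ≤ 2 * C0 * S * R / c0 := by positivity
  have hpos2 : 0 ≤ 2 * S * C2 := by positivity
  have hpos3 : 0 ≤ C0 / c0 := by positivity
  have hpos4 : 0 ≤ 2 * C0 * S * C2 * R / c0 := by positivity
  by_cases hA : 1 / 2 ≤ ε * S * ‖v‖ / c0
  · -- large q
    have e1 : 1 ≤ 2 * (ε * S * R / c0) := by
      have : ε * S * ‖v‖ / c0 ≤ ε * S * R / c0 := by gcongr
      linarith
    calc |H h u| ≤ C0 * ‖h‖ * ‖u‖ := hb h u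
      _ = C0 * ‖h‖ * ‖v‖ * 1 := by rw [hu, mul_one]
      _ ≤ C0 * ‖h‖ * ‖v‖ * (2 * (ε * S * R / c0)) := by gcongr
      _ = (2 * C0 * S * R / c0) * ‖h‖ * (ε * ‖v‖) := by ring
      _ ≤ (2 * C0 * S * R / c0 + 2 * S * C2 + C0 / c0 + 2 * C0 * S * C2 * R / c0) * ‖h‖ *
          (ε * ‖v‖ + ω) := by
        gcongr
        · linarith
        · linarith
  · push Not at hA
    -- find `k`
    let G : ℂ →ₗ[ℝ] ℂ := (D H w v) ∘ₗ (LinearMap.toSpanSingleton ℂ E n).restrictScalars ℝ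
    have hG : ∀ z : ℂ, G z = D H w v (z • n) := fun z => rfl
    have hwz : ∀ z : ℂ, w 0 * (z • n) 0 + w 1 * (z • n) 1 = z := by
      intro z
      simp only [Pi.smul_apply, smul_eq_mul]
      linear_combination z * hn1
    have hinj : Function.Injective G := by
      rw [← LinearMap.ker_eq_bot, LinearMap.ker_eq_bot']
      intro z hz
      by_contra hz0
      have h2 := h1 (z • n) (by rw [← hG]; exact hz)
      rw [hwz, norm_smul] at h2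
      have hzp : 0 < ‖z‖ := norm_pos_iff.2 hz0
      have h3 : ε * S * ‖v‖ * (‖z‖ * ‖n‖) ≤ (ε * S * ‖v‖ / c0) * ‖z‖ := by
        calc ε * S * ‖v‖ * (‖z‖ * ‖n‖) ≤ ε * S * ‖v‖ * (‖z‖ * c0⁻¹) := by gcongr
          _ = (ε * S * ‖v‖ / c0) * ‖z‖ := by rw [div_eq_mul_inv]; ring
      nlinarith
    obtain ⟨z, hz⟩ := (LinearMap.injective_iff_surjective.1 hinj) (-(D H w v u))
    set k := u + z • n with hk
    have hDk : D H w v k = 0 := by
      rw [hk, map_add, ← hG, hz]; ring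
    have hzb : ‖z‖ ≤ ω + ε * S * ‖v‖ * ‖k‖ := by
      have e : z = (w 0 * k 0 + w 1 * k 1) - (w 0 * u 0 + w 1 * u 1) := by
        have := hwz z
        rw [hk]
        simp only [Pi.add_apply]
        linear_combination -this
      rw [e]
      refine (norm_sub_le _ _).trans ?_
      rw [hwu]
      linarith [h1 k hDk]
    have hzn : ‖z • n‖ ≤ ‖z‖ / c0 := by
      rw [norm_smul, div_eq_mul_inv]
      gcongr
    have hzn2 : ‖z • n‖ ≤ ω / c0 + ε * S * ‖v‖ / c0 * ‖k‖ := by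
      refine hzn.trans ?_
      calc ‖z‖ / c0 ≤ (ω + ε * S * ‖v‖ * ‖k‖) / c0 := by gcongr
        _ = ω / c0 + ε * S * ‖v‖ / c0 * ‖k‖ := by ring
    have hkb : ‖k‖ ≤ 2 * C2 * ‖v‖ := by
      have h2 : ‖k‖ ≤ ‖v‖ + ‖z • n‖ := by
        rw [hk, ← hu]; exact norm_add_le _ _
      have h3 : ε * S * ‖v‖ / c0 * ‖k‖ ≤ 1 / 2 * ‖k‖ := by
        gcongr
      have h4 : ω / c0 ≤ 2 * C0 * ‖v‖ / c0 := by gcongr
      have h5 : 2 * C2 * ‖v‖ = 2 * (‖v‖ + 2 * C0 * ‖v‖ / c0) := by rw [hC2]; ring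
      rw [h5]
      linarith
    have hzn3 : ‖z • n‖ ≤ ω / c0 + ε * ‖v‖ * (2 * S * C2 * R / c0) := by
      refine hzn2.trans ?_
      have : ε * S * ‖v‖ / c0 * ‖k‖ ≤ ε * S * ‖v‖ / c0 * (2 * C2 * R) := by
        gcongr
        exact hkb.trans (by gcongr)
      calc ω / c0 + ε * S * ‖v‖ / c0 * ‖k‖ ≤ ω / c0 + ε * S * ‖v‖ / c0 * (2 * C2 * R) := by gcongr
        _ = _ := by ring
    have hHu : |H h u| ≤ |H h k| + |H h (z • n)| := by
      have e : H h u = H h k - H h (z • n) := by rw [hk, map_add]; ring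
      rw [e]; exact abs_sub _ _
    have b1 : |H h k| ≤ S * ‖h‖ * (ε * (2 * C2 * ‖v‖)) := by
      refine (cs H hs hp h k).trans ?_
      refine mul_le_mul (hsq h) ((hsqK k hDk).trans ?_) (Real.sqrt_nonneg _) (by positivity)
      gcongr
    have b2 : |H h (z • n)| ≤ C0 * ‖h‖ * (ω / c0 + ε * ‖v‖ * (2 * S * C2 * R / c0)) := by
      refine (hb h _).trans ?_
      gcongr
    calc |H h u| ≤ |H h k| + |H h (z • n)| := hHu
      _ ≤ S * ‖h‖ * (ε * (2 * C2 * ‖v‖)) +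
          C0 * ‖h‖ * (ω / c0 + ε * ‖v‖ * (2 * S * C2 * R / c0)) := by gcongr
      _ = ‖h‖ * ((2 * S * C2 + 2 * C0 * S * C2 * R / c0) * (ε * ‖v‖) + (C0 / c0) * ω) := by ring
      _ ≤ ‖h‖ * ((2 * C0 * S * R / c0 + 2 * S * C2 + C0 / c0 + 2 * C0 * S * C2 * R / c0) * (ε * ‖v‖)
          + (2 * C0 * S * R / c0 + 2 * S * C2 + C0 / c0 + 2 * C0 * S * C2 * R / c0) * ω) := by
        gcongr
        · linarith
        · linarith
      _ = _ := by ring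

end S9

/-! C5: linear algebra -/
theorem KB (C0 c0 R : ℝ) (hC0 : 0 < C0) (hc0 : 0 < c0) (hR : 0 < R) : ∃ C : ℝ, 0 ≤ C ∧
    ∀ (H : E →L[ℝ] E →L[ℝ] ℝ) (w : E) (v : E) (q : ℝ),
      (∀ a b, H a b = H b a) → (∀ a, 0 ≤ H a a) → ‖H‖ ≤ C0 → ‖w‖ ≤ C0 → c0 ≤ ‖w‖ → ‖v‖ ≤ R → 0 ≤ q →
      (∀ h : E, (w 0 * h 0 + w 1 * h 1) +
          (1/2 : ℂ) * ((H h v : ℝ) - Complex.I * (H h (Complex.I • v) : ℝ)) = 0 → H h h ≤ q * ‖h‖ ^ 2) →
      ∀ h : E, |H h v| ≤ C * ‖h‖ * (Real.sqrt q * ‖v‖ + ‖w 0 * v 0 + w 1 * v 1‖) ∧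
        |H h (Complex.I • v)| ≤ C * ‖h‖ * (Real.sqrt q * ‖v‖ + ‖w 0 * v 0 + w 1 * v 1‖) := by
  refine ⟨2 * C0 * Real.sqrt C0 * R / c0 + 2 * Real.sqrt C0 * (1 + 2 * C0 / c0) + C0 / c0 +
      2 * C0 * Real.sqrt C0 * (1 + 2 * C0 / c0) * R / c0, by positivity,
      fun H w v q hs hp hH hw hw0 hv hq hK h => ⟨?_, ?_⟩⟩
  · exact S9.main C0 c0 R hC0 hc0 hR H w v q hs hp hH hw hw0 hv hq hK v rfl rfl h
  · apply S9.main C0 c0 R hC0 hc0 hR H w v q hs hp hH hw hw0 hv hq hK _ _ _ h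
    · rw [norm_smul, Complex.norm_I, one_mul]
    · have : w 0 * (Complex.I • v) 0 + w 1 * (Complex.I • v) 1 =
          Complex.I * (w 0 * v 0 + w 1 * v 1) := by
        simp only [Pi.smul_apply, smul_eq_mul]; ring
      rw [this, norm_mul, Complex.norm_I, one_mul]

end Pool.Agent.N289.CV
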