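import Pool.Agent.N289.CV.Defs
import Pool.Agent.N289.CV.Basic
import Pool.Agent.N289.CV.S9
import Pool.Agent.N289.CV.S12

/-!
Project CV, task S10: `Qf_cont` and `dPhi_le` (helper583).
-/

set_option autoImplicit false

namespace Pool.Agent.N289.CV

open MeasureTheory Set Filter Topology

namespace S10

theorem hasFDerivAt_F {N : E → ℝ} (hN : Good N) (τ : E →L[ℝ] ℝ × ℝ) {x : E} (hx : x ≠ 0) (z : E) :
    HasFDerivAt (fun y => (Phi N y z, τ y)) (DF N τ x z) x := by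
  have h1 : HasFDerivAt (Function.uncurry (Phi N)) (fderiv ℝ (Function.uncurry (Phi N)) (x, z))
      (x, z) := ((S12.Phi_contDiffAt hN (p := (x, z)) hx).differentiableAt (by simp)).hasFDerivAt
  have h2 : HasFDerivAt (fun e : E => (e, z)) (ContinuousLinearMap.inl ℝ E E) x :=
    hasFDerivAt_prodMk_left x z
  have h3 := HasFDerivAt.comp (g := Function.uncurry (Phi N)) x h1 h2
  have h4 : HasFDerivAt (fun y => Phi N y z) (fderiv ℝ (fun y => Phi N y z) x) x :=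
    h3.differentiableAt.hasFDerivAt
  exact h4.prodMk τ.hasFDerivAt

theorem chart_lower {N : E → ℝ} (hN : Good N) {τ : E →L[ℝ] ℝ × ℝ} {U V : Set E} {C : ℝ}
    (hch : IsChart (Phi N) τ U V C) {x : E} (hxU : x ∈ U) (hx : x ≠ 0) {z : E} (hz : z ∈ V)
    (h : E) : ‖h‖ ≤ C * ‖DF N τ x z h‖ := by
  obtain ⟨hU, hV, hC, -, hlip, -⟩ := hch
  set F : E → ℂ × (ℝ × ℝ) := fun y => (Phi N y z, τ y) with hF
  have h1 : HasFDerivAt F (DF N τ x z) x := hasFDerivAt_F hN τ hx z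
  have h2 : HasDerivAt (fun t : ℝ => F (x + t • h)) (DF N τ x z h) 0 := by
    have h3 : HasDerivAt (fun t : ℝ => x + t • h) h 0 := by
      simpa using ((hasDerivAt_id (0 : ℝ)).smul_const h).const_add x
    have h4 : HasFDerivAt F (DF N τ x z) (x + (0 : ℝ) • h) := by simpa using h1
    exact h4.comp_hasDerivAt (0 : ℝ) h3
  rw [hasDerivAt_iff_tendsto_slope] at h2
  have h5 : Tendsto (fun t : ℝ => C * ‖slope (fun t : ℝ => F (x + t • h)) 0 t‖) (𝓝[≠] 0)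
      (𝓝 (C * ‖DF N τ x z h‖)) := h2.norm.const_mul C
  refine ge_of_tendsto h5 ?_
  have h6 : ∀ᶠ t : ℝ in 𝓝[≠] 0, x + t • h ∈ U := by
    have : ContinuousAt (fun t : ℝ => x + t • h) 0 := by fun_prop
    exact (this.eventually (by simpa using hU.mem_nhds hxU)).filter_mono nhdsWithin_le_nhds
  filter_upwards [h6, self_mem_nhdsWithin] with t ht ht0
  have ht0' : t ≠ 0 := ht0
  have h7 := hlip z hz (x + t • h) ht x hxU
  rw [add_sub_cancel_left, norm_smul, Real.norm_eq_abs] at h7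
  have h8 : slope (fun t : ℝ => F (x + t • h)) 0 t =
      t⁻¹ • (Phi N (x + t • h) z - Phi N x z, τ (x + t • h) - τ x) := by
    rw [slope_def_module]
    simp [hF]
  rw [h8, norm_smul, norm_inv, Real.norm_eq_abs]
  have ht : 0 < |t| := abs_pos.2 ht0'
  calc ‖h‖ = |t|⁻¹ * (|t| * ‖h‖) := by field_simp
    _ ≤ |t|⁻¹ * (C * ‖((Phi N (x + t • h) z - Phi N x z, τ (x + t • h) - τ x) : ℂ × (ℝ × ℝ))‖) :=
        mul_le_mul_of_nonneg_left h7 (by positivity)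
    _ = _ := by ring

theorem exists_equiv {L : E →L[ℝ] ℂ × (ℝ × ℝ)} {C : ℝ} (hL : ∀ h, ‖h‖ ≤ C * ‖L h‖) :
    ∃ e : E ≃L[ℝ] ℂ × (ℝ × ℝ), (e : E →L[ℝ] ℂ × (ℝ × ℝ)) = L := by
  have hinj : Function.Injective (L : E →ₗ[ℝ] ℂ × (ℝ × ℝ)) := by
    rw [← LinearMap.ker_eq_bot, LinearMap.ker_eq_bot']
    intro h hh
    have := hL h
    have h0 : L h = 0 := hh
    rw [h0, norm_zero, mul_zero] at this
    exact norm_le_zero_iff.1 this
  have hdim : Module.finrank ℝ E = Module.finrank ℝ (ℂ × (ℝ × ℝ)) := by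
    rw [S12.finrank_E]
    simp
  let e := (LinearMap.linearEquivOfInjective (L : E →ₗ[ℝ] ℂ × (ℝ × ℝ)) hinj
    hdim).toContinuousLinearEquiv
  refine ⟨e, ?_⟩
  ext1 h
  rfl

theorem DF_continuousAt {N : E → ℝ} (hN : Good N) (τ : E →L[ℝ] ℝ × ℝ) {p : E × E}
    (hp : p.1 ≠ 0) : ContinuousAt (fun p : E × E => DF N τ p.1 p.2) p := by
  have h1 := S12.DPhi_continuousAt hN hp
  have h2 : (fun p : E × E => DF N τ p.1 p.2) = fun p : E × E =>
      (ContinuousLinearMap.inl ℝ ℂ (ℝ × ℝ)).comp (fderiv ℝ (fun x => Phi N x p.2) p.1) +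
      (ContinuousLinearMap.inr ℝ ℂ (ℝ × ℝ)).comp τ := by
    funext p
    apply ContinuousLinearMap.ext
    intro h
    simp [DF]
  rw [h2]
  exact (continuousAt_const.clm_comp h1).add continuousAt_const

theorem hv_facts {N : E → ℝ} (hN : Good N) {τ : E →L[ℝ] ℝ × ℝ} {U V : Set E} {C : ℝ}
    (hch : IsChart (Phi N) τ U V C) {x : E} (hxU : x ∈ U) (hx : x ≠ 0) {z : E} (hz : z ∈ V)
    (j : Fin 2) : DF N τ x z (hv N τ j x z) = (0, ev j) ∧ ‖hv N τ j x z‖ ≤ C * ‖ev j‖ := by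
  have hL := chart_lower hN hch hxU hx hz
  obtain ⟨e, he⟩ := exists_equiv hL
  have h1 : DF N τ x z (hv N τ j x z) = (0, ev j) := by
    unfold hv
    rw [← he, ContinuousLinearMap.inverse_equiv]
    simp
  refine ⟨h1, ?_⟩
  have h2 := hL (hv N τ j x z)
  rw [h1] at h2
  refine h2.trans (le_of_eq ?_)
  congr 1
  rw [Prod.norm_def]
  simp

theorem quad_bound (H : E →L[ℝ] E →L[ℝ] ℝ) (hs : ∀ a b, H a b = H b a) (hp : ∀ a, 0 ≤ H a a)
    (u v : E) (a b : ℝ) : H (a • u + b • v) (a • u + b • v) ≤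
      (|a| * Real.sqrt (H u u) + |b| * Real.sqrt (H v v)) ^ 2 := by
  have e : H (a • u + b • v) (a • u + b • v) = a ^ 2 * H u u + 2 * (a * b * H u v) +
      b ^ 2 * H v v := by
    simp only [map_add, map_smul, add_apply, smul_apply, smul_eq_mul]
    rw [hs v u]
    ring
  have h1 : a * b * H u v ≤ |a| * |b| * (Real.sqrt (H u u) * Real.sqrt (H v v)) := by
    calc a * b * H u v ≤ |a * b * H u v| := le_abs_self _
      _ = |a| * |b| * |H u v| := by rw [abs_mul, abs_mul]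
      _ ≤ _ := mul_le_mul_of_nonneg_left (S9.cs H hs hp u v) (by positivity)
  rw [e]
  calc _ ≤ a ^ 2 * H u u + 2 * (|a| * |b| * (Real.sqrt (H u u) * Real.sqrt (H v v))) +
        b ^ 2 * H v v := by linarith
    _ = |a| ^ 2 * Real.sqrt (H u u) ^ 2 +
        2 * (|a| * |b| * (Real.sqrt (H u u) * Real.sqrt (H v v))) +
        |b| ^ 2 * Real.sqrt (H v v) ^ 2 := by
        rw [Real.sq_sqrt (hp u), Real.sq_sqrt (hp v), sq_abs, sq_abs]
    _ = _ := by ring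

/-- the vector of holomorphic derivatives -/
noncomputable def W (N : E → ℝ) (x : E) : E := ![w N 0 x, w N 1 x]

theorem W_continuousAt {N : E → ℝ} (hN : Good N) {x : E} (hx : x ≠ 0) :
    ContinuousAt (W N) x := by
  refine continuousAt_pi.2 fun j => ?_
  fin_cases j
  · exact (w_contDiffAt hN 0 hx).continuousAt
  · exact (w_contDiffAt hN 1 hx).continuousAt

theorem W_ne {N : E → ℝ} (hN : Good N) {x : E} (hx : x ≠ 0) : W N x ≠ 0 := by
  intro h0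
  have h1 : w N 0 x = 0 := congrFun h0 0
  have h2 : w N 1 x = 0 := congrFun h0 1
  have h3 := w_pair N x x
  rw [h1, h2, zero_mul, zero_mul, add_zero, hN.euler hx] at h3
  have h4 := congrArg Complex.re h3
  simp at h4
  exact (hN.pos hx).ne' h4

theorem dbar_bound {N : E → ℝ} (hN : Good N) {x : E} (hx : x ≠ 0) (z : E) {B : ℝ}
    (hB : ∀ h : E, |Hs N x h (x - z)| ≤ ‖h‖ * B ∧ |Hs N x h (Complex.I • (x - z))| ≤ ‖h‖ * B)
    (j : Fin 2) : ‖dbar j (fun x => Phi N x z) x‖ ≤ B := by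
  have key : ∀ e e' : E, ‖e‖ = 1 → ‖e'‖ = 1 →
      (w N 0 x * e 0 + w N 1 x * e 1) + Complex.I * (w N 0 x * e' 0 + w N 1 x * e' 1) = 0 →
      ‖(1 / 2 : ℂ) * (fderiv ℝ (fun x => Phi N x z) x e +
        Complex.I * fderiv ℝ (fun x => Phi N x z) x e')‖ ≤ B := by
    intro e e' he he' h0
    obtain ⟨a1, a2⟩ := hB e
    obtain ⟨a3, a4⟩ := hB e'
    rw [he, one_mul] at a1 a2
    rw [he', one_mul] at a3 a4
    rw [fderiv_Phi hN hx, fderiv_Phi hN hx]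
    set p1 : ℝ := Hs N x e (x - z)
    set p2 : ℝ := Hs N x e (Complex.I • (x - z))
    set p3 : ℝ := Hs N x e' (x - z)
    set p4 : ℝ := Hs N x e' (Complex.I • (x - z))
    have e1 : (1 / 2 : ℂ) * (((w N 0 x * e 0 + w N 1 x * e 1) +
        (1 / 2 : ℂ) * ((p1 : ℂ) - Complex.I * (p2 : ℂ))) +
        Complex.I * ((w N 0 x * e' 0 + w N 1 x * e' 1) +
        (1 / 2 : ℂ) * ((p3 : ℂ) - Complex.I * (p4 : ℂ)))) =
        (1 / 4 : ℂ) * ((p1 : ℂ) - Complex.I * (p2 : ℂ) +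
          (Complex.I * (p3 : ℂ) - Complex.I * (Complex.I * (p4 : ℂ)))) := by
      linear_combination (1 / 2 : ℂ) * h0
    rw [e1, norm_mul]
    have n1 : ‖(p1 : ℂ)‖ ≤ B := by rw [Complex.norm_real]; exact a1
    have n2 : ‖Complex.I * (p2 : ℂ)‖ ≤ B := by
      rw [norm_mul, Complex.norm_I, one_mul, Complex.norm_real]; exact a2
    have n3 : ‖Complex.I * (p3 : ℂ)‖ ≤ B := by
      rw [norm_mul, Complex.norm_I, one_mul, Complex.norm_real]; exact a3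
    have n4 : ‖Complex.I * (Complex.I * (p4 : ℂ))‖ ≤ B := by
      rw [norm_mul, norm_mul, Complex.norm_I, one_mul, one_mul, Complex.norm_real]; exact a4
    have n5 : ‖(p1 : ℂ) - Complex.I * (p2 : ℂ) +
          (Complex.I * (p3 : ℂ) - Complex.I * (Complex.I * (p4 : ℂ)))‖ ≤ 4 * B := by
      refine (norm_add_le _ _).trans ?_
      have m1 := norm_sub_le (p1 : ℂ) (Complex.I * (p2 : ℂ))
      have m2 := norm_sub_le (Complex.I * (p3 : ℂ)) (Complex.I * (Complex.I * (p4 : ℂ)))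
      linarith
    have n6 : ‖(1 / 4 : ℂ)‖ = 1 / 4 := by norm_num
    rw [n6]
    linarith
  unfold dbar
  have hn : ∀ a : ℂ, ‖a‖ = 1 → ‖(Pi.single j a : E)‖ = 1 := by
    intro a ha
    rw [Pi.norm_single, ha]
  refine key _ _ (hn _ (by simp)) (hn _ (by simp)) ?_
  fin_cases j
  · simp
    linear_combination (w N 0 x) * Complex.I_mul_I
  · simp
    linear_combination (w N 1 x) * Complex.I_mul_I

end S10

open S10 in
/-- regularity of the data of a chart -/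
theorem Qf_cont {N : E → ℝ} (hN : Good N) {τ : E →L[ℝ] ℝ × ℝ} {U V : Set E} {C : ℝ}
    (hch : IsChart (Phi N) τ U V C) (hU : ∀ x ∈ U, x ≠ 0) (j : Fin 2) :
    ContinuousOn (fun p : E × E => Qf N τ j p.1 p.2) (U ×ˢ V) ∧
    ∀ x ∈ U, ∀ z ∈ V, 0 ≤ Qf N τ j x z ∧ DF N τ x z (hv N τ j x z) = (0, ev j) ∧ ‖hv N τ j x z‖ ≤ C * ‖ev j‖ := by
  refine ⟨?_, fun x hx z hz => ⟨?_, hv_facts hN hch hx (hU x hx) hz j⟩⟩
  · rintro ⟨x, z⟩ ⟨hx, hz⟩
    apply ContinuousAt.continuousWithinAt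
    have hx0 : x ≠ 0 := hU x hx
    obtain ⟨e, he⟩ := exists_equiv (chart_lower hN hch hx hx0 hz)
    have h1 : ContinuousAt (fun p : E × E => (DF N τ p.1 p.2).inverse) (x, z) := by
      have h2 : ContinuousAt (ContinuousLinearMap.inverse : (E →L[ℝ] ℂ × (ℝ × ℝ)) → _)
          (DF N τ x z) := by
        rw [← he]
        exact (contDiffAt_map_inverse (n := 0) e).continuousAt
      exact ContinuousAt.comp (f := fun p : E × E => DF N τ p.1 p.2) (x := (x, z)) h2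
        (DF_continuousAt hN τ hx0)
    have h3 : ContinuousAt (fun p : E × E => hv N τ j p.1 p.2) (x, z) :=
      h1.clm_apply continuousAt_const
    have h4 : ContinuousAt (fun p : E × E => Hs N p.1) (x, z) := by
      have h5 : ContinuousAt (Hs N) x :=
        (Hs_contDiffOn hN).continuousOn.continuousAt (isOpen_compl_singleton.mem_nhds hx0)
      exact ContinuousAt.comp (f := fun p : E × E => p.1) (x := (x, z)) h5 continuousAt_fst
    exact (h4.clm_apply h3).clm_apply h3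
  · exact Hs_nonneg hN (hU x hx) _

open S10 in
/-- consequence for dPhi -/
theorem dPhi_le {N : E → ℝ} (hN : Good N) {x0 z0 : E} (hx : x0 ≠ 0) {τ : E →L[ℝ] ℝ × ℝ} {U V : Set E} {C : ℝ}
    (hxU : x0 ∈ U) (hzV : z0 ∈ V) (hch : IsChart (Phi N) τ U V C) :
    ∃ (U' V' : Set E) (C' : ℝ), IsOpen U' ∧ IsOpen V' ∧ x0 ∈ U' ∧ z0 ∈ V' ∧ U' ⊆ U ∧ V' ⊆ V ∧ 0 ≤ C' ∧
      ∀ x ∈ U', ∀ z ∈ V', dPhi N x z ≤
        C' * (‖x - z‖ * (Real.sqrt (Qf N τ 0 x z) + Real.sqrt (Qf N τ 1 x z)) + ‖Phi N x z‖) := by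
  set c0 : ℝ := ‖W N x0‖ / 2 with hc0
  set C0 : ℝ := ‖Hs N x0‖ + ‖W N x0‖ + 1 with hC0
  have hW0 : 0 < ‖W N x0‖ := norm_pos_iff.2 (W_ne hN hx)
  have hHc : ContinuousAt (Hs N) x0 :=
    (Hs_contDiffOn hN).continuousOn.continuousAt (isOpen_compl_singleton.mem_nhds hx)
  have hWc := W_continuousAt hN hx
  have hev : ∀ᶠ x in 𝓝 x0, x ≠ 0 ∧ x ∈ U ∧ ‖Hs N x‖ ≤ C0 ∧ ‖W N x‖ ≤ C0 ∧ c0 ≤ ‖W N x‖ ∧
      ‖x‖ ≤ ‖x0‖ + 1 := by
    have a1 : ∀ᶠ x in 𝓝 x0, x ≠ 0 := isOpen_compl_singleton.mem_nhds hx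
    have a2 : ∀ᶠ x in 𝓝 x0, x ∈ U := hch.1.mem_nhds hxU
    have e3 : ‖Hs N x0‖ < C0 := by
      simp only [hC0]
      linarith
    have e4 : ‖W N x0‖ < C0 := by
      simp only [hC0]
      linarith [norm_nonneg (Hs N x0)]
    have e5 : c0 < ‖W N x0‖ := by
      simp only [hc0]
      linarith
    have a3 : ∀ᶠ x in 𝓝 x0, ‖Hs N x‖ < C0 := by
      have hn : Continuous (fun L : E →L[ℝ] E →L[ℝ] ℝ => ‖L‖) :=
        continuous_norm (E := E →L[ℝ] E →L[ℝ] ℝ)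
      have h0 : ContinuousAt (fun x => ‖Hs N x‖) x0 :=
        ContinuousAt.comp (g := fun L : E →L[ℝ] E →L[ℝ] ℝ => ‖L‖) hn.continuousAt hHc
      exact h0.eventually_lt continuousAt_const e3
    have a4 : ∀ᶠ x in 𝓝 x0, ‖W N x‖ < C0 := hWc.norm.eventually_lt continuousAt_const e4
    have a5 : ∀ᶠ x in 𝓝 x0, c0 < ‖W N x‖ := continuousAt_const.eventually_lt hWc.norm e5
    have a6 : ∀ᶠ x in 𝓝 x0, ‖x‖ < ‖x0‖ + 1 :=
      continuous_norm.continuousAt.eventually_lt continuousAt_const (by linarith)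
    filter_upwards [a1, a2, a3, a4, a5, a6] with x b1 b2 b3 b4 b5 b6
    exact ⟨b1, b2, b3.le, b4.le, b5.le, b6.le⟩
  obtain ⟨U', hU', hU'o, hxU'⟩ := eventually_nhds_iff.1 hev
  have hRpos : 0 < ‖x0‖ + ‖z0‖ + 2 := by positivity
  obtain ⟨K, hK0, hK⟩ := KB C0 c0 (‖x0‖ + ‖z0‖ + 2) (by positivity) (by positivity) hRpos
  refine ⟨U', V ∩ Metric.ball z0 1, 2 * K * (‖τ‖ + 1), hU'o,
    hch.2.1.inter Metric.isOpen_ball, hxU', ⟨hzV, Metric.mem_ball_self one_pos⟩,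
    fun x hxx => (hU' x hxx).2.1, inter_subset_left, by positivity, ?_⟩
  rintro x hxx z ⟨hzV', hzb⟩
  obtain ⟨hx0, hxU1, b3, b4, b5, b6⟩ := hU' x hxx
  set s : ℝ := Real.sqrt (Qf N τ 0 x z) + Real.sqrt (Qf N τ 1 x z) with hs
  have hs0 : 0 ≤ s := by positivity
  have hsym := Hs_symm hN hx0
  have hpos := Hs_nonneg hN hx0
  have hvn : ‖x - z‖ ≤ ‖x0‖ + ‖z0‖ + 2 := by
    have c1 : ‖z‖ ≤ ‖z0‖ + 1 := by
      have := norm_sub_norm_le z z0
      rw [Metric.mem_ball, dist_eq_norm] at hzb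
      linarith
    have := norm_sub_le x z
    linarith
  have hL := chart_lower hN hch hxU1 hx0 hzV'
  have hv0 := (hv_facts hN hch hxU1 hx0 hzV' 0).1
  have hv1 := (hv_facts hN hch hxU1 hx0 hzV' 1).1
  have hker : ∀ h : E, (W N x 0 * h 0 + W N x 1 * h 1) +
      (1/2 : ℂ) * ((Hs N x h (x - z) : ℝ) - Complex.I * (Hs N x h (Complex.I • (x - z)) : ℝ)) = 0 →
      Hs N x h h ≤ (‖τ‖ * s) ^ 2 * ‖h‖ ^ 2 := by
    intro h hh
    have d0 : fderiv ℝ (fun x => Phi N x z) x h = 0 := by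
      rw [fderiv_Phi hN hx0]
      exact hh
    have d1 : DF N τ x z h = (0, τ h) := by
      unfold DF
      simp [d0]
    have d2 : h = (τ h).1 • hv N τ 0 x z + (τ h).2 • hv N τ 1 x z := by
      have d3 : DF N τ x z (h - ((τ h).1 • hv N τ 0 x z + (τ h).2 • hv N τ 1 x z)) = 0 := by
        rw [map_sub, map_add, map_smul, map_smul, hv0, hv1, d1]
        simp [ev]
      have d4 := hL (h - ((τ h).1 • hv N τ 0 x z + (τ h).2 • hv N τ 1 x z))
      rw [d3, norm_zero, mul_zero] at d4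
      exact sub_eq_zero.1 (norm_le_zero_iff.1 d4)
    have d5 : Hs N x h h ≤ (|(τ h).1| * Real.sqrt (Qf N τ 0 x z) +
        |(τ h).2| * Real.sqrt (Qf N τ 1 x z)) ^ 2 := by
      have := quad_bound (Hs N x) hsym hpos (hv N τ 0 x z) (hv N τ 1 x z) (τ h).1 (τ h).2
      rw [← d2] at this
      exact this
    refine d5.trans ?_
    rw [← mul_pow]
    refine pow_le_pow_left₀ (by positivity) ?_ 2
    have d6 : |(τ h).1| ≤ ‖τ‖ * ‖h‖ := (norm_fst_le (τ h)).trans (τ.le_opNorm h)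
    have d7 : |(τ h).2| ≤ ‖τ‖ * ‖h‖ := (norm_snd_le (τ h)).trans (τ.le_opNorm h)
    calc _ ≤ ‖τ‖ * ‖h‖ * Real.sqrt (Qf N τ 0 x z) + ‖τ‖ * ‖h‖ * Real.sqrt (Qf N τ 1 x z) := by
          gcongr
      _ = ‖τ‖ * s * ‖h‖ := by rw [hs]; ring
  have hKB := hK (Hs N x) (W N x) (x - z) ((‖τ‖ * s) ^ 2) hsym hpos b3 b4 b5 hvn (by positivity) hker
  rw [Real.sqrt_sq (by positivity)] at hKB
  have hPhi : W N x 0 * (x - z) 0 + W N x 1 * (x - z) 1 = Phi N x z := rfl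
  rw [hPhi] at hKB
  have hd : ∀ j, ‖dbar j (fun x => Phi N x z) x‖ ≤ K * (‖τ‖ * s * ‖x - z‖ + ‖Phi N x z‖) := by
    intro j
    refine dbar_bound hN hx0 z (fun h => ?_) j
    obtain ⟨f1, f2⟩ := hKB h
    constructor
    · calc _ ≤ _ := f1
        _ = _ := by ring
    · calc _ ≤ _ := f2
        _ = _ := by ring
  unfold dPhi
  have g1 : ‖τ‖ * s * ‖x - z‖ + ‖Phi N x z‖ ≤ (‖τ‖ + 1) * (‖x - z‖ * s + ‖Phi N x z‖) := by
    have : (‖τ‖ + 1) * (‖x - z‖ * s + ‖Phi N x z‖) = ‖τ‖ * s * ‖x - z‖ + ‖Phi N x z‖ +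
        (‖x - z‖ * s + ‖τ‖ * ‖Phi N x z‖) := by ring
    rw [this]
    have : 0 ≤ ‖x - z‖ * s + ‖τ‖ * ‖Phi N x z‖ := by positivity
    linarith
  calc _ ≤ K * (‖τ‖ * s * ‖x - z‖ + ‖Phi N x z‖) + K * (‖τ‖ * s * ‖x - z‖ + ‖Phi N x z‖) :=
        add_le_add (hd 0) (hd 1)
    _ = 2 * K * (‖τ‖ * s * ‖x - z‖ + ‖Phi N x z‖) := by ring
    _ ≤ 2 * K * ((‖τ‖ + 1) * (‖x - z‖ * s + ‖Phi N x z‖)) :=
        mul_le_mul_of_nonneg_left g1 (by positivity)
    _ = _ := by rw [hs]; ring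

end Pool.Agent.N289.CV
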