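import Pool.Agent.N289.CV.Defs
import Pool.Agent.N289.CV.Basic

/-!
Task CV/S11 (worker helper722): the thinness inequality `SD`.
-/

set_option autoImplicit false

namespace Pool.Agent.N289.CV

open MeasureTheory Set Filter Topology

namespace S11

/-- Taylor estimate from a Lipschitz derivative on a convex set. -/
theorem taylor {F G : Type*} [NormedAddCommGroup F] [NormedSpace ℝ F] [NormedAddCommGroup G]
    [NormedSpace ℝ G] {f : F → G} {s : Set F} {L : ℝ} (hs : Convex ℝ s)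
    (hd : ∀ x ∈ s, DifferentiableAt ℝ f x) (hL0 : 0 ≤ L)
    (hL : ∀ x ∈ s, ∀ y ∈ s, ‖fderiv ℝ f y - fderiv ℝ f x‖ ≤ L * ‖y - x‖)
    {x y : F} (hx : x ∈ s) (hy : y ∈ s) :
    ‖f y - f x - fderiv ℝ f x (y - x)‖ ≤ L * ‖y - x‖ ^ 2 := by
  have hsub : segment ℝ x y ⊆ s := hs.segment_subset hx hy
  have h := (convex_segment x y).norm_image_sub_le_of_norm_fderiv_le' (f := f)
    (φ := fderiv ℝ f x) (C := L * ‖y - x‖) (fun u hu => hd u (hsub hu)) (fun u hu => ?_)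
    (left_mem_segment ℝ x y) (right_mem_segment ℝ x y)
  · calc _ ≤ L * ‖y - x‖ * ‖y - x‖ := h
      _ = _ := by ring
  · refine (hL x hx u (hsub hu)).trans ?_
    refine mul_le_mul_of_nonneg_left ?_ hL0
    rw [segment_eq_image'] at hu
    obtain ⟨θ, hθ, rfl⟩ := hu
    rw [add_sub_cancel_left, norm_smul, Real.norm_eq_abs, abs_of_nonneg hθ.1]
    calc θ * ‖y - x‖ ≤ 1 * ‖y - x‖ := mul_le_mul_of_nonneg_right hθ.2 (norm_nonneg _)
      _ = _ := one_mul _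

theorem Phi_diff {N : E → ℝ} (hN : Good N) {x : E} (hx : x ≠ 0) (z : E) :
    HasFDerivAt (fun x => Phi N x z)
      ((fderiv ℝ (Function.uncurry (Phi N)) (x, z)).comp (ContinuousLinearMap.inl ℝ E E)) x := by
  have h1 : ContDiffAt ℝ ((⊤ : ℕ∞) : WithTop ℕ∞) (Function.uncurry (Phi N)) (x, z) :=
    (Phi_contDiffOn hN).contDiffAt (isOpen_fst_ne.mem_nhds hx)
  have h2 := (h1.differentiableAt (by simp)).hasFDerivAt
  have h3 : HasFDerivAt (fun x : E => (x, z)) (ContinuousLinearMap.inl ℝ E E) x :=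
    hasFDerivAt_prodMk_left x z
  exact h2.comp x h3

theorem DF_has {N : E → ℝ} (hN : Good N) {x : E} (hx : x ≠ 0) (z : E) (τ : E →L[ℝ] ℝ × ℝ) :
    HasFDerivAt (fun x => (Phi N x z, τ x)) (DF N τ x z) x := by
  have h := (Phi_diff hN hx z).differentiableAt.hasFDerivAt
  exact h.prodMk τ.hasFDerivAt

theorem chart_lower {N : E → ℝ} (hN : Good N) {τ : E →L[ℝ] ℝ × ℝ} {U V : Set E} {C : ℝ}
    (hch : IsChart (Phi N) τ U V C) {x z : E} (hx : x ∈ U) (hx0 : x ≠ 0) (hz : z ∈ V) (h : E) :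
    ‖h‖ ≤ C * ‖DF N τ x z h‖ := by
  obtain ⟨hUo, hVo, hC, hcont, hlip, -⟩ := hch
  have h1 : HasDerivAt (fun t : ℝ => ((Phi N (x + t • h) z, τ (x + t • h)) : ℂ × (ℝ × ℝ)))
      (DF N τ x z h) 0 := by
    have h2 : HasDerivAt (fun t : ℝ => x + t • h) h 0 := by
      simpa using ((hasDerivAt_id (0:ℝ)).smul_const h).const_add x
    have h3 : HasFDerivAt (fun x => (Phi N x z, τ x)) (DF N τ x z) (x + (0:ℝ) • h) := by
      simpa using DF_has hN hx0 z τ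
    exact h3.comp_hasDerivAt 0 h2
  have h2 : Tendsto (slope (fun t : ℝ => ((Phi N (x + t • h) z, τ (x + t • h)) : ℂ × (ℝ × ℝ))) 0)
      (𝓝[>] 0) (𝓝 (DF N τ x z h)) :=
    (hasDerivAt_iff_tendsto_slope.mp h1).mono_left (nhdsWithin_mono _ (fun t ht => ne_of_gt ht))
  have hc : ∀ᶠ t in 𝓝 (0:ℝ), x + t • h ∈ U := by
    have : Continuous (fun t : ℝ => x + t • h) := by fun_prop
    exact this.continuousAt.eventually_mem (hUo.mem_nhds (by simpa using hx))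
  have h3 : ∀ᶠ t in 𝓝[>] (0:ℝ), ‖h‖ ≤ C * ‖slope (fun t : ℝ =>
      ((Phi N (x + t • h) z, τ (x + t • h)) : ℂ × (ℝ × ℝ))) 0 t‖ := by
    filter_upwards [self_mem_nhdsWithin, hc.filter_mono nhdsWithin_le_nhds] with t ht hne
    have ht' : (0:ℝ) < t := ht
    have h4 := hlip z hz (x + t • h) hne x hx
    rw [add_sub_cancel_left, norm_smul, Real.norm_eq_abs, abs_of_pos ht'] at h4
    simp only [slope, vsub_eq_sub, zero_smul, add_zero, sub_zero, Prod.mk_sub_mk]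
    rw [norm_smul, norm_inv, Real.norm_eq_abs, abs_of_pos ht']
    have h5 : ‖h‖ = t⁻¹ * (t * ‖h‖) := by field_simp
    rw [h5]
    calc t⁻¹ * (t * ‖h‖) ≤ t⁻¹ * (C * ‖((Phi N (x + t • h) z - Phi N x z, τ (x + t • h) - τ x) :
          ℂ × (ℝ × ℝ))‖) := mul_le_mul_of_nonneg_left h4 (inv_nonneg.mpr ht'.le)
      _ = _ := by ring
  exact ge_of_tendsto ((tendsto_const_nhds.mul h2.norm)) h3

theorem hv_spec {N : E → ℝ} (hN : Good N) {τ : E →L[ℝ] ℝ × ℝ} {U V : Set E} {C : ℝ}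
    (hch : IsChart (Phi N) τ U V C) {x z : E} (hx : x ∈ U) (hx0 : x ≠ 0) (hz : z ∈ V) (j : Fin 2) :
    DF N τ x z (hv N τ j x z) = (0, ev j) := by
  have hinj : Function.Injective (DF N τ x z) := by
    rw [injective_iff_map_eq_zero]
    intro h h0
    have h1 := chart_lower hN hch hx hx0 hz h
    rw [h0, norm_zero, mul_zero] at h1
    exact norm_le_zero_iff.mp h1
  have hfin : Module.finrank ℝ E = Module.finrank ℝ (ℂ × (ℝ × ℝ)) := by
    simp [Module.finrank_prod, Module.finrank_pi_fintype, Complex.finrank_real_complex]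
  let e : E ≃ₗ[ℝ] (ℂ × (ℝ × ℝ)) :=
    LinearEquiv.ofInjectiveOfFinrankEq (DF N τ x z).toLinearMap hinj hfin
  let e' : E ≃L[ℝ] (ℂ × (ℝ × ℝ)) := e.toContinuousLinearEquiv
  have he : DF N τ x z = (e' : E →L[ℝ] (ℂ × (ℝ × ℝ))) := by
    ext v <;> rfl
  unfold hv
  rw [he, ContinuousLinearMap.inverse_equiv]
  simp

theorem norm_ev (j : Fin 2) : ‖ev j‖ = 1 := by
  unfold ev
  split_ifs <;> simp [Prod.norm_def]

/-- A real-analysis package: all the local constants of the proof. -/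
theorem local_data {N : E → ℝ} (hN : Good N) {x0 z0 : E} (hx : x0 ≠ 0) (hz : z0 ≠ 0)
    {U V : Set E} (hUo : IsOpen U) (hVo : IsOpen V) (hxU : x0 ∈ U) (hzV : z0 ∈ V) :
    ∃ (r L1 L3 L4 M : ℝ), 0 < r ∧ 0 ≤ L1 ∧ 0 ≤ L3 ∧ 0 ≤ L4 ∧ 0 ≤ M ∧
      Metric.ball x0 r ⊆ U ∧ Metric.ball z0 r ⊆ V ∧ (∀ x ∈ Metric.ball x0 r, x ≠ 0) ∧
      (∀ x ∈ Metric.ball x0 r, ‖Hs N x‖ ≤ M) ∧
      (∀ z ∈ Metric.ball z0 r, ∀ x ∈ Metric.ball x0 r, ∀ x' ∈ Metric.ball x0 r,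
        ‖Phi N x' z - Phi N x z - fderiv ℝ (fun x => Phi N x z) x (x' - x)‖ ≤ L1 * ‖x' - x‖ ^ 2) ∧
      (∀ x ∈ Metric.ball x0 r, ∀ x' ∈ Metric.ball x0 r,
        ‖fderiv ℝ N x' - fderiv ℝ N x - Hs N x (x' - x)‖ ≤ L3 * ‖x' - x‖ ^ 2) ∧
      (∀ z ∈ Metric.ball z0 r, ∀ v : E, ‖v‖ < r →
        |N (z + v) - N z - fderiv ℝ N z v| ≤ L4 * ‖v‖ ^ 2) := by
  have hle : (1 : WithTop ℕ∞) ≤ ((⊤ : ℕ∞) : WithTop ℕ∞) := by exact_mod_cast le_top
  -- Lipschitz constants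
  have hP : ContDiffAt ℝ 1 (fderiv ℝ (Function.uncurry (Phi N))) (x0, z0) :=
    (((Phi_contDiffOn hN).fderiv_of_isOpen isOpen_fst_ne
      (m := ((⊤ : ℕ∞) : WithTop ℕ∞)) (by exact_mod_cast le_top)).contDiffAt
      (isOpen_fst_ne.mem_nhds hx)).of_le hle
  obtain ⟨K1, T1, hT1, hK1⟩ := hP.exists_lipschitzOnWith
  have hH : ContDiffAt ℝ 1 (Hs N) x0 :=
    ((Hs_contDiffOn hN).contDiffAt (isOpen_compl_singleton.mem_nhds hx)).of_le hle
  obtain ⟨K3, T3, hT3, hK3⟩ := hH.exists_lipschitzOnWith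
  have hD : ContDiffAt ℝ 1 (fderiv ℝ N) z0 :=
    ((fderiv_contDiffOn hN).contDiffAt (isOpen_compl_singleton.mem_nhds hz)).of_le hle
  obtain ⟨K4, T4, hT4, hK4⟩ := hD.exists_lipschitzOnWith
  have hM : ∀ x ∈ T3 ∩ Metric.ball x0 1, ‖Hs N x‖ ≤ ‖Hs N x0‖ + K3 := by
    intro x hxm
    have h5 := hK3.dist_le_mul x hxm.1 x0 (mem_of_mem_nhds hT3)
    rw [dist_eq_norm] at h5
    have h6 : dist x x0 ≤ 1 := (Metric.mem_ball.mp hxm.2).le
    have h7 : (K3 : ℝ) * dist x x0 ≤ K3 * 1 := mul_le_mul_of_nonneg_left h6 K3.2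
    have h8 := norm_sub_norm_le (Hs N x) (Hs N x0)
    linarith
  -- radii
  obtain ⟨r1, hr1, h1⟩ := Metric.mem_nhds_iff.mp hT1
  obtain ⟨r2, hr2, h2⟩ := Metric.mem_nhds_iff.mp
    (Filter.inter_mem (Filter.inter_mem (hUo.mem_nhds hxU) (isOpen_compl_singleton.mem_nhds hx))
      (Filter.inter_mem hT3 (Metric.ball_mem_nhds x0 one_pos)))
  obtain ⟨r3, hr3, h3⟩ := Metric.mem_nhds_iff.mp
    (Filter.inter_mem (Filter.inter_mem (hVo.mem_nhds hzV) (isOpen_compl_singleton.mem_nhds hz)) hT4)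
  set r := min r1 (min r2 (r3 / 2)) with hr
  have hrr1 : r ≤ r1 := min_le_left _ _
  have hrr2 : r ≤ r2 := (min_le_right _ _).trans (min_le_left _ _)
  have hrr3 : r ≤ r3 / 2 := (min_le_right _ _).trans (min_le_right _ _)
  have hr0 : 0 < r := lt_min hr1 (lt_min hr2 (half_pos hr3))
  have hbx : Metric.ball x0 r ⊆ Metric.ball x0 r2 := Metric.ball_subset_ball hrr2
  have hbz : Metric.ball z0 r ⊆ Metric.ball z0 r3 := Metric.ball_subset_ball (by linarith)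
  have hne : ∀ x ∈ Metric.ball x0 r, x ≠ 0 := fun x hx => (h2 (hbx hx)).1.2
  refine ⟨r, K1, K3, K4, ‖Hs N x0‖ + K3, hr0, K1.2, K3.2, K4.2, by positivity,
    fun x hx => (h2 (hbx hx)).1.1, fun z hz => (h3 (hbz hz)).1.1, hne,
    fun x hx => hM x (h2 (hbx hx)).2, ?_, ?_, ?_⟩
  · intro z hz x hx x' hx'
    refine taylor (convex_ball x0 r) (fun y hy => (Phi_diff hN (hne y hy) z).differentiableAt)
      K1.2 ?_ hx hx'
    intro y hy y' hy'
    rw [(Phi_diff hN (hne y hy) z).fderiv, (Phi_diff hN (hne y' hy') z).fderiv]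
    have hm : ∀ u ∈ Metric.ball x0 r, (u, z) ∈ T1 := by
      intro u hu
      apply h1
      rw [Metric.mem_ball, Prod.dist_eq]
      exact max_lt ((Metric.mem_ball.mp hu).trans_le hrr1) ((Metric.mem_ball.mp hz).trans_le hrr1)
    have h5 := hK1.dist_le_mul (y', z) (hm y' hy') (y, z) (hm y hy)
    rw [dist_eq_norm, dist_eq_norm, Prod.mk_sub_mk, sub_self] at h5
    have h6 : ‖((y' - y, 0) : E × E)‖ = ‖y' - y‖ := by simp [Prod.norm_def]
    rw [h6] at h5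
    rw [← ContinuousLinearMap.sub_comp]
    refine (ContinuousLinearMap.opNorm_comp_le _ _).trans ?_
    calc _ ≤ ‖fderiv ℝ (Function.uncurry (Phi N)) (y', z) - fderiv ℝ (Function.uncurry (Phi N)) (y, z)‖ * 1 :=
          mul_le_mul_of_nonneg_left (ContinuousLinearMap.norm_inl_le_one ℝ E E) (norm_nonneg _)
      _ ≤ _ := by rw [mul_one]; exact h5
  · intro x hx x' hx'
    refine taylor (f := fderiv ℝ N) (convex_ball x0 r)
      (fun y hy => (fderiv_hasFDerivAt hN (hne y hy)).differentiableAt) K3.2 ?_ hx hx'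
    intro y hy y' hy'
    have h5 := hK3.dist_le_mul y' (h2 (hbx hy')).2.1 y (h2 (hbx hy)).2.1
    rw [dist_eq_norm, dist_eq_norm] at h5
    exact h5
  · intro z hz v hv
    have hzb : z ∈ Metric.ball z0 r3 := hbz hz
    have hzv : z + v ∈ Metric.ball z0 r3 := by
      rw [Metric.mem_ball, dist_eq_norm] at hz ⊢
      calc ‖z + v - z0‖ = ‖(z - z0) + v‖ := by congr 1; abel
        _ ≤ ‖z - z0‖ + ‖v‖ := norm_add_le _ _
        _ < r3 := by linarith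
    have h5 := taylor (f := N) (convex_ball z0 r3)
      (fun y hy => hN.differentiableAt (h3 hy).1.2) K4.2 (fun y hy y' hy' => by
        have h5 := hK4.dist_le_mul y' (h3 hy').2 y (h3 hy).2
        rw [dist_eq_norm, dist_eq_norm] at h5
        exact h5) hzb hzv
    rw [add_sub_cancel_left, Real.norm_eq_abs] at h5
    exact h5

/-- The final arithmetic. -/
theorem final {s t κ' D L4 C c3 : ℝ} (ht : 0 < t) (hc30 : 0 < c3)
    (hDlow : s ^ 2 * t / 2 ≤ D)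
    (hsmall : 2 * L4 * C ^ 2 * c3 ≤ 1 / 4)
    (hmain : (c3 * t) * D ≤ 2 * L4 * ((c3 * t) ^ 2 * (C ^ 2 * s ^ 2)) + 2 * κ') :
    |s| ≤ Real.sqrt (8 / c3) * Real.sqrt κ' / t := by
  have hρ0 : 0 < c3 * t := mul_pos hc30 ht
  have hfin : c3 * (|s| * t) ^ 2 ≤ 8 * κ' := by
    have h1 : (c3 * t) * (s ^ 2 * t / 2) ≤ (c3 * t) * D := mul_le_mul_of_nonneg_left hDlow hρ0.le
    have h2 : 2 * L4 * ((c3 * t) ^ 2 * (C ^ 2 * s ^ 2)) =
        (2 * L4 * C ^ 2 * c3) * (t * (c3 * t) * s ^ 2) := by ring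
    have h3 : (2 * L4 * C ^ 2 * c3) * (t * (c3 * t) * s ^ 2) ≤ 1 / 4 * (t * (c3 * t) * s ^ 2) :=
      mul_le_mul_of_nonneg_right hsmall (by positivity)
    have h4 : c3 * (|s| * t) ^ 2 = (c3 * t) * s ^ 2 * t := by rw [mul_pow, sq_abs]; ring
    rw [h4]
    linarith
  have hκ : 0 ≤ κ' := by
    have : 0 ≤ c3 * (|s| * t) ^ 2 := by positivity
    linarith
  rw [le_div_iff₀ ht, ← Real.sqrt_mul' _ hκ]
  apply Real.le_sqrt_of_sq_le
  rw [div_mul_eq_mul_div, le_div_iff₀ hc30]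
  linarith

end S11

open S11 in
/-- The thinness of the bad set. -/
theorem SD {N : E → ℝ} (hN : Good N) {x0 z0 : E} (hx : x0 ≠ 0) (hz : z0 ≠ 0)
    {τ : E →L[ℝ] ℝ × ℝ} {U V : Set E} {C : ℝ}
    (hxU : x0 ∈ U) (hzV : z0 ∈ V) (hch : IsChart (Phi N) τ U V C) (j : Fin 2) :
    ∃ (U' V' : Set E) (a C' : ℝ), IsOpen U' ∧ IsOpen V' ∧ x0 ∈ U' ∧ z0 ∈ V' ∧ U' ⊆ U ∧ V' ⊆ V ∧ 0 < a ∧ 0 ≤ C' ∧
      ∀ z ∈ V', ∀ x ∈ U', ∀ x' ∈ U', ∀ s t κ' : ℝ, Phi N x' z = Phi N x z → τ x' - τ x = s • ev j →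
        0 < t → t ≤ Qf N τ j x z → |s| ≤ a * t → N z - fderiv ℝ N x z ≤ κ' → N z - fderiv ℝ N x' z ≤ κ' →
        |s| ≤ C' * Real.sqrt κ' / t := by
  have hUo := hch.1
  have hVo := hch.2.1
  have hC := hch.2.2.1
  have hlip := hch.2.2.2.2.1
  obtain ⟨r, L1, L3, L4, M, hr, hL1, hL3, hL4, hM, hU, hV, hne, hHM, hT1, hT3, hT4⟩ :=
    local_data hN hx hz hUo hVo hxU hzV
  set K1 : ℝ := C ^ 3 * L1 with hK1
  have hK1n : 0 ≤ K1 := by positivity
  set Q1 : ℝ := M * C ^ 2 with hQ1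
  have hQ1n : 0 ≤ Q1 := by positivity
  set K3 : ℝ := 2 * M * C * K1 + M * K1 ^ 2 + L3 * C ^ 3 with hK3
  have hK3n : 0 ≤ K3 := by positivity
  set a : ℝ := 1 / (2 * (Q1 + K3 + 1)) with ha
  have ha0 : 0 < a := by positivity
  set c3 : ℝ := min (r / (2 * (Q1 * C + 1))) (1 / (8 * (L4 * C ^ 2 + 1))) with hc3
  have hc30 : 0 < c3 := lt_min (by positivity) (by positivity)
  have hc31 : c3 ≤ r / (2 * (Q1 * C + 1)) := min_le_left _ _
  have hc32 : c3 ≤ 1 / (8 * (L4 * C ^ 2 + 1)) := min_le_right _ _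
  refine ⟨Metric.ball x0 r, Metric.ball z0 r, a, Real.sqrt (8 / c3), Metric.isOpen_ball,
    Metric.isOpen_ball, Metric.mem_ball_self hr, Metric.mem_ball_self hr, hU, hV, ha0,
    Real.sqrt_nonneg _, ?_⟩
  intro z hzV' x hxU' x' hx'U' s t κ' hΦ hτ ht htQ hs hκ hκ'
  have hx0 := hne x hxU'
  have hx'0 := hne x' hx'U'
  set δ := x' - x with hδ
  set h := hv N τ j x z with hh
  have hDFh : DF N τ x z h = (0, ev j) := hv_spec hN hch (hU hxU') hx0 (hV hzV') j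
  have hhC : ‖h‖ ≤ C := by
    have h1 := chart_lower hN hch (hU hxU') hx0 (hV hzV') h
    rw [hDFh] at h1
    have h2 : ‖((0, ev j) : ℂ × (ℝ × ℝ))‖ = 1 := by
      rw [Prod.norm_def]; simp [norm_ev]
    rw [h2, mul_one] at h1
    exact h1
  have hδC : ‖δ‖ ≤ C * |s| := by
    have h1 := hlip z (hV hzV') x' (hU hx'U') x (hU hxU')
    rw [hΦ, hτ, sub_self] at h1
    have h2 : ‖((0, s • ev j) : ℂ × (ℝ × ℝ))‖ = |s| := by
      rw [Prod.norm_def]; simp [norm_smul, norm_ev]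
    rw [h2] at h1
    exact h1
  -- sizes
  have htQ1 : t ≤ Q1 := by
    have h1 : Qf N τ j x z ≤ ‖Hs N x‖ * ‖h‖ * ‖h‖ :=
      (le_abs_self _).trans ((Hs N x).le_opNorm₂ h h)
    have h2 : ‖Hs N x‖ * ‖h‖ * ‖h‖ ≤ M * C * C := by
      have := hHM x hxU'
      gcongr
    calc t ≤ _ := htQ
      _ ≤ _ := h1
      _ ≤ _ := h2
      _ = Q1 := by rw [hQ1]; ring
  have hs1 : |s| ≤ 1 := by
    refine hs.trans ?_
    rw [ha, div_mul_eq_mul_div, one_mul, div_le_one (by positivity)]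
    linarith
  have hs2 : K3 * |s| ≤ t / 2 := by
    have h1 : K3 * |s| ≤ K3 * (a * t) := mul_le_mul_of_nonneg_left hs hK3n
    have h2 : K3 * a ≤ 1 / 2 := by
      rw [ha, mul_one_div, div_le_div_iff₀ (by positivity) (by norm_num)]
      linarith
    calc K3 * |s| ≤ K3 * a * t := by linarith
      _ ≤ 1 / 2 * t := mul_le_mul_of_nonneg_right h2 ht.le
      _ = t / 2 := by ring
  have habs : 0 ≤ |s| := abs_nonneg s
  have hss : s ^ 2 = |s| ^ 2 := (sq_abs s).symm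
  -- the error vector
  set e := δ - s • h with he
  have heK : ‖e‖ ≤ K1 * |s| ^ 2 := by
    have h1 := chart_lower hN hch (hU hxU') hx0 (hV hzV') e
    have h2 : DF N τ x z e = (fderiv ℝ (fun x => Phi N x z) x δ, 0) := by
      rw [he, map_sub, map_smul, hDFh]
      have h3 : DF N τ x z δ = (fderiv ℝ (fun x => Phi N x z) x δ, s • ev j) := by
        rw [← hτ, hδ, ← map_sub]; rfl
      rw [h3]
      ext <;> simp
    have h4 := hT1 z hzV' x hxU' x' hx'U'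
    rw [hΦ, sub_self, zero_sub, norm_neg] at h4
    rw [h2] at h1
    have h5 : ‖((fderiv ℝ (fun x => Phi N x z) x δ, 0) : ℂ × (ℝ × ℝ))‖ =
        ‖fderiv ℝ (fun x => Phi N x z) x δ‖ := by simp [Prod.norm_def]
    rw [h5] at h1
    calc ‖e‖ ≤ C * ‖fderiv ℝ (fun x => Phi N x z) x δ‖ := h1
      _ ≤ C * (L1 * ‖δ‖ ^ 2) := mul_le_mul_of_nonneg_left h4 hC.le
      _ ≤ C * (L1 * (C * |s|) ^ 2) := by gcongr
      _ = K1 * |s| ^ 2 := by rw [hK1]; ring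
  -- quadratic form at δ
  have hquad : s ^ 2 * Qf N τ j x z - (2 * M * C * K1 + M * K1 ^ 2) * |s| ^ 3 ≤ Hs N x δ δ := by
    have hδe : δ = s • h + e := by rw [he]; abel
    have h1 : Hs N x δ δ = s ^ 2 * Hs N x h h + s * Hs N x h e + s * Hs N x e h + Hs N x e e := by
      rw [hδe]
      simp only [map_add, map_smul, add_apply, smul_apply, smul_eq_mul]
      ring
    have hb : ∀ u v : E, |Hs N x u v| ≤ M * ‖u‖ * ‖v‖ := by
      intro u v
      refine ((Hs N x).le_opNorm₂ u v).trans ?_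
      have := hHM x hxU'
      gcongr
    have b1 : |s * Hs N x h e| ≤ |s| * (M * C * (K1 * |s| ^ 2)) := by
      rw [abs_mul]
      refine mul_le_mul_of_nonneg_left ((hb h e).trans ?_) habs
      gcongr
    have b2 : |s * Hs N x e h| ≤ |s| * (M * C * (K1 * |s| ^ 2)) := by
      rw [abs_mul]
      refine mul_le_mul_of_nonneg_left ((hb e h).trans ?_) habs
      calc M * ‖e‖ * ‖h‖ ≤ M * (K1 * |s| ^ 2) * C := by gcongr
        _ = _ := by ring
    have b3 : |Hs N x e e| ≤ M * K1 ^ 2 * |s| ^ 3 := by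
      refine (hb e e).trans ?_
      calc M * ‖e‖ * ‖e‖ ≤ M * (K1 * |s| ^ 2) * (K1 * |s| ^ 2) := by gcongr
        _ = M * K1 ^ 2 * |s| ^ 3 * |s| := by ring
        _ ≤ M * K1 ^ 2 * |s| ^ 3 * 1 := mul_le_mul_of_nonneg_left hs1 (by positivity)
        _ = _ := mul_one _
    have c1 := (abs_le.mp b1).1
    have c2 := (abs_le.mp b2).1
    have c3 := (abs_le.mp b3).1
    have hq : Qf N τ j x z = Hs N x h h := rfl
    rw [h1, hq]
    nlinarith
  -- gradient difference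
  set D := (fderiv ℝ N x' - fderiv ℝ N x) δ with hD
  have hDlow : s ^ 2 * t / 2 ≤ D := by
    have h1 := hT3 x hxU' x' hx'U'
    have h2 : |D - Hs N x δ δ| ≤ L3 * C ^ 3 * |s| ^ 3 := by
      have h3 : D - Hs N x δ δ = (fderiv ℝ N x' - fderiv ℝ N x - Hs N x (x' - x)) δ := by
        simp only [hD, hδ, sub_apply]
      rw [h3, ← Real.norm_eq_abs]
      calc _ ≤ ‖fderiv ℝ N x' - fderiv ℝ N x - Hs N x (x' - x)‖ * ‖δ‖ :=
            ContinuousLinearMap.le_opNorm _ _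
        _ ≤ (L3 * ‖δ‖ ^ 2) * ‖δ‖ := mul_le_mul_of_nonneg_right h1 (norm_nonneg _)
        _ ≤ (L3 * (C * |s|) ^ 2) * (C * |s|) := by gcongr
        _ = _ := by ring
    have h3 := (abs_le.mp h2).1
    have h4 : s ^ 2 * t ≤ s ^ 2 * Qf N τ j x z := mul_le_mul_of_nonneg_left htQ (sq_nonneg s)
    have h5 : K3 * |s| ^ 3 ≤ s ^ 2 * t / 2 := by
      calc K3 * |s| ^ 3 = |s| ^ 2 * (K3 * |s|) := by ring
        _ ≤ |s| ^ 2 * (t / 2) := mul_le_mul_of_nonneg_left hs2 (by positivity)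
        _ = s ^ 2 * t / 2 := by rw [hss]; ring
    have h6 : K3 * |s| ^ 3 = (2 * M * C * K1 + M * K1 ^ 2) * |s| ^ 3 + L3 * C ^ 3 * |s| ^ 3 := by
      rw [hK3]; ring
    linarith
  -- three point inequality
  set ρ := c3 * t with hρ
  have hρ0 : 0 < ρ := mul_pos hc30 ht
  have hρδ : ‖ρ • δ‖ < r := by
    rw [norm_smul, Real.norm_eq_abs, abs_of_pos hρ0, hρ]
    have h1 : ‖δ‖ ≤ C := by
      calc ‖δ‖ ≤ C * |s| := hδC
        _ ≤ C * 1 := mul_le_mul_of_nonneg_left hs1 hC.le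
        _ = C := mul_one C
    calc c3 * t * ‖δ‖ ≤ r / (2 * (Q1 * C + 1)) * Q1 * C := by gcongr
      _ = r * (Q1 * C / (2 * (Q1 * C + 1))) := by ring
      _ < r * 1 := by
        refine mul_lt_mul_of_pos_left ?_ hr
        rw [div_lt_one (by positivity)]
        have : 0 ≤ Q1 * C := by positivity
        linarith
      _ = r := mul_one r
  have hA := hN.supp hx0 (z - ρ • δ)
  have hB := hN.supp hx'0 (z + ρ • δ)
  have hup1 := (abs_le.mp (hT4 z hzV' (ρ • δ) hρδ)).2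
  have hup2 := (abs_le.mp (hT4 z hzV' (-(ρ • δ)) (by rwa [norm_neg]))).2
  rw [← sub_eq_add_neg, norm_neg, map_neg] at hup2
  rw [map_sub, map_smul, smul_eq_mul] at hA
  rw [map_add, map_smul, smul_eq_mul] at hB
  have hDe : D = fderiv ℝ N x' δ - fderiv ℝ N x δ := by rw [hD, sub_apply]
  have hρn : ‖ρ • δ‖ ^ 2 ≤ ρ ^ 2 * (C ^ 2 * s ^ 2) := by
    rw [norm_smul, Real.norm_eq_abs, abs_of_pos hρ0, mul_pow]
    refine mul_le_mul_of_nonneg_left ?_ (sq_nonneg ρ)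
    calc ‖δ‖ ^ 2 ≤ (C * |s|) ^ 2 := by gcongr
      _ = C ^ 2 * s ^ 2 := by rw [hss]; ring
  have hmain : ρ * D ≤ 2 * L4 * (ρ ^ 2 * (C ^ 2 * s ^ 2)) + 2 * κ' := by
    have h1 : L4 * ‖ρ • δ‖ ^ 2 ≤ L4 * (ρ ^ 2 * (C ^ 2 * s ^ 2)) := mul_le_mul_of_nonneg_left hρn hL4
    rw [hDe, mul_sub]
    linarith
  have hsmall : 2 * L4 * C ^ 2 * c3 ≤ 1 / 4 := by
    have h1 : L4 * C ^ 2 * c3 ≤ L4 * C ^ 2 * (1 / (8 * (L4 * C ^ 2 + 1))) :=
      mul_le_mul_of_nonneg_left hc32 (by positivity)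
    have h2 : L4 * C ^ 2 * (1 / (8 * (L4 * C ^ 2 + 1))) ≤ 1 / 8 := by
      rw [mul_one_div, div_le_div_iff₀ (by positivity) (by norm_num)]
      have : 0 ≤ L4 * C ^ 2 := by positivity
      linarith
    linarith
  exact final ht hc30 hDlow hsmall hmain

end Pool.Agent.N289.CV
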