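import Pool.Agent.N289.CV.Defs

/-!
# Uniform charts

Around a point `(x0, z0)` at which `x ↦ Φ x z0` is a submersion there are uniform charts
`x ↦ (Φ x z, τ x)`, `z` near `z0`.
-/

set_option autoImplicit false

namespace Pool.Agent.N289.CV

open MeasureTheory Set Filter Topology

namespace S5

/-- Complete a surjective linear form to a linear coordinate system. -/
lemma exists_compl (L : E →L[ℝ] ℂ) (hs : Function.Surjective L) :
    ∃ (τ : E →L[ℝ] ℝ × ℝ) (T : E ≃L[ℝ] ℂ × (ℝ × ℝ)), ∀ x, T x = (L x, τ x) := by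
  have hE : Module.finrank ℝ E = 4 := by
    rw [Module.finrank_pi_fintype]
    simp [Complex.finrank_real_complex]
  have hC : Module.finrank ℝ ℂ = 2 := Complex.finrank_real_complex
  set Ll : E →ₗ[ℝ] ℂ := L.toLinearMap with hLl
  have hr : LinearMap.range Ll = ⊤ := LinearMap.range_eq_top.2 hs
  have hk : Module.finrank ℝ (LinearMap.ker Ll) = 2 := by
    have h := LinearMap.finrank_range_add_finrank_ker Ll
    rw [hr, finrank_top, hE, hC] at h
    omega
  have hRR : Module.finrank ℝ (ℝ × ℝ) = 2 := by simp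
  let e : LinearMap.ker Ll ≃ₗ[ℝ] ℝ × ℝ := LinearEquiv.ofFinrankEq _ _ (by rw [hk, hRR])
  obtain ⟨p, hp⟩ := LinearMap.exists_leftInverse_of_injective (LinearMap.ker Ll).subtype
    (Submodule.ker_subtype _)
  let τl : E →ₗ[ℝ] ℝ × ℝ := e.toLinearMap ∘ₗ p
  let Tl : E →ₗ[ℝ] ℂ × (ℝ × ℝ) := Ll.prod τl
  have hinj : Function.Injective Tl := by
    rw [← LinearMap.ker_eq_bot, LinearMap.ker_eq_bot']
    intro x hx
    have h1 : Ll x = 0 := congrArg Prod.fst hx
    have h2 : τl x = 0 := congrArg Prod.snd hx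
    have h3 : p x = 0 := by
      have : e (p x) = 0 := h2
      simpa using this
    have h4 : p ((LinearMap.ker Ll).subtype ⟨x, h1⟩) = ⟨x, h1⟩ :=
      congrArg (fun f => f ⟨x, h1⟩) hp
    have h5 : p x = ⟨x, h1⟩ := h4
    rw [h3] at h5
    exact (congrArg Subtype.val h5).symm
  have hdim : Module.finrank ℝ E = Module.finrank ℝ (ℂ × (ℝ × ℝ)) := by
    rw [Module.finrank_prod, hE, hC, hRR]
  let Te : E ≃ₗ[ℝ] ℂ × (ℝ × ℝ) := Tl.linearEquivOfInjective hinj hdim
  refine ⟨LinearMap.toContinuousLinearMap τl, Te.toContinuousLinearEquiv, fun x => ?_⟩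
  have : Te x = Tl x := LinearMap.linearEquivOfInjective_apply ..
  change Te x = _
  rw [this]
  rfl

end S5

open S5 in
/-- Uniform charts. -/
theorem exists_chart (Φ : E → E → ℂ) (x0 z0 : E) (hΦ : ContDiffAt ℝ 1 (Function.uncurry Φ) (x0, z0))
    (hs : Function.Surjective (fderiv ℝ (fun x => Φ x z0) x0)) :
    ∃ (τ : E →L[ℝ] ℝ × ℝ) (U V : Set E) (C : ℝ), x0 ∈ U ∧ z0 ∈ V ∧ IsChart Φ τ U V C := by
  obtain ⟨τ, T, hT⟩ := exists_compl _ hs
  -- the partial derivative
  set G : E × E → E →L[ℝ] ℂ := fun p =>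
    (fderiv ℝ (Function.uncurry Φ) p).comp (ContinuousLinearMap.inl ℝ E E) with hG
  have hG' : ∀ p : E × E, DifferentiableAt ℝ (Function.uncurry Φ) p →
      HasFDerivAt (fun x => Φ x p.2) (G p) p.1 := by
    intro p hp
    have h1 : HasFDerivAt (fun x : E => (x, p.2)) (ContinuousLinearMap.inl ℝ E E) p.1 :=
      hasFDerivAt_prodMk_left p.1 p.2
    have h2 : HasFDerivAt (Function.uncurry Φ) (fderiv ℝ (Function.uncurry Φ) p) (p.1, p.2) :=
      hp.hasFDerivAt
    exact h2.comp p.1 h1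
  have hd0 : DifferentiableAt ℝ (Function.uncurry Φ) (x0, z0) := hΦ.differentiableAt (by simp)
  have hL : fderiv ℝ (fun x => Φ x z0) x0 = G (x0, z0) := (hG' (x0, z0) hd0).fderiv
  have hGc : ContinuousAt G (x0, z0) := by
    have h1 : ContinuousAt (fderiv ℝ (Function.uncurry Φ)) (x0, z0) :=
      (hΦ.fderiv_right (m := 0) (by simp)).continuousAt
    exact h1.clm_comp continuousAt_const
  -- the derivative of `T⁻¹ ∘ F`
  set D : E × E → E →L[ℝ] E := fun p =>
    (T.symm : ℂ × (ℝ × ℝ) →L[ℝ] E).comp ((G p).prod τ) with hD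
  have hDc : ContinuousAt D (x0, z0) := by
    have h1 : ContinuousAt (fun p => (G p).prod τ) (x0, z0) := by
      have : (fun p => (G p).prod τ) = fun p =>
          (ContinuousLinearMap.inl ℝ ℂ (ℝ × ℝ)).comp (G p) +
            (ContinuousLinearMap.inr ℝ ℂ (ℝ × ℝ)).comp τ := by
        ext p x <;> simp
      rw [this]
      exact (continuousAt_const.clm_comp hGc).add continuousAt_const
    exact continuousAt_const.clm_comp h1
  have hD0 : D (x0, z0) = ContinuousLinearMap.id ℝ E := by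
    ext1 x
    have : (G (x0, z0)).prod τ x = T x := by
      rw [hT, ← hL]
      rfl
    simp only [hD, ContinuousLinearMap.comp_apply, this]
    simp
  -- choice of the neighbourhoods
  have hev : ∀ᶠ p in 𝓝 (x0, z0), DifferentiableAt ℝ (Function.uncurry Φ) p ∧
      ‖D p - ContinuousLinearMap.id ℝ E‖ < 1 / 2 ∧ 1 / 2 < |(D p).det| := by
    refine Filter.Eventually.and ?_ (Filter.Eventually.and ?_ ?_)
    · exact (hΦ.eventually (by simp)).mono (fun p hp => hp.differentiableAt (by simp))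
    · have h1 : ContinuousAt (fun p => ‖D p - ContinuousLinearMap.id ℝ E‖) (x0, z0) :=
        (hDc.sub continuousAt_const).norm
      refine h1.eventually_lt_const ?_
      change ‖D (x0, z0) - ContinuousLinearMap.id ℝ E‖ < 1 / 2
      rw [hD0]
      simp
    · have h1 : ContinuousAt (fun p => |(D p).det|) (x0, z0) :=
        (ContinuousLinearMap.continuous_det.continuousAt.comp hDc).abs
      refine h1.eventually_const_lt ?_
      change 1 / 2 < |(D (x0, z0)).det|
      rw [hD0]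
      simp [ContinuousLinearMap.det]
      norm_num
  obtain ⟨r, hr0, hr⟩ := Metric.mem_nhds_iff.1 hev
  rw [← ball_prod_same] at hr
  set U : Set E := Metric.ball x0 r with hU
  set V : Set E := Metric.ball z0 r with hV
  have hbd : ∀ x ∈ U, ∀ z ∈ V, DifferentiableAt ℝ (Function.uncurry Φ) (x, z) ∧
      ‖D (x, z) - ContinuousLinearMap.id ℝ E‖ < 1 / 2 ∧ 1 / 2 < |(D (x, z)).det| :=
    fun x hx z hz => hr (Set.mk_mem_prod hx hz)
  -- the map `f_z = T⁻¹ ∘ F_z`
  have hder : ∀ z ∈ V, ∀ x ∈ U, HasFDerivAt (fun x => T.symm (Φ x z, τ x)) (D (x, z)) x := by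
    intro z hz x hx
    have h1 : HasFDerivAt (fun x => Φ x z) (G (x, z)) x := hG' (x, z) (hbd x hx z hz).1
    have h2 : HasFDerivAt (fun x => (Φ x z, τ x)) ((G (x, z)).prod τ) x :=
      h1.prodMk τ.hasFDerivAt
    exact (T.symm : ℂ × (ℝ × ℝ) →L[ℝ] E).hasFDerivAt.comp x h2
  have hlip : ∀ z ∈ V, ∀ x ∈ U, ∀ x' ∈ U,
      ‖x - x'‖ ≤ 2 * ‖T.symm (Φ x z, τ x) - T.symm (Φ x' z, τ x')‖ := by
    intro z hz x hx x' hx'
    have h1 := (convex_ball x0 r).norm_image_sub_le_of_norm_hasFDerivWithin_le'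
      (f := fun x => T.symm (Φ x z, τ x)) (f' := fun x => D (x, z))
      (φ := ContinuousLinearMap.id ℝ E) (C := 1 / 2)
      (fun y hy => (hder z hz y hy).hasFDerivWithinAt)
      (fun y hy => (hbd y hy z hz).2.1.le) hx' hx
    simp only [ContinuousLinearMap.id_apply] at h1
    have h2 : ‖x - x'‖ ≤ ‖T.symm (Φ x z, τ x) - T.symm (Φ x' z, τ x')‖ +
        ‖T.symm (Φ x z, τ x) - T.symm (Φ x' z, τ x') - (x - x')‖ := by
      have h3 : x - x' = (T.symm (Φ x z, τ x) - T.symm (Φ x' z, τ x')) -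
        (T.symm (Φ x z, τ x) - T.symm (Φ x' z, τ x') - (x - x')) := by abel
      calc ‖x - x'‖ = ‖(T.symm (Φ x z, τ x) - T.symm (Φ x' z, τ x')) -
        (T.symm (Φ x z, τ x) - T.symm (Φ x' z, τ x') - (x - x'))‖ := by rw [← h3]
        _ ≤ _ := norm_sub_le _ _
    linarith
  -- the image measure
  set μ : Measure (ℂ × (ℝ × ℝ)) := Measure.map T volume with hμ
  have hμH : μ.IsAddHaarMeasure := ContinuousLinearEquiv.isAddHaarMeasure_map T volume
  have hv1 : (volume : Measure (ℝ × ℝ)).IsAddHaarMeasure := by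
    rw [Measure.volume_eq_prod]; infer_instance
  have hv2 : (volume : Measure (ℂ × (ℝ × ℝ))).IsAddHaarMeasure := by
    rw [Measure.volume_eq_prod]; infer_instance
  have hμc : ∃ c : NNReal, μ = c • (volume : Measure (ℂ × (ℝ × ℝ))) :=
    ⟨_, Measure.isAddLeftInvariant_eq_smul μ volume⟩
  obtain ⟨c, hc⟩ := hμc
  refine ⟨τ, U, V, 2 * ‖(T.symm : ℂ × (ℝ × ℝ) →L[ℝ] E)‖ + 2 * c + 1,
    Metric.mem_ball_self hr0, Metric.mem_ball_self hr0, Metric.isOpen_ball, Metric.isOpen_ball,
    by positivity, ?_, ?_, ?_⟩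
  · intro z hz x hx
    exact (hG' (x, z) (hbd x hx z hz).1).continuousAt.continuousWithinAt
  · intro z hz x hx x' hx'
    refine (hlip z hz x hx x' hx').trans ?_
    have h1 : ‖T.symm (Φ x z, τ x) - T.symm (Φ x' z, τ x')‖ ≤
        ‖(T.symm : ℂ × (ℝ × ℝ) →L[ℝ] E)‖ * ‖((Φ x z - Φ x' z, τ x - τ x') : ℂ × (ℝ × ℝ))‖ := by
      rw [← map_sub]
      exact (T.symm : ℂ × (ℝ × ℝ) →L[ℝ] E).le_opNorm _
    have h2 : (0 : ℝ) ≤ ‖((Φ x z - Φ x' z, τ x - τ x') : ℂ × (ℝ × ℝ))‖ := norm_nonneg _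
    have h3 : (0 : ℝ) ≤ (2 * c + 1) * ‖((Φ x z - Φ x' z, τ x - τ x') : ℂ × (ℝ × ℝ))‖ := by
      positivity
    nlinarith [h1, h3]
  · intro z hz S hSU hS g
    set f : E → E := fun x => T.symm (Φ x z, τ x) with hf
    have hinj : InjOn f S := by
      intro x hx x' hx' hxx
      have h1 := hlip z hz x (hSU hx) x' (hSU hx')
      have h2 : T.symm (Φ x z, τ x) = T.symm (Φ x' z, τ x') := hxx
      rw [h2, sub_self, norm_zero, mul_zero] at h1
      exact sub_eq_zero.1 (norm_le_zero_iff.1 h1)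
    have hcv := lintegral_image_eq_lintegral_abs_det_fderiv_mul volume hS
      (fun x hx => (hder z hz x (hSU hx)).hasFDerivWithinAt) hinj (fun y => g (T y))
    have hTf : ∀ x, T (T.symm (Φ x z, τ x)) = (Φ x z, τ x) := fun x => T.apply_symm_apply _
    have h1 : ∫⁻ x in S, g (Φ x z, τ x) ≤
        2 * ∫⁻ x in S, ENNReal.ofReal |(D (x, z)).det| * g (T (T.symm (Φ x z, τ x))) := by
      rw [← lintegral_const_mul' _ _ (by simp)]
      refine setLIntegral_mono_ae' hS (Filter.Eventually.of_forall fun x hx => ?_)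
      rw [hTf, ← mul_assoc]
      have h2 : (1 : ENNReal) ≤ 2 * ENNReal.ofReal |(D (x, z)).det| := by
        have h3 : (1 / 2 : ℝ) ≤ |(D (x, z)).det| := (hbd x (hSU hx) z hz).2.2.le
        have h4 : ENNReal.ofReal (2 * |(D (x, z)).det|) = 2 * ENNReal.ofReal |(D (x, z)).det| := by
          rw [ENNReal.ofReal_mul (by norm_num)]
          simp
        rw [← h4, ← ENNReal.ofReal_one]
        exact ENNReal.ofReal_le_ofReal (by linarith)
      calc g (Φ x z, τ x) = 1 * g (Φ x z, τ x) := (one_mul _).symm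
        _ ≤ _ := mul_le_mul_left h2 _
    -- transfer to the product space
    have h2 : ∫⁻ y in f '' S, g (T y) = ∫⁻ p in (fun x => (Φ x z, τ x)) '' S, g p ∂μ := by
      have hme : MeasurableEmbedding T := T.toHomeomorph.measurableEmbedding
      rw [hμ, hme.restrict_map, hme.lintegral_map]
      have h3 : T ⁻¹' ((fun x => (Φ x z, τ x)) '' S) = f '' S := by
        ext y
        constructor
        · rintro ⟨x, hx, hxy⟩
          refine ⟨x, hx, ?_⟩
          change T.symm (Φ x z, τ x) = y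
          have hxy' : (Φ x z, τ x) = T y := hxy
          rw [hxy', T.symm_apply_apply]
        · rintro ⟨x, hx, rfl⟩
          exact ⟨x, hx, (hTf x).symm⟩
      rw [h3]
    have h3 : ∫⁻ p in (fun x => (Φ x z, τ x)) '' S, g p ∂μ =
        (c : ENNReal) * ∫⁻ p in (fun x => (Φ x z, τ x)) '' S, g p := by
      rw [hc, Measure.restrict_smul, lintegral_smul_measure]
      rfl
    calc ∫⁻ x in S, g (Φ x z, τ x) ≤
        2 * ∫⁻ x in S, ENNReal.ofReal |(D (x, z)).det| * g (T (T.symm (Φ x z, τ x))) := h1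
      _ = 2 * ((c : ENNReal) * ∫⁻ p in (fun x => (Φ x z, τ x)) '' S, g p) := by
          rw [← h3, ← h2, hcv]
      _ = (2 * (c : ENNReal)) * ∫⁻ p in (fun x => (Φ x z, τ x)) '' S, g p := by
          rw [mul_assoc]
      _ ≤ _ := by
          refine mul_le_mul_left ?_ _
          have h4 : (2 * (c : ENNReal)) = ENNReal.ofReal (2 * (c : ℝ)) := by
            rw [ENNReal.ofReal_mul (by norm_num), ENNReal.ofReal_coe_nnreal]
            simp
          rw [h4]
          refine ENNReal.ofReal_le_ofReal ?_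
          have : 0 ≤ ‖(T.symm : ℂ × (ℝ × ℝ) →L[ℝ] E)‖ := norm_nonneg _
          linarith

end Pool.Agent.N289.CV
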