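import Pool.Agent.N289.CV.Defs

/-!
Project CV, task S6: model integrals, `g1_est`, `good_part`, `g3_est` (helper282).
-/

set_option autoImplicit false

namespace Pool.Agent.N289.CV

open MeasureTheory Set Filter Topology

namespace S6

/-- planar integrals of powers -/
theorem lint_rpow (R q : ℝ) (hR : 0 ≤ R) (hq : -2 < q) :
    ∫⁻ φ in {φ : ℂ | ‖φ‖ ≤ R}, ENNReal.ofReal (‖φ‖ ^ q) ≠ ⊤ := by
  have hm : MeasurableSet {φ : ℂ | ‖φ‖ ≤ R} := measurableSet_le measurable_norm measurable_const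
  rw [← lintegral_indicator hm, ← Complex.lintegral_comp_polarCoord_symm]
  have hle : ∀ p ∈ polarCoord.target, (ENNReal.ofReal p.1 • ({φ : ℂ | ‖φ‖ ≤ R}.indicator
      (fun φ => ENNReal.ofReal (‖φ‖ ^ q)) (Complex.polarCoord.symm p))) ≤
      (Ioc 0 R ×ˢ Ioo (-Real.pi) Real.pi).indicator (fun p => ENNReal.ofReal (p.1 ^ (q + 1))) p := by
    rintro ⟨r, θ⟩ hp
    rw [polarCoord_target] at hp
    obtain ⟨hr, hθ⟩ := hp
    have hr' : 0 < r := hr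
    by_cases hrR : r ≤ R
    · rw [indicator_of_mem, indicator_of_mem]
      · rw [Complex.norm_polarCoord_symm]
        simp only [abs_of_pos hr', smul_eq_mul]
        rw [← ENNReal.ofReal_mul hr'.le, Real.rpow_add_one hr'.ne', mul_comm]
      · exact ⟨⟨hr', hrR⟩, hθ⟩
      · show ‖_‖ ≤ R
        rw [Complex.norm_polarCoord_symm]
        simpa [abs_of_pos hr'] using hrR
    · rw [indicator_of_notMem]
      · simp
      · show ¬ ‖_‖ ≤ R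
        rw [Complex.norm_polarCoord_symm]
        simpa [abs_of_pos hr'] using hrR
  refine ne_top_of_le_ne_top ?_ (setLIntegral_mono' polarCoord.open_target.measurableSet hle)
  refine ne_top_of_le_ne_top ?_ (setLIntegral_le_lintegral _ _)
  rw [lintegral_indicator (measurableSet_Ioc.prod measurableSet_Ioo)]
  have hmeas : Measurable (fun r : ℝ => ENNReal.ofReal (r ^ (q + 1))) := by fun_prop
  rw [Measure.volume_eq_prod, ← Measure.prod_restrict, lintegral_prod _ (by fun_prop)]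
  simp only [lintegral_const, Measure.restrict_apply MeasurableSet.univ, univ_inter]
  rw [lintegral_mul_const _ hmeas]
  refine ENNReal.mul_ne_top ?_ (by simp)
  have hint : IntegrableOn (fun r : ℝ => r ^ (q + 1)) (Ioc 0 R) := by
    have := (intervalIntegral.intervalIntegrable_rpow' (a := 0) (b := R) (r := q + 1) (by linarith))
    rwa [intervalIntegrable_iff_integrableOn_Ioc_of_le hR] at this
  have h2 := hint.lintegral_lt_top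
  exact h2.ne

theorem lint_inv (R : ℝ) (hR : 0 ≤ R) :
    ∫⁻ φ in {φ : ℂ | ‖φ‖ ≤ R}, ENNReal.ofReal (‖φ‖⁻¹) ≠ ⊤ := by
  have h := lint_rpow R (-1) hR (by norm_num)
  simp_rw [Real.rpow_neg_one] at h
  exact h

/-- the integral of `‖u‖⁻¹` over a square -/
theorem sq_inv (R : ℝ) (hR : 0 ≤ R) : ∫⁻ u in {u : ℝ × ℝ | ‖u‖ ≤ R}, ‖u‖ₑ⁻¹ ≠ ⊤ := by
  have hm : MeasurableSet {u : ℝ × ℝ | ‖u‖ ≤ R} := measurableSet_le measurable_norm measurable_const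
  rw [← lintegral_indicator hm]
  rw [← Complex.volume_preserving_equiv_real_prod.lintegral_comp_emb
    Complex.measurableEquivRealProd.measurableEmbedding]
  have hm2 : MeasurableSet {φ : ℂ | ‖φ‖ ≤ 2 * R} := measurableSet_le measurable_norm measurable_const
  have hle : (fun φ : ℂ => {u : ℝ × ℝ | ‖u‖ ≤ R}.indicator (fun u => ‖u‖ₑ⁻¹)
      (Complex.measurableEquivRealProd φ)) ≤ᵐ[volume]
      {φ : ℂ | ‖φ‖ ≤ 2 * R}.indicator (fun φ => 2 * ENNReal.ofReal (‖φ‖⁻¹)) := by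
    have hae : ∀ᵐ φ : ℂ, φ ≠ 0 := by
      have : (volume : Measure ℂ) {0} = 0 := measure_singleton 0
      exact measure_eq_zero_iff_ae_notMem.1 this
    filter_upwards [hae] with φ hφ
    have e1 : Complex.measurableEquivRealProd φ = (φ.re, φ.im) := by
      simp [Complex.measurableEquivRealProd_apply]
    rw [e1]
    have hn : ‖φ‖ ≤ 2 * ‖((φ.re, φ.im) : ℝ × ℝ)‖ := by
      have h1 := Complex.norm_le_abs_re_add_abs_im φ
      have h2 : |φ.re| ≤ ‖((φ.re, φ.im) : ℝ × ℝ)‖ := norm_fst_le ((φ.re, φ.im) : ℝ × ℝ)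
      have h3 : |φ.im| ≤ ‖((φ.re, φ.im) : ℝ × ℝ)‖ := norm_snd_le ((φ.re, φ.im) : ℝ × ℝ)
      linarith
    by_cases hu : ‖((φ.re, φ.im) : ℝ × ℝ)‖ ≤ R
    · rw [indicator_of_mem (show ((φ.re, φ.im) : ℝ × ℝ) ∈ {u : ℝ × ℝ | ‖u‖ ≤ R} from hu),
        indicator_of_mem (show φ ∈ {φ : ℂ | ‖φ‖ ≤ 2 * R} from hn.trans (by linarith))]
      have hφ' : 0 < ‖φ‖ := norm_pos_iff.2 hφ
      have hu' : 0 < ‖((φ.re, φ.im) : ℝ × ℝ)‖ := by linarith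
      rw [← ofReal_norm, ← ENNReal.ofReal_inv_of_pos hu',
        show (2 : ENNReal) = ENNReal.ofReal 2 by norm_num, ← ENNReal.ofReal_mul (by norm_num)]
      refine ENNReal.ofReal_le_ofReal ?_
      rw [inv_le_comm₀ hu' (by positivity), mul_inv, inv_inv]
      linarith
    · rw [indicator_of_notMem (show ((φ.re, φ.im) : ℝ × ℝ) ∉ {u : ℝ × ℝ | ‖u‖ ≤ R} from hu)]
      exact bot_le
  refine ne_top_of_le_ne_top ?_ (lintegral_mono_ae hle)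
  rw [lintegral_indicator hm2, lintegral_const_mul _ (by fun_prop)]
  exact ENNReal.mul_ne_top (by norm_num) (lint_inv _ (by positivity))

theorem sq_shift (R : ℝ) (v : ℝ × ℝ) (hv : ‖v‖ ≤ R) :
    ∫⁻ t in {t : ℝ × ℝ | ‖t‖ ≤ R}, ‖t - v‖ₑ⁻¹ ≤ ∫⁻ u in {u : ℝ × ℝ | ‖u‖ ≤ 2 * R}, ‖u‖ₑ⁻¹ := by
  have hm : MeasurableSet {u : ℝ × ℝ | ‖u‖ ≤ R} := measurableSet_le measurable_norm measurable_const
  have hm2 : MeasurableSet {u : ℝ × ℝ | ‖u‖ ≤ 2 * R} :=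
    measurableSet_le measurable_norm measurable_const
  rw [← lintegral_indicator hm, ← lintegral_indicator hm2,
    ← lintegral_sub_right_eq_self
      ({u : ℝ × ℝ | ‖u‖ ≤ 2 * R}.indicator fun u => ‖u‖ₑ⁻¹) v]
  refine lintegral_mono fun t => ?_
  by_cases ht : ‖t‖ ≤ R
  · have h2 : t - v ∈ {u : ℝ × ℝ | ‖u‖ ≤ 2 * R} := by
      show ‖t - v‖ ≤ 2 * R
      exact (norm_sub_le _ _).trans (by linarith)
    rw [indicator_of_mem (show t ∈ {t : ℝ × ℝ | ‖t‖ ≤ R} from ht), indicator_of_mem h2]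
  · rw [indicator_of_notMem (show t ∉ {t : ℝ × ℝ | ‖t‖ ≤ R} from ht)]
    exact bot_le

theorem inv_bd (τ : E →L[ℝ] ℝ × ℝ) (x z : E) :
    ENNReal.ofReal (‖x - z‖⁻¹) ≤ ENNReal.ofReal (‖τ‖ + 1) * ‖τ x - τ z‖ₑ⁻¹ := by
  rcases eq_or_ne x z with rfl | hne
  · simp
  have h0 : 0 < ‖x - z‖ := norm_pos_iff.2 (sub_ne_zero.2 hne)
  have hτ : 0 < ‖τ‖ + 1 := by positivity
  rcases eq_or_ne (τ x) (τ z) with he | hne'
  · rw [he, sub_self, enorm_zero, ENNReal.inv_zero, ENNReal.mul_top (by simpa using hτ)]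
    exact le_top
  have h1 : 0 < ‖τ x - τ z‖ := norm_pos_iff.2 (sub_ne_zero.2 hne')
  rw [← ofReal_norm, ← ENNReal.ofReal_inv_of_pos h1, ← ENNReal.ofReal_mul hτ.le]
  refine ENNReal.ofReal_le_ofReal ?_
  have h2 : ‖τ x - τ z‖ ≤ (‖τ‖ + 1) * ‖x - z‖ := by
    rw [← map_sub]
    exact (τ.le_opNorm _).trans (by gcongr; linarith)
  rw [← div_eq_mul_inv, le_div_iff₀ h1, inv_mul_le_iff₀ h0]
  linarith

/-- image of a measurable set in a chart -/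
theorem meas_image {Φ : E → E → ℂ} {τ : E →L[ℝ] ℝ × ℝ} {U V : Set E} {C : ℝ}
    (hch : IsChart Φ τ U V C) {z : E} (hz : z ∈ V) {S : Set E} (hSU : S ⊆ U) (hS : MeasurableSet S) :
    MeasurableSet ((fun x => (Φ x z, τ x)) '' S) := by
  obtain ⟨-, -, -, hcont, hinj, -⟩ := hch
  refine hS.image_of_continuousOn_injOn
    (((hcont z hz).mono hSU).prodMk τ.continuous.continuousOn) ?_
  intro x hx x' hx' he
  have h1 := hinj z hz x (hSU hx) x' (hSU hx')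
  simp only [Prod.mk.injEq] at he
  rw [he.1, he.2] at h1
  have h2 : ‖x - x'‖ ≤ 0 := by simpa using h1
  exact sub_eq_zero.1 (norm_le_zero_iff.1 h2)

theorem tau_bd {τ : E →L[ℝ] ℝ × ℝ} {R : ℝ} {x : E} (h : ‖x‖ ≤ R) : ‖τ x‖ ≤ ‖τ‖ * |R| :=
  (τ.le_opNorm x).trans (mul_le_mul_of_nonneg_left (h.trans (le_abs_self R)) (norm_nonneg _))

/-- product bound -/
theorem prod_bd {P : Set (ℂ × (ℝ × ℝ))} {A : Set ℂ} {T : Set (ℝ × ℝ)}
    (hPA : ∀ p ∈ P, p.1 ∈ A) (hPT : ∀ p ∈ P, p.2 ∈ T) {f : ℂ → ENNReal} {h : ℝ × ℝ → ENNReal}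
    (hf : Measurable f) (hh : Measurable h) :
    ∫⁻ p in P, f p.1 * h p.2 ≤ (∫⁻ φ in A, f φ) * ∫⁻ t in T, h t := by
  have hsub : P ⊆ A ×ˢ T := fun p hp => ⟨hPA p hp, hPT p hp⟩
  refine (lintegral_mono_set hsub).trans ?_
  rw [Measure.volume_eq_prod, ← Measure.prod_restrict, lintegral_prod_mul hf.aemeasurable hh.aemeasurable]

end S6

theorem g1_est {Φ : E → E → ℂ} {τ : E →L[ℝ] ℝ × ℝ} {U V : Set E} {C R : ℝ} (hch : IsChart Φ τ U V C)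
    (hU : ∀ x ∈ U, ‖x‖ ≤ R) (hV : ∀ z ∈ V, ‖z‖ ≤ R) (hΦ : ∀ z ∈ V, ∀ x ∈ U, ‖Φ x z‖ ≤ R) :
    ∃ B : ENNReal, B ≠ ⊤ ∧ ∀ z ∈ V, ∫⁻ x in U, ENNReal.ofReal (‖Φ x z‖⁻¹ * ‖x - z‖⁻¹) ≤ B := by
  have hch' := hch
  obtain ⟨hUo, -, -, -, -, hint⟩ := hch
  set R' : ℝ := ‖τ‖ * |R| with hR'
  refine ⟨ENNReal.ofReal (‖τ‖ + 1) * (ENNReal.ofReal C * ((∫⁻ φ in {φ : ℂ | ‖φ‖ ≤ |R|},
    ENNReal.ofReal (‖φ‖⁻¹)) * ∫⁻ u in {u : ℝ × ℝ | ‖u‖ ≤ 2 * R'}, ‖u‖ₑ⁻¹)), ?_, ?_⟩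
  · exact ENNReal.mul_ne_top ENNReal.ofReal_ne_top (ENNReal.mul_ne_top ENNReal.ofReal_ne_top
      (ENNReal.mul_ne_top (S6.lint_inv _ (abs_nonneg _)) (S6.sq_inv _ (by positivity))))
  intro z hz
  have h1 : ∀ x : E, ENNReal.ofReal (‖Φ x z‖⁻¹ * ‖x - z‖⁻¹) ≤
      ENNReal.ofReal (‖τ‖ + 1) * (ENNReal.ofReal (‖Φ x z‖⁻¹) * ‖τ x - τ z‖ₑ⁻¹) := by
    intro x
    rw [ENNReal.ofReal_mul (by positivity), mul_left_comm]
    gcongr
    exact S6.inv_bd τ x z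
  refine (lintegral_mono h1).trans ?_
  rw [lintegral_const_mul' _ _ ENNReal.ofReal_ne_top]
  gcongr
  refine (hint z hz U subset_rfl hUo.measurableSet
    (fun p => ENNReal.ofReal (‖p.1‖⁻¹) * ‖p.2 - τ z‖ₑ⁻¹)).trans ?_
  gcongr
  refine (S6.prod_bd (A := {φ : ℂ | ‖φ‖ ≤ |R|}) (T := {t : ℝ × ℝ | ‖t‖ ≤ R'})
    (f := fun φ => ENNReal.ofReal (‖φ‖⁻¹)) (h := fun t => ‖t - τ z‖ₑ⁻¹) ?_ ?_ (by fun_prop)
    (by fun_prop)).trans ?_
  · rintro _ ⟨x, hx, rfl⟩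
    exact (hΦ z hz x hx).trans (le_abs_self R)
  · rintro _ ⟨x, hx, rfl⟩
    exact S6.tau_bd (hU x hx)
  · exact mul_le_mul_right (S6.sq_shift R' (τ z) (S6.tau_bd (hV z hz))) _

/-- good part -/
theorem good_part {Φ : E → E → ℂ} {τ : E →L[ℝ] ℝ × ℝ} {U V : Set E} {C R : ℝ} (hch : IsChart Φ τ U V C)
    (hU : ∀ x ∈ U, ‖x‖ ≤ R) (hΦ : ∀ z ∈ V, ∀ x ∈ U, ‖Φ x z‖ ≤ R) :
    ∃ B : ENNReal, B ≠ ⊤ ∧ ∀ z ∈ V, ∫⁻ x in U, ENNReal.ofReal (‖Φ x z‖ ^ (-(19/10) : ℝ)) ≤ B := by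
  obtain ⟨hUo, -, -, -, -, hint⟩ := hch
  set R' : ℝ := ‖τ‖ * |R| with hR'
  refine ⟨ENNReal.ofReal C * ((∫⁻ φ in {φ : ℂ | ‖φ‖ ≤ |R|}, ENNReal.ofReal (‖φ‖ ^ (-(19/10) : ℝ))) *
    ∫⁻ _t in {u : ℝ × ℝ | ‖u‖ ≤ R'}, 1), ?_, ?_⟩
  · refine ENNReal.mul_ne_top ENNReal.ofReal_ne_top
      (ENNReal.mul_ne_top (S6.lint_rpow _ _ (abs_nonneg _) (by norm_num)) ?_)
    rw [setLIntegral_one]
    have : {u : ℝ × ℝ | ‖u‖ ≤ R'} = Metric.closedBall 0 R' := by ext u; simp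
    rw [this]
    exact measure_closedBall_lt_top.ne
  intro z hz
  refine (hint z hz U subset_rfl hUo.measurableSet
    (fun p => ENNReal.ofReal (‖p.1‖ ^ (-(19/10) : ℝ)))).trans ?_
  gcongr
  have h := S6.prod_bd (P := (fun x => (Φ x z, τ x)) '' U) (A := {φ : ℂ | ‖φ‖ ≤ |R|})
    (T := {t : ℝ × ℝ | ‖t‖ ≤ R'})
    (f := fun φ => ENNReal.ofReal (‖φ‖ ^ (-(19/10) : ℝ))) (h := fun _ => 1) ?_ ?_ (by fun_prop)
    (by fun_prop)
  · simpa only [mul_one] using h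
  · rintro _ ⟨x, hx, rfl⟩
    exact (hΦ z hz x hx).trans (le_abs_self R)
  · rintro _ ⟨x, hx, rfl⟩
    exact S6.tau_bd (hU x hx)

namespace S6

theorem slice_int (A : Set ℂ) (h0 : ∀ φ ∈ A, φ ≠ 0) (h : ∀ φ ∈ A, ∀ φ' ∈ A, ‖φ'‖ ≤ 4 * ‖φ‖) :
    ∫⁻ φ in A, ENNReal.ofReal ((‖φ‖⁻¹) ^ 2) ≤ 256 * ENNReal.ofReal Real.pi := by
  rcases A.eq_empty_or_nonempty with rfl | ⟨φ0, hφ0⟩
  · simp
  have hp : 0 < ‖φ0‖ := norm_pos_iff.2 (h0 _ hφ0)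
  have hb : ∀ φ ∈ A, ENNReal.ofReal ((‖φ‖⁻¹) ^ 2) ≤ ENNReal.ofReal (16 * (‖φ0‖⁻¹) ^ 2) := by
    intro φ hφ
    have hφp : 0 < ‖φ‖ := norm_pos_iff.2 (h0 _ hφ)
    refine ENNReal.ofReal_le_ofReal ?_
    have h1 := h φ hφ φ0 hφ0
    have h2 : ‖φ‖⁻¹ ≤ 4 * ‖φ0‖⁻¹ := by
      rw [inv_le_comm₀ hφp (by positivity), mul_inv, inv_inv]
      linarith
    calc (‖φ‖⁻¹) ^ 2 ≤ (4 * ‖φ0‖⁻¹) ^ 2 := by gcongr
      _ = 16 * (‖φ0‖⁻¹) ^ 2 := by ring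
  calc ∫⁻ φ in A, ENNReal.ofReal ((‖φ‖⁻¹) ^ 2)
      ≤ ∫⁻ _φ in A, ENNReal.ofReal (16 * (‖φ0‖⁻¹) ^ 2) := by
        refine lintegral_mono_ae ?_
        have hsub : A ⊆ {φ | ENNReal.ofReal ((‖φ‖⁻¹) ^ 2) ≤ ENNReal.ofReal (16 * (‖φ0‖⁻¹) ^ 2)} := hb
        have hmm : MeasurableSet
            {φ : ℂ | ENNReal.ofReal ((‖φ‖⁻¹) ^ 2) ≤ ENNReal.ofReal (16 * (‖φ0‖⁻¹) ^ 2)} :=
          measurableSet_le (by fun_prop) measurable_const
        rw [ae_iff]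
        have : {a : ℂ | ¬ENNReal.ofReal ((‖a‖⁻¹) ^ 2) ≤ ENNReal.ofReal (16 * (‖φ0‖⁻¹) ^ 2)} =
            {φ : ℂ | ENNReal.ofReal ((‖φ‖⁻¹) ^ 2) ≤ ENNReal.ofReal (16 * (‖φ0‖⁻¹) ^ 2)}ᶜ := rfl
        rw [this, Measure.restrict_apply hmm.compl]
        have : {φ : ℂ | ENNReal.ofReal ((‖φ‖⁻¹) ^ 2) ≤ ENNReal.ofReal (16 * (‖φ0‖⁻¹) ^ 2)}ᶜ ∩ A = ∅ := by
          ext φ
          simp only [mem_inter_iff, mem_compl_iff, mem_empty_iff_false, iff_false, not_and]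
          intro h3 h4
          exact h3 (hsub h4)
        rw [this, measure_empty]
    _ = ENNReal.ofReal (16 * (‖φ0‖⁻¹) ^ 2) * volume A := by
        rw [setLIntegral_const]
    _ ≤ ENNReal.ofReal (16 * (‖φ0‖⁻¹) ^ 2) * volume (Metric.closedBall (0 : ℂ) (4 * ‖φ0‖)) := by
        gcongr
        intro φ hφ
        simpa using h φ0 hφ0 φ hφ
    _ = 256 * ENNReal.ofReal Real.pi := by
        rw [Complex.volume_closedBall]
        have e1 : ((NNReal.pi : NNReal) : ENNReal) = ENNReal.ofReal Real.pi := by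
          rw [← NNReal.coe_real_pi, ENNReal.ofReal_coe_nnreal]
        rw [e1, ← ENNReal.ofReal_pow (by positivity), ← ENNReal.ofReal_mul (by positivity),
          ← ENNReal.ofReal_mul (by positivity), show (256 : ENNReal) = ENNReal.ofReal 256 by norm_num,
          ← ENNReal.ofReal_mul (by norm_num)]
        congr 1
        field_simp
        ring

end S6

theorem g3_est {Φ : E → E → ℂ} {τ : E →L[ℝ] ℝ × ℝ} {U V : Set E} {C R L : ℝ} (hch : IsChart Φ τ U V C)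
    (hU : ∀ x ∈ U, ‖x‖ ≤ R) (hV : ∀ z ∈ V, ‖z‖ ≤ R) (hΦ : ∀ z ∈ V, ∀ x ∈ U, ‖Φ x z‖ ≤ R)
    (d : E → ℝ) (hd : Continuous d) (hL : ∀ x ∈ U, ∀ x' ∈ U, |d x - d x'| ≤ L * ‖x - x'‖) :
    ∃ c0 : ℝ, 0 < c0 ∧ ∀ c : ℝ, 0 < c → c ≤ c0 → ∃ B : ENNReal, B ≠ ⊤ ∧ ∀ z ∈ V,
      ∫⁻ x in U ∩ {x | 0 < d x ∧ c * d x ≤ 2 * ‖Φ x z‖ ∧ ‖Φ x z‖ ≤ c * d x},
        ENNReal.ofReal (((d x)⁻¹) ^ 2 * ‖x - z‖⁻¹) ≤ B := by
  have hch' := hch
  obtain ⟨hUo, -, hC, hcont, hinj, hint⟩ := hch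
  set L1 : ℝ := max L 1 with hL1
  have hL1pos : 0 < L1 := lt_max_of_lt_right one_pos
  refine ⟨1 / (3 * L1 * C), by positivity, fun c hc hc0 => ?_⟩
  set R' : ℝ := ‖τ‖ * |R| with hR'
  refine ⟨ENNReal.ofReal (c ^ 2) * ENNReal.ofReal (‖τ‖ + 1) * (ENNReal.ofReal C *
    (256 * ENNReal.ofReal Real.pi * ∫⁻ u in {u : ℝ × ℝ | ‖u‖ ≤ 2 * R'}, ‖u‖ₑ⁻¹)), ?_, ?_⟩
  · exact ENNReal.mul_ne_top (ENNReal.mul_ne_top ENNReal.ofReal_ne_top ENNReal.ofReal_ne_top)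
      (ENNReal.mul_ne_top ENNReal.ofReal_ne_top
      (ENNReal.mul_ne_top (ENNReal.mul_ne_top (by norm_num) ENNReal.ofReal_ne_top)
        (S6.sq_inv _ (by positivity))))
  intro z hz
  set S : Set E := U ∩ {x | 0 < d x ∧ c * d x ≤ 2 * ‖Φ x z‖ ∧ ‖Φ x z‖ ≤ c * d x} with hS
  have hSU : S ⊆ U := inter_subset_left
  -- measurability
  have hSm : MeasurableSet S := by
    have hcn : ContinuousOn (fun x => (d x, ‖Φ x z‖)) U :=
      hd.continuousOn.prodMk (hcont z hz).norm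
    have hK1 : IsClosed {p : ℝ × ℝ | c * p.1 ≤ 2 * p.2} := isClosed_le (by fun_prop) (by fun_prop)
    have hK2 : IsClosed {p : ℝ × ℝ | p.2 ≤ c * p.1} := isClosed_le (by fun_prop) (by fun_prop)
    have hK : IsClosed {p : ℝ × ℝ | c * p.1 ≤ 2 * p.2 ∧ p.2 ≤ c * p.1} := hK1.inter hK2
    obtain ⟨K, hKc, hKe⟩ := continuousOn_iff_isClosed.1 hcn _ hK
    have : S = {x | 0 < d x} ∩ (K ∩ U) := by
      rw [← hKe]
      ext x
      simp only [hS, mem_inter_iff, mem_ofPred_eq, mem_preimage]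
      tauto
    rw [this]
    exact (isOpen_lt continuous_const hd).measurableSet.inter (hKc.measurableSet.inter hUo.measurableSet)
  have hpos : ∀ x ∈ S, 0 < ‖Φ x z‖ := by
    rintro x ⟨-, h1, h2, h3⟩
    have := mul_pos hc h1
    linarith
  -- pointwise bound
  have h1 : ∀ x ∈ S, ENNReal.ofReal (((d x)⁻¹) ^ 2 * ‖x - z‖⁻¹) ≤
      ENNReal.ofReal (c ^ 2) * ENNReal.ofReal (‖τ‖ + 1) *
        (ENNReal.ofReal ((‖Φ x z‖⁻¹) ^ 2) * ‖τ x - τ z‖ₑ⁻¹) := by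
    intro x hx
    have hΦp := hpos x hx
    obtain ⟨-, hx1, hx2, hx3⟩ := hx
    have e1 : (d x)⁻¹ ≤ c * ‖Φ x z‖⁻¹ := by
      rw [← div_eq_mul_inv, le_div_iff₀ hΦp, inv_mul_le_iff₀ hx1]
      linarith
    have e2 : ((d x)⁻¹) ^ 2 ≤ c ^ 2 * (‖Φ x z‖⁻¹) ^ 2 := by
      rw [← mul_pow]
      gcongr
    calc ENNReal.ofReal (((d x)⁻¹) ^ 2 * ‖x - z‖⁻¹)
        ≤ ENNReal.ofReal (c ^ 2 * (‖Φ x z‖⁻¹) ^ 2 * ‖x - z‖⁻¹) := by
          refine ENNReal.ofReal_le_ofReal ?_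
          gcongr
      _ = ENNReal.ofReal (c ^ 2) * ENNReal.ofReal ((‖Φ x z‖⁻¹) ^ 2) * ENNReal.ofReal (‖x - z‖⁻¹) := by
          rw [ENNReal.ofReal_mul (by positivity), ENNReal.ofReal_mul (by positivity)]
      _ ≤ ENNReal.ofReal (c ^ 2) * ENNReal.ofReal ((‖Φ x z‖⁻¹) ^ 2) *
          (ENNReal.ofReal (‖τ‖ + 1) * ‖τ x - τ z‖ₑ⁻¹) := by
          gcongr
          exact S6.inv_bd τ x z
      _ = _ := by ring
  refine (setLIntegral_mono' hSm h1).trans ?_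
  rw [lintegral_const_mul' _ _ (ENNReal.mul_ne_top ENNReal.ofReal_ne_top ENNReal.ofReal_ne_top)]
  gcongr
  refine (hint z hz S hSU hSm (fun p => ENNReal.ofReal ((‖p.1‖⁻¹) ^ 2) * ‖p.2 - τ z‖ₑ⁻¹)).trans ?_
  gcongr
  have hP := S6.meas_image hch' hz hSU hSm
  set P : Set (ℂ × (ℝ × ℝ)) := (fun x => (Φ x z, τ x)) '' S with hPdef
  have hgm : Measurable (fun p : ℂ × (ℝ × ℝ) => ENNReal.ofReal ((‖p.1‖⁻¹) ^ 2) * ‖p.2 - τ z‖ₑ⁻¹) := by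
    fun_prop
  rw [← lintegral_indicator hP, Measure.volume_eq_prod,
    lintegral_prod_symm _ (hgm.indicator hP).aemeasurable]
  have hsl : ∀ t : ℝ × ℝ, ∫⁻ φ : ℂ, P.indicator
      (fun p : ℂ × (ℝ × ℝ) => ENNReal.ofReal ((‖p.1‖⁻¹) ^ 2) * ‖p.2 - τ z‖ₑ⁻¹) (φ, t) ≤
      {t : ℝ × ℝ | ‖t‖ ≤ R'}.indicator (fun t => 256 * ENNReal.ofReal Real.pi * ‖t - τ z‖ₑ⁻¹) t := by
    intro t
    have hPm : MeasurableSet ((fun φ : ℂ => (φ, t)) ⁻¹' P) := measurable_prodMk_right hP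
    have e1 : (fun φ : ℂ => P.indicator
        (fun p : ℂ × (ℝ × ℝ) => ENNReal.ofReal ((‖p.1‖⁻¹) ^ 2) * ‖p.2 - τ z‖ₑ⁻¹) (φ, t)) =
        ((fun φ : ℂ => (φ, t)) ⁻¹' P).indicator
          (fun φ => ENNReal.ofReal ((‖φ‖⁻¹) ^ 2) * ‖t - τ z‖ₑ⁻¹) := by
      ext φ
      by_cases h2 : (φ, t) ∈ P
      · rw [indicator_of_mem h2, indicator_of_mem (show φ ∈ (fun φ : ℂ => (φ, t)) ⁻¹' P from h2)]
      · rw [indicator_of_notMem h2, indicator_of_notMem (show φ ∉ (fun φ : ℂ => (φ, t)) ⁻¹' P from h2)]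
    rw [e1, lintegral_indicator hPm, lintegral_mul_const _ (by fun_prop)]
    rcases ((fun φ : ℂ => (φ, t)) ⁻¹' P).eq_empty_or_nonempty with he | ⟨φ0, hφ0⟩
    · rw [he]; simp
    · have ht : ‖t‖ ≤ R' := by
        obtain ⟨x, hx, hxe⟩ := hφ0
        simp only [Prod.mk.injEq] at hxe
        rw [← hxe.2]
        exact S6.tau_bd (hU x (hSU hx))
      rw [indicator_of_mem (show t ∈ {t : ℝ × ℝ | ‖t‖ ≤ R'} from ht)]
      gcongr
      refine S6.slice_int _ ?_ ?_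
      · rintro φ ⟨x, hx, hxe⟩
        simp only [Prod.mk.injEq] at hxe
        rw [← hxe.1]
        exact norm_pos_iff.1 (hpos x hx)
      · rintro φ ⟨x, hx, hxe⟩ φ' ⟨x', hx', hxe'⟩
        simp only [Prod.mk.injEq] at hxe hxe'
        rw [← hxe.1, ← hxe'.1]
        have hτ : τ x - τ x' = 0 := by rw [hxe.2, hxe'.2, sub_self]
        have h2 := hinj z hz x (hSU hx) x' (hSU hx')
        rw [hτ] at h2
        have h3 : ‖((Φ x z - Φ x' z, (0 : ℝ × ℝ)) : ℂ × (ℝ × ℝ))‖ = ‖Φ x z - Φ x' z‖ := by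
          rw [Prod.norm_mk, norm_zero, max_eq_left (norm_nonneg _)]
        rw [h3] at h2
        obtain ⟨hxU, hx1, hx2, hx3⟩ := hx
        obtain ⟨hxU', hx1', hx2', hx3'⟩ := hx'
        have h4 : ‖Φ x z - Φ x' z‖ ≤ c * (d x + d x') := by
          refine (norm_sub_le _ _).trans ?_
          linarith
        have h5 : |d x - d x'| ≤ L1 * (C * (c * (d x + d x'))) := by
          refine (hL x hxU x' hxU').trans ?_
          have h6 : ‖x - x'‖ ≤ C * (c * (d x + d x')) := h2.trans (by gcongr)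
          calc L * ‖x - x'‖ ≤ L1 * ‖x - x'‖ := by
                gcongr
                exact le_max_left _ _
            _ ≤ L1 * (C * (c * (d x + d x'))) := by gcongr
        have h7 : L1 * (C * (c * (d x + d x'))) ≤ (d x + d x') / 3 := by
          have h8 : c * (3 * L1 * C) ≤ 1 := by
            rw [← le_div_iff₀ (by positivity)]
            exact hc0
          nlinarith [add_pos hx1 hx1']
        have h9 : d x' ≤ 2 * d x := by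
          have := (abs_le.1 (h5.trans h7)).1
          linarith
        have h10 : c * d x' ≤ c * (2 * d x) := by gcongr
        linarith
  refine (lintegral_mono hsl).trans ?_
  have hmR : MeasurableSet {t : ℝ × ℝ | ‖t‖ ≤ R'} := measurableSet_le measurable_norm measurable_const
  rw [lintegral_indicator hmR, lintegral_const_mul _ (by fun_prop)]
  exact mul_le_mul_right (S6.sq_shift R' (τ z) (S6.tau_bd (hV z hz))) _

end Pool.Agent.N289.CV
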