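import Pool.Agent.N289.CV.Defs

/-!
Project CV, task S7: thinness lemma in dimension one and the bad part of the estimate (helper282).
-/

set_option autoImplicit false

namespace Pool.Agent.N289.CV

open MeasureTheory Set Filter Topology

/-- 1-D thinness lemma -/
theorem thin_measure (S : Set ℝ) (R l μ : ℝ) (hR : 0 ≤ R) (hl : 0 < l) (hμ : 0 ≤ μ)
    (hS : ∀ s ∈ S, |s| ≤ R) (h : ∀ s ∈ S, ∀ s' ∈ S, |s - s'| ≤ l → |s - s'| ≤ μ) :
    volume S ≤ ENNReal.ofReal ((2 * R / l + 1) * (2 * μ)) := by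
  set n : ℕ := ⌊2 * R / l⌋₊ + 1 with hn
  have hcov : S ⊆ ⋃ k ∈ Finset.range n, (S ∩ {s | ⌊(s + R) / l⌋₊ = k}) := by
    intro s hs
    have h1 := abs_le.1 (hS s hs)
    refine mem_iUnion₂.2 ⟨⌊(s + R) / l⌋₊, ?_, hs, rfl⟩
    rw [Finset.mem_range, hn, Nat.lt_succ_iff]
    refine Nat.floor_le_floor ?_
    gcongr
    linarith
  have hpiece : ∀ k ∈ Finset.range n, volume (S ∩ {s | ⌊(s + R) / l⌋₊ = k}) ≤
      ENNReal.ofReal (2 * μ) := by
    intro k _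
    rcases (S ∩ {s | ⌊(s + R) / l⌋₊ = k}).eq_empty_or_nonempty with he | ⟨s0, hs0, hk0⟩
    · rw [he]; simp
    · have hsub : S ∩ {s | ⌊(s + R) / l⌋₊ = k} ⊆ Icc (s0 - μ) (s0 + μ) := by
        rintro s ⟨hs, hk⟩
        have hb : ∀ r ∈ S, ⌊(r + R) / l⌋₊ = k → k * l ≤ r + R ∧ r + R < (k + 1) * l := by
          intro r hr hrk
          have h1 := abs_le.1 (hS r hr)
          have h0 : 0 ≤ (r + R) / l := div_nonneg (by linarith) hl.le
          have := (Nat.floor_eq_iff h0).1 hrk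
          exact ⟨(le_div_iff₀ hl).1 this.1, (div_lt_iff₀ hl).1 this.2⟩
        have h1 := hb s hs hk
        have h2 := hb s0 hs0 hk0
        have h3 : |s - s0| ≤ l := by
          rw [abs_le]
          constructor <;> nlinarith
        have h4 := abs_le.1 (h s hs s0 hs0 h3)
        constructor <;> linarith
      calc volume (S ∩ {s | ⌊(s + R) / l⌋₊ = k}) ≤ volume (Icc (s0 - μ) (s0 + μ)) :=
            measure_mono hsub
        _ = ENNReal.ofReal (2 * μ) := by rw [Real.volume_Icc]; congr 1; ring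
  calc volume S ≤ volume (⋃ k ∈ Finset.range n, (S ∩ {s | ⌊(s + R) / l⌋₊ = k})) :=
        measure_mono hcov
    _ ≤ ∑ k ∈ Finset.range n, volume (S ∩ {s | ⌊(s + R) / l⌋₊ = k}) :=
        measure_biUnion_finset_le _ _
    _ ≤ ∑ _k ∈ Finset.range n, ENNReal.ofReal (2 * μ) := Finset.sum_le_sum hpiece
    _ = ENNReal.ofReal (n * (2 * μ)) := by
        rw [Finset.sum_const, Finset.card_range, nsmul_eq_mul,
          ENNReal.ofReal_mul (Nat.cast_nonneg n), ENNReal.ofReal_natCast]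
    _ ≤ ENNReal.ofReal ((2 * R / l + 1) * (2 * μ)) := by
        refine ENNReal.ofReal_le_ofReal ?_
        have : (n : ℝ) ≤ 2 * R / l + 1 := by
          rw [hn]; push_cast
          have := Nat.floor_le (show 0 ≤ 2 * R / l by positivity)
          linarith
        exact mul_le_mul_of_nonneg_right this (by linarith)

namespace S7

/-- planar integrals of powers -/
theorem lint_rpow (R q : ℝ) (hR : 0 ≤ R) (hq : -2 < q) :
    ∫⁻ φ in {φ : ℂ | ‖φ‖ ≤ R}, ENNReal.ofReal (‖φ‖ ^ q) ≠ ⊤ := by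
  have hm : MeasurableSet {φ : ℂ | ‖φ‖ ≤ R} := measurableSet_le measurable_norm measurable_const
  rw [← lintegral_indicator hm, ← Complex.lintegral_comp_polarCoord_symm]
  have hle : ∀ p ∈ polarCoord.target, (ENNReal.ofReal p.1 • ({φ : ℂ | ‖φ‖ ≤ R}.indicator
      (fun φ => ENNReal.ofReal (‖φ‖ ^ q)) (Complex.polarCoord.symm p))) ≤
      (Ioc 0 R ×ˢ Ioo (-Real.pi) Real.pi).indicator (fun p => ENNReal.ofReal (p.1 ^ (q + 1))) p := by
    rintro ⟨r, θ⟩ hp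
    rw [polarCoord_target] at hp
    obtain ⟨hr, hθ⟩ := hp
    have hr' : 0 < r := hr
    by_cases hrR : r ≤ R
    · rw [indicator_of_mem, indicator_of_mem]
      · rw [Complex.norm_polarCoord_symm]
        simp only [abs_of_pos hr', smul_eq_mul]
        rw [← ENNReal.ofReal_mul hr'.le, Real.rpow_add_one hr'.ne', mul_comm]
      · exact ⟨⟨hr', hrR⟩, hθ⟩
      · show ‖_‖ ≤ R
        rw [Complex.norm_polarCoord_symm]
        simpa [abs_of_pos hr'] using hrR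
    · rw [indicator_of_notMem]
      · simp
      · show ¬ ‖_‖ ≤ R
        rw [Complex.norm_polarCoord_symm]
        simpa [abs_of_pos hr'] using hrR
  refine ne_top_of_le_ne_top ?_ (setLIntegral_mono' polarCoord.open_target.measurableSet hle)
  refine ne_top_of_le_ne_top ?_ (setLIntegral_le_lintegral _ _)
  rw [lintegral_indicator (measurableSet_Ioc.prod measurableSet_Ioo)]
  have hmeas : Measurable (fun r : ℝ => ENNReal.ofReal (r ^ (q + 1))) := by fun_prop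
  rw [Measure.volume_eq_prod, ← Measure.prod_restrict, lintegral_prod _ (by fun_prop)]
  simp only [lintegral_const, Measure.restrict_apply MeasurableSet.univ, univ_inter]
  rw [lintegral_mul_const _ hmeas]
  refine ENNReal.mul_ne_top ?_ (by simp)
  have hint : IntegrableOn (fun r : ℝ => r ^ (q + 1)) (Ioc 0 R) := by
    have := (intervalIntegral.intervalIntegrable_rpow' (a := 0) (b := R) (r := q + 1) (by linarith))
    rwa [intervalIntegrable_iff_integrableOn_Ioc_of_le hR] at this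
  have h2 := hint.lintegral_lt_top
  exact h2.ne

/-- slices -/
theorem area_le₀ {T : Set (ℝ × ℝ)} (hT : MeasurableSet T) {K : ENNReal} {R' : ℝ}
    (hR : ∀ t ∈ T, |t.2| ≤ R') (hK : ∀ t1, volume {t0 : ℝ | (t0, t1) ∈ T} ≤ K) :
    volume T ≤ K * ENNReal.ofReal (2 * R') := by
  rw [Measure.volume_eq_prod, Measure.prod_apply_symm hT]
  have hle : ∀ t1 : ℝ, volume ((fun t0 => (t0, t1)) ⁻¹' T) ≤ (Icc (-R') R').indicator (fun _ => K) t1 := by
    intro t1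
    by_cases h1 : t1 ∈ Icc (-R') R'
    · rw [indicator_of_mem h1]
      exact hK t1
    · rw [indicator_of_notMem h1]
      have : (fun t0 => (t0, t1)) ⁻¹' T = ∅ := by
        ext t0
        simp only [mem_preimage, mem_empty_iff_false, iff_false]
        intro h2
        exact h1 (abs_le.1 (hR _ h2))
      rw [this]; simp
  refine (lintegral_mono hle).trans ?_
  rw [lintegral_indicator measurableSet_Icc, lintegral_const]
  simp only [Measure.restrict_apply MeasurableSet.univ, univ_inter, Real.volume_Icc]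
  refine le_of_eq ?_
  congr 2; ring

theorem area_le₁ {T : Set (ℝ × ℝ)} (hT : MeasurableSet T) {K : ENNReal} {R' : ℝ}
    (hR : ∀ t ∈ T, |t.1| ≤ R') (hK : ∀ t0, volume {t1 : ℝ | (t0, t1) ∈ T} ≤ K) :
    volume T ≤ K * ENNReal.ofReal (2 * R') := by
  rw [Measure.volume_eq_prod, Measure.prod_apply hT]
  have hle : ∀ t0 : ℝ, volume (Prod.mk t0 ⁻¹' T) ≤ (Icc (-R') R').indicator (fun _ => K) t0 := by
    intro t0
    by_cases h1 : t0 ∈ Icc (-R') R'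
    · rw [indicator_of_mem h1]
      exact hK t0
    · rw [indicator_of_notMem h1]
      have : Prod.mk t0 ⁻¹' T = ∅ := by
        ext t1
        simp only [mem_preimage, mem_empty_iff_false, iff_false]
        intro h2
        exact h1 (abs_le.1 (hR _ h2))
      rw [this]; simp
  refine (lintegral_mono hle).trans ?_
  rw [lintegral_indicator measurableSet_Icc, lintegral_const]
  simp only [Measure.restrict_apply MeasurableSet.univ, univ_inter, Real.volume_Icc]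
  refine le_of_eq ?_
  congr 2; ring

/-- the estimate in the chart -/
theorem chart_bound (j : Fin 2) (a b R R' : ℝ) (ha : 0 < a) (hb : 0 < b) (hR : 0 ≤ R) (hR' : 0 ≤ R')
    {P : Set (ℂ × (ℝ × ℝ))} (hP : MeasurableSet P) (h1 : ∀ p ∈ P, ‖p.1‖ ≤ R)
    (h20 : ∀ p ∈ P, |p.2.1| ≤ R') (h21 : ∀ p ∈ P, |p.2.2| ≤ R')
    (h : ∀ p ∈ P, ∀ p' ∈ P, ∀ s : ℝ, p'.1 = p.1 → p'.2 - p.2 = s • ev j →
      |s| ≤ a * ‖p.1‖ ^ (1/5 : ℝ) → |s| ≤ b * ‖p.1‖ ^ (3/10 : ℝ)) :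
    ∫⁻ p in P, ENNReal.ofReal (‖p.1‖ ^ (-2 : ℝ)) ≤
      ENNReal.ofReal ((2 * R' / a + R ^ (1/5 : ℝ)) * (2 * b)) * ENNReal.ofReal (2 * R') *
        ∫⁻ φ in {φ : ℂ | ‖φ‖ ≤ R}, ENNReal.ofReal (‖φ‖ ^ (-19/10 : ℝ)) := by
  set K0 : ℝ := (2 * R' / a + R ^ (1/5 : ℝ)) * (2 * b) with hK0
  have hK0' : 0 ≤ K0 := by positivity
  have hGm : Measurable (fun φ : ℂ => ENNReal.ofReal (‖φ‖ ^ (-2 : ℝ))) := by fun_prop
  have hGm' : Measurable (P.indicator (fun p : ℂ × (ℝ × ℝ) => ENNReal.ofReal (‖p.1‖ ^ (-2 : ℝ)))) :=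
    (hGm.comp measurable_fst).indicator hP
  rw [← lintegral_indicator hP, Measure.volume_eq_prod, lintegral_prod _ hGm'.aemeasurable]
  have hslice : ∀ φ : ℂ, ∫⁻ t : ℝ × ℝ, P.indicator (fun p => ENNReal.ofReal (‖p.1‖ ^ (-2 : ℝ))) (φ, t) =
      ENNReal.ofReal (‖φ‖ ^ (-2 : ℝ)) * volume (Prod.mk φ ⁻¹' P) := by
    intro φ
    have hPm : MeasurableSet (Prod.mk φ ⁻¹' P) := measurable_prodMk_left hP
    have : (fun t : ℝ × ℝ => P.indicator (fun p => ENNReal.ofReal (‖p.1‖ ^ (-2 : ℝ))) (φ, t)) =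
        (Prod.mk φ ⁻¹' P).indicator (fun _ => ENNReal.ofReal (‖φ‖ ^ (-2 : ℝ))) := by
      ext t
      by_cases ht : (φ, t) ∈ P
      · rw [indicator_of_mem ht, indicator_of_mem (show t ∈ Prod.mk φ ⁻¹' P from ht)]
      · rw [indicator_of_notMem ht, indicator_of_notMem (show t ∉ Prod.mk φ ⁻¹' P from ht)]
    rw [this, lintegral_indicator_const hPm]
  simp_rw [hslice]
  have hmR : MeasurableSet {φ : ℂ | ‖φ‖ ≤ R} := measurableSet_le measurable_norm measurable_const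
  rw [← lintegral_const_mul _ (by fun_prop), ← lintegral_indicator hmR]
  refine lintegral_mono fun φ => ?_
  by_cases hφR : ‖φ‖ ≤ R
  swap
  · have : Prod.mk φ ⁻¹' P = ∅ := by
      ext t
      simp only [mem_preimage, mem_empty_iff_false, iff_false]
      exact fun ht => hφR (h1 _ ht)
    rw [this]; simp
  rw [indicator_of_mem (show φ ∈ {φ : ℂ | ‖φ‖ ≤ R} from hφR)]
  rcases eq_or_ne φ 0 with h0 | h0
  · rw [h0, norm_zero, Real.zero_rpow (by norm_num)]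
    simp
  have hpos : 0 < ‖φ‖ := norm_pos_iff.2 h0
  -- the slices
  have hsl : ∀ A : Set ℝ, (∀ s ∈ A, |s| ≤ R') →
      (∀ s ∈ A, ∀ s' ∈ A, |s - s'| ≤ a * ‖φ‖ ^ (1/5 : ℝ) → |s - s'| ≤ b * ‖φ‖ ^ (3/10 : ℝ)) →
      volume A ≤ ENNReal.ofReal (K0 * ‖φ‖ ^ (1/10 : ℝ)) := by
    intro A hA1 hA2
    refine (thin_measure A R' _ _ hR' (by positivity) (by positivity) hA1 hA2).trans ?_
    refine ENNReal.ofReal_le_ofReal ?_
    have e1 : ‖φ‖ ^ (3/10 : ℝ) = ‖φ‖ ^ (1/5 : ℝ) * ‖φ‖ ^ (1/10 : ℝ) := by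
      rw [← Real.rpow_add hpos]; norm_num
    have e2 : ‖φ‖ ^ (1/5 : ℝ) ≤ R ^ (1/5 : ℝ) := Real.rpow_le_rpow hpos.le hφR (by norm_num)
    have e3 : 0 < ‖φ‖ ^ (1/5 : ℝ) := by positivity
    have e4 : 0 < ‖φ‖ ^ (1/10 : ℝ) := by positivity
    calc (2 * R' / (a * ‖φ‖ ^ (1/5 : ℝ)) + 1) * (2 * (b * ‖φ‖ ^ (3/10 : ℝ)))
        = (2 * R' / a + ‖φ‖ ^ (1/5 : ℝ)) * (2 * b) * ‖φ‖ ^ (1/10 : ℝ) := by
          rw [e1]; field_simp
      _ ≤ (2 * R' / a + R ^ (1/5 : ℝ)) * (2 * b) * ‖φ‖ ^ (1/10 : ℝ) := by gcongr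
      _ = K0 * ‖φ‖ ^ (1/10 : ℝ) := by rw [hK0]
  have hPm : MeasurableSet (Prod.mk φ ⁻¹' P) := measurable_prodMk_left hP
  have harea : volume (Prod.mk φ ⁻¹' P) ≤
      ENNReal.ofReal (K0 * ‖φ‖ ^ (1/10 : ℝ)) * ENNReal.ofReal (2 * R') := by
    have hj : j = 0 ∨ j = 1 := by omega
    rcases hj with rfl | rfl
    · refine area_le₀ hPm (fun t ht => h21 _ ht) fun t1 => hsl _ (fun s hs => h20 _ hs) ?_
      intro s hs s' hs' hle
      refine h (φ, (s', t1)) hs' (φ, (s, t1)) hs (s - s') rfl ?_ hle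
      simp [ev]
    · refine area_le₁ hPm (fun t ht => h20 _ ht) fun t0 => hsl _ (fun s hs => h21 _ hs) ?_
      intro s hs s' hs' hle
      refine h (φ, (t0, s')) hs' (φ, (t0, s)) hs (s - s') rfl ?_ hle
      simp [ev]
  calc ENNReal.ofReal (‖φ‖ ^ (-2 : ℝ)) * volume (Prod.mk φ ⁻¹' P)
      ≤ ENNReal.ofReal (‖φ‖ ^ (-2 : ℝ)) *
        (ENNReal.ofReal (K0 * ‖φ‖ ^ (1/10 : ℝ)) * ENNReal.ofReal (2 * R')) := by gcongr
    _ = ENNReal.ofReal K0 * ENNReal.ofReal (2 * R') * ENNReal.ofReal (‖φ‖ ^ (-19/10 : ℝ)) := by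
        have e5 : ‖φ‖ ^ (-19/10 : ℝ) = ‖φ‖ ^ (-2 : ℝ) * ‖φ‖ ^ (1/10 : ℝ) := by
          rw [← Real.rpow_add hpos]; norm_num
        have e6 : ENNReal.ofReal (K0 * ‖φ‖ ^ (1/10 : ℝ)) =
            ENNReal.ofReal K0 * ENNReal.ofReal (‖φ‖ ^ (1/10 : ℝ)) := ENNReal.ofReal_mul hK0'
        have e7 : ENNReal.ofReal (‖φ‖ ^ (-2 : ℝ) * ‖φ‖ ^ (1/10 : ℝ)) =
            ENNReal.ofReal (‖φ‖ ^ (-2 : ℝ)) * ENNReal.ofReal (‖φ‖ ^ (1/10 : ℝ)) :=
          ENNReal.ofReal_mul (by positivity)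
        rw [e5, e6, e7]
        generalize ENNReal.ofReal K0 = k
        ring

end S7

/-- bad part -/
theorem bad_part {Φ : E → E → ℂ} {τ : E →L[ℝ] ℝ × ℝ} {U V : Set E} {C R : ℝ} (hch : IsChart Φ τ U V C)
    (hU : ∀ x ∈ U, ‖x‖ ≤ R) (hΦ : ∀ z ∈ V, ∀ x ∈ U, ‖Φ x z‖ ≤ R) (j : Fin 2)
    (a b : ℝ) (ha : 0 < a) (hb : 0 < b) :
    ∃ B : ENNReal, B ≠ ⊤ ∧ ∀ z ∈ V, ∀ S : Set E, S ⊆ U → MeasurableSet S →
      (∀ x ∈ S, ∀ x' ∈ S, ∀ s : ℝ, Φ x' z = Φ x z → τ x' - τ x = s • ev j →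
        |s| ≤ a * ‖Φ x z‖ ^ (1/5 : ℝ) → |s| ≤ b * ‖Φ x z‖ ^ (3/10 : ℝ)) →
      ∫⁻ x in S, ENNReal.ofReal (‖Φ x z‖ ^ (-2 : ℝ)) ≤ B := by
  obtain ⟨-, -, -, hcont, hinj, hint⟩ := hch
  set R' : ℝ := ‖τ‖ * |R| with hR'
  refine ⟨ENNReal.ofReal C * (ENNReal.ofReal ((2 * R' / a + |R| ^ (1/5 : ℝ)) * (2 * b)) *
    ENNReal.ofReal (2 * R') * ∫⁻ φ in {φ : ℂ | ‖φ‖ ≤ |R|}, ENNReal.ofReal (‖φ‖ ^ (-19/10 : ℝ))), ?_, ?_⟩
  · refine ENNReal.mul_ne_top ENNReal.ofReal_ne_top (ENNReal.mul_ne_top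
      (ENNReal.mul_ne_top ENNReal.ofReal_ne_top ENNReal.ofReal_ne_top)
      (S7.lint_rpow _ _ (abs_nonneg _) (by norm_num)))
  intro z hz S hSU hS hthin
  refine (hint z hz S hSU hS (fun p => ENNReal.ofReal (‖p.1‖ ^ (-2 : ℝ)))).trans ?_
  gcongr
  have hP : MeasurableSet ((fun x => (Φ x z, τ x)) '' S) := by
    refine hS.image_of_continuousOn_injOn
      (((hcont z hz).mono hSU).prodMk τ.continuous.continuousOn) ?_
    intro x hx x' hx' he
    have h1 := hinj z hz x (hSU hx) x' (hSU hx')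
    simp only [Prod.mk.injEq] at he
    rw [he.1, he.2] at h1
    have h2 : ‖x - x'‖ ≤ 0 := by simpa using h1
    exact sub_eq_zero.1 (norm_le_zero_iff.1 h2)
  have hτ : ∀ x ∈ S, ‖τ x‖ ≤ R' := by
    intro x hx
    refine (τ.le_opNorm x).trans ?_
    rw [hR']
    exact mul_le_mul_of_nonneg_left ((hU x (hSU hx)).trans (le_abs_self R)) (norm_nonneg _)
  refine S7.chart_bound j a b |R| R' ha hb (abs_nonneg _) (by positivity) hP ?_ ?_ ?_ ?_
  · rintro _ ⟨x, hx, rfl⟩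
    exact (hΦ z hz x (hSU hx)).trans (le_abs_self R)
  · rintro _ ⟨x, hx, rfl⟩
    exact (norm_fst_le (τ x)).trans (hτ x hx)
  · rintro _ ⟨x, hx, rfl⟩
    exact (norm_snd_le (τ x)).trans (hτ x hx)
  · rintro _ ⟨x, hx, rfl⟩ _ ⟨x', hx', rfl⟩ s h1 h2 h3
    exact hthin x hx x' hx' s h1 h2 h3

end Pool.Agent.N289.CV
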