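import Pool.Agent.N289.CV.Basic
set_option autoImplicit false
namespace Pool.Agent.N289.CV
open MeasureTheory Set Filter Topology

namespace S8

/-- Cauchy-Schwarz consequence: `Hs(a,a) = 0` implies `Hs(a,b) = 0`. -/
theorem Hs_zero {N : E → ℝ} (hN : Good N) {x : E} (hx : x ≠ 0) {a : E} (ha : Hs N x a a = 0) (b : E) :
    Hs N x a b = 0 := by
  by_contra hne
  have h : ∀ t : ℝ, 0 ≤ 2 * t * Hs N x a b + Hs N x b b := by
    intro t
    have h1 := Hs_nonneg hN hx (t • a + b)
    simp only [map_add, map_smul, add_apply, smul_apply, smul_eq_mul] at h1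
    rw [ha, Hs_symm hN hx b a] at h1
    linarith
  have h2 := h (-(Hs N x b b + 1) / (2 * Hs N x a b))
  have h3 : 2 * (-(Hs N x b b + 1) / (2 * Hs N x a b)) * Hs N x a b = -(Hs N x b b + 1) := by
    field_simp
  rw [h3] at h2
  linarith

end S8

theorem Phi_surj {N : E → ℝ} (hN : Good N) {x0 z0 : E} (hx : N x0 = 1) (hz : N z0 ≤ 1)
    (hΦ : Phi N x0 z0 = 0) : N z0 = 1 ∧ Function.Surjective (fderiv ℝ (fun x => Phi N x z0) x0) := by
  have hx0 : x0 ≠ 0 := hN.ne_zero (by rw [hx]; exact one_pos)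
  have h1 := Phi_re hN hx0 z0
  rw [hΦ, Complex.zero_re] at h1
  have h2 := hN.supp hx0 z0
  have hz1 : N z0 = 1 := by linarith
  refine ⟨hz1, ?_⟩
  set v := x0 - z0 with hv
  -- pairings
  have hp := Phi_eq N x0 z0
  rw [hΦ, ← hv] at hp
  have hDv : fderiv ℝ N x0 v = 0 := by
    rw [hv, map_sub, hN.euler hx0]; linarith
  have hDiv : fderiv ℝ N x0 (Complex.I • v) = 0 := by
    have := congrArg Complex.im hp
    simp [hDv] at this
    exact this
  -- N = 1 on the segment
  have hseg : ∀ t : ℝ, 0 ≤ t → t ≤ 1 → N (x0 + t • (-v)) = 1 := by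
    intro t ht0 ht1
    have hle : N (x0 + t • (-v)) ≤ 1 := by
      have := hN.cvx.2 (mem_univ x0) (mem_univ z0) (show (0:ℝ) ≤ 1 - t by linarith) ht0 (by ring)
      have e : (1 - t) • x0 + t • z0 = x0 + t • (-v) := by rw [hv]; module
      rw [e, hx, hz1] at this
      simpa using this
    have hge := hN.supp hx0 (x0 + t • (-v))
    rw [map_add, map_smul, map_neg, hDv, hN.euler hx0, hx, neg_zero, smul_zero, add_zero] at hge
    linarith
  -- second derivative
  have hHv : Hs N x0 v v = 0 := by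
    have hne : ∀ t : ℝ, 0 ≤ t → t ≤ 1 → x0 + t • (-v) ≠ 0 := fun t h h' => hN.ne_zero (by rw [hseg t h h']; exact one_pos)
    have hd : ∀ t : ℝ, 0 < t → t < 1 → fderiv ℝ N (x0 + t • (-v)) v = 0 := by
      intro t ht0 ht1
      have h3 : HasDerivAt (fun s : ℝ => N (x0 + s • (-v))) (fderiv ℝ N (x0 + t • (-v)) (-v)) t := by
        have h := (hN.differentiableAt (hne t ht0.le ht1.le)).hasFDerivAt
        have h2 : HasDerivAt (fun s : ℝ => x0 + s • (-v)) (-v) t := by
          simpa using ((hasDerivAt_id t).smul_const (-v)).const_add x0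
        exact h.comp_hasDerivAt t h2
      have h4 : HasDerivAt (fun s : ℝ => N (x0 + s • (-v))) 0 t := by
        refine (hasDerivAt_const t (1:ℝ)).congr_of_eventuallyEq ?_
        filter_upwards [Ioo_mem_nhds ht0 ht1] with s hs
        exact hseg s hs.1.le hs.2.le
      have := h3.unique h4
      rw [map_neg, neg_eq_zero] at this
      exact this
    have h5 : HasDerivAt (fun t : ℝ => fderiv ℝ N (x0 + t • (-v)) v) (Hs N x0 (-v) v) 0 := by
      have h2 : HasDerivAt (fun t : ℝ => x0 + t • (-v)) (-v) 0 := by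
        simpa using ((hasDerivAt_id (0:ℝ)).smul_const (-v)).const_add x0
      have h3 : HasFDerivAt (fderiv ℝ N) (Hs N x0) (x0 + (0:ℝ) • (-v)) := by
        simpa using fderiv_hasFDerivAt hN hx0
      have h4 := h3.comp_hasDerivAt 0 h2
      exact (ContinuousLinearMap.apply ℝ ℝ v).hasFDerivAt.comp_hasDerivAt 0 h4
    have h6 : Tendsto (slope (fun t : ℝ => fderiv ℝ N (x0 + t • (-v)) v) 0) (𝓝[>] 0) (𝓝 (Hs N x0 (-v) v)) :=
      (hasDerivAt_iff_tendsto_slope.mp h5).mono_left (nhdsWithin_mono _ (fun t ht => ne_of_gt ht))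
    have h7 : Tendsto (slope (fun t : ℝ => fderiv ℝ N (x0 + t • (-v)) v) 0) (𝓝[>] 0) (𝓝 0) := by
      refine tendsto_const_nhds.congr' ?_
      filter_upwards [Ioo_mem_nhdsGT (show (0:ℝ) < 1 by norm_num)] with t ht
      rw [slope_def_field]
      simp only [zero_smul, add_zero, sub_zero]
      rw [hd t ht.1 ht.2, hDv]
      simp
    have h8 := tendsto_nhds_unique h6 h7
    rw [map_neg, neg_apply, neg_eq_zero] at h8
    exact h8
  have hHv' : ∀ h, Hs N x0 h v = 0 := fun h => by
    rw [Hs_symm hN hx0]; exact S8.Hs_zero hN hx0 hHv h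
  -- derivative
  set D := fderiv ℝ (fun x => Phi N x z0) x0 with hD
  have hDeq : ∀ h, D h = (1/2 : ℂ) * ((fderiv ℝ N x0 h : ℝ) -
      Complex.I * ((fderiv ℝ N x0 (Complex.I • h) + Hs N x0 h (Complex.I • v) : ℝ) : ℂ)) := by
    intro h
    rw [hD, fderiv_Phi hN hx0, w_pair, ← hv, hHv']
    push_cast
    ring
  have hre : ∀ h, (D h).re = fderiv ℝ N x0 h / 2 := by
    intro h; rw [hDeq]; simp; ring
  have him : ∀ h, (D h).im = -(fderiv ℝ N x0 (Complex.I • h) + Hs N x0 h (Complex.I • v)) / 2 := by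
    intro h; rw [hDeq]; simp; ring
  -- it suffices that no nonzero functional kills the range
  by_contra hns
  have hlt : LinearMap.range (D : E →ₗ[ℝ] ℂ) ≠ ⊤ := by
    intro h; exact hns (LinearMap.range_eq_top.mp h)
  obtain ⟨f, hf0, hf⟩ := Submodule.exists_le_ker_of_lt_top _ (lt_top_iff_ne_top.mpr hlt)
  set α := f 1 with hα
  set β := f Complex.I with hβ
  have hfz : ∀ z : ℂ, f z = z.re * α + z.im * β := by
    intro z
    have : z = z.re • (1:ℂ) + z.im • Complex.I := by
      apply Complex.ext <;> simp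
    rw [this, map_add, map_smul, map_smul]
    simp [hα, hβ]
  have hker : ∀ h, fderiv ℝ N x0 h * α = (fderiv ℝ N x0 (Complex.I • h) + Hs N x0 h (Complex.I • v)) * β := by
    intro h
    have h1 : f (D h) = 0 := hf ⟨h, rfl⟩
    rw [hfz, hre, him] at h1
    linarith
  have hβ0 : β = 0 := by
    by_contra hβne
    have h3 := hker (Complex.I • v)
    rw [smul_smul, Complex.I_mul_I, neg_one_smul, map_neg, hDv, hDiv] at h3
    simp only [zero_mul, neg_zero, zero_add] at h3
    have h4 : Hs N x0 (Complex.I • v) (Complex.I • v) = 0 := by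
      rcases mul_eq_zero.mp h3.symm with h | h
      · exact h
      · exact absurd h hβne
    have h5 : ∀ h, Hs N x0 h (Complex.I • v) = 0 := fun h => by
      rw [Hs_symm hN hx0]; exact S8.Hs_zero hN hx0 h4 h
    have h6 := hker x0
    have h7 := hker (Complex.I • x0)
    rw [h5, add_zero] at h6 h7
    rw [smul_smul, Complex.I_mul_I, neg_one_smul, map_neg, hN.euler hx0, hx] at h7
    rw [hN.euler hx0, hx] at h6
    have h8 : α ^ 2 + β ^ 2 = 0 := by linear_combination α * h6 + β * h7
    have h9 : 0 < β ^ 2 := by positivity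
    nlinarith [sq_nonneg α]
  have hα0 : α = 0 := by
    have h6 := hker x0
    rw [hN.euler hx0, hx, hβ0] at h6
    linarith
  apply hf0
  apply LinearMap.ext
  intro z
  rw [hfz, hα0, hβ0]
  simp

end Pool.Agent.N289.CV
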