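import Pool.Agent.N289.CV.Basic
import Pool.Agent.N289.CV.S5
import Pool.Agent.N289.CV.S6
import Pool.Agent.N289.CV.S7
import Pool.Agent.N289.CV.S8
import Pool.Agent.N289.CV.S10
import Pool.Agent.N289.CV.S11
import Pool.Agent.N289.CV.S12
set_option autoImplicit false
namespace Pool.Agent.N289.CV
open MeasureTheory Set Filter Topology

theorem LocP.mono {N : E → ℝ} {T T' : Set (E × E)} (h : T ⊆ T') (hT : LocP N T') : LocP N T := by
  obtain ⟨c0, hc0, H⟩ := hT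
  refine ⟨c0, hc0, fun c h1 h2 => ?_⟩
  obtain ⟨B, hB, H'⟩ := H c h1 h2
  refine ⟨B, hB, fun z hz => le_trans (lintegral_mono_set ?_) (H' z hz)⟩
  rintro x ⟨h1, h2⟩
  exact ⟨h1, h h2⟩

theorem LocP.empty (N : E → ℝ) : LocP N ∅ := by
  refine ⟨1, one_pos, fun c h1 h2 => ⟨0, by simp, fun z hz => ?_⟩⟩
  simp

theorem LocP.union {N : E → ℝ} {T T' : Set (E × E)} (h : LocP N T) (h' : LocP N T') : LocP N (T ∪ T') := by
  obtain ⟨c0, hc0, H⟩ := h
  obtain ⟨c1, hc1, H'⟩ := h'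
  refine ⟨min c0 c1, lt_min hc0 hc1, fun c h1 h2 => ?_⟩
  obtain ⟨B, hB, HB⟩ := H c h1 (h2.trans (min_le_left _ _))
  obtain ⟨B', hB', HB'⟩ := H' c h1 (h2.trans (min_le_right _ _))
  refine ⟨B + B', ENNReal.add_ne_top.mpr ⟨hB, hB'⟩, fun z hz => ?_⟩
  have e : Reg c N z ∩ {x | (x, z) ∈ T ∪ T'} = (Reg c N z ∩ {x | (x, z) ∈ T}) ∪ (Reg c N z ∩ {x | (x, z) ∈ T'}) := by
    ext x; simp only [mem_inter_iff, mem_ofPred_eq, mem_union]; tauto
  rw [e]
  exact (lintegral_union_le _ _ _).trans (add_le_add (HB z hz) (HB' z hz))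

theorem IsChart.mono {Φ : E → E → ℂ} {τ : E →L[ℝ] ℝ × ℝ} {U V U' V' : Set E} {C : ℝ}
    (h : IsChart Φ τ U V C) (hU : IsOpen U') (hV : IsOpen V') (hUU : U' ⊆ U) (hVV : V' ⊆ V) :
    IsChart Φ τ U' V' C := by
  obtain ⟨-, -, hC, h1, h2, h3⟩ := h
  exact ⟨hU, hV, hC, fun z hz => (h1 z (hVV hz)).mono hUU,
    fun z hz x hx x' hx' => h2 z (hVV hz) x (hUU hx) x' (hUU hx'),
    fun z hz S hS hm g => h3 z (hVV hz) S (hS.trans hUU) hm g⟩

/-- the local estimate in a chart -/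
theorem local_chart {N : E → ℝ} (hN : Good N) {τ : E →L[ℝ] ℝ × ℝ} {U V : Set E} {C R L BQ C' : ℝ}
    (hch : IsChart (Phi N) τ U V C) (hx0 : ∀ x ∈ U, x ≠ 0)
    (hU : ∀ x ∈ U, ‖x‖ ≤ R) (hV : ∀ z ∈ V, ‖z‖ ≤ R) (hΦ : ∀ z ∈ V, ∀ x ∈ U, ‖Phi N x z‖ ≤ R)
    (hL : ∀ x ∈ U, ∀ x' ∈ U, |N x - N x'| ≤ L * ‖x - x'‖)
    (hC' : 0 ≤ C')
    (hd : ∀ x ∈ U, ∀ z ∈ V, dPhi N x z ≤
        C' * (‖x - z‖ * (Real.sqrt (Qf N τ 0 x z) + Real.sqrt (Qf N τ 1 x z)) + ‖Phi N x z‖))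
    (hBQ : 0 ≤ BQ) (hQ : ∀ x ∈ U, ∀ z ∈ V, ∀ j, Real.sqrt (Qf N τ j x z) ≤ BQ)
    (a C'' : ℝ) (ha : 0 < a) (hC'' : 0 ≤ C'')
    (hSD : ∀ j : Fin 2, ∀ z ∈ V, ∀ x ∈ U, ∀ x' ∈ U, ∀ s t κ' : ℝ, Phi N x' z = Phi N x z → τ x' - τ x = s • ev j →
        0 < t → t ≤ Qf N τ j x z → |s| ≤ a * t → N z - fderiv ℝ N x z ≤ κ' → N z - fderiv ℝ N x' z ≤ κ' →
        |s| ≤ C'' * Real.sqrt κ' / t) :
    LocP N (U ×ˢ V) := by
  obtain ⟨c0, hc0, H3⟩ := g3_est hch hU hV hΦ (fun x => 1 - N x) (by have := hN.cont; fun_prop) (L := L) (by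
    intro x hx x' hx'
    have := hL x hx x' hx'
    rw [abs_sub_comm] at this
    calc |1 - N x - (1 - N x')| = |N x' - N x| := by congr 1; ring
      _ ≤ _ := this)
  obtain ⟨B1, hB1, H1⟩ := g1_est hch hU hV hΦ
  obtain ⟨B2, hB2, H2⟩ := good_part hch hU hΦ
  refine ⟨c0, hc0, fun c hc hcc => ?_⟩
  obtain ⟨B3, hB3, H3⟩ := H3 c hc hcc
  have hbad := fun j => bad_part hch hU hΦ j a (C'' * Real.sqrt (2 + 2 / c) + 1) ha (by positivity)
  choose B4 hB4 H4 using hbad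
  refine ⟨ENNReal.ofReal (1 + C') * B1 + ENNReal.ofReal (2 * C') * B2 + ENNReal.ofReal (C' * BQ) * B4 0
    + ENNReal.ofReal (C' * BQ) * B4 1 + B3, ?_, fun z hz => ?_⟩
  · simp only [ne_eq, ENNReal.add_eq_top, not_or]
    refine ⟨⟨⟨⟨?_, ?_⟩, ?_⟩, ?_⟩, hB3⟩ <;> apply ENNReal.mul_ne_top ENNReal.ofReal_ne_top
    exacts [hB1, hB2, hB4 0, hB4 1]
  by_cases hzV : z ∈ V
  swap
  · have : Reg c N z ∩ {x | (x, z) ∈ U ×ˢ V} = ∅ := by
      ext x; simp [hzV]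
    rw [this]; simp
  have hUo : IsOpen U := hch.1
  have hcΦ : ContinuousOn (fun x => Phi N x z) U := hch.2.2.2.1 z hzV
  have hcQ : ∀ j, ContinuousOn (fun x => Qf N τ j x z) U := fun j =>
    (Qf_cont hN hch hx0 j).1.comp (by fun_prop : Continuous (fun x : E => (x, z))).continuousOn
      (fun x hx => ⟨hx, hzV⟩)
  have hUm : MeasurableSet U := hUo.measurableSet
  have hRm : MeasurableSet (U ∩ Reg c N z) := by
    have e : U ∩ Reg c N z = (U ∩ {x | N x < 1 ∧ 1 / 4 ≤ N x}) \ (U ∩ (fun x => 2 * ‖Phi N x z‖ - c * (1 - N x)) ⁻¹' (Iio 0)) := by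
      ext x
      simp only [Reg, mem_inter_iff, mem_ofPred_eq, Set.mem_sdiff, mem_preimage, mem_Iio, not_and, not_lt, sub_nonneg]
      tauto
    rw [e]
    have h1 : IsOpen (U ∩ (fun x => 2 * ‖Phi N x z‖ - c * (1 - N x)) ⁻¹' (Iio 0)) :=
      ((continuousOn_const.mul hcΦ.norm).sub (continuousOn_const.mul
        (continuousOn_const.sub hN.cont.continuousOn))).isOpen_inter_preimage hUo isOpen_Iio
    have h2 : MeasurableSet {x : E | N x < 1 ∧ 1 / 4 ≤ N x} :=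
      (measurableSet_lt hN.cont.measurable measurable_const).inter
        (measurableSet_le measurable_const hN.cont.measurable)
    exact (hUm.inter h2).diff h1.measurableSet
  set Sj : Fin 2 → Set E := fun j => (U ∩ Reg c N z) ∩ (U ∩ (fun x => Qf N τ j x z - ‖Phi N x z‖ ^ (1/5 : ℝ)) ⁻¹' (Ioi 0)) with hSj
  have hSm : ∀ j, MeasurableSet (Sj j) := by
    intro j
    refine hRm.inter (IsOpen.measurableSet ?_)
    exact ((hcQ j).sub (hcΦ.norm.rpow_const (fun x hx => Or.inr (by norm_num)))).isOpen_inter_preimage hUo isOpen_Ioi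
  set D3 : Set E := U ∩ {x | 0 < 1 - N x ∧ c * (1 - N x) ≤ 2 * ‖Phi N x z‖ ∧ ‖Phi N x z‖ ≤ c * (1 - N x)} with hD3
  have hD3m : MeasurableSet D3 := by
    have e : D3 = (U ∩ {x | 0 < 1 - N x}) \ ((U ∩ (fun x => 2 * ‖Phi N x z‖ - c * (1 - N x)) ⁻¹' (Iio 0)) ∪
        (U ∩ (fun x => c * (1 - N x) - ‖Phi N x z‖) ⁻¹' (Iio 0))) := by
      ext x
      simp only [hD3, mem_inter_iff, mem_ofPred_eq, Set.mem_sdiff, mem_preimage, mem_Iio, mem_union, not_or, not_and, not_lt, sub_nonneg]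
      tauto
    rw [e]
    have h1 : IsOpen (U ∩ (fun x => 2 * ‖Phi N x z‖ - c * (1 - N x)) ⁻¹' (Iio 0)) :=
      ((continuousOn_const.mul hcΦ.norm).sub (continuousOn_const.mul
        (continuousOn_const.sub hN.cont.continuousOn))).isOpen_inter_preimage hUo isOpen_Iio
    have h3 : IsOpen (U ∩ (fun x => c * (1 - N x) - ‖Phi N x z‖) ⁻¹' (Iio 0)) :=
      ((continuousOn_const.mul
        (continuousOn_const.sub hN.cont.continuousOn)).sub hcΦ.norm).isOpen_inter_preimage hUo isOpen_Iio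
    have h2 : MeasurableSet {x : E | 0 < 1 - N x} :=
      (measurableSet_lt measurable_const (measurable_const.sub hN.cont.measurable))
    exact (hUm.inter h2).diff (h1.measurableSet.union h3.measurableSet)
  have hΦm : AEMeasurable (fun x => ‖Phi N x z‖) (volume.restrict U) := hcΦ.norm.aemeasurable hUm
  have m1 : AEMeasurable (fun x => ENNReal.ofReal (‖Phi N x z‖⁻¹ * ‖x - z‖⁻¹)) (volume.restrict U) :=
    (hΦm.inv.mul (by fun_prop : Measurable (fun x : E => ‖x - z‖)).inv.aemeasurable).ennreal_ofReal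
  have m2 : AEMeasurable (fun x => ENNReal.ofReal (‖Phi N x z‖ ^ (-(19/10) : ℝ))) (volume.restrict U) :=
    (hΦm.pow_const _).ennreal_ofReal
  have m4 : AEMeasurable (fun x => ENNReal.ofReal (‖Phi N x z‖ ^ (-2 : ℝ))) (volume.restrict U) :=
    (hΦm.pow_const _).ennreal_ofReal
  have key : ∀ x ∈ U ∩ Reg c N z, ENNReal.ofReal (gg c N x z) ≤
      ENNReal.ofReal (1 + C') * ENNReal.ofReal (‖Phi N x z‖⁻¹ * ‖x - z‖⁻¹)
      + ENNReal.ofReal (2 * C') * ENNReal.ofReal (‖Phi N x z‖ ^ (-(19/10) : ℝ))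
      + ENNReal.ofReal (C' * BQ) * (Sj 0).indicator (fun x => ENNReal.ofReal (‖Phi N x z‖ ^ (-2 : ℝ))) x
      + ENNReal.ofReal (C' * BQ) * (Sj 1).indicator (fun x => ENNReal.ofReal (‖Phi N x z‖ ^ (-2 : ℝ))) x
      + D3.indicator (fun x => ENNReal.ofReal (((1 - N x)⁻¹) ^ 2 * ‖x - z‖⁻¹)) x := by
    rintro x ⟨hxU, hxR⟩
    obtain ⟨hx1, hx2, hx3⟩ := hxR
    have hP : 0 < ‖Phi N x z‖ := by
      have : 0 < c * (1 - N x) := mul_pos hc (by linarith)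
      linarith
    have hY : 0 < ‖x - z‖ := by
      rw [norm_pos_iff, sub_ne_zero]
      rintro rfl
      simp [Phi] at hP
    have hdx := hd x hxU z hzV
    have hq : ∀ j, Real.sqrt (Qf N τ j x z) * (‖Phi N x z‖⁻¹) ^ 2 ≤ ‖Phi N x z‖ ^ (-(19/10) : ℝ) +
        BQ * (Sj j).indicator (fun x => ‖Phi N x z‖ ^ (-2 : ℝ)) x := by
      intro j
      have e2 : (‖Phi N x z‖⁻¹) ^ 2 = ‖Phi N x z‖ ^ (-2 : ℝ) := by
        rw [Real.rpow_neg hP.le, inv_pow]; norm_num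
      by_cases hj : x ∈ Sj j
      · rw [indicator_of_mem hj, e2]
        have h1 := mul_le_mul_of_nonneg_right (hQ x hxU z hzV j) (Real.rpow_nonneg hP.le (-2 : ℝ))
        have h2 := Real.rpow_nonneg hP.le (-(19/10) : ℝ)
        linarith
      · rw [indicator_of_notMem hj, mul_zero, add_zero]
        have h3 : Qf N τ j x z ≤ ‖Phi N x z‖ ^ (1/5 : ℝ) := by
          by_contra hcon
          push Not at hcon
          exact hj ⟨⟨hxU, hx1, hx2, hx3⟩, hxU, by simpa using hcon⟩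
        have h4 : Real.sqrt (Qf N τ j x z) ≤ ‖Phi N x z‖ ^ (1/10 : ℝ) := by
          refine (Real.sqrt_le_sqrt h3).trans (le_of_eq ?_)
          rw [Real.sqrt_eq_rpow, ← Real.rpow_mul hP.le]
          norm_num
        rw [e2]
        calc Real.sqrt (Qf N τ j x z) * ‖Phi N x z‖ ^ (-2 : ℝ)
            ≤ ‖Phi N x z‖ ^ (1/10 : ℝ) * ‖Phi N x z‖ ^ (-2 : ℝ) :=
              mul_le_mul_of_nonneg_right h4 (Real.rpow_nonneg hP.le _)
          _ = ‖Phi N x z‖ ^ (-(19/10) : ℝ) := by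
              rw [← Real.rpow_add hP]; norm_num
    have hind3 : {p : E | ‖Phi N p z‖ ≤ c * (1 - N p)}.indicator (fun p => ((1 - N p)⁻¹) ^ 2 * ‖p - z‖⁻¹) x
        = D3.indicator (fun x => ((1 - N x)⁻¹) ^ 2 * ‖x - z‖⁻¹) x := by
      by_cases h3 : ‖Phi N x z‖ ≤ c * (1 - N x)
      · rw [indicator_of_mem (show x ∈ {p : E | ‖Phi N p z‖ ≤ c * (1 - N p)} from h3),
          indicator_of_mem (show x ∈ D3 from ⟨hxU, by linarith, hx3, h3⟩)]
      · rw [indicator_of_notMem (show x ∉ {p : E | ‖Phi N p z‖ ≤ c * (1 - N p)} from h3),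
          indicator_of_notMem (fun h : x ∈ D3 => h3 h.2.2.2)]
    have hreal : gg c N x z ≤ (1 + C') * (‖Phi N x z‖⁻¹ * ‖x - z‖⁻¹)
      + (2 * C') * ‖Phi N x z‖ ^ (-(19/10) : ℝ)
      + (C' * BQ) * (Sj 0).indicator (fun x => ‖Phi N x z‖ ^ (-2 : ℝ)) x
      + (C' * BQ) * (Sj 1).indicator (fun x => ‖Phi N x z‖ ^ (-2 : ℝ)) x
      + D3.indicator (fun x => ((1 - N x)⁻¹) ^ 2 * ‖x - z‖⁻¹) x := by
      unfold gg
      rw [hind3]
      have h5 : dPhi N x z * (‖Phi N x z‖⁻¹) ^ 2 * ‖x - z‖⁻¹ ≤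
          C' * (Real.sqrt (Qf N τ 0 x z) * (‖Phi N x z‖⁻¹) ^ 2) + C' * (Real.sqrt (Qf N τ 1 x z) * (‖Phi N x z‖⁻¹) ^ 2)
            + C' * (‖Phi N x z‖⁻¹ * ‖x - z‖⁻¹) := by
        calc dPhi N x z * (‖Phi N x z‖⁻¹) ^ 2 * ‖x - z‖⁻¹
            ≤ (C' * (‖x - z‖ * (Real.sqrt (Qf N τ 0 x z) + Real.sqrt (Qf N τ 1 x z)) + ‖Phi N x z‖))
              * (‖Phi N x z‖⁻¹) ^ 2 * ‖x - z‖⁻¹ := by gcongr
          _ = _ := by field_simp
      have h6 := mul_le_mul_of_nonneg_left (hq 0) hC'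
      have h7 := mul_le_mul_of_nonneg_left (hq 1) hC'
      linarith
    have hp1 : 0 ≤ ‖Phi N x z‖⁻¹ * ‖x - z‖⁻¹ := by positivity
    have hp2 : 0 ≤ ‖Phi N x z‖ ^ (-(19/10) : ℝ) := Real.rpow_nonneg hP.le _
    have hp3 : ∀ j, 0 ≤ (Sj j).indicator (fun x => ‖Phi N x z‖ ^ (-2 : ℝ)) x := fun j =>
      indicator_nonneg (fun x _ => Real.rpow_nonneg (norm_nonneg _) _) x
    have hi : ∀ (S : Set E) (f : E → ℝ), S.indicator (fun x => ENNReal.ofReal (f x)) x =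
        ENNReal.ofReal (S.indicator f x) := by
      intro S f
      by_cases hS : x ∈ S
      · rw [indicator_of_mem hS, indicator_of_mem hS]
      · rw [indicator_of_notMem hS, indicator_of_notMem hS, ENNReal.ofReal_zero]
    rw [hi, hi, hi, ← ENNReal.ofReal_mul (by positivity), ← ENNReal.ofReal_mul (by positivity),
      ← ENNReal.ofReal_mul (by positivity), ← ENNReal.ofReal_mul (by positivity)]
    have hp4 : 0 ≤ D3.indicator (fun x => ((1 - N x)⁻¹) ^ 2 * ‖x - z‖⁻¹) x :=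
      indicator_nonneg (fun x _ => by positivity) x
    have hp30 := hp3 0
    have hp31 := hp3 1
    rw [← ENNReal.ofReal_add (by positivity) (by positivity), ← ENNReal.ofReal_add (by positivity) (by positivity),
      ← ENNReal.ofReal_add (by positivity) (by positivity), ← ENNReal.ofReal_add (by positivity) (by positivity)]
    exact ENNReal.ofReal_le_ofReal hreal
  have hsub : Reg c N z ∩ {x | (x, z) ∈ U ×ˢ V} ⊆ U ∩ Reg c N z := by
    rintro x ⟨h1, h2⟩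
    exact ⟨h2.1, h1⟩
  calc ∫⁻ x in Reg c N z ∩ {x | (x, z) ∈ U ×ˢ V}, ENNReal.ofReal (gg c N x z)
      ≤ ∫⁻ x in U ∩ Reg c N z, ENNReal.ofReal (gg c N x z) := lintegral_mono_set hsub
    _ ≤ ∫⁻ x in U ∩ Reg c N z, (ENNReal.ofReal (1 + C') * ENNReal.ofReal (‖Phi N x z‖⁻¹ * ‖x - z‖⁻¹)
      + ENNReal.ofReal (2 * C') * ENNReal.ofReal (‖Phi N x z‖ ^ (-(19/10) : ℝ))
      + ENNReal.ofReal (C' * BQ) * (Sj 0).indicator (fun x => ENNReal.ofReal (‖Phi N x z‖ ^ (-2 : ℝ))) x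
      + ENNReal.ofReal (C' * BQ) * (Sj 1).indicator (fun x => ENNReal.ofReal (‖Phi N x z‖ ^ (-2 : ℝ))) x
      + D3.indicator (fun x => ENNReal.ofReal (((1 - N x)⁻¹) ^ 2 * ‖x - z‖⁻¹)) x) :=
        setLIntegral_mono' hRm key
    _ ≤ ∫⁻ x in U, (ENNReal.ofReal (1 + C') * ENNReal.ofReal (‖Phi N x z‖⁻¹ * ‖x - z‖⁻¹)
      + ENNReal.ofReal (2 * C') * ENNReal.ofReal (‖Phi N x z‖ ^ (-(19/10) : ℝ))
      + ENNReal.ofReal (C' * BQ) * (Sj 0).indicator (fun x => ENNReal.ofReal (‖Phi N x z‖ ^ (-2 : ℝ))) x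
      + ENNReal.ofReal (C' * BQ) * (Sj 1).indicator (fun x => ENNReal.ofReal (‖Phi N x z‖ ^ (-2 : ℝ))) x
      + D3.indicator (fun x => ENNReal.ofReal (((1 - N x)⁻¹) ^ 2 * ‖x - z‖⁻¹)) x) :=
        lintegral_mono_set inter_subset_left
    _ = ENNReal.ofReal (1 + C') * (∫⁻ x in U, ENNReal.ofReal (‖Phi N x z‖⁻¹ * ‖x - z‖⁻¹))
      + ENNReal.ofReal (2 * C') * (∫⁻ x in U, ENNReal.ofReal (‖Phi N x z‖ ^ (-(19/10) : ℝ)))
      + ENNReal.ofReal (C' * BQ) * (∫⁻ x in U, (Sj 0).indicator (fun x => ENNReal.ofReal (‖Phi N x z‖ ^ (-2 : ℝ))) x)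
      + ENNReal.ofReal (C' * BQ) * (∫⁻ x in U, (Sj 1).indicator (fun x => ENNReal.ofReal (‖Phi N x z‖ ^ (-2 : ℝ))) x)
      + ∫⁻ x in U, D3.indicator (fun x => ENNReal.ofReal (((1 - N x)⁻¹) ^ 2 * ‖x - z‖⁻¹)) x := by
        rw [lintegral_add_left', lintegral_add_left', lintegral_add_left', lintegral_add_left',
          lintegral_const_mul'' _ m1, lintegral_const_mul'' _ m2, lintegral_const_mul'' _ (m4.indicator (hSm 0)),
          lintegral_const_mul'' _ (m4.indicator (hSm 1))]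
        · exact m1.const_mul _
        · exact (m1.const_mul _).add (m2.const_mul _)
        · exact ((m1.const_mul _).add (m2.const_mul _)).add ((m4.indicator (hSm 0)).const_mul _)
        · exact (((m1.const_mul _).add (m2.const_mul _)).add ((m4.indicator (hSm 0)).const_mul _)).add
            ((m4.indicator (hSm 1)).const_mul _)
    _ ≤ _ := by
        have hS4 : ∀ j, ∫⁻ x in U, (Sj j).indicator (fun x => ENNReal.ofReal (‖Phi N x z‖ ^ (-2 : ℝ))) x ≤ B4 j := by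
          intro j
          refine (setLIntegral_le_lintegral _ _).trans ?_
          rw [lintegral_indicator (hSm j)]
          refine H4 j z hzV (Sj j) (fun x hx => hx.1.1) (hSm j) ?_
          intro x hx x' hx' s hΦe hτ hs
          have hx1 := hx.1.2.1
          have hx3 := hx.1.2.2.2
          have hx1' := hx'.1.2.1
          have hx3' := hx'.1.2.2.2
          have hP : 0 < ‖Phi N x z‖ := by
            have : 0 < c * (1 - N x) := mul_pos hc (by linarith)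
            linarith
          have hQx : ‖Phi N x z‖ ^ (1/5 : ℝ) ≤ Qf N τ j x z := by
            have := hx.2.2
            simp only [mem_preimage, mem_Ioi, sub_pos] at this
            exact this.le
          have hE : ∀ p ∈ U, c * (1 - N p) ≤ 2 * ‖Phi N p z‖ → N z - fderiv ℝ N p z ≤ (2 + 2 / c) * ‖Phi N p z‖ := by
            intro p hp hp3
            have h1 := Phi_re hN (hx0 p hp) z
            have h2 := Complex.re_le_norm (Phi N p z)
            have h3 : 1 - N p ≤ 2 / c * ‖Phi N p z‖ := by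
              rw [div_mul_eq_mul_div, le_div_iff₀ hc]; linarith
            nlinarith
          have hE1 := hE x hx.1.1 hx3
          have hE2 := hE x' hx'.1.1 hx3'
          rw [hΦe] at hE2
          have h := hSD j z hzV x hx.1.1 x' hx'.1.1 s (‖Phi N x z‖ ^ (1/5 : ℝ)) _ hΦe hτ
            (Real.rpow_pos_of_pos hP _) hQx hs hE1 hE2
          refine h.trans ?_
          rw [Real.sqrt_mul (by positivity), div_le_iff₀ (Real.rpow_pos_of_pos hP _)]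
          have e : ‖Phi N x z‖ ^ (3/10 : ℝ) * ‖Phi N x z‖ ^ (1/5 : ℝ) = Real.sqrt ‖Phi N x z‖ := by
            rw [← Real.rpow_add hP, Real.sqrt_eq_rpow]; norm_num
          rw [mul_assoc, e]
          have := Real.sqrt_nonneg ‖Phi N x z‖
          nlinarith
        have hS3 : ∫⁻ x in U, D3.indicator (fun x => ENNReal.ofReal (((1 - N x)⁻¹) ^ 2 * ‖x - z‖⁻¹)) x ≤ B3 := by
          refine (setLIntegral_le_lintegral _ _).trans ?_
          rw [lintegral_indicator hD3m]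
          exact H3 z hzV
        gcongr
        · exact H1 z hzV
        · exact H2 z hzV
        · exact hS4 0
        · exact hS4 1

theorem Phi_contDiffAt {N : E → ℝ} (hN : Good N) {x z : E} (hx : x ≠ 0) :
    ContDiffAt ℝ ((⊤ : ℕ∞) : WithTop ℕ∞) (Function.uncurry (Phi N)) (x, z) :=
  (Phi_contDiffOn hN).contDiffAt (isOpen_fst_ne.mem_nhds hx)

theorem local_hard {N : E → ℝ} (hN : Good N) {x0 z0 : E} (hx : N x0 = 1) (hz : N z0 ≤ 1)
    (h : Phi N x0 z0 = 0) : ∃ T ∈ 𝓝 (x0, z0), LocP N T := by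
  obtain ⟨hz1, hsurj⟩ := Phi_surj hN hx hz h
  have hx0 : x0 ≠ 0 := hN.ne_zero (by rw [hx]; exact one_pos)
  have hz0 : z0 ≠ 0 := hN.ne_zero (by rw [hz1]; exact one_pos)
  obtain ⟨τ, U, V, C, hxU, hzV, hch⟩ := exists_chart (Phi N) x0 z0
    ((Phi_contDiffAt hN hx0).of_le (by exact_mod_cast le_top)) hsurj
  obtain ⟨U1, V1, C', hU1, hV1, hxU1, hzV1, hUU1, hVV1, hC', hd⟩ := dPhi_le hN hx0 hxU hzV hch
  have hSD := fun j => SD hN hx0 hz0 hxU hzV hch j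
  choose U2 V2 a C2 hU2 hV2 hxU2 hzV2 hUU2 hVV2 ha hC2 hSD using hSD
  -- Lipschitz
  obtain ⟨L, t, ht, hL⟩ := ((hN.contDiffAt hx0).of_le (show (1 : WithTop ℕ∞) ≤ ((⊤ : ℕ∞) : WithTop ℕ∞) by
    exact_mod_cast le_top)).exists_lipschitzOnWith
  -- bound of Phi
  have hΦb : ∀ᶠ p in 𝓝 (x0, z0), ‖Function.uncurry (Phi N) p‖ < 1 := by
    have := (Phi_contDiffAt hN (z := z0) hx0).continuousAt.norm
    refine this.eventually_lt continuousAt_const ?_
    simp [h]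
  have hHb : ∀ᶠ x in 𝓝 x0, ‖Hs N x‖ < ‖Hs N x0‖ + 1 := by
    have h1 : ContinuousAt (Hs N) x0 :=
      ((Hs_contDiffOn hN).contDiffAt (isOpen_compl_singleton.mem_nhds hx0)).continuousAt
    have h2 : ContinuousAt (fun x => ‖Hs N x‖) x0 := ContinuousAt.norm (E := E →L[ℝ] E →L[ℝ] ℝ) h1
    exact h2.eventually_lt continuousAt_const (lt_add_one _)
  obtain ⟨W, hW, W', hW', hWW⟩ := mem_nhds_prod_iff.mp hΦb
  have hall : ∀ᶠ x in 𝓝 x0, x ∈ U ∧ x ∈ U1 ∧ (∀ j, x ∈ U2 j) ∧ x ∈ t ∧ x ≠ 0 ∧ x ∈ W ∧ ‖Hs N x‖ < ‖Hs N x0‖ + 1 := by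
    filter_upwards [hch.1.mem_nhds hxU, hU1.mem_nhds hxU1, (hU2 0).mem_nhds (hxU2 0), (hU2 1).mem_nhds (hxU2 1),
      ht, isOpen_compl_singleton.mem_nhds hx0, hW, hHb] with x h1 h2 h3 h4 h5 h6 h7 h8
    refine ⟨h1, h2, ?_, h5, h6, h7, h8⟩
    intro j; fin_cases j
    exacts [h3, h4]
  have hall' : ∀ᶠ z in 𝓝 z0, z ∈ V ∧ z ∈ V1 ∧ (∀ j, z ∈ V2 j) ∧ z ∈ W' := by
    filter_upwards [hch.2.1.mem_nhds hzV, hV1.mem_nhds hzV1, (hV2 0).mem_nhds (hzV2 0), (hV2 1).mem_nhds (hzV2 1),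
      hW'] with x h1 h2 h3 h4 h5
    refine ⟨h1, h2, ?_, h5⟩
    intro j; fin_cases j
    exacts [h3, h4]
  obtain ⟨r, hr, hball⟩ := Metric.eventually_nhds_iff_ball.mp hall
  obtain ⟨r', hr', hball'⟩ := Metric.eventually_nhds_iff_ball.mp hall'
  have hch' : IsChart (Phi N) τ (Metric.ball x0 r) (Metric.ball z0 r') C :=
    hch.mono Metric.isOpen_ball Metric.isOpen_ball (fun x hx => (hball x hx).1) (fun z hz => (hball' z hz).1)
  refine ⟨Metric.ball x0 r ×ˢ Metric.ball z0 r', prod_mem_nhds (Metric.ball_mem_nhds _ hr) (Metric.ball_mem_nhds _ hr'), ?_⟩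
  have hC : 0 < C := hch.2.2.1
  refine local_chart hN (R := max 1 (max (‖x0‖ + r) (‖z0‖ + r'))) (L := L)
    (BQ := Real.sqrt ((‖Hs N x0‖ + 1) * (C * 1) * (C * 1))) (C' := C') hch' (fun x hx => (hball x hx).2.2.2.2.1)
    ?_ ?_ ?_ ?_ hC' ?_ (Real.sqrt_nonneg _) ?_ (min (a 0) (a 1)) (max (C2 0) (C2 1)) ?_ ?_ ?_
  · intro x hx
    have h1 : ‖x‖ ≤ ‖x0‖ + ‖x - x0‖ := by
      calc ‖x‖ = ‖x0 + (x - x0)‖ := by congr 1; abel
        _ ≤ _ := norm_add_le _ _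
    have h2 : ‖x - x0‖ < r := by simpa [dist_eq_norm] using hx
    exact (by linarith : ‖x‖ ≤ ‖x0‖ + r).trans ((le_max_left _ _).trans (le_max_right _ _))
  · intro x hx
    have h1 : ‖x‖ ≤ ‖z0‖ + ‖x - z0‖ := by
      calc ‖x‖ = ‖z0 + (x - z0)‖ := by congr 1; abel
        _ ≤ _ := norm_add_le _ _
    have h2 : ‖x - z0‖ < r' := by simpa [dist_eq_norm] using hx
    exact (by linarith : ‖x‖ ≤ ‖z0‖ + r').trans ((le_max_right _ _).trans (le_max_right _ _))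
  · intro z hz x hx
    have h1 : ((x, z) : E × E) ∈ W ×ˢ W' := ⟨(hball x hx).2.2.2.2.2.1, (hball' z hz).2.2.2⟩
    have h2 := hWW h1
    simp only [mem_ofPred_eq, Function.uncurry_apply_pair] at h2
    exact h2.le.trans (le_max_left _ _)
  · intro x hx x' hx'
    have := hL.dist_le_mul x (hball x hx).2.2.2.1 x' (hball x' hx').2.2.2.1
    rwa [Real.dist_eq, dist_eq_norm] at this
  · intro x hx z hz
    exact hd x (hball x hx).2.1 z (hball' z hz).2.1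
  · intro x hx z hz j
    apply Real.sqrt_le_sqrt
    have h1 := (Qf_cont hN hch' (fun x hx => (hball x hx).2.2.2.2.1) j).2 x hx z hz
    have h2 : ‖hv N τ j x z‖ ≤ C * 1 := by
      refine h1.2.2.trans ?_
      gcongr
      fin_cases j <;> simp [ev, Prod.norm_def]
    have h3 := (hball x hx).2.2.2.2.2.2
    calc Qf N τ j x z ≤ ‖Hs N x (hv N τ j x z) (hv N τ j x z)‖ := le_abs_self _
      _ ≤ ‖Hs N x‖ * ‖hv N τ j x z‖ * ‖hv N τ j x z‖ := ContinuousLinearMap.le_opNorm₂ _ _ _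
      _ ≤ _ := by gcongr
  · exact lt_min (ha 0) (ha 1)
  · exact (hC2 0).trans (le_max_left _ _)
  · intro j z hz x hx x' hx' s t κ' h1 h2 h3 h4 h5 h6 h7
    have hax : min (a 0) (a 1) ≤ a j := by
      fin_cases j
      exacts [min_le_left _ _, min_le_right _ _]
    have hCx : C2 j ≤ max (C2 0) (C2 1) := by
      fin_cases j
      exacts [le_max_left _ _, le_max_right _ _]
    refine (hSD j z ((hball' z hz).2.2.1 j) x ((hball x hx).2.2.1 j) x' ((hball x' hx').2.2.1 j) s t κ' h1 h2 h3 h4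
      (h5.trans (by gcongr)) h6 h7).trans ?_
    gcongr

theorem local_all {N : E → ℝ} (hN : Good N) {x0 z0 : E} (hx : 1 / 4 ≤ N x0) (hx' : N x0 ≤ 1) (hz : N z0 ≤ 1) :
    ∃ T ∈ 𝓝 (x0, z0), LocP N T := by
  by_cases h : N x0 < 1 ∨ Phi N x0 z0 ≠ 0
  · exact local_easy hN hx hx' hz h
  · push Not at h
    exact local_hard hN (le_antisymm hx' h.1) hz h.2

/-- the estimate -/
theorem est {N : E → ℝ} (hN : Good N) : ∃ c : ℝ, 0 < c ∧ ∃ B : ENNReal, B ≠ ⊤ ∧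
    ∀ z, N z < 1 → ∫⁻ x in Reg c N z, ENNReal.ofReal (gg c N x z) ≤ B := by
  have hK : IsCompact ({x : E | 1 / 4 ≤ N x ∧ N x ≤ 1} ×ˢ {z : E | N z ≤ 1}) := by
    refine IsCompact.prod ?_ (hN.isCompact_le 1)
    have : {x : E | 1 / 4 ≤ N x ∧ N x ≤ 1} = {x | N x ≤ 1} ∩ {x | 1 / 4 ≤ N x} := by
      ext x; simp only [mem_ofPred_eq, mem_inter_iff]; tauto
    rw [this]
    exact (hN.isCompact_le 1).inter_right (isClosed_le continuous_const hN.cont)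
  have hP : LocP N ({x : E | 1 / 4 ≤ N x ∧ N x ≤ 1} ×ˢ {z : E | N z ≤ 1}) := by
    refine hK.induction_on (p := LocP N) (LocP.empty N) (fun s t hst ht => LocP.mono hst ht)
      (fun s t hs ht => LocP.union hs ht) ?_
    rintro ⟨x0, z0⟩ ⟨h1, h2⟩
    obtain ⟨T, hT, h⟩ := local_all hN h1.1 h1.2 h2
    exact ⟨T, mem_nhdsWithin_of_mem_nhds hT, h⟩
  obtain ⟨c0, hc0, H⟩ := hP
  obtain ⟨B, hB, H⟩ := H c0 hc0 le_rfl
  refine ⟨c0, hc0, B, hB, fun z hz => ?_⟩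
  refine le_trans (le_of_eq ?_) (H z hz)
  congr 2
  ext x
  simp only [mem_inter_iff, mem_ofPred_eq, mem_prod, Reg]
  constructor
  · rintro ⟨h1, h2, h3⟩
    exact ⟨⟨h1, h2, h3⟩, ⟨h2, h1.le⟩, hz.le⟩
  · rintro ⟨h1, -⟩
    exact h1

end Pool.Agent.N289.CV
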