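import Pool.Agent.N289.CV.Defs

set_option autoImplicit false

namespace Pool.Agent.N289.CV

open MeasureTheory Set Filter Topology

namespace S1

/-- the outward radial derivative of the defining function is positive at boundary points. -/
theorem radial_pos (Ω : Set E) (ho : IsOpen Ω) (hc : Convex ℝ Ω)
    (h0 : (0 : E) ∈ Ω) (ρ : E → ℝ) (hρ : ContDiff ℝ ((⊤ : ℕ∞) : WithTop ℕ∞) ρ)
    (hΩ : Ω = {x | ρ x < 0}) (hd : ∀ x, ρ x = 0 → fderiv ℝ ρ x ≠ 0) (b : E) (hb : ρ b = 0) :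
    0 < fderiv ℝ ρ b b := by
  by_contra hneg
  push Not at hneg
  have hD := hd b hb
  obtain ⟨v, hv⟩ : ∃ v : E, fderiv ℝ ρ b v < 0 := by
    by_contra hcon
    push Not at hcon
    apply hD
    ext v
    have h1 := hcon v
    have h2 := hcon (-v)
    rw [map_neg] at h2
    simp only [zero_apply]
    linarith
  have hbΩ : b ∉ Ω := by
    rw [hΩ]
    simp [hb]
  have hnh : Ω ∈ 𝓝 (0 : E) := ho.mem_nhds h0
  obtain ⟨K, hK, hKv⟩ : ∃ K : ℝ, 0 < K ∧ -(K • v) ∈ Ω := by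
    have hcont : Tendsto (fun K : ℝ => -(K • v)) (𝓝[>] 0) (𝓝 (0 : E)) := by
      have : Tendsto (fun K : ℝ => -(K • v)) (𝓝 0) (𝓝 (-((0 : ℝ) • v))) :=
        (Continuous.tendsto (by fun_prop) _)
      rw [zero_smul, neg_zero] at this
      exact this.mono_left nhdsWithin_le_nhds
    have h1 := (hcont.eventually hnh).and self_mem_nhdsWithin
    obtain ⟨K, hK1, hK2⟩ := h1.exists
    exact ⟨K, hK2, hK1⟩
  have hdiff : DifferentiableAt ℝ ρ b := (hρ.differentiable (by simp)) b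
  have hDh : fderiv ℝ ρ b (b + K • v) < 0 := by
    rw [map_add, map_smul, smul_eq_mul]
    nlinarith
  have hder : HasDerivAt (fun t : ℝ => ρ (b + t • (b + K • v))) (fderiv ℝ ρ b (b + K • v)) 0 := by
    have h1 : HasDerivAt (fun t : ℝ => b + t • (b + K • v)) (b + K • v) 0 := by
      have := ((hasDerivAt_id (0 : ℝ)).smul_const (b + K • v)).const_add b
      simpa using this
    have h2 : HasFDerivAt ρ (fderiv ℝ ρ b) (b + (0 : ℝ) • (b + K • v)) := by
      simpa using hdiff.hasFDerivAt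
    exact h2.comp_hasDerivAt (0 : ℝ) h1
  have hev : ∀ᶠ t in 𝓝[>] (0 : ℝ), ρ (b + t • (b + K • v)) < 0 := by
    have h3 := hder.tendsto_slope
    have h4 : ∀ᶠ t in 𝓝[≠] (0 : ℝ), slope (fun t : ℝ => ρ (b + t • (b + K • v))) 0 t < 0 :=
      h3.eventually (gt_mem_nhds hDh)
    have h5 : ∀ᶠ t in 𝓝[>] (0 : ℝ), slope (fun t : ℝ => ρ (b + t • (b + K • v))) 0 t < 0 :=
      h4.filter_mono (nhdsWithin_mono _ (fun t ht => ne_of_gt ht))
    filter_upwards [h5, self_mem_nhdsWithin] with t ht ht0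
    rw [slope_def_field] at ht
    simp only [zero_smul, add_zero, hb, sub_zero] at ht
    have ht0' : (0 : ℝ) < t := ht0
    by_contra hcon
    push Not at hcon
    exact absurd ht (not_lt.mpr (div_nonneg hcon ht0'.le))
  obtain ⟨t, ht1, ht2⟩ := (hev.and self_mem_nhdsWithin).exists
  have ht0 : (0 : ℝ) < t := ht2
  have hp : b + t • (b + K • v) ∈ Ω := by
    rw [hΩ]
    exact ht1
  apply hbΩ
  have hcomb := hc hp hKv (a := 1 / (1 + t)) (b := t / (1 + t)) (by positivity) (by positivity)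
    (by field_simp)
  have heq : (1 / (1 + t)) • (b + t • (b + K • v)) + (t / (1 + t)) • -(K • v) = b := by
    have h1t : (1 + t) ≠ 0 := by positivity
    rw [smul_add, smul_smul, smul_add, smul_neg, smul_smul, smul_smul]
    have e1 : 1 / (1 + t) * t = t / (1 + t) := by ring
    rw [e1]
    have e2 : (1 / (1 + t)) • b + ((t / (1 + t)) • b + (t / (1 + t) * K) • v) + -((t / (1 + t) * K) • v)
        = (1 / (1 + t) + t / (1 + t)) • b := by
      rw [add_smul]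
      abel
    rw [e2]
    have e3 : 1 / (1 + t) + t / (1 + t) = (1 : ℝ) := by field_simp
    rw [e3, one_smul]
  rw [heq] at hcomb
  exact hcomb

/-- the linear isomorphism `(v, t) ↦ (v, D (s v + t x))` when `D x ≠ 0`. -/
noncomputable def iso (D : E →L[ℝ] ℝ) (s : ℝ) (x : E) (h : D x ≠ 0) : (E × ℝ) ≃L[ℝ] (E × ℝ) :=
  ContinuousLinearEquiv.equivOfInverse
    ((ContinuousLinearMap.fst ℝ E ℝ).prod
      (D.comp (s • ContinuousLinearMap.fst ℝ E ℝ + (ContinuousLinearMap.snd ℝ E ℝ).smulRight x)))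
    ((ContinuousLinearMap.fst ℝ E ℝ).prod
      ((D x)⁻¹ • (ContinuousLinearMap.snd ℝ E ℝ - s • D.comp (ContinuousLinearMap.fst ℝ E ℝ))))
    (by
      rintro ⟨v, t⟩
      refine Prod.ext rfl ?_
      change (D x)⁻¹ * (D (s • v + t • x) - s * D v) = t
      rw [map_add, map_smul, map_smul, smul_eq_mul, smul_eq_mul]
      field_simp
      ring)
    (by
      rintro ⟨v, t⟩
      refine Prod.ext rfl ?_
      change D (s • v + ((D x)⁻¹ * (t - s * D v)) • x) = t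
      rw [map_add, map_smul, map_smul, smul_eq_mul, smul_eq_mul]
      field_simp
      ring)

theorem smooth_at (ρ : E → ℝ) (hρ : ContDiff ℝ ((⊤ : ℕ∞) : WithTop ℕ∞) ρ) (N : E → ℝ)
    (hN : Continuous N) (hpos : ∀ x, x ≠ 0 → 0 < N x)
    (hb : ∀ x, x ≠ 0 → ρ ((N x)⁻¹ • x) = 0)
    (hrad : ∀ b, ρ b = 0 → 0 < fderiv ℝ ρ b b) (x0 : E) (hx0 : x0 ≠ 0) :
    ContDiffAt ℝ ((⊤ : ℕ∞) : WithTop ℕ∞) N x0 := by
  set s0 : ℝ := (N x0)⁻¹ with hs0
  have hN0 := hpos x0 hx0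
  have hs0pos : 0 < s0 := inv_pos.mpr hN0
  set D := fderiv ℝ ρ (s0 • x0) with hD
  have hDx : D x0 ≠ 0 := by
    have h1 := hrad (s0 • x0) (hb x0 hx0)
    rw [map_smul, smul_eq_mul] at h1
    intro h2
    rw [← hD, h2, mul_zero] at h1
    exact lt_irrefl _ h1
  set Ψ : E × ℝ → E × ℝ := fun p => (p.1, ρ (p.2 • p.1)) with hΨ
  have hΨc : ContDiff ℝ ((⊤ : ℕ∞) : WithTop ℕ∞) Ψ :=
    contDiff_fst.prodMk (hρ.comp (contDiff_snd.smul contDiff_fst))
  have hder : HasFDerivAt Ψ ((iso D s0 x0 hDx : (E × ℝ) ≃L[ℝ] (E × ℝ)) : (E × ℝ) →L[ℝ] (E × ℝ))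
      (x0, s0) := by
    have h1 : HasFDerivAt (fun p : E × ℝ => p.2 • p.1)
        (s0 • ContinuousLinearMap.fst ℝ E ℝ + (ContinuousLinearMap.snd ℝ E ℝ).smulRight x0)
        (x0, s0) := by
      have := (hasFDerivAt_snd (𝕜 := ℝ) (E := E) (F := ℝ) (p := (x0, s0))).smul
        (hasFDerivAt_fst (𝕜 := ℝ) (E := E) (F := ℝ) (p := (x0, s0)))
      exact this
    have h2 : HasFDerivAt ρ D ((fun p : E × ℝ => p.2 • p.1) (x0, s0)) :=
      ((hρ.differentiable (by simp)) (s0 • x0)).hasFDerivAt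
    exact hasFDerivAt_fst.prodMk (h2.comp (x0, s0) h1)
  have hn : ((⊤ : ℕ∞) : WithTop ℕ∞) ≠ 0 := by simp
  have hcd : ContDiffAt ℝ ((⊤ : ℕ∞) : WithTop ℕ∞) Ψ (x0, s0) := hΨc.contDiffAt
  have hinv := hcd.to_localInverse hder hn
  set G := hcd.localInverse hder hn with hG
  have hΨ0 : Ψ (x0, s0) = (x0, 0) := by
    simp only [hΨ]
    rw [hs0, hb x0 hx0]
  rw [hΨ0] at hinv
  -- near x0 the inverse is (x, (N x)⁻¹)
  have hsrc := hcd.mem_toOpenPartialHomeomorph_source hder hn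
  have hopen := (hcd.toOpenPartialHomeomorph Ψ hder hn).open_source
  have hcont : ContinuousAt (fun x => (x, (N x)⁻¹) : E → E × ℝ) x0 :=
    continuousAt_id.prodMk (hN.continuousAt.inv₀ hN0.ne')
  have hev1 : ∀ᶠ x in 𝓝 x0, (x, (N x)⁻¹) ∈ (hcd.toOpenPartialHomeomorph Ψ hder hn).source :=
    hcont.eventually (hopen.mem_nhds hsrc)
  have hev2 : ∀ᶠ x in 𝓝 x0, x ≠ 0 := isOpen_ne.mem_nhds hx0
  have hev : (fun x => (N x)⁻¹) =ᶠ[𝓝 x0] (fun x => (G (x, (0 : ℝ))).2) := by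
    filter_upwards [hev1, hev2] with x hx1 hx2
    have h3 := (hcd.toOpenPartialHomeomorph Ψ hder hn).left_inv hx1
    have h4 : (hcd.toOpenPartialHomeomorph Ψ hder hn) (x, (N x)⁻¹) = (x, 0) := by
      rw [hcd.toOpenPartialHomeomorph_coe]
      simp only [hΨ]
      rw [hb x hx2]
    rw [h4] at h3
    have h5 : G (x, 0) = (x, (N x)⁻¹) := h3
    rw [h5]
  have hsm : ContDiffAt ℝ ((⊤ : ℕ∞) : WithTop ℕ∞) (fun x => (G (x, (0 : ℝ))).2) x0 := by
    have h6 : ContDiffAt ℝ ((⊤ : ℕ∞) : WithTop ℕ∞) (fun x : E => ((x, 0) : E × ℝ)) x0 :=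
      contDiffAt_id.prodMk contDiffAt_const
    exact contDiffAt_snd.comp x0 (ContDiffAt.comp x0 (f := fun x : E => ((x, 0) : E × ℝ)) hinv h6)
  have hsm2 : ContDiffAt ℝ ((⊤ : ℕ∞) : WithTop ℕ∞) (fun x => (N x)⁻¹) x0 := hsm.congr_of_eventuallyEq hev
  have hsm3 := hsm2.inv (inv_ne_zero hN0.ne')
  have he : (fun x => (N x)⁻¹)⁻¹ = N := by
    funext x
    simp
  rw [he] at hsm3
  exact hsm3

end S1

theorem exists_good (Ω : Set E) (ho : IsOpen Ω) (hb : Bornology.IsBounded Ω) (hc : Convex ℝ Ω)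
    (h0 : (0 : E) ∈ Ω) (ρ : E → ℝ) (hρ : ContDiff ℝ ((⊤ : ℕ∞) : WithTop ℕ∞) ρ)
    (hΩ : Ω = {x | ρ x < 0}) (hd : ∀ x, ρ x = 0 → fderiv ℝ ρ x ≠ 0) :
    ∃ N : E → ℝ, Good N ∧ Ω = {x | N x < 1} := by
  have hnh : Ω ∈ 𝓝 (0 : E) := ho.mem_nhds h0
  have habs : Absorbent ℝ Ω := absorbent_nhds_zero hnh
  have hcont : Continuous (gauge Ω) := continuous_gauge hc hnh
  obtain ⟨R, hR, hRsub⟩ : ∃ R : ℝ, 0 < R ∧ Ω ⊆ Metric.closedBall 0 R := by
    obtain ⟨R, hR⟩ := hb.subset_closedBall (0 : E)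
    exact ⟨max R 1, lt_max_of_lt_right one_pos,
      hR.trans (Metric.closedBall_subset_closedBall (le_max_left _ _))⟩
  have hlow : ∀ x : E, R⁻¹ * ‖x‖ ≤ gauge Ω x := by
    intro x
    have := le_gauge_of_subset_closedBall habs hR.le hRsub (x := x)
    rw [div_eq_inv_mul] at this
    exact this
  have hpos : ∀ x : E, x ≠ 0 → 0 < gauge Ω x := by
    intro x hx
    exact lt_of_lt_of_le (mul_pos (inv_pos.mpr hR) (norm_pos_iff.mpr hx)) (hlow x)
  have hbd : ∀ x : E, x ≠ 0 → ρ ((gauge Ω x)⁻¹ • x) = 0 := by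
    intro x hx
    have hx1 := hpos x hx
    have h1 : gauge Ω ((gauge Ω x)⁻¹ • x) = 1 := by
      rw [gauge_smul_of_nonneg (inv_nonneg.mpr hx1.le), smul_eq_mul, inv_mul_cancel₀ hx1.ne']
    have hcl : (gauge Ω x)⁻¹ • x ∈ closure Ω :=
      (gauge_le_one_iff_mem_closure hc hnh).mp h1.le
    have hnot : (gauge Ω x)⁻¹ • x ∉ Ω := by
      intro hmem
      have := gauge_lt_one_of_mem_of_isOpen ho hmem
      linarith
    have hle : ρ ((gauge Ω x)⁻¹ • x) ≤ 0 := by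
      have hsub : closure Ω ⊆ {y | ρ y ≤ 0} := by
        apply closure_minimal
        · intro y hy
          rw [hΩ] at hy
          have hy' : ρ y < 0 := hy
          exact hy'.le
        · exact isClosed_le hρ.continuous continuous_const
      exact hsub hcl
    have hge : 0 ≤ ρ ((gauge Ω x)⁻¹ • x) := by
      by_contra hcon
      push Not at hcon
      apply hnot
      have hall : ∀ y, ρ y < 0 → y ∈ Ω := by
        intro y hy
        rw [hΩ]
        exact hy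
      exact hall _ hcon
    exact le_antisymm hle hge
  refine ⟨gauge Ω, ⟨?_, ?_, ?_, ⟨R⁻¹, inv_pos.mpr hR, hlow⟩⟩, ?_⟩
  · intro x hx
    exact (S1.smooth_at ρ hρ (gauge Ω) hcont hpos hbd
      (S1.radial_pos Ω ho hc h0 ρ hρ hΩ hd) x hx).contDiffWithinAt
  · refine ⟨convex_univ, ?_⟩
    intro x _ y _ a b ha hb' _
    calc gauge Ω (a • x + b • y) ≤ gauge Ω (a • x) + gauge Ω (b • y) := gauge_add_le hc habs _ _
      _ = a • gauge Ω x + b • gauge Ω y := by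
        rw [gauge_smul_of_nonneg ha, gauge_smul_of_nonneg hb']
  · intro t ht x
    rw [gauge_smul_of_nonneg ht, smul_eq_mul]
  · exact (setOfPred_gauge_lt_one_eq_self_of_isOpen hc h0 ho).symm

end Pool.Agent.N289.CV
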