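import Pool.Agent.N289.CV.S2
import Pool.Agent.N289.CV.Basic
set_option autoImplicit false
namespace Pool.Agent.N289.CV
open MeasureTheory Set Filter Topology

theorem unif_inv_pow (k : ℕ) (hk : k ≤ 3) (R : ℝ) : ∃ B : ENNReal, B ≠ ⊤ ∧ ∀ z : E, ‖z‖ ≤ R →
    ∫⁻ x in Metric.ball (0:E) R, ENNReal.ofReal ((‖x - z‖⁻¹) ^ k) ≤ B := by
  have hI := integrableOn_norm_inv_pow k hk (R + R)
  refine ⟨∫⁻ x in Metric.ball (0:E) (R + R), ENNReal.ofReal ((‖x‖⁻¹) ^ k), ?_, fun z hz => ?_⟩
  · have h := hI.2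
    rw [hasFiniteIntegral_iff_enorm] at h
    have e : ∀ x : E, ‖(‖x‖⁻¹) ^ k‖ₑ = ENNReal.ofReal ((‖x‖⁻¹) ^ k) := fun x =>
      Real.enorm_of_nonneg (by positivity)
    simp only [e] at h
    exact h.ne
  · rw [← lintegral_indicator Metric.isOpen_ball.measurableSet, ← lintegral_indicator Metric.isOpen_ball.measurableSet]
    rw [← lintegral_sub_right_eq_self (fun x => (Metric.ball (0:E) (R + R)).indicator
      (fun x => ENNReal.ofReal ((‖x‖⁻¹) ^ k)) x) z]
    apply lintegral_mono
    intro x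
    by_cases hx : x ∈ Metric.ball (0:E) R
    · rw [indicator_of_mem hx]
      have : x - z ∈ Metric.ball (0:E) (R + R) := by
        rw [mem_ball_zero_iff] at hx ⊢
        have := norm_sub_le x z
        linarith
      simp only [indicator_of_mem this]
      exact le_rfl
    · rw [indicator_of_notMem hx]; exact zero_le

theorem bk_measurable (j : Fin 2) : Measurable (bk j) := by
  unfold bk sq
  fun_prop

theorem bk_integrableOn (j : Fin 2) (z : E) (R : ℝ) : IntegrableOn (fun x => bk j (x - z)) (Metric.ball (0:E) R) := by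
  obtain ⟨B, hB, h⟩ := unif_inv_pow 3 le_rfl (max R ‖z‖)
  have h1 : IntegrableOn (fun x => bk j (x - z)) (Metric.ball (0:E) (max R ‖z‖)) := by
    refine ⟨((bk_measurable j).comp (by fun_prop : Measurable (fun x : E => x - z))).aestronglyMeasurable, ?_⟩
    rw [hasFiniteIntegral_iff_enorm]
    refine lt_of_le_of_lt ((lintegral_mono ?_).trans (h z (le_max_right _ _))) hB.lt_top
    intro x
    simp only
    rw [← ofReal_norm_eq_enorm]
    exact ENNReal.ofReal_le_ofReal (bk_norm_le j (x - z))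
  exact h1.mono_set (Metric.ball_subset_ball (le_max_left _ _))

theorem isOpen_Om {N : E → ℝ} (hN : Good N) : IsOpen {x | N x < 1} := isOpen_lt hN.cont continuous_const

theorem Good.bounded {N : E → ℝ} (hN : Good N) : ∃ R : ℝ, {x | N x < 1} ⊆ Metric.ball (0:E) R := by
  obtain ⟨cl, hcl, hlow⟩ := hN.lower
  refine ⟨1 / cl, fun x hx => ?_⟩
  rw [mem_ball_zero_iff, lt_div_iff₀ hcl]
  have := hlow x
  simp only [mem_ofPred_eq] at hx
  linarith [mul_comm cl ‖x‖]

end Pool.Agent.N289.CV
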