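import Pool.Agent.N289.CV.Defs

/-!
The Bochner-Martinelli potential of a smooth compactly supported pair `(g_0, g_1)` is smooth, and its
`∂̄` is `-κ g` plus the potential of `∂̄ g`.
-/

set_option autoImplicit false

namespace Pool.Agent.N289.CV

open MeasureTheory Set Filter Topology
open scoped Convolution

namespace S3

theorem finrank_E : Module.finrank ℝ E = 4 := by
  simp [E, Module.finrank_pi_fintype]

/-- `‖y‖⁻³` is integrable near the origin of `ℂ²`. -/
theorem integrable_ind (R : ℝ) :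
    Integrable (fun y : E => (Iio R).indicator (fun r : ℝ => (r⁻¹) ^ 3) ‖y‖) := by
  have h := (integrable_fun_norm_addHaar (volume : Measure E)
    (f := (Iio R).indicator (fun r : ℝ => (r⁻¹) ^ 3))).2
  apply h
  rw [finrank_E]
  have h2 : IntegrableOn (fun _ : ℝ => (1:ℝ)) (Ioo 0 R) := by
    exact integrableOn_const (by simp)
  have h3 : IntegrableOn (fun y : ℝ => y ^ (4 - 1) • (Iio R).indicator (fun r : ℝ => (r⁻¹) ^ 3) y)
      (Ioi 0) := by
    have e : IntegrableOn ((Ioo 0 R).indicator (fun _ : ℝ => (1:ℝ))) (Ioi 0) := by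
      exact (integrable_indicator_iff measurableSet_Ioo |>.2 h2).integrableOn
    refine e.congr_fun ?_ measurableSet_Ioi
    intro y hy
    have hy' : (0:ℝ) < y := hy
    by_cases hR : y < R
    · simp only [Set.indicator, mem_Ioo, mem_Iio, hR, hy', and_self, if_true, smul_eq_mul]
      field_simp
    · simp only [Set.indicator, mem_Ioo, mem_Iio, hR, and_false, if_false, smul_eq_mul, mul_zero]
  exact h3

theorem norm_le_sqrt (y : E) : ‖y‖ ^ 2 ≤ sq y := by
  have h : ‖y‖ = max ‖y 0‖ ‖y 1‖ := by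
    apply le_antisymm
    · rw [pi_norm_le_iff_of_nonneg (by positivity)]
      intro i; fin_cases i
      · exact le_max_left _ _
      · exact le_max_right _ _
    · exact max_le (norm_le_pi_norm y 0) (norm_le_pi_norm y 1)
  rw [h, sq]
  rcases le_total ‖y 0‖ ‖y 1‖ with h1 | h1
  · rw [max_eq_right h1]; nlinarith [sq_nonneg ‖y 0‖]
  · rw [max_eq_left h1]; nlinarith [sq_nonneg ‖y 1‖]

theorem bk_le (j : Fin 2) (y : E) : ‖bk j y‖ ≤ (‖y‖⁻¹) ^ 3 := by
  by_cases hy : y = 0
  · subst hy; simp [bk]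
  have hy' : 0 < ‖y‖ := norm_pos_iff.mpr hy
  have h1 := norm_le_sqrt y
  have h2 : ‖y j‖ ≤ ‖y‖ := norm_le_pi_norm y j
  have h3 : 0 < sq y := lt_of_lt_of_le (by positivity) h1
  rw [bk, norm_div, norm_pow, Complex.norm_real, RCLike.norm_conj, Real.norm_of_nonneg h3.le]
  rw [div_le_iff₀ (by positivity)]
  have h4 : (‖y‖ ^ 2) ^ 2 ≤ sq y ^ 2 := by gcongr
  calc ‖y j‖ ≤ ‖y‖ := h2
    _ = (‖y‖⁻¹) ^ 3 * (‖y‖ ^ 2) ^ 2 := by field_simp
    _ ≤ (‖y‖⁻¹) ^ 3 * sq y ^ 2 := by gcongr

theorem continuous_sq : Continuous sq := by unfold sq; fun_prop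

theorem measurable_bk (j : Fin 2) : Measurable (bk j) := by
  unfold bk
  have h : Measurable (fun y : E => ((sq y : ℝ) : ℂ) ^ 2) :=
    (Complex.continuous_ofReal.comp continuous_sq).measurable.pow_const 2
  have h2 : Measurable (fun y : E => (starRingEnd ℂ) (y j)) :=
    (Complex.continuous_conj.comp (continuous_apply j)).measurable
  exact h2.div h

theorem locInt_bk (j : Fin 2) : LocallyIntegrable (bk j) := by
  intro x
  refine ⟨Metric.ball x 1, Metric.ball_mem_nhds x one_pos, ?_⟩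
  have h := (integrable_ind (‖x‖ + 1)).integrableOn (s := Metric.ball x 1)
  refine Integrable.mono' h ((measurable_bk j).aestronglyMeasurable) ?_
  rw [ae_restrict_iff' measurableSet_ball]
  refine ae_of_all _ ?_
  intro y hy
  have : ‖y‖ < ‖x‖ + 1 := by
    have h1 : ‖y - x‖ < 1 := by simpa [dist_eq_norm] using hy
    have h2 := norm_sub_norm_le y x
    linarith
  simp only [Set.indicator, mem_Iio, this, if_true]
  exact bk_le j y

/-- the reflected kernel -/
noncomputable def kk (j : Fin 2) (t : E) : ℂ := bk j (-t)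

theorem locInt_kk (j : Fin 2) : LocallyIntegrable (kk j) := by
  intro x
  obtain ⟨s, hs, h⟩ := locInt_bk j (-x)
  refine ⟨-s, ?_, ?_⟩
  · have : Tendsto (fun y : E => -y) (𝓝 x) (𝓝 (-x)) := continuous_neg.tendsto x
    exact this hs
  · have h2 := (Measure.measurePreserving_neg (volume : Measure E)).integrableOn_comp_preimage
      (MeasurableEquiv.neg E).measurableEmbedding (f := bk j) (s := s)
    exact h2.2 h

theorem conv_eq (j : Fin 2) (h : E → ℂ) (z : E) :
    (kk j ⋆[ContinuousLinearMap.mul ℝ ℂ, volume] h) z = ∫ x : E, h x * bk j (x - z) := by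
  rw [convolution_eq_swap]
  congr 1
  ext x
  rw [ContinuousLinearMap.mul_apply', mul_comm]
  congr 1
  unfold kk
  congr 1
  abel

theorem int_bk (j : Fin 2) {h : E → ℂ} (hc : Continuous h) (hs : HasCompactSupport h) (z : E) :
    Integrable (fun x : E => h x * bk j (x - z)) := by
  have h1 := hs.convolutionExists_right (L := ContinuousLinearMap.mul ℝ ℂ) (locInt_kk j) hc z
  have h2 : ConvolutionExistsAt h (kk j) z (ContinuousLinearMap.mul ℝ ℂ).flip volume := by
    have h3 : ConvolutionExistsAt (kk j) h z (ContinuousLinearMap.mul ℝ ℂ) volume := h1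
    rw [convolutionExistsAt_flip]
    exact h3
  have h4 : Integrable (fun t => (ContinuousLinearMap.mul ℝ ℂ).flip (h t) (kk j (z - t))) volume := h2
  refine h4.congr ?_
  refine ae_of_all _ ?_
  intro x
  simp only [ContinuousLinearMap.flip_apply, ContinuousLinearMap.mul_apply']
  rw [mul_comm]
  congr 1
  unfold kk
  congr 1
  abel

theorem contDiff_dbar_cont (k : Fin 2) {h : E → ℂ} (hc : ContDiff ℝ 1 h) : Continuous (dbar k h) := by
  unfold dbar
  have h1 : Continuous (fderiv ℝ h) := hc.continuous_fderiv (by simp)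
  fun_prop

theorem supp_dbar (k : Fin 2) {h : E → ℂ} (hs : HasCompactSupport h) : HasCompactSupport (dbar k h) := by
  have h1 : HasCompactSupport (fderiv ℝ h) := hs.fderiv ℝ
  refine h1.mono ?_
  intro x hx
  rw [Function.mem_support] at hx ⊢
  intro h0
  apply hx
  simp [dbar, h0]

theorem dbar_conv (j k : Fin 2) {h : E → ℂ} (hc : ContDiff ℝ 1 h) (hs : HasCompactSupport h) (z : E) :
    DifferentiableAt ℝ (kk j ⋆[ContinuousLinearMap.mul ℝ ℂ, volume] h) z ∧
    dbar k (kk j ⋆[ContinuousLinearMap.mul ℝ ℂ, volume] h) z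
      = (kk j ⋆[ContinuousLinearMap.mul ℝ ℂ, volume] (dbar k h)) z := by
  have h1 := hs.hasFDerivAt_convolution_right (L := ContinuousLinearMap.mul ℝ ℂ) (μ := volume)
    (locInt_kk j) hc z
  refine ⟨h1.differentiableAt, ?_⟩
  unfold dbar
  rw [h1.fderiv]
  have hcf : Continuous (fderiv ℝ h) := hc.continuous_fderiv (by simp)
  have hsf : HasCompactSupport (fderiv ℝ h) := hs.fderiv ℝ
  have key : ∀ v : E, ((kk j ⋆[(ContinuousLinearMap.mul ℝ ℂ).precompR E, volume] fderiv ℝ h) z) v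
      = (kk j ⋆[ContinuousLinearMap.mul ℝ ℂ, volume] (fun a => fderiv ℝ h a v)) z := by
    intro v
    exact convolution_precompR_apply (L := ContinuousLinearMap.mul ℝ ℂ) (locInt_kk j) hsf hcf z v
  rw [key, key, conv_eq, conv_eq, conv_eq]
  have hsv : ∀ v : E, HasCompactSupport (fun a => fderiv ℝ h a v) := by
    intro v
    refine hsf.mono ?_
    intro x hx
    rw [Function.mem_support] at hx ⊢
    intro h0
    apply hx
    simp [h0]
  have hcv : ∀ v : E, Continuous (fun a => fderiv ℝ h a v) := by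
    intro v; fun_prop
  have i1 := int_bk j (hcv (Pi.single k 1)) (hsv _) z
  have i2 := int_bk j (hcv (Pi.single k Complex.I)) (hsv _) z
  rw [← integral_const_mul, ← integral_add i1 (i2.const_mul _), ← integral_const_mul]
  congr 1
  ext x
  ring

end S3

open S3 in
theorem bm_potential (κ : ℝ) (hκ : BMid κ) (g : Fin 2 → E → ℂ)
    (hg : ∀ j, ContDiff ℝ ((⊤ : ℕ∞) : WithTop ℕ∞) (g j)) (hs : ∀ j, HasCompactSupport (g j)) :
    ContDiff ℝ ((⊤ : ℕ∞) : WithTop ℕ∞) (fun z : E => ∫ x : E, (g 0 x * bk 0 (x - z) + g 1 x * bk 1 (x - z))) ∧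
    ∀ z : E,
      dbar 0 (fun z : E => ∫ x : E, (g 0 x * bk 0 (x - z) + g 1 x * bk 1 (x - z))) z
        = -(κ : ℂ) * g 0 z + ∫ x : E, (dbar 0 (g 1) x - dbar 1 (g 0) x) * bk 1 (x - z) ∧
      dbar 1 (fun z : E => ∫ x : E, (g 0 x * bk 0 (x - z) + g 1 x * bk 1 (x - z))) z
        = -(κ : ℂ) * g 1 z - ∫ x : E, (dbar 0 (g 1) x - dbar 1 (g 0) x) * bk 0 (x - z) := by
  have hg1 : ∀ j, ContDiff ℝ 1 (g j) := fun j => (hg j).of_le (by exact_mod_cast le_top)
  have hG : (fun z : E => ∫ x : E, (g 0 x * bk 0 (x - z) + g 1 x * bk 1 (x - z)))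
      = fun z => (kk 0 ⋆[ContinuousLinearMap.mul ℝ ℂ, volume] (g 0)) z
        + (kk 1 ⋆[ContinuousLinearMap.mul ℝ ℂ, volume] (g 1)) z := by
    funext z
    rw [conv_eq, conv_eq, ← integral_add]
    · exact int_bk 0 (hg 0).continuous (hs 0) z
    · exact int_bk 1 (hg 1).continuous (hs 1) z
  have hd : ∀ k z, dbar k (fun z => (kk 0 ⋆[ContinuousLinearMap.mul ℝ ℂ, volume] (g 0)) z
        + (kk 1 ⋆[ContinuousLinearMap.mul ℝ ℂ, volume] (g 1)) z) z
      = ∫ x : E, (dbar k (g 0) x * bk 0 (x - z) + dbar k (g 1) x * bk 1 (x - z)) := by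
    intro k z
    obtain ⟨d0, e0⟩ := dbar_conv 0 k (hg1 0) (hs 0) z
    obtain ⟨d1, e1⟩ := dbar_conv 1 k (hg1 1) (hs 1) z
    have h1 : dbar k (fun z => (kk 0 ⋆[ContinuousLinearMap.mul ℝ ℂ, volume] (g 0)) z
        + (kk 1 ⋆[ContinuousLinearMap.mul ℝ ℂ, volume] (g 1)) z) z
        = dbar k (kk 0 ⋆[ContinuousLinearMap.mul ℝ ℂ, volume] (g 0)) z
          + dbar k (kk 1 ⋆[ContinuousLinearMap.mul ℝ ℂ, volume] (g 1)) z := by
      unfold dbar
      rw [fderiv_fun_add d0 d1]
      simp only [_root_.add_apply]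
      ring
    rw [h1, e0, e1, conv_eq, conv_eq, ← integral_add]
    · exact int_bk 0 (contDiff_dbar_cont k (hg1 0)) (supp_dbar k (hs 0)) z
    · exact int_bk 1 (contDiff_dbar_cont k (hg1 1)) (supp_dbar k (hs 1)) z
  have hBM : ∀ j z, ∫ x : E, (dbar 0 (g j) x * bk 0 (x - z) + dbar 1 (g j) x * bk 1 (x - z))
      = -(κ : ℂ) * g j z := by
    intro j z
    rw [← hκ.2 (g j) (hg1 j) (hs j) z]
    rw [← integral_add_left_eq_self (fun x : E => dbar 0 (g j) x * bk 0 (x - z)
      + dbar 1 (g j) x * bk 1 (x - z)) z]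
    simp only [add_sub_cancel_left]
  rw [hG]
  refine ⟨?_, ?_⟩
  · have c0 := (hs 0).contDiff_convolution_right (L := ContinuousLinearMap.mul ℝ ℂ) (μ := volume)
      (locInt_kk 0) (hg 0)
    have c1 := (hs 1).contDiff_convolution_right (L := ContinuousLinearMap.mul ℝ ℂ) (μ := volume)
      (locInt_kk 1) (hg 1)
    exact c0.add c1
  · intro z
    have ib : ∀ i j k, Integrable (fun x : E => dbar k (g i) x * bk j (x - z)) := fun i j k =>
      int_bk j (contDiff_dbar_cont k (hg1 i)) (supp_dbar k (hs i)) z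
    refine ⟨?_, ?_⟩
    · rw [hd 0 z, ← hBM 0 z]
      have i3 : Integrable (fun x : E => (dbar 0 (g 1) x - dbar 1 (g 0) x) * bk 1 (x - z)) := by
        simp only [sub_mul]; exact (ib 1 1 0).sub (ib 0 1 1)
      have i4 : Integrable (fun x : E => dbar 0 (g 0) x * bk 0 (x - z) + dbar 1 (g 0) x * bk 1 (x - z)) :=
        (ib 0 0 0).add (ib 0 1 1)
      rw [← integral_add i4 i3]
      congr 1
      ext x
      ring
    · rw [hd 1 z, ← hBM 1 z]
      have i3 : Integrable (fun x : E => (dbar 0 (g 1) x - dbar 1 (g 0) x) * bk 0 (x - z)) := by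
        simp only [sub_mul]; exact (ib 1 0 0).sub (ib 0 0 1)
      have i4 : Integrable (fun x : E => dbar 0 (g 1) x * bk 0 (x - z) + dbar 1 (g 1) x * bk 1 (x - z)) :=
        (ib 1 0 0).add (ib 1 1 1)
      rw [← integral_sub i4 i3]
      congr 1
      ext x
      ring

end Pool.Agent.N289.CV
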