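import Pool.Agent.N289.CV.Defs

/-!
# Smooth parametric integrals over a compact set
-/

set_option autoImplicit false

namespace Pool.Agent.N289.CV

open MeasureTheory Set Filter Topology

namespace S4



section general

set_option linter.unusedSectionVars false

variable {X : Set E} {O : Set (E × E)} {V : Set E} {F : Type} [NormedAddCommGroup F]
  [NormedSpace ℝ F] [CompleteSpace F] {K : E → E → F} {g : E → ℝ}

theorem fderiv_eq (hO : IsOpen O) (hK : ContDiffOn ℝ ((⊤ : ℕ∞) : WithTop ℕ∞) (Function.uncurry K) O) {p : E × E}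
    (hp : p ∈ O) : HasFDerivAt (K p.1)
      ((fderiv ℝ (Function.uncurry K) p).comp (ContinuousLinearMap.inr ℝ E E)) p.2 := by
  have h1 : HasFDerivAt (Function.uncurry K) (fderiv ℝ (Function.uncurry K) p) p :=
    ((hK.contDiffAt (hO.mem_nhds hp)).differentiableAt (by simp)).hasFDerivAt
  have h2 : HasFDerivAt (fun z : E => (p.1, z)) (ContinuousLinearMap.inr ℝ E E) p.2 :=
    hasFDerivAt_prodMk_right p.1 p.2
  exact HasFDerivAt.comp (g := Function.uncurry K) p.2 h1 h2

theorem smooth_fderiv (hO : IsOpen O) (hK : ContDiffOn ℝ ((⊤ : ℕ∞) : WithTop ℕ∞) (Function.uncurry K) O) :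
    ContDiffOn ℝ ((⊤ : ℕ∞) : WithTop ℕ∞) (Function.uncurry fun x z => fderiv ℝ (K x) z) O := by
  have h1 : ContDiffOn ℝ ((⊤ : ℕ∞) : WithTop ℕ∞) (fderiv ℝ (Function.uncurry K)) O :=
    hK.fderiv_of_isOpen hO (by simp)
  have h2 : ContDiffOn ℝ ((⊤ : ℕ∞) : WithTop ℕ∞) (fun p => (fderiv ℝ (Function.uncurry K) p).comp
      (ContinuousLinearMap.inr ℝ E E)) O := h1.clm_comp contDiffOn_const
  refine h2.congr fun p hp => ?_
  exact (fderiv_eq hO hK hp).fderiv

theorem cont_slice (hXO : X ×ˢ V ⊆ O) (hK : ContinuousOn (Function.uncurry K) O) {z : E}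
    (hz : z ∈ V) : ContinuousOn (fun x => K x z) X := by
  have h : ContinuousOn (fun x : E => (x, z)) X := by fun_prop
  exact hK.comp h fun x hx => hXO ⟨hx, hz⟩

theorem integrable_slice (hX : IsCompact X) (hXO : X ×ˢ V ⊆ O)
    (hK : ContinuousOn (Function.uncurry K) O) (hg : IntegrableOn g X) {z : E} (hz : z ∈ V) :
    IntegrableOn (fun x => g x • K x z) X :=
  hg.smul_continuousOn (cont_slice hXO hK hz) hX

theorem hasFDerivAt_param (hX : IsCompact X) (hO : IsOpen O) (hV : IsOpen V) (hXO : X ×ˢ V ⊆ O)
    (hK : ContDiffOn ℝ ((⊤ : ℕ∞) : WithTop ℕ∞) (Function.uncurry K) O) (hg : IntegrableOn g X) {z : E} (hz : z ∈ V) :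
    HasFDerivAt (fun z => ∫ x in X, g x • K x z) (∫ x in X, g x • fderiv ℝ (K x) z) z := by
  obtain ⟨ε, hε, hball⟩ := Metric.nhds_basis_closedBall.mem_iff.1 (hV.mem_nhds hz)
  have hK' := smooth_fderiv hO hK
  obtain ⟨B, hB⟩ := (hX.prod (isCompact_closedBall z ε)).exists_bound_of_continuousOn
    (hK'.continuousOn.mono ((prod_mono subset_rfl hball).trans hXO))
  have hmeas : MeasurableSet X := hX.isClosed.measurableSet
  refine hasFDerivAt_integral_of_dominated_of_fderiv_le (𝕜 := ℝ) (s := Metric.closedBall z ε)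
    (F := fun z x => g x • K x z) (F' := fun z x => g x • fderiv ℝ (K x) z)
    (bound := fun x => ‖g x‖ * B) (Metric.closedBall_mem_nhds z hε) ?_ ?_ ?_ ?_ ?_ ?_
  · filter_upwards [hV.mem_nhds hz] with y hy
    exact (integrable_slice hX hXO hK.continuousOn hg hy).aestronglyMeasurable
  · exact integrable_slice hX hXO hK.continuousOn hg hz
  · exact (integrable_slice hX hXO hK'.continuousOn hg hz).aestronglyMeasurable
  · filter_upwards [ae_restrict_mem hmeas] with x hx y hy
    rw [norm_smul]
    exact mul_le_mul_of_nonneg_left (hB (x, y) ⟨hx, hy⟩) (norm_nonneg _)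
  · exact hg.norm.mul_const B
  · filter_upwards [ae_restrict_mem hmeas] with x hx y hy
    have h : HasFDerivAt (K x) (fderiv ℝ (K x) y) y :=
      (fderiv_eq hO hK (p := (x, y)) (hXO ⟨hx, hball hy⟩)).differentiableAt.hasFDerivAt
    exact h.const_smul (g x)

end general

theorem smooth_param {X : Set E} {O : Set (E × E)} {V : Set E} {g : E → ℝ} (hX : IsCompact X)
    (hO : IsOpen O) (hV : IsOpen V) (hXO : X ×ˢ V ⊆ O) (hg : IntegrableOn g X) :
    ∀ (n : ℕ) {F : Type} [NormedAddCommGroup F] [NormedSpace ℝ F] [CompleteSpace F]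
      {K : E → E → F}, ContDiffOn ℝ ((⊤ : ℕ∞) : WithTop ℕ∞) (Function.uncurry K) O →
      ContDiffOn ℝ n (fun z => ∫ x in X, g x • K x z) V := by
  intro n
  induction n with
  | zero =>
      intro F _ _ _ K hK
      rw [Nat.cast_zero, contDiffOn_zero]
      intro z hz
      exact (hasFDerivAt_param hX hO hV hXO hK hg hz).continuousAt.continuousWithinAt
  | succ n ih =>
      intro F _ _ _ K hK
      rw [Nat.cast_succ, contDiffOn_succ_iff_fderiv_of_isOpen hV]
      refine ⟨fun z hz => (hasFDerivAt_param hX hO hV hXO hK hg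
        hz).differentiableAt.differentiableWithinAt, fun h => ?_, ?_⟩
      · exact absurd h (by simp)
      · refine (ih (smooth_fderiv hO hK)).congr fun z hz => ?_
        exact (hasFDerivAt_param hX hO hV hXO hK hg hz).fderiv

end S4

open S4 in
theorem param_smooth {X : Set E} (hX : IsCompact X) {O : Set (E × E)} (hO : IsOpen O)
    {V : Set E} (hV : IsOpen V) (hXO : X ×ˢ V ⊆ O) {K : E → E → ℂ}
    (hK : ContDiffOn ℝ ((⊤ : ℕ∞) : WithTop ℕ∞) (Function.uncurry K) O)
    {g : E → ℂ} (hg : IntegrableOn g X) :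
    ContDiffOn ℝ ((⊤ : ℕ∞) : WithTop ℕ∞) (fun z => ∫ x in X, g x * K x z) V ∧
    ∀ z ∈ V, ∀ j, dbar j (fun z => ∫ x in X, g x * K x z) z = ∫ x in X, g x * dbar j (K x) z := by
  have hgr : IntegrableOn (fun x => (g x).re) X := hg.re
  have hgi : IntegrableOn (fun x => (g x).im) X := hg.im
  have hK' := smooth_fderiv hO hK
  have key : ∀ z ∈ V, ∫ x in X, g x * K x z =
      (∫ x in X, (g x).re • K x z) + Complex.I * ∫ x in X, (g x).im • K x z := by
    intro z hz
    rw [← integral_const_mul, ← integral_add (integrable_slice hX hXO hK.continuousOn hgr hz)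
      ((integrable_slice hX hXO hK.continuousOn hgi hz).const_mul Complex.I)]
    refine integral_congr_ae (Eventually.of_forall fun x => ?_)
    simp only [Complex.real_smul]
    conv_lhs => rw [← Complex.re_add_im (g x)]
    ring
  constructor
  · have h1 : ContDiffOn ℝ ((⊤ : ℕ∞) : WithTop ℕ∞) (fun z => (∫ x in X, (g x).re • K x z) +
        Complex.I * ∫ x in X, (g x).im • K x z) V := by
      rw [contDiffOn_infty]
      intro n
      exact (smooth_param hX hO hV hXO hgr n hK).add
        (contDiffOn_const.mul (smooth_param hX hO hV hXO hgi n hK))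
    exact h1.congr key
  · intro z hz j
    have hev : (fun z => ∫ x in X, g x * K x z) =ᶠ[𝓝 z] fun z =>
        (∫ x in X, (g x).re • K x z) + Complex.I * ∫ x in X, (g x).im • K x z := by
      filter_upwards [hV.mem_nhds hz] with y hy
      exact key y hy
    have hd : HasFDerivAt (fun z => (∫ x in X, (g x).re • K x z) +
        Complex.I * ∫ x in X, (g x).im • K x z) ((∫ x in X, (g x).re • fderiv ℝ (K x) z) +
        Complex.I • ∫ x in X, (g x).im • fderiv ℝ (K x) z) z :=
      (hasFDerivAt_param hX hO hV hXO hK hgr hz).add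
        ((hasFDerivAt_param hX hO hV hXO hK hgi hz).const_mul Complex.I)
    have hfd : ∀ v : E, fderiv ℝ (fun z => ∫ x in X, g x * K x z) z v =
        ∫ x in X, g x * fderiv ℝ (K x) z v := by
      intro v
      rw [hev.fderiv_eq, hd.fderiv]
      have i1 := integrable_slice hX hXO hK'.continuousOn hgr hz
      have i2 := integrable_slice hX hXO hK'.continuousOn hgi hz
      rw [add_apply, smul_apply,
        ContinuousLinearMap.integral_apply i1, ContinuousLinearMap.integral_apply i2,
        smul_eq_mul, ← integral_const_mul, ← integral_add (i1.apply_continuousLinearMap v)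
          ((i2.apply_continuousLinearMap v).const_mul Complex.I)]
      refine integral_congr_ae (Eventually.of_forall fun x => ?_)
      simp only [smul_apply, Complex.real_smul]
      conv_rhs => rw [← Complex.re_add_im (g x)]
      ring
    have hint : ∀ v : E, IntegrableOn (fun x => g x * fderiv ℝ (K x) z v) X := by
      intro v
      have hc : ContinuousOn (fun x => fderiv ℝ (K x) z v) X :=
        (cont_slice hXO hK'.continuousOn hz).clm_apply continuousOn_const
      exact hg.smul_continuousOn hc hX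
    unfold dbar
    rw [hfd, hfd, ← integral_const_mul, ← integral_add (hint _) ((hint _).const_mul Complex.I),
      ← integral_const_mul]
    refine integral_congr_ae (Eventually.of_forall fun x => ?_)
    simp only
    ring

end Pool.Agent.N289.CV
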