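import Pool.Agent.N289.CV.S13
import Pool.Agent.N289.CV.S4
import Pool.Agent.N289.CV.S3
import Pool.Agent.N289.CV.Pot
set_option autoImplicit false
namespace Pool.Agent.N289.CV
open MeasureTheory Set Filter Topology

namespace S14

/-- cut-off function -/
noncomputable def th (N : E → ℝ) (r1 r2 : ℝ) (x : E) : ℝ := Real.smoothTransition ((r2 - N x) / (r2 - r1))

theorem th_one {N : E → ℝ} {r1 r2 : ℝ} (h : r1 < r2) {x : E} (hx : N x ≤ r1) : th N r1 r2 x = 1 := by
  apply Real.smoothTransition.one_of_one_le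
  rw [le_div_iff₀ (by linarith)]; linarith

theorem th_zero {N : E → ℝ} {r1 r2 : ℝ} (h : r1 < r2) {x : E} (hx : r2 ≤ N x) : th N r1 r2 x = 0 := by
  apply Real.smoothTransition.zero_of_nonpos
  exact div_nonpos_of_nonpos_of_nonneg (by linarith) (by linarith)

theorem th_contDiff {N : E → ℝ} (hN : Good N) {r1 r2 : ℝ} (h0 : 0 < r1) (h : r1 < r2) :
    ContDiff ℝ ((⊤ : ℕ∞) : WithTop ℕ∞) (th N r1 r2) := by
  rw [contDiff_iff_contDiffAt]
  intro x
  by_cases hx : x = 0
  · have : th N r1 r2 =ᶠ[𝓝 x] fun _ => (1:ℝ) := by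
      have h1 : ∀ᶠ y in 𝓝 x, N y < r1 := hN.cont.continuousAt.eventually_lt continuousAt_const
        (by rw [hx, hN.zero]; exact h0)
      filter_upwards [h1] with y hy
      exact th_one h hy.le
    exact contDiffAt_const.congr_of_eventuallyEq this
  · unfold th
    exact Real.smoothTransition.contDiffAt.comp x
      ((contDiffAt_const.sub (hN.contDiffAt hx)).div_const _)

/-- the cut-off data `g = θ f` is smooth -/
theorem g_contDiff {N : E → ℝ} (hN : Good N) {r1 r2 : ℝ} (h0 : 0 < r1) (h : r1 < r2) (h2 : r2 < 1)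
    {f : E → ℂ} (hf : ContDiffOn ℝ ((⊤ : ℕ∞) : WithTop ℕ∞) f {x | N x < 1}) :
    ContDiff ℝ ((⊤ : ℕ∞) : WithTop ℕ∞) (fun x => (th N r1 r2 x : ℂ) * f x) := by
  rw [contDiff_iff_contDiffAt]
  intro x
  by_cases hx : N x < 1
  · have hO : {x | N x < 1} ∈ 𝓝 x := (isOpen_lt hN.cont continuous_const).mem_nhds hx
    exact (Complex.ofRealCLM.contDiff.contDiffAt.comp x (th_contDiff hN h0 h).contDiffAt).mul (hf.contDiffAt hO)
  · have : (fun x => (th N r1 r2 x : ℂ) * f x) =ᶠ[𝓝 x] fun _ => (0:ℂ) := by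
      have h1 : ∀ᶠ y in 𝓝 x, r2 < N y := continuousAt_const.eventually_lt hN.cont.continuousAt
        (by push Not at hx; linarith)
      filter_upwards [h1] with y hy
      rw [th_zero h hy.le]; simp
    exact contDiffAt_const.congr_of_eventuallyEq this

theorem g_zero {N : E → ℝ} {r1 r2 : ℝ} (h : r1 < r2)
    {f : E → ℂ} {x : E} (hx : r2 ≤ N x) : (th N r1 r2 x : ℂ) * f x = 0 := by
  rw [th_zero h hx]; simp

theorem compact_of_zero {N : E → ℝ} (hN : Good N) {r2 : ℝ} {g : E → ℂ} (h : ∀ x, r2 < N x → g x = 0) :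
    HasCompactSupport g := by
  refine HasCompactSupport.of_support_subset_isCompact (hN.isCompact_le r2) ?_
  intro x hx
  by_contra hcon
  simp only [mem_ofPred_eq, not_le] at hcon
  exact hx (h x hcon)

/-- `∫ ∂̄_j P = 0` -/
theorem int_dbar {P : E → ℂ} (hP : ContDiff ℝ 1 P) (hc : HasCompactSupport P) (j : Fin 2) :
    ∫ x, dbar j P x = 0 := by
  have hd : ∀ v : E, Integrable (fun x => fderiv ℝ P x v) := by
    intro v
    have h1 : Continuous (fun x => fderiv ℝ P x v) := (hP.continuous_fderiv (by norm_num)).clm_apply continuous_const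
    exact h1.integrable_of_hasCompactSupport (hc.fderiv_apply ℝ v)
  have h0 : ∀ v : E, ∫ x, fderiv ℝ P x v = 0 := by
    intro v
    have h := integral_mul_fderiv_eq_neg_fderiv_mul_of_integrable (μ := (volume : Measure E)) (𝕜 := ℂ)
      (f := fun _ : E => (1:ℂ)) (g := P) (v := v) (by simp) (by simpa using hd v)
      (by simpa using hP.continuous.integrable_of_hasCompactSupport hc) (fun _ _ => by fun_prop)
      (fun _ _ => (hP.differentiable (by norm_num)).differentiableAt)
    simpa using h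
  unfold dbar
  rw [integral_const_mul, integral_add (hd _) ((hd _).const_mul _), integral_const_mul, h0, h0]
  simp

/-- integration by parts -/
theorem by_parts {N : E → ℝ} (hN : Good N) {r2 : ℝ} (h2 : r2 < 1) {g h : E → ℂ}
    (hg : ContDiff ℝ ((⊤ : ℕ∞) : WithTop ℕ∞) g) (hg0 : ∀ x, r2 ≤ N x → g x = 0)
    (hh : ContDiffOn ℝ ((⊤ : ℕ∞) : WithTop ℕ∞) h {x | N x < 1}) (j : Fin 2) :
    Integrable (fun x => g x * dbar j h x) ∧ Integrable (fun x => dbar j g x * h x) ∧
    ∫ x, g x * dbar j h x = - ∫ x, dbar j g x * h x := by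
  have hO : IsOpen {x | N x < 1} := isOpen_lt hN.cont continuous_const
  have hfar : ∀ x, r2 < N x → g =ᶠ[𝓝 x] fun _ => 0 := by
    intro x hx
    have h1 : ∀ᶠ y in 𝓝 x, r2 < N y := continuousAt_const.eventually_lt hN.cont.continuousAt hx
    filter_upwards [h1] with y hy
    exact hg0 y hy.le
  have hdg0 : ∀ x, r2 < N x → dbar j g x = 0 := by
    intro x hx
    rw [S13.dbar_congr (hfar x hx), S13.dbar_const]
  have hdg : ContDiff ℝ ((⊤ : ℕ∞) : WithTop ℕ∞) (fun x => dbar j g x) := by
    unfold dbar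
    have h1 : ContDiff ℝ ((⊤ : ℕ∞) : WithTop ℕ∞) (fderiv ℝ g) := hg.fderiv_right (by exact_mod_cast le_top)
    exact contDiff_const.mul ((h1.clm_apply contDiff_const).add (contDiff_const.mul (h1.clm_apply contDiff_const)))
  have hmul : ∀ {a b : E → ℂ}, ContDiff ℝ ((⊤ : ℕ∞) : WithTop ℕ∞) a → (∀ x, r2 < N x → a x = 0) →
      ContDiffOn ℝ ((⊤ : ℕ∞) : WithTop ℕ∞) b {x | N x < 1} →
      ContDiff ℝ ((⊤ : ℕ∞) : WithTop ℕ∞) (fun x => a x * b x) := by
    intro a b ha ha0 hb
    rw [contDiff_iff_contDiffAt]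
    intro x
    by_cases hx : N x < 1
    · exact ha.contDiffAt.mul (hb.contDiffAt (hO.mem_nhds hx))
    · have : (fun x => a x * b x) =ᶠ[𝓝 x] fun _ => (0:ℂ) := by
        have h1 : ∀ᶠ y in 𝓝 x, r2 < N y := continuousAt_const.eventually_lt hN.cont.continuousAt
          (by push Not at hx; linarith)
        filter_upwards [h1] with y hy
        rw [ha0 y hy]; simp
      exact contDiffAt_const.congr_of_eventuallyEq this
  have hdh : ContDiffOn ℝ ((⊤ : ℕ∞) : WithTop ℕ∞) (fun x => dbar j h x) {x | N x < 1} := by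
    unfold dbar
    have h1 : ContDiffOn ℝ ((⊤ : ℕ∞) : WithTop ℕ∞) (fderiv ℝ h) {x | N x < 1} :=
      hh.fderiv_of_isOpen hO (by exact_mod_cast le_top)
    exact contDiffOn_const.mul ((h1.clm_apply contDiffOn_const).add
      (contDiffOn_const.mul (h1.clm_apply contDiffOn_const)))
  have i1 : Integrable (fun x => g x * dbar j h x) := by
    refine (hmul hg (fun x hx => hg0 x hx.le) hdh).continuous.integrable_of_hasCompactSupport ?_
    exact compact_of_zero hN (r2 := r2) (fun x hx => by rw [hg0 x hx.le, zero_mul])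
  have i2 : Integrable (fun x => dbar j g x * h x) := by
    refine (hmul hdg hdg0 hh).continuous.integrable_of_hasCompactSupport ?_
    exact compact_of_zero hN (r2 := r2) (fun x hx => by rw [hdg0 x hx, zero_mul])
  refine ⟨i1, i2, ?_⟩
  have hP := int_dbar ((hmul hg (fun x hx => hg0 x hx.le) hh).of_le (by exact_mod_cast le_top))
    (compact_of_zero hN (r2 := r2) (fun x hx => by rw [hg0 x hx.le, zero_mul])) j
  have e : ∀ x, dbar j (fun x => g x * h x) x = g x * dbar j h x + dbar j g x * h x := by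
    intro x
    by_cases hx : N x < 1
    · rw [S13.dbar_mul (hg.differentiable (by simp)).differentiableAt
        ((hh.contDiffAt (hO.mem_nhds hx)).differentiableAt (by simp))]
    · have hx' : r2 < N x := by push Not at hx; linarith
      have : (fun x => g x * h x) =ᶠ[𝓝 x] fun _ => (0:ℂ) := by
        filter_upwards [hfar x hx'] with y hy
        rw [hy, zero_mul]
      rw [S13.dbar_congr this, S13.dbar_const, hg0 x hx'.le, hdg0 x hx']
      simp
  simp only [e] at hP
  rw [integral_add i1 i2] at hP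
  exact eq_neg_of_add_eq_zero_left hP


theorem M_slice' {N : E → ℝ} (hN : Good N) {c : ℝ} (hc : 0 < c) : ∀ z, N z < 1 →
    ContDiffOn ℝ ((⊤ : ℕ∞) : WithTop ℕ∞) (fun x => M c N x z) {x | N x < 1} := by
  intro z hz
  have h1 : ContDiffOn ℝ ((⊤ : ℕ∞) : WithTop ℕ∞) (fun x : E => ((x, z) : E × E)) {x | N x < 1} :=
    (contDiff_id.prodMk contDiff_const).contDiffOn
  have h2 : MapsTo (fun x : E => ((x, z) : E × E)) {x | N x < 1} {p | N p.1 < 1 ∧ N p.2 < 1} := by
    intro x hx
    exact ⟨hx, hz⟩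
  have h4 := M_contDiffOn hN hc
  have h3 := h4.comp h1 h2
  exact h3

/-- the coefficient of the holomorphic kernel -/
noncomputable def P (N : E → ℝ) (k : Fin 2) (x : E) : ℂ :=
  - (w N 0 x * dbar k (w N 1) x - w N 1 x * dbar k (w N 0) x)

theorem P_cont {N : E → ℝ} (hN : Good N) (k : Fin 2) : ContinuousOn (P N k) {0}ᶜ := by
  have h1 : ∀ j, ContinuousOn (w N j) {0}ᶜ := fun j => (w_contDiffOn hN j).continuousOn
  have h2 : ∀ j, ContinuousOn (dbar k (w N j)) {0}ᶜ := by
    intro j
    have h := (w_contDiffOn hN j).continuousOn_fderiv_of_isOpen isOpen_compl_singleton (by exact_mod_cast le_top)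
    unfold dbar
    exact continuousOn_const.mul ((h.clm_apply continuousOn_const).add
      (continuousOn_const.mul (h.clm_apply continuousOn_const)))
  exact (((h1 0).mul (h2 1)).sub ((h1 1).mul (h2 0))).neg

/-- the third integrand -/
noncomputable def F (N : E → ℝ) (f : Fin 2 → E → ℂ) (r1 r2 : ℝ) : E → ℂ :=
  {x | r1 ≤ N x ∧ N x < 1}.indicator
    (fun x => (1 - (th N r1 r2 x : ℂ)) * (f 0 x * P N 1 x - f 1 x * P N 0 x))

theorem isCompact_shell {N : E → ℝ} (hN : Good N) (r1 r2 : ℝ) : IsCompact {x | r1 ≤ N x ∧ N x ≤ r2} := by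
  have : {x : E | r1 ≤ N x ∧ N x ≤ r2} = {x | N x ≤ r2} ∩ {x | r1 ≤ N x} := by
    ext x; simp only [mem_ofPred_eq, mem_inter_iff]; tauto
  rw [this]
  exact (hN.isCompact_le r2).inter_right (isClosed_le continuous_const hN.cont)

theorem F_integrable {N : E → ℝ} (hN : Good N) {r1 r2 : ℝ} (h0 : 0 < r1) (h : r1 < r2)
    {f : Fin 2 → E → ℂ} (hf : ∀ j, ContDiffOn ℝ ((⊤ : ℕ∞) : WithTop ℕ∞) (f j) {x | N x < 1})
    {B : ℝ} (hB : ∀ x, N x < 1 → ∀ j, ‖f j x‖ ≤ B) : Integrable (F N f r1 r2) := by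
  have hSm : MeasurableSet {x | r1 ≤ N x ∧ N x < 1} :=
    (measurableSet_le measurable_const hN.cont.measurable).inter (measurableSet_lt hN.cont.measurable measurable_const)
  unfold F
  rw [integrable_indicator_iff hSm]
  have hne : {x | r1 ≤ N x ∧ N x < 1} ⊆ {(0:E)}ᶜ := by
    intro x hx
    exact hN.ne_zero (h0.trans_le hx.1)
  have hcont : ContinuousOn (fun x => (1 - (th N r1 r2 x : ℂ)) * (f 0 x * P N 1 x - f 1 x * P N 0 x))
      {x | r1 ≤ N x ∧ N x < 1} := by
    have h1 : Continuous (fun x => (th N r1 r2 x : ℂ)) :=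
      Complex.continuous_ofReal.comp (th_contDiff hN h0 h).continuous
    have h2 : ∀ j, ContinuousOn (f j) {x | r1 ≤ N x ∧ N x < 1} := fun j => (hf j).continuousOn.mono (fun x hx => hx.2)
    have h3 : ∀ k, ContinuousOn (P N k) {x | r1 ≤ N x ∧ N x < 1} := fun k => (P_cont hN k).mono hne
    exact (continuous_const.sub h1).continuousOn.mul (((h2 0).mul (h3 1)).sub ((h2 1).mul (h3 0)))
  have hP : ∀ k, ∃ C, ∀ x ∈ {x | r1 ≤ N x ∧ N x ≤ 1}, ‖P N k x‖ ≤ C := fun k =>
    (isCompact_shell hN r1 1).exists_bound_of_continuousOn ((P_cont hN k).mono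
      (fun x hx => hN.ne_zero (h0.trans_le hx.1)))
  choose C hC using hP
  have hfin : volume {x | r1 ≤ N x ∧ N x < 1} < ⊤ :=
    lt_of_le_of_lt (measure_mono (t := {x | r1 ≤ N x ∧ N x ≤ 1}) (fun x hx => ⟨hx.1, hx.2.le⟩))
      ((isCompact_shell hN r1 1).measure_lt_top (μ := volume))
  refine Integrable.mono' (g := fun _ => 1 * (B * C 1 + B * C 0)) (integrableOn_const hfin.ne)
    (hcont.aestronglyMeasurable hSm) ?_
  · rw [ae_restrict_iff' hSm]
    refine Eventually.of_forall (fun x hx => ?_)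
    have hx1 := hC 1 x ⟨hx.1, hx.2.le⟩
    have hx0 := hC 0 x ⟨hx.1, hx.2.le⟩
    have hB0 : 0 ≤ B := (norm_nonneg _).trans (hB x hx.2 0)
    have ht : ‖1 - (th N r1 r2 x : ℂ)‖ ≤ 1 := by
      have h1 : (1 - (th N r1 r2 x : ℂ)) = ((1 - th N r1 r2 x : ℝ) : ℂ) := by push_cast; ring
      rw [h1, Complex.norm_real, Real.norm_eq_abs, abs_le]
      have h2 : 0 ≤ th N r1 r2 x := Real.smoothTransition.nonneg _
      have h3 : th N r1 r2 x ≤ 1 := Real.smoothTransition.le_one _
      constructor <;> linarith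
    rw [norm_mul]
    gcongr
    refine (norm_sub_le _ _).trans ?_
    rw [norm_mul, norm_mul]
    have := hB x hx.2 0
    have := hB x hx.2 1
    gcongr

theorem repr_local {N : E → ℝ} (hN : Good N) {c κ : ℝ} (hc : 0 < c) (hκ : BMid κ)
    (f : Fin 2 → E → ℂ) (hf : ∀ j, ContDiffOn ℝ ((⊤ : ℕ∞) : WithTop ℕ∞) (f j) {x | N x < 1})
    (hcl : ∀ x, N x < 1 → dbar 0 (f 1) x = dbar 1 (f 0) x)
    (B : ℝ) (hB : ∀ x, N x < 1 → ∀ j, ‖f j x‖ ≤ B) (r : ℝ) (hr0 : 0 < r) (hr : r < 1) :
    ContDiffOn ℝ ((⊤ : ℕ∞) : WithTop ℕ∞) (fun z => (κ : ℂ)⁻¹ * ∫ x in {x | N x < 1},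
        (f 0 x * (dbar 1 (fun x => M c N x z) x - bk 0 (x - z))
          - f 1 x * (dbar 0 (fun x => M c N x z) x + bk 1 (x - z)))) {x | N x < r} ∧
    ∀ z, N z < r → ∀ j, dbar j (fun z => (κ : ℂ)⁻¹ * ∫ x in {x | N x < 1},
        (f 0 x * (dbar 1 (fun x => M c N x z) x - bk 0 (x - z))
          - f 1 x * (dbar 0 (fun x => M c N x z) x + bk 1 (x - z)))) z = f j z := by
  obtain ⟨r', hrr', hr'1, hMM⟩ := M_eq_M0 hN hc hr
  set r1 : ℝ := (2 * r' + 1) / 3 with hr1
  set r2 : ℝ := (r' + 2) / 3 with hr2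
  have h1 : r' < r1 := by rw [hr1]; linarith
  have h12 : r1 < r2 := by rw [hr1, hr2]; linarith
  have h21 : r2 < 1 := by rw [hr2]; linarith
  have h01 : 0 < r1 := by linarith
  have hΩ := isOpen_Om hN
  have hΩm := hΩ.measurableSet
  set g : Fin 2 → E → ℂ := fun j x => (th N r1 r2 x : ℂ) * f j x with hg
  have hgs : ∀ j, ContDiff ℝ ((⊤ : ℕ∞) : WithTop ℕ∞) (g j) := fun j => g_contDiff hN h01 h12 h21 (hf j)
  have hg0 : ∀ j x, r2 ≤ N x → g j x = 0 := fun j x hx => g_zero h12 hx
  have hgc : ∀ j, HasCompactSupport (g j) := fun j => compact_of_zero hN (r2 := r2) (fun x hx => hg0 j x hx.le)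
  set W : E → ℂ := fun x => dbar 0 (g 1) x - dbar 1 (g 0) x with hW
  have hgf : ∀ j x, N x < r1 → g j =ᶠ[𝓝 x] f j := by
    intro j x hx
    have : ∀ᶠ y in 𝓝 x, N y < r1 := hN.cont.continuousAt.eventually_lt continuousAt_const hx
    filter_upwards [this] with y hy
    simp only [hg]
    rw [th_one h12 hy.le]; simp
  have hW1 : ∀ x, N x < r1 → W x = 0 := by
    intro x hx
    simp only [hW]
    rw [S13.dbar_congr (hgf 1 x hx), S13.dbar_congr (hgf 0 x hx), hcl x (by linarith), sub_self]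
  have hW2 : ∀ x, r2 < N x → W x = 0 := by
    intro x hx
    have h : ∀ j, g j =ᶠ[𝓝 x] fun _ => 0 := by
      intro j
      have : ∀ᶠ y in 𝓝 x, r2 < N y := continuousAt_const.eventually_lt hN.cont.continuousAt hx
      filter_upwards [this] with y hy
      exact hg0 j y hy.le
    simp only [hW]
    rw [S13.dbar_congr (h 1), S13.dbar_congr (h 0), S13.dbar_const, S13.dbar_const, sub_self]
  set X : Set E := {x | r1 ≤ N x ∧ N x ≤ r2} with hX
  have hXc : IsCompact X := isCompact_shell hN r1 r2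
  have hWX : ∀ x, x ∉ X → W x = 0 := by
    intro x hx
    simp only [hX, mem_ofPred_eq, not_and_or, not_le] at hx
    rcases hx with h | h
    · exact hW1 x h
    · exact hW2 x h
  have hWcont : Continuous W := by
    have h : ∀ j k, Continuous (fun x => dbar j (g k) x) := by
      intro j k
      have h1 : Continuous (fderiv ℝ (g k)) := (hgs k).continuous_fderiv (by simp)
      unfold dbar
      exact continuous_const.mul ((h1.clm_apply continuous_const).add
        (continuous_const.mul (h1.clm_apply continuous_const)))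
    exact (h 0 1).sub (h 1 0)
  set X2 : Set E := {x | r1 ≤ N x ∧ N x ≤ 1} with hX2
  have hX2c : IsCompact X2 := isCompact_shell hN r1 1
  have hOo : IsOpen {p : E × E | N p.2 < N p.1} :=
    isOpen_lt (hN.cont.comp continuous_snd) (hN.cont.comp continuous_fst)
  have hVo : IsOpen {z : E | N z < r} := isOpen_lt hN.cont continuous_const
  -- the three pieces
  obtain ⟨hG1, hG2⟩ := bm_potential κ hκ g hgs hgc
  set G : E → ℂ := fun z : E => ∫ x : E, (g 0 x * bk 0 (x - z) + g 1 x * bk 1 (x - z)) with hG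
  obtain ⟨hJ1, hJ2⟩ := param_smooth hXc hOo hVo (K := M0 N) (g := W) (by
    rintro ⟨x, z⟩ ⟨hx, hz⟩
    simp only [hX, mem_ofPred_eq] at hx hz ⊢
    linarith [hx.1]) (M0_contDiffOn hN) (hWcont.continuousOn.integrableOn_compact hXc)
  set J : E → ℂ := fun z => ∫ x in X, W x * M0 N x z with hJ
  obtain ⟨hT1, hT2⟩ := param_smooth hX2c hOo hVo (K := fun x z => (Phi N x z ^ 2)⁻¹) (g := F N f r1 r2) (by
    rintro ⟨x, z⟩ ⟨hx, hz⟩
    simp only [hX2, mem_ofPred_eq] at hx hz ⊢
    linarith [hx.1]) (by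
      have h1 : ContDiffOn ℝ ((⊤ : ℕ∞) : WithTop ℕ∞) (Function.uncurry (Phi N)) {p | N p.2 < N p.1} :=
        (Phi_contDiffOn hN).mono (fun p hp => S13.x_ne hN hp)
      exact (h1.pow 2).inv (fun p hp => pow_ne_zero 2 (S13.Phi_ne hN hp))) (F_integrable hN h01 h12 hf hB).integrableOn
  set T : E → ℂ := fun z => ∫ x in X2, F N f r1 r2 x * (Phi N x z ^ 2)⁻¹ with hT
  have hEq : ∀ z, N z < r → (κ : ℂ)⁻¹ * ∫ x in {x | N x < 1},
        (f 0 x * (dbar 1 (fun x => M c N x z) x - bk 0 (x - z))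
          - f 1 x * (dbar 0 (fun x => M c N x z) x + bk 1 (x - z))) = (κ : ℂ)⁻¹ * (-G z + J z + T z) := by
    intro z hz
    have hz1 : N z < 1 := by linarith
    have hMs := M_slice' hN hc z hz1
    have hbp : ∀ j k, _ := fun j k => by_parts hN h21 (hgs j) (hg0 j) hMs k
    obtain ⟨R, hR⟩ := hN.bounded
    have hbki : ∀ j, Integrable (fun x => g j x * bk j (x - z)) := by
      intro j
      have h1 : IntegrableOn (fun x => bk j (x - z)) (Metric.ball (0:E) R) := bk_integrableOn j z R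
      have h2 : IntegrableOn (fun x => g j x * bk j (x - z)) (Metric.ball (0:E) R) := by
        obtain ⟨C, hC⟩ := (hgc j).exists_bound_of_continuous (hgs j).continuous
        exact h1.bdd_mul (hgs j).continuous.aestronglyMeasurable (ae_of_all _ hC)
      refine (integrableOn_iff_integrable_of_support_subset ?_).mp h2
      intro x hx
      by_contra hcon
      apply hx
      have : r2 ≤ N x := by
        by_contra h'
        push Not at h'
        exact hcon (hR (show N x < 1 by linarith))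
      simp only [hg0 j x this, zero_mul]
    have hFi : Integrable (fun x => F N f r1 r2 x * (Phi N x z ^ 2)⁻¹) := by
      have h2 : IntegrableOn (fun x => F N f r1 r2 x * (Phi N x z ^ 2)⁻¹) X2 := by
        refine (F_integrable hN h01 h12 hf hB).integrableOn.mul_continuousOn ?_ hX2c
        have hc1 : ContinuousOn (fun x => Phi N x z) X2 := by
          intro x hx
          exact (S13.Phi_diff hN (hN.ne_zero (h01.trans_le hx.1)) z).continuousAt.continuousWithinAt
        exact (hc1.pow 2).inv₀ (fun x hx => pow_ne_zero 2 (S13.Phi_ne hN (by linarith [hx.1])))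
      refine (integrableOn_iff_integrable_of_support_subset ?_).mp h2
      intro x hx
      by_contra hcon
      apply hx
      have : F N f r1 r2 x = 0 := by
        unfold F
        rw [indicator_of_notMem]
        rintro ⟨h, h'⟩
        exact hcon ⟨h, h'.le⟩
      simp only [this, zero_mul]
    have hFX : ∀ x, x ∉ {x | r1 ≤ N x ∧ N x < 1} → F N f r1 r2 x = 0 := fun x hx => by
      unfold F; rw [indicator_of_notMem hx]
    -- pointwise decomposition
    have hpt : ∀ x ∈ {x | N x < 1}, f 0 x * (dbar 1 (fun x => M c N x z) x - bk 0 (x - z))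
          - f 1 x * (dbar 0 (fun x => M c N x z) x + bk 1 (x - z)) =
          (-(g 0 x * bk 0 (x - z) + g 1 x * bk 1 (x - z)) + (g 0 x * dbar 1 (fun x => M c N x z) x
            - g 1 x * dbar 0 (fun x => M c N x z) x)) + F N f r1 r2 x * (Phi N x z ^ 2)⁻¹ := by
      intro x hx
      simp only [mem_ofPred_eq] at hx
      by_cases hx1 : N x < r1
      · rw [hFX x (fun h => absurd h.1 (not_le.mpr hx1))]
        have e : ∀ j, g j x = f j x := fun j => (hgf j x hx1).eq_of_nhds
        rw [e, e]; ring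
      · push Not at hx1
        have hzx : N z < N x := by linarith
        have hloc : (fun x => M c N x z) =ᶠ[𝓝 x] fun x => M0 N x z := by
          have h1 : ∀ᶠ y in 𝓝 x, r' < N y := continuousAt_const.eventually_lt hN.cont.continuousAt (by linarith)
          have h2 : ∀ᶠ y in 𝓝 x, N y < 1 := hN.cont.continuousAt.eventually_lt continuousAt_const hx
          filter_upwards [h1, h2] with y hy1 hy2
          exact hMM y z hy1 hy2 hz
        rw [S13.dbar_congr hloc, S13.dbar_congr hloc]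
        obtain ⟨k1, k2⟩ := kop hN hzx
        have hF : F N f r1 r2 x = (1 - (th N r1 r2 x : ℂ)) * (f 0 x * P N 1 x - f 1 x * P N 0 x) := by
          unfold F; rw [indicator_of_mem (show x ∈ {x | r1 ≤ N x ∧ N x < 1} from ⟨hx1, hx⟩)]
        have e1 : dbar 1 (fun x => M0 N x z) x - bk 0 (x - z) = P N 1 x * (Phi N x z ^ 2)⁻¹ := by
          rw [k1, P, div_eq_mul_inv]
        have e0 : dbar 0 (fun x => M0 N x z) x + bk 1 (x - z) = P N 0 x * (Phi N x z ^ 2)⁻¹ := by
          rw [k2, P, div_eq_mul_inv]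
        rw [hF]
        simp only [hg]
        linear_combination (f 0 x - (th N r1 r2 x : ℂ) * f 0 x) * e1 - (f 1 x - (th N r1 r2 x : ℂ) * f 1 x) * e0
    rw [setIntegral_congr_fun hΩm hpt]
    have i1 : IntegrableOn (fun x => g 0 x * bk 0 (x - z) + g 1 x * bk 1 (x - z)) {x | N x < 1} :=
      ((hbki 0).add (hbki 1)).integrableOn
    have i2 : IntegrableOn (fun x => g 0 x * dbar 1 (fun x => M c N x z) x
            - g 1 x * dbar 0 (fun x => M c N x z) x) {x | N x < 1} :=
      ((hbp 0 1).1.sub (hbp 1 0).1).integrableOn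
    have i3 : IntegrableOn (fun x => F N f r1 r2 x * (Phi N x z ^ 2)⁻¹) {x | N x < 1} := hFi.integrableOn
    have i1n : IntegrableOn (fun x => -(g 0 x * bk 0 (x - z) + g 1 x * bk 1 (x - z))) {x | N x < 1} := i1.neg
    have i12 : IntegrableOn (fun x => -(g 0 x * bk 0 (x - z) + g 1 x * bk 1 (x - z)) +
        (g 0 x * dbar 1 (fun x => M c N x z) x - g 1 x * dbar 0 (fun x => M c N x z) x)) {x | N x < 1} := i1n.add i2
    rw [integral_add i12 i3, integral_add i1n i2, integral_neg]
    have z1 : ∀ j x, x ∉ {x | N x < 1} → g j x = 0 := by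
      intro j x hx
      simp only [mem_ofPred_eq, not_lt] at hx
      exact hg0 j x (by linarith)
    have a1 : ∫ x in {x | N x < 1}, (g 0 x * bk 0 (x - z) + g 1 x * bk 1 (x - z)) = G z := by
      rw [setIntegral_eq_integral_of_forall_compl_eq_zero]
      intro x hx
      rw [z1 0 x hx, z1 1 x hx]; simp
    have a2 : ∫ x in {x | N x < 1}, (g 0 x * dbar 1 (fun x => M c N x z) x
            - g 1 x * dbar 0 (fun x => M c N x z) x) = J z := by
      rw [setIntegral_eq_integral_of_forall_compl_eq_zero (fun x hx => by rw [z1 0 x hx, z1 1 x hx]; simp),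
        integral_sub (hbp 0 1).1 (hbp 1 0).1, (hbp 0 1).2.2, (hbp 1 0).2.2, sub_neg_eq_add, neg_add_eq_sub,
        ← integral_sub (hbp 1 0).2.1 (hbp 0 1).2.1]
      rw [hJ]
      simp only
      rw [← setIntegral_eq_integral_of_forall_compl_eq_zero (s := X)]
      · refine setIntegral_congr_fun hXc.measurableSet (fun x hx => ?_)
        simp only [hW]
        rw [hMM x z (by linarith [hx.1]) (by linarith [hx.2]) hz]
        ring
      · intro x hx
        have h := hWX x hx
        simp only [hW] at h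
        linear_combination (M c N x z) * h
    have a3 : ∫ x in {x | N x < 1}, F N f r1 r2 x * (Phi N x z ^ 2)⁻¹ = T z := by
      rw [setIntegral_eq_integral_of_forall_compl_eq_zero, hT]
      · simp only
        rw [setIntegral_eq_integral_of_forall_compl_eq_zero]
        intro x hx
        rw [hFX x (fun h => hx ⟨h.1, h.2.le⟩), zero_mul]
      · intro x hx
        rw [hFX x (fun h => hx h.2), zero_mul]
    rw [a1, a2, a3]
  have hdJ : ∀ z, N z < r → dbar 0 J z = (∫ x, W x * bk 1 (x - z)) ∧ dbar 1 J z = - ∫ x, W x * bk 0 (x - z) := by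
    intro z hz
    rw [hJ2 z hz, hJ2 z hz]
    have hw : ∀ k, ∫ x in X, W x * bk k (x - z) = ∫ x, W x * bk k (x - z) := fun k =>
      setIntegral_eq_integral_of_forall_compl_eq_zero (fun x hx => by rw [hWX x hx, zero_mul])
    have hXm : MeasurableSet X := hXc.measurableSet
    constructor
    · rw [← hw]
      refine setIntegral_congr_fun hXm (fun x hx => ?_)
      beta_reduce
      rw [(dbar_z_M0 hN (show N z < N x by linarith [hx.1])).1]
    · rw [← hw, ← integral_neg]
      refine setIntegral_congr_fun hXm (fun x hx => ?_)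
      beta_reduce
      rw [(dbar_z_M0 hN (show N z < N x by linarith [hx.1])).2]
      ring
  have hdT : ∀ z, N z < r → ∀ j, dbar j T z = 0 := by
    intro z hz j
    rw [hT2 z hz]
    refine setIntegral_eq_zero_of_forall_eq_zero (fun x hx => ?_)
    have hΦ : Phi N x z ≠ 0 := S13.Phi_ne hN (show N z < N x by linarith [hx.1])
    have h0 : dbar j (fun z => (Phi N x z ^ 2)⁻¹) z = 0 := by
      have e : (fun z => (Phi N x z ^ 2)⁻¹) = fun z => 1 / (Phi N x z * Phi N x z) := by
        ext z; rw [one_div, pow_two]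
      have d := S13.Phi_diff' N x z
      rw [e, S13.dbar_div (differentiableAt_const _) (d.fun_mul d) (mul_ne_zero hΦ hΦ), S13.dbar_const,
        S13.dbar_mul d d, S13.dbar_Phi']
      simp
    rw [h0, mul_zero]
  constructor
  · refine ContDiffOn.congr (f := fun z => (κ : ℂ)⁻¹ * (-G z + J z + T z)) ?_ (fun z hz => hEq z hz)
    exact contDiffOn_const.mul ((hG1.contDiffOn.neg.add hJ1).add hT1)
  · intro z hz j
    have he : (fun z => (κ : ℂ)⁻¹ * ∫ x in {x | N x < 1},
        (f 0 x * (dbar 1 (fun x => M c N x z) x - bk 0 (x - z))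
          - f 1 x * (dbar 0 (fun x => M c N x z) x + bk 1 (x - z)))) =ᶠ[𝓝 z]
          fun z => (κ : ℂ)⁻¹ * ((J z - G z) + T z) := by
      filter_upwards [hVo.mem_nhds hz] with y hy
      rw [hEq y hy]; ring
    have dG : DifferentiableAt ℝ G z := hG1.differentiable (by simp) z
    have dJ : DifferentiableAt ℝ J z := (hJ1.contDiffAt (hVo.mem_nhds hz)).differentiableAt (by simp)
    have dT : DifferentiableAt ℝ T z := (hT1.contDiffAt (hVo.mem_nhds hz)).differentiableAt (by simp)
    rw [S13.dbar_congr he, S13.dbar_mul (differentiableAt_const _) ((dJ.fun_sub dG).fun_add dT),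
      S13.dbar_const, S13.dbar_add (dJ.fun_sub dG) dT, S13.dbar_sub dJ dG, hdT z hz]
    have hκ0 : (κ : ℂ) ≠ 0 := by exact_mod_cast hκ.1.ne'
    have hfin : ∀ j, g j z = f j z := fun j => (hgf j z (by linarith)).eq_of_nhds
    obtain ⟨hG20, hG21⟩ := hG2 z
    fin_cases j
    · simp only [Fin.zero_eta, Fin.isValue]
      rw [hG20, (hdJ z hz).1, hfin]
      simp only [hW]
      field_simp
      ring
    · simp only [Fin.mk_one, Fin.isValue]
      rw [hG21, (hdJ z hz).2, hfin]
      simp only [hW]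
      field_simp
      ring

end S14

theorem repr {N : E → ℝ} (hN : Good N) {c κ : ℝ} (hc : 0 < c) (hκ : BMid κ)
    (hint : ∀ j z, N z < 1 → IntegrableOn (fun x => dbar j (fun x => M c N x z) x) {x | N x < 1})
    (f : Fin 2 → E → ℂ) (hf : ∀ j, ContDiffOn ℝ ((⊤ : ℕ∞) : WithTop ℕ∞) (f j) {x | N x < 1})
    (hcl : ∀ x, N x < 1 → dbar 0 (f 1) x = dbar 1 (f 0) x)
    (B : ℝ) (hB : ∀ x, N x < 1 → ∀ j, ‖f j x‖ ≤ B) :
    ContDiffOn ℝ ((⊤ : ℕ∞) : WithTop ℕ∞) (fun z => (κ : ℂ)⁻¹ * ∫ x in {x | N x < 1},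
        (f 0 x * (dbar 1 (fun x => M c N x z) x - bk 0 (x - z))
          - f 1 x * (dbar 0 (fun x => M c N x z) x + bk 1 (x - z)))) {x | N x < 1} ∧
    ∀ z, N z < 1 → ∀ j, dbar j (fun z => (κ : ℂ)⁻¹ * ∫ x in {x | N x < 1},
        (f 0 x * (dbar 1 (fun x => M c N x z) x - bk 0 (x - z))
          - f 1 x * (dbar 0 (fun x => M c N x z) x + bk 1 (x - z)))) z = f j z := by
  have _ := hint
  have key : ∀ z, N z < 1 → ∃ r, 0 < r ∧ r < 1 ∧ N z < r := by
    intro z hz
    have := hN.nonneg z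
    exact ⟨(1 + N z) / 2, by linarith, by linarith, by linarith⟩
  constructor
  · intro z hz
    obtain ⟨r, h0, h1, h2⟩ := key z hz
    have h := (S14.repr_local hN hc hκ f hf hcl B hB r h0 h1).1
    exact (h.contDiffAt ((isOpen_lt hN.cont continuous_const).mem_nhds h2)).contDiffWithinAt
  · intro z hz j
    obtain ⟨r, h0, h1, h2⟩ := key z hz
    exact (S14.repr_local hN hc hκ f hf hcl B hB r h0 h1).2 z h2 j

end Pool.Agent.N289.CV
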