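import Pool.Agent.N289.CV.S13

/-!
Pointwise bound of `∂̄_x M`.
-/

set_option autoImplicit false

namespace Pool.Agent.N289.CV

open MeasureTheory Set Filter Topology

namespace S15

open S13

theorem single_norm (j : Fin 2) : ‖(Pi.single j (1:ℂ) : E)‖ = 1 := by
  rw [Pi.norm_single]; simp

theorem single_norm' (j : Fin 2) : ‖(Pi.single j Complex.I : E)‖ = 1 := by
  rw [Pi.norm_single]; simp

theorem D_le (L : E →L[ℝ] ℂ) (j : Fin 2) : ‖D j L‖ ≤ ‖L‖ := by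
  unfold D
  have h1 := L.le_opNorm (Pi.single j (1:ℂ))
  have h2 := L.le_opNorm (Pi.single j Complex.I)
  rw [single_norm] at h1
  rw [single_norm'] at h2
  have h3 := norm_add_le (L (Pi.single j (1 : ℂ))) (Complex.I * L (Pi.single j Complex.I))
  rw [norm_mul Complex.I, Complex.norm_I, one_mul] at h3
  rw [norm_mul]
  norm_num
  linarith

theorem dbar_le (g : E → ℂ) (x : E) (j : Fin 2) : ‖dbar j g x‖ ≤ ‖fderiv ℝ g x‖ :=
  D_le _ j

theorem w_le (N : E → ℝ) (x : E) (j : Fin 2) : ‖w N j x‖ ≤ ‖fderiv ℝ N x‖ := by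
  unfold w
  have h1 := (fderiv ℝ N x).le_opNorm (Pi.single j (1:ℂ))
  have h2 := (fderiv ℝ N x).le_opNorm (Pi.single j Complex.I)
  rw [single_norm] at h1
  rw [single_norm'] at h2
  have h3 := norm_sub_le (((fderiv ℝ N x (Pi.single j (1 : ℂ)) : ℝ) : ℂ))
    (Complex.I * ((fderiv ℝ N x (Pi.single j Complex.I) : ℝ) : ℂ))
  rw [norm_mul Complex.I, Complex.norm_I, one_mul, Complex.norm_real, Complex.norm_real] at h3
  rw [norm_mul]
  norm_num
  linarith

theorem fderiv_w_le {N : E → ℝ} (hN : Good N) {x : E} (hx : x ≠ 0) (j : Fin 2) :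
    ‖fderiv ℝ (w N j) x‖ ≤ ‖Hs N x‖ := by
  refine ContinuousLinearMap.opNorm_le_bound _ (norm_nonneg (Hs N x)) fun h => ?_
  rw [fderiv_w hN hx]
  have h1 := (Hs N x).le_opNorm₂ h (Pi.single j (1:ℂ))
  have h2 := (Hs N x).le_opNorm₂ h (Pi.single j Complex.I)
  rw [single_norm] at h1
  rw [single_norm'] at h2
  have h3 := norm_sub_le (((Hs N x h (Pi.single j (1 : ℂ)) : ℝ) : ℂ))
    (Complex.I * ((Hs N x h (Pi.single j Complex.I) : ℝ) : ℂ))
  rw [norm_mul Complex.I, Complex.norm_I, one_mul, Complex.norm_real, Complex.norm_real] at h3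
  rw [norm_mul]
  norm_num
  linarith

theorem fderiv_Phi_le {N : E → ℝ} (hN : Good N) {x : E} (hx : x ≠ 0) (z : E) :
    ‖fderiv ℝ (fun x => Phi N x z) x‖ ≤ 2 * ‖fderiv ℝ N x‖ + ‖Hs N x‖ * ‖x - z‖ := by
  refine ContinuousLinearMap.opNorm_le_bound _ (by positivity) fun h => ?_
  rw [fderiv_Phi hN hx]
  have h1 := (Hs N x).le_opNorm₂ h (x - z)
  have h2 := (Hs N x).le_opNorm₂ h (Complex.I • (x - z))
  rw [norm_smul, Complex.norm_I, one_mul] at h2
  have h3 := norm_sub_le (((Hs N x h (x - z) : ℝ) : ℂ))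
    (Complex.I * ((Hs N x h (Complex.I • (x - z)) : ℝ) : ℂ))
  rw [norm_mul Complex.I, Complex.norm_I, one_mul, Complex.norm_real, Complex.norm_real] at h3
  have h4 : ‖w N 0 x * h 0 + w N 1 x * h 1‖ ≤ 2 * ‖fderiv ℝ N x‖ * ‖h‖ := by
    refine (norm_add_le _ _).trans ?_
    rw [norm_mul, norm_mul]
    have h5 := mul_le_mul (w_le N x 0) (norm_le_pi_norm h 0) (norm_nonneg _) (norm_nonneg _)
    have h6 := mul_le_mul (w_le N x 1) (norm_le_pi_norm h 1) (norm_nonneg _) (norm_nonneg _)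
    linarith
  refine (norm_add_le _ _).trans ?_
  have h7 : ‖(1/2 : ℂ) * ((Hs N x h (x - z) : ℝ) - Complex.I * (Hs N x h (Complex.I • (x - z)) : ℝ))‖
      ≤ ‖Hs N x‖ * ‖h‖ * ‖x - z‖ := by
    rw [norm_mul, show ‖(1/2 : ℂ)‖ = 1/2 by norm_num]
    linarith
  calc _ ≤ 2 * ‖fderiv ℝ N x‖ * ‖h‖ + ‖Hs N x‖ * ‖h‖ * ‖x - z‖ := add_le_add h4 h7
    _ = _ := by ring

/-- the derivative of the smooth transition is bounded and supported in `(0,1)` -/
theorem st_bound : ∃ C : ℝ, 0 ≤ C ∧ ∀ t, |deriv Real.smoothTransition t| ≤ C ∧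
    (deriv Real.smoothTransition t ≠ 0 → 0 < t ∧ t < 1) := by
  have hs : ContDiff ℝ top Real.smoothTransition := Real.smoothTransition.contDiff
  have hc : Continuous (deriv Real.smoothTransition) := hs.continuous_deriv (by simp)
  have h0 : ∀ t, deriv Real.smoothTransition t ≠ 0 → 0 < t ∧ t < 1 := by
    intro t ht
    constructor
    · by_contra h
      push Not at h
      apply ht
      have : IsLocalMin Real.smoothTransition t := by
        refine Eventually.of_forall fun s => ?_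
        rw [Real.smoothTransition.zero_of_nonpos h]
        exact Real.smoothTransition.nonneg s
      exact this.deriv_eq_zero
    · by_contra h
      push Not at h
      apply ht
      have : IsLocalMax Real.smoothTransition t := by
        refine Eventually.of_forall fun s => ?_
        rw [Real.smoothTransition.one_of_one_le h]
        exact Real.smoothTransition.le_one s
      exact this.deriv_eq_zero
  obtain ⟨C, hC⟩ := (isCompact_Icc (a := (0:ℝ)) (b := 1)).exists_bound_of_continuousOn hc.continuousOn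
  refine ⟨max C 0, le_max_right _ _, fun t => ⟨?_, h0 t⟩⟩
  by_cases ht : deriv Real.smoothTransition t = 0
  · rw [ht, abs_zero]; exact le_max_right _ _
  · obtain ⟨h1, h2⟩ := h0 t ht
    exact (hC t ⟨h1.le, h2.le⟩).trans (le_max_left _ _)

theorem sq_ge (y : E) : ‖y‖ ^ 2 ≤ sq y := by
  unfold sq
  have h1 : ‖y‖ ≤ max ‖y 0‖ ‖y 1‖ := by
    rw [pi_norm_le_iff_of_nonneg (le_max_of_le_left (norm_nonneg _))]
    intro i
    fin_cases i
    · exact le_max_left _ _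
    · exact le_max_right _ _
  rcases le_total ‖y 0‖ ‖y 1‖ with h | h
  · rw [max_eq_right h] at h1
    nlinarith [norm_nonneg y, norm_nonneg (y 0), sq_nonneg ‖y 0‖]
  · rw [max_eq_left h] at h1
    nlinarith [norm_nonneg y, norm_nonneg (y 1), sq_nonneg ‖y 1‖]

/-- formula for `∂̄_x M0` with `∂̄Φ` kept. -/
theorem dbar_M0 {N : E → ℝ} (hN : Good N) {x z : E} (hx : x ≠ 0) (hΦ : Phi N x z ≠ 0) (k : Fin 2) :
    dbar k (fun x => M0 N x z) x =
      (dbar k (w N 0) x * (starRingEnd ℂ) (x 1 - z 1) - dbar k (w N 1) x * (starRingEnd ℂ) (x 0 - z 0))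
        / (Phi N x z * ((sq (x - z) : ℝ) : ℂ))
      - A N x z * dbar k (fun x => Phi N x z) x / ((Phi N x z) ^ 2 * ((sq (x - z) : ℝ) : ℂ))
      + (if k = 1 then (starRingEnd ℂ) (x 0 - z 0) else - (starRingEnd ℂ) (x 1 - z 1))
        / ((sq (x - z) : ℝ) : ℂ) ^ 2 := by
  have hs := sq_ne (ne_of_Phi hΦ)
  have hd : DifferentiableAt ℝ (fun x => Phi N x z * ((sq (x - z) : ℝ) : ℂ)) x :=
    (Phi_diff hN hx z).fun_mul (sq_diff x z)
  have h1 : (fun x => M0 N x z) =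
      fun x => A N x z / (Phi N x z * ((sq (x - z) : ℝ) : ℂ)) := rfl
  rw [h1, dbar_div (A_diff hN hx z) hd (mul_ne_zero hΦ hs), dbar_A hN hx,
      dbar_mul (Phi_diff hN hx z) (sq_diff x z), dbar_sq]
  have hΦ' : Phi N x z = w N 0 x * (x 0 - z 0) + w N 1 x * (x 1 - z 1) := rfl
  have hA' : A N x z = w N 0 x * (starRingEnd ℂ) (x 1 - z 1) - w N 1 x * (starRingEnd ℂ) (x 0 - z 0) := rfl
  have hsq := sq_eq x z
  generalize dbar k (fun x => Phi N x z) x = P
  generalize dbar k (w N 0) x = a0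
  generalize dbar k (w N 1) x = a1
  generalize ((sq (x - z) : ℝ) : ℂ) = s at *
  have key : (w N 0 x * (if k = 1 then 1 else 0) - w N 1 x * (if k = 0 then 1 else 0)) * s
      - A N x z * (x k - z k) =
      (if k = 1 then (starRingEnd ℂ) (x 0 - z 0) else - (starRingEnd ℂ) (x 1 - z 1)) * Phi N x z := by
    rw [hΦ', hA', hsq]
    fin_cases k
    · simp only [Fin.zero_eta, Fin.isValue, zero_ne_one, if_false, if_true]
      ring
    · simp only [Fin.mk_one, Fin.isValue, one_ne_zero, if_false, if_true]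
      ring
  generalize Phi N x z = Φ at *
  generalize A N x z = A' at *
  generalize (if k = 1 then (starRingEnd ℂ) (x 0 - z 0) else - (starRingEnd ℂ) (x 1 - z 1)) = e at *
  generalize (w N 0 x * (if k = 1 then 1 else 0) - w N 1 x * (if k = 0 then 1 else 0)) = δ at *
  rw [eq_comm, eq_div_iff (pow_ne_zero 2 (mul_ne_zero hΦ hs))]
  field_simp
  linear_combination (-Φ) * key

theorem conj_norm (a : ℂ) : ‖(starRingEnd ℂ) a‖ = ‖a‖ := RCLike.norm_conj a

theorem coord_le (x z : E) (k : Fin 2) : ‖x k - z k‖ ≤ ‖x - z‖ := norm_le_pi_norm (x - z) k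

theorem A_le (N : E → ℝ) (x z : E) : ‖A N x z‖ ≤ 2 * ‖fderiv ℝ N x‖ * ‖x - z‖ := by
  unfold A
  refine (norm_sub_le _ _).trans ?_
  rw [norm_mul, norm_mul, conj_norm, conj_norm]
  have h5 := mul_le_mul (w_le N x 0) (coord_le x z 1) (norm_nonneg _) (norm_nonneg _)
  have h6 := mul_le_mul (w_le N x 1) (coord_le x z 0) (norm_nonneg _) (norm_nonneg _)
  linarith

theorem sqn_ge {x z : E} : ‖x - z‖ ^ 2 ≤ ‖((sq (x - z) : ℝ) : ℂ)‖ := by
  rw [Complex.norm_real]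
  exact (sq_ge _).trans (le_abs_self _)

theorem M0_le {N : E → ℝ} {x z : E} (hΦ : Phi N x z ≠ 0) {G : ℝ} (hG : ‖fderiv ℝ N x‖ ≤ G) :
    ‖M0 N x z‖ ≤ 2 * G * (‖Phi N x z‖⁻¹ * ‖x - z‖⁻¹) := by
  have hy : 0 < ‖x - z‖ := norm_pos_iff.2 (sub_ne_zero.2 (ne_of_Phi hΦ))
  have hp : 0 < ‖Phi N x z‖ := norm_pos_iff.2 hΦ
  have hs : 0 < ‖((sq (x - z) : ℝ) : ℂ)‖ := (pow_pos hy 2).trans_le sqn_ge
  rw [M0, norm_div, norm_mul, div_le_iff₀ (mul_pos hp hs)]
  have h1 : ‖A N x z‖ ≤ 2 * G * ‖x - z‖ := by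
    refine (A_le N x z).trans ?_
    gcongr
  refine h1.trans ?_
  have h2 : 2 * G * (‖Phi N x z‖⁻¹ * ‖x - z‖⁻¹) * (‖Phi N x z‖ * ‖((sq (x - z) : ℝ) : ℂ)‖) =
      2 * G * (‖x - z‖⁻¹ * ‖((sq (x - z) : ℝ) : ℂ)‖) := by
    field_simp
  rw [h2]
  have h3 : ‖x - z‖ ≤ ‖x - z‖⁻¹ * ‖((sq (x - z) : ℝ) : ℂ)‖ := by
    rw [inv_mul_eq_div, le_div_iff₀ hy, ← pow_two]
    exact sqn_ge
  have hG0 : 0 ≤ G := (norm_nonneg _).trans hG
  gcongr

theorem dbar_M0_le {N : E → ℝ} (hN : Good N) {x z : E} (hx : x ≠ 0) (hΦ : Phi N x z ≠ 0) {G H : ℝ}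
    (hG : ‖fderiv ℝ N x‖ ≤ G) (hH : ‖Hs N x‖ ≤ H) (k : Fin 2) :
    ‖dbar k (fun x => M0 N x z) x‖ ≤ 2 * H * (‖Phi N x z‖⁻¹ * ‖x - z‖⁻¹) +
      2 * G * (dPhi N x z * (‖Phi N x z‖⁻¹) ^ 2 * ‖x - z‖⁻¹) + (‖x - z‖⁻¹) ^ 3 := by
  have hy : 0 < ‖x - z‖ := norm_pos_iff.2 (sub_ne_zero.2 (ne_of_Phi hΦ))
  have hp : 0 < ‖Phi N x z‖ := norm_pos_iff.2 hΦ
  have hs : 0 < ‖((sq (x - z) : ℝ) : ℂ)‖ := (pow_pos hy 2).trans_le sqn_ge
  have hG0 : 0 ≤ G := (norm_nonneg _).trans hG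
  have hH0 : 0 ≤ H := (norm_nonneg (Hs N x)).trans hH
  have ha : ∀ j, ‖dbar k (w N j) x‖ ≤ H := fun j =>
    (dbar_le _ _ _).trans ((fderiv_w_le hN hx j).trans hH)
  rw [dbar_M0 hN hx hΦ]
  refine (norm_add_le _ _).trans (add_le_add ((norm_sub_le _ _).trans (add_le_add ?_ ?_)) ?_)
  · rw [norm_div, norm_mul, div_le_iff₀ (mul_pos hp hs)]
    have h1 : ‖dbar k (w N 0) x * (starRingEnd ℂ) (x 1 - z 1) -
        dbar k (w N 1) x * (starRingEnd ℂ) (x 0 - z 0)‖ ≤ 2 * H * ‖x - z‖ := by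
      refine (norm_sub_le _ _).trans ?_
      rw [norm_mul, norm_mul, conj_norm, conj_norm]
      have h5 := mul_le_mul (ha 0) (coord_le x z 1) (norm_nonneg _) hH0
      have h6 := mul_le_mul (ha 1) (coord_le x z 0) (norm_nonneg _) hH0
      linarith
    refine h1.trans ?_
    have h2 : 2 * H * (‖Phi N x z‖⁻¹ * ‖x - z‖⁻¹) * (‖Phi N x z‖ * ‖((sq (x - z) : ℝ) : ℂ)‖) =
        2 * H * (‖x - z‖⁻¹ * ‖((sq (x - z) : ℝ) : ℂ)‖) := by
      field_simp
    rw [h2]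
    have h3 : ‖x - z‖ ≤ ‖x - z‖⁻¹ * ‖((sq (x - z) : ℝ) : ℂ)‖ := by
      rw [inv_mul_eq_div, le_div_iff₀ hy, ← pow_two]
      exact sqn_ge
    gcongr
  · rw [norm_div, norm_mul, norm_mul, norm_pow, div_le_iff₀ (mul_pos (pow_pos hp 2) hs)]
    have h1 : ‖A N x z‖ ≤ 2 * G * ‖x - z‖ := by
      refine (A_le N x z).trans ?_
      gcongr
    have h4 : ‖dbar k (fun x => Phi N x z) x‖ ≤ dPhi N x z := by
      unfold dPhi
      fin_cases k
      · exact le_add_of_nonneg_right (norm_nonneg _)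
      · exact le_add_of_nonneg_left (norm_nonneg _)
    have h5 : 0 ≤ dPhi N x z := (norm_nonneg _).trans h4
    have h2 : 2 * G * (dPhi N x z * (‖Phi N x z‖⁻¹) ^ 2 * ‖x - z‖⁻¹) *
        (‖Phi N x z‖ ^ 2 * ‖((sq (x - z) : ℝ) : ℂ)‖) =
        2 * G * (‖x - z‖⁻¹ * ‖((sq (x - z) : ℝ) : ℂ)‖) * dPhi N x z := by
      field_simp
    rw [h2]
    have h3 : ‖x - z‖ ≤ ‖x - z‖⁻¹ * ‖((sq (x - z) : ℝ) : ℂ)‖ := by
      rw [inv_mul_eq_div, le_div_iff₀ hy, ← pow_two]
      exact sqn_ge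
    calc ‖A N x z‖ * ‖dbar k (fun x => Phi N x z) x‖ ≤ (2 * G * ‖x - z‖) * dPhi N x z := by gcongr
      _ ≤ _ := by gcongr
  · rw [norm_div, norm_pow, div_le_iff₀ (pow_pos hs 2)]
    have h1 : ‖(if k = 1 then (starRingEnd ℂ) (x 0 - z 0) else - (starRingEnd ℂ) (x 1 - z 1))‖
        ≤ ‖x - z‖ := by
      split_ifs
      · rw [conj_norm]; exact coord_le x z 0
      · rw [norm_neg, conj_norm]; exact coord_le x z 1
    refine h1.trans ?_
    calc ‖x - z‖ = (‖x - z‖⁻¹) ^ 3 * (‖x - z‖ ^ 2) ^ 2 := by field_simp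
      _ ≤ _ := by
        gcongr
        exact sqn_ge

/-- the derivative of the cut-off -/
theorem m_deriv {N : E → ℝ} (hN : Good N) {c : ℝ} (hc : 0 < c) {x z : E} (hx : x ≠ 0)
    (h1 : N x < 1) {G P CS : ℝ} (hCS0 : 0 ≤ CS) (hG : ‖fderiv ℝ N x‖ ≤ G)
    (hP : ‖fderiv ℝ (fun x => Phi N x z) x‖ ≤ P)
    (hCS : ∀ t, |deriv Real.smoothTransition t| ≤ CS) :
    ∃ L : E →L[ℝ] ℝ, HasFDerivAt (fun x => m c N x z) L x ∧
      ‖L‖ ≤ 4 * CS * G + |deriv Real.smoothTransition (4 * ‖Phi N x z‖ ^ 2 / (c * (1 - N x)) ^ 2 - 1)| *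
        (8 * ‖Phi N x z‖ ^ 2 * c / (c * (1 - N x)) ^ 3 * G + 8 * ‖Phi N x z‖ / (c * (1 - N x)) ^ 2 * P) := by
  have hd : 0 < c * (1 - N x) := mul_pos hc (by linarith)
  have hN' : HasFDerivAt N (fderiv ℝ N x) x :=
    ((hN.contDiffAt hx).differentiableAt (by simp)).hasFDerivAt
  have hP' : HasFDerivAt (fun x => Phi N x z) (fderiv ℝ (fun x => Phi N x z) x) x :=
    (Phi_diff hN hx z).hasFDerivAt
  have hSd : ∀ t, HasDerivAt Real.smoothTransition (deriv Real.smoothTransition t) t := fun t =>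
    ((Real.smoothTransition.contDiff (n := ⊤)).differentiable (by simp) t).hasDerivAt
  -- first factor
  have e1 : HasFDerivAt (fun x => 4 * N x - 1) ((4:ℝ) • fderiv ℝ N x) x :=
    (hN'.const_mul 4).sub_const 1
  have e2 : HasFDerivAt (fun x => Real.smoothTransition (4 * N x - 1))
      ((deriv Real.smoothTransition (4 * N x - 1)) • ((4:ℝ) • fderiv ℝ N x)) x :=
    (hSd _).comp_hasFDerivAt x e1
  -- second factor
  have e3 := hP'.norm_sq
  have e4 : HasDerivAt (fun t : ℝ => ((c * (1 - t)) ^ 2)⁻¹) (2 * c / (c * (1 - N x)) ^ 3) (N x) := by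
    have h2 : HasDerivAt (fun t : ℝ => c * (1 - t)) (c * (-1)) (N x) :=
      ((hasDerivAt_id (N x)).const_sub 1).const_mul c
    have h3 := (h2.pow 2).inv (pow_pos hd 2).ne'
    have h4 : 2 * c / (c * (1 - N x)) ^ 3 =
        -((2:ℕ) * (c * (1 - N x)) ^ (2 - 1) * (c * (-1))) / ((c * (1 - N x)) ^ 2) ^ 2 := by
      have hd1 : 1 - N x ≠ 0 := by linarith
      field_simp
      norm_num
      ring
    rw [h4]
    exact h3
  have e5 := e4.comp_hasFDerivAt x hN'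
  have e6 := ((e3.const_mul 4).mul e5).sub_const 1
  have e7 : HasFDerivAt (fun x => 4 * ‖Phi N x z‖ ^ 2 / (c * (1 - N x)) ^ 2 - 1)
      ((4 * ‖Phi N x z‖ ^ 2) • (2 * c / (c * (1 - N x)) ^ 3) • fderiv ℝ N x +
      ((c * (1 - N x)) ^ 2)⁻¹ • (4:ℝ) • (2:ℕ) • (innerSL ℝ (Phi N x z)).comp
        (fderiv ℝ (fun x => Phi N x z) x)) x := by
    refine e6.congr_of_eventuallyEq (Eventually.of_forall fun y => ?_)
    simp [div_eq_mul_inv]
  have e8 := (hSd (4 * ‖Phi N x z‖ ^ 2 / (c * (1 - N x)) ^ 2 - 1)).comp_hasFDerivAt x e7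
  have e9 := e2.mul e8
  refine ⟨_, e9, ?_⟩
  have n1 : ‖((4 * ‖Phi N x z‖ ^ 2) • (2 * c / (c * (1 - N x)) ^ 3) • fderiv ℝ N x +
      ((c * (1 - N x)) ^ 2)⁻¹ • (4:ℝ) • (2:ℕ) • (innerSL ℝ (Phi N x z)).comp
        (fderiv ℝ (fun x => Phi N x z) x))‖ ≤
      8 * ‖Phi N x z‖ ^ 2 * c / (c * (1 - N x)) ^ 3 * G + 8 * ‖Phi N x z‖ / (c * (1 - N x)) ^ 2 * P := by
    refine (norm_add_le _ _).trans (add_le_add ?_ ?_)
    · rw [norm_smul, norm_smul, Real.norm_of_nonneg (by positivity), Real.norm_of_nonneg (by positivity)]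
      calc 4 * ‖Phi N x z‖ ^ 2 * (2 * c / (c * (1 - N x)) ^ 3 * ‖fderiv ℝ N x‖)
          ≤ 4 * ‖Phi N x z‖ ^ 2 * (2 * c / (c * (1 - N x)) ^ 3 * G) := by gcongr
        _ = _ := by ring
    · have n2 : ‖(innerSL ℝ (Phi N x z)).comp (fderiv ℝ (fun x => Phi N x z) x)‖ ≤
          ‖Phi N x z‖ * P := by
        refine (ContinuousLinearMap.opNorm_comp_le _ _).trans ?_
        rw [innerSL_apply_norm]
        gcongr
      have n3 : ‖(2:ℕ) • (innerSL ℝ (Phi N x z)).comp (fderiv ℝ (fun x => Phi N x z) x)‖ ≤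
          2 * (‖Phi N x z‖ * P) := by
        refine (norm_nsmul_le).trans ?_
        push_cast
        linarith
      rw [norm_smul, norm_smul, Real.norm_of_nonneg (by positivity), Real.norm_of_nonneg (by norm_num)]
      calc ((c * (1 - N x)) ^ 2)⁻¹ * (4 * ‖(2:ℕ) • (innerSL ℝ (Phi N x z)).comp
            (fderiv ℝ (fun x => Phi N x z) x)‖)
          ≤ ((c * (1 - N x)) ^ 2)⁻¹ * (4 * (2 * (‖Phi N x z‖ * P))) := by gcongr
        _ = _ := by ring
  have n4 : ‖(4:ℝ) • fderiv ℝ N x‖ ≤ 4 * G := by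
    rw [norm_smul, Real.norm_of_nonneg (by norm_num)]
    gcongr
  have s1 : ‖Real.smoothTransition (4 * N x - 1)‖ ≤ 1 := by
    rw [Real.norm_of_nonneg (Real.smoothTransition.nonneg _)]
    exact Real.smoothTransition.le_one _
  have s2 : ‖Real.smoothTransition (4 * ‖Phi N x z‖ ^ 2 / (c * (1 - N x)) ^ 2 - 1)‖ ≤ 1 := by
    rw [Real.norm_of_nonneg (Real.smoothTransition.nonneg _)]
    exact Real.smoothTransition.le_one _
  rw [add_comm (4 * CS * G)]
  refine (norm_add_le _ _).trans (add_le_add ?_ ?_)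
  · rw [norm_smul, norm_smul]
    refine (mul_le_of_le_one_left (by positivity) s1).trans ?_
    rw [Real.norm_eq_abs]
    gcongr
  · rw [norm_smul]
    refine (mul_le_of_le_one_left (by positivity) s2).trans ?_
    rw [norm_smul, Real.norm_eq_abs]
    calc |deriv Real.smoothTransition (4 * N x - 1)| * ‖(4:ℝ) • fderiv ℝ N x‖ ≤ CS * (4 * G) := by
          gcongr
          exact hCS _
      _ = _ := by ring

end S15

set_option maxHeartbeats 4000000 in
open S13 S15 in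
/-- Pointwise bound of `∂̄_x M`. -/
theorem dbar_M_le {N : E → ℝ} (hN : Good N) {c : ℝ} (hc : 0 < c) :
    ∃ C : ℝ, 0 ≤ C ∧ ∀ x z j, N x < 1 → N z < 1 →
      ‖dbar j (fun x => M c N x z) x‖ ≤
        C * ((‖x - z‖⁻¹) ^ 3 + (Reg c N z).indicator (fun x => gg c N x z) x) := by
  obtain ⟨CS, hCS0, hCS⟩ := st_bound
  obtain ⟨cl, hcl, hlow⟩ := hN.lower
  set K : Set E := {x | 1/4 ≤ N x} ∩ {x | N x ≤ 1} with hKdef
  have hK : IsCompact K := (hN.isCompact_le 1).inter_left (isClosed_le continuous_const hN.cont)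
  have hK0 : K ⊆ {0}ᶜ := fun x hx => hN.ne_zero (lt_of_lt_of_le (by norm_num) hx.1)
  obtain ⟨G0, hG0⟩ := hK.exists_bound_of_continuousOn ((fderiv_contDiffOn hN).continuousOn.mono hK0)
  have hHc : ContinuousOn (Hs N) K := (Hs_contDiffOn hN).continuousOn.mono hK0
  obtain ⟨H0, hH0⟩ : ∃ H0 : ℝ, ∀ x ∈ K, ‖Hs N x‖ ≤ H0 := by
    have hHn : ContinuousOn (fun x => ‖Hs N x‖) K :=
      ContinuousOn.norm (E := E →L[ℝ] E →L[ℝ] ℝ) hHc
    obtain ⟨H0, hH0⟩ := hK.bddAbove_image hHn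
    exact ⟨H0, fun x hx => hH0 (mem_image_of_mem _ hx)⟩
  set G := |G0| with hGdef
  set H := |H0| with hHdef
  have hG : ∀ x ∈ K, ‖fderiv ℝ N x‖ ≤ G := fun x hx => (hG0 x hx).trans (le_abs_self _)
  have hH : ∀ x ∈ K, ‖Hs N x‖ ≤ H := fun x hx => (hH0 x hx).trans (le_abs_self _)
  have hGn : 0 ≤ G := abs_nonneg _
  have hHn : 0 ≤ H := abs_nonneg _
  set P := 2 * G + H * (2 / cl) with hPdef
  have hPn : 0 ≤ P := by positivity
  set K1 := CS * (8 * c * G + 8 * P) with hK1def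
  have hK1n : 0 ≤ K1 := by positivity
  set C := 2 * H + 2 * G + 1 + 8 * CS * G ^ 2 + 4 * G * K1 / c ^ 2 with hCdef
  have hCn : 0 ≤ C := by positivity
  refine ⟨C, hCn, fun x z j hx hz => ?_⟩
  have hT0 : 0 ≤ (‖x - z‖⁻¹) ^ 3 := by positivity
  have hT3 : 0 ≤ {p : E | ‖Phi N p z‖ ≤ c * (1 - N p)}.indicator
      (fun p => ((1 - N p)⁻¹) ^ 2 * ‖p - z‖⁻¹) x :=
    indicator_nonneg (fun p _ => by positivity) x
  have hdP : 0 ≤ dPhi N x z := by unfold dPhi; positivity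
  have hgg : 0 ≤ gg c N x z := by
    unfold gg
    have : 0 ≤ ‖Phi N x z‖⁻¹ * ‖x - z‖⁻¹ + dPhi N x z * (‖Phi N x z‖⁻¹) ^ 2 * ‖x - z‖⁻¹ := by
      positivity
    linarith
  have hind : 0 ≤ (Reg c N z).indicator (fun x => gg c N x z) x := by
    by_cases h : x ∈ Reg c N z
    · rw [indicator_of_mem h]; exact hgg
    · rw [indicator_of_notMem h]
  have hRHS : 0 ≤ C * ((‖x - z‖⁻¹) ^ 3 + (Reg c N z).indicator (fun x => gg c N x z) x) := by
    positivity
  -- the trivial cases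
  by_cases h4 : N x < 1 / 4
  · have h0 : dbar j (fun x => M c N x z) x = 0 := by
      rw [← dbar_const 0 x j]
      apply dbar_congr
      filter_upwards [hN.cont.continuousAt.eventually_lt_const h4] with q hq
      have : m c N q z = 0 := by
        rw [m, Real.smoothTransition.zero_of_nonpos (by linarith), zero_mul]
      simp [M, this]
    rw [h0, norm_zero]; exact hRHS
  have h4' : 1 / 4 ≤ N x := not_lt.1 h4
  have hx0 : x ≠ 0 := hN.ne_zero (by linarith)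
  have hd : 0 < 1 - N x := by linarith
  have hD : 0 < c * (1 - N x) := mul_pos hc hd
  by_cases h5 : 2 * ‖Phi N x z‖ < c * (1 - N x)
  · have h0 : dbar j (fun x => M c N x z) x = 0 := by
      rw [← dbar_const 0 x j]
      apply dbar_congr
      have hc1 : ContinuousAt (fun q => 2 * ‖Phi N q z‖) x :=
        continuousAt_const.mul (Phi_diff hN hx0 z).continuousAt.norm
      have hc2 : ContinuousAt (fun q => c * (1 - N q)) x :=
        continuousAt_const.mul (continuousAt_const.sub hN.cont.continuousAt)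
      filter_upwards [hc1.eventually_lt hc2 h5, hN.cont.continuousAt.eventually_lt_const hx]
        with q hq hq1
      have : m c N q z = 0 := by
        rw [m, Real.smoothTransition.zero_of_nonpos (x := 4 * ‖Phi N q z‖ ^ 2 / _ - 1), mul_zero]
        have h6 : 0 < c * (1 - N q) := mul_pos hc (by linarith)
        have h7 : 4 * ‖Phi N q z‖ ^ 2 / (c * (1 - N q)) ^ 2 ≤ 1 := by
          rw [div_le_one (pow_pos h6 2)]
          nlinarith [norm_nonneg (Phi N q z)]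
        linarith
      simp [M, this]
    rw [h0, norm_zero]; exact hRHS
  have h5' : c * (1 - N x) ≤ 2 * ‖Phi N x z‖ := not_lt.1 h5
  have hp : 0 < ‖Phi N x z‖ := by linarith
  have hΦ : Phi N x z ≠ 0 := norm_pos_iff.1 hp
  have hy : 0 < ‖x - z‖ := norm_pos_iff.2 (sub_ne_zero.2 (ne_of_Phi hΦ))
  have hR : x ∈ Reg c N z := ⟨hx, h4', h5'⟩
  have hxK : x ∈ K := ⟨h4', hx.le⟩
  have hnx : ‖x‖ ≤ 1 / cl := by
    rw [le_div_iff₀ hcl]; linarith [hlow x, mul_comm cl ‖x‖]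
  have hnz : ‖z‖ ≤ 1 / cl := by
    rw [le_div_iff₀ hcl]; linarith [hlow z, mul_comm cl ‖z‖]
  have hxz : ‖x - z‖ ≤ 2 / cl := by
    refine (norm_sub_le _ _).trans ?_
    have : 2 / cl = 1 / cl + 1 / cl := by ring
    linarith
  have hPb : ‖fderiv ℝ (fun x => Phi N x z) x‖ ≤ P := by
    refine (fderiv_Phi_le hN hx0 z).trans ?_
    have h6 := hG x hxK
    have h7 := hH x hxK
    rw [hPdef]
    gcongr
  obtain ⟨L, hL, hLn⟩ := m_deriv hN hc (z := z) hx0 hx hCS0 (hG x hxK) hPb (fun t => (hCS t).1)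
  rw [indicator_of_mem hR]
  -- the product rule
  have hM : DifferentiableAt ℝ (fun x => M0 N x z) x :=
    diff_div (A_diff hN hx0 z) ((Phi_diff hN hx0 z).fun_mul (sq_diff x z))
      (mul_ne_zero hΦ (sq_ne (ne_of_Phi hΦ)))
  have hLc : HasFDerivAt (fun x => ((m c N x z : ℝ) : ℂ)) (Complex.ofRealCLM.comp L) x :=
    Complex.ofRealCLM.hasFDerivAt.comp x hL
  have hprod : dbar j (fun x => M c N x z) x =
      ((m c N x z : ℝ) : ℂ) * dbar j (fun x => M0 N x z) x +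
      dbar j (fun x => ((m c N x z : ℝ) : ℂ)) x * M0 N x z := by
    rw [← dbar_mul hLc.differentiableAt hM]
    congr 1
    funext q
    exact M_eq_mul c N q z
  have hm1 : ‖((m c N x z : ℝ) : ℂ)‖ ≤ 1 := by
    rw [Complex.norm_real, m, norm_mul, Real.norm_of_nonneg (Real.smoothTransition.nonneg _),
      Real.norm_of_nonneg (Real.smoothTransition.nonneg _)]
    exact mul_le_one₀ (Real.smoothTransition.le_one _) (Real.smoothTransition.nonneg _)
      (Real.smoothTransition.le_one _)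
  have hm2 : ‖dbar j (fun x => ((m c N x z : ℝ) : ℂ)) x‖ ≤ ‖L‖ := by
    rw [dbar_eq hLc]
    refine (D_le _ _).trans ?_
    refine (ContinuousLinearMap.opNorm_comp_le _ _).trans ?_
    rw [Complex.ofRealCLM_norm, one_mul]
  have hA := dbar_M0_le hN hx0 hΦ (hG x hxK) (hH x hxK) j
  have hB := M0_le hΦ (hG x hxK)
  set T0 := (‖x - z‖⁻¹) ^ 3 with hT0def
  set T1 := ‖Phi N x z‖⁻¹ * ‖x - z‖⁻¹ with hT1def
  set T2 := dPhi N x z * (‖Phi N x z‖⁻¹) ^ 2 * ‖x - z‖⁻¹ with hT2def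
  set T3 := {p : E | ‖Phi N p z‖ ≤ c * (1 - N p)}.indicator
      (fun p => ((1 - N p)⁻¹) ^ 2 * ‖p - z‖⁻¹) x with hT3def
  have hT1 : 0 ≤ T1 := by positivity
  have hT2 : 0 ≤ T2 := by positivity
  have hggT : gg c N x z = T1 + T2 + T3 := rfl
  have hkey : ‖L‖ * ‖M0 N x z‖ ≤ 8 * CS * G ^ 2 * T1 + 4 * G * K1 / c ^ 2 * T3 := by
    by_cases hq : deriv Real.smoothTransition (4 * ‖Phi N x z‖ ^ 2 / (c * (1 - N x)) ^ 2 - 1) = 0
    · rw [hq, abs_zero, zero_mul, add_zero] at hLn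
      calc ‖L‖ * ‖M0 N x z‖ ≤ (4 * CS * G) * (2 * G * T1) := by gcongr
        _ = 8 * CS * G ^ 2 * T1 := by ring
        _ ≤ _ := le_add_of_nonneg_right (by positivity)
    · obtain ⟨hq1, hq2⟩ := (hCS _).2 hq
      have h8 : ‖Phi N x z‖ ≤ c * (1 - N x) := by
        have h9 : 4 * ‖Phi N x z‖ ^ 2 / (c * (1 - N x)) ^ 2 < 2 := by linarith
        rw [div_lt_iff₀ (pow_pos hD 2)] at h9
        nlinarith [norm_nonneg (Phi N x z)]
      have hT3v : T3 = ((1 - N x)⁻¹) ^ 2 * ‖x - z‖⁻¹ := by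
        rw [hT3def, indicator_of_mem]
        exact h8
      have h10 : 8 * ‖Phi N x z‖ ^ 2 * c / (c * (1 - N x)) ^ 3 * G +
          8 * ‖Phi N x z‖ / (c * (1 - N x)) ^ 2 * P ≤ (8 * c * G + 8 * P) / (c * (1 - N x)) := by
        calc _ ≤ 8 * (c * (1 - N x)) ^ 2 * c / (c * (1 - N x)) ^ 3 * G +
          8 * (c * (1 - N x)) / (c * (1 - N x)) ^ 2 * P := by gcongr
          _ = _ := by field_simp
      have h11 : ‖L‖ ≤ 4 * CS * G + K1 / (c * (1 - N x)) := by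
        refine hLn.trans ?_
        have h12 : |deriv Real.smoothTransition
            (4 * ‖Phi N x z‖ ^ 2 / (c * (1 - N x)) ^ 2 - 1)| *
            (8 * ‖Phi N x z‖ ^ 2 * c / (c * (1 - N x)) ^ 3 * G +
              8 * ‖Phi N x z‖ / (c * (1 - N x)) ^ 2 * P) ≤
            CS * ((8 * c * G + 8 * P) / (c * (1 - N x))) := by
          have := (hCS (4 * ‖Phi N x z‖ ^ 2 / (c * (1 - N x)) ^ 2 - 1)).1
          gcongr
        have h12' : K1 / (c * (1 - N x)) = CS * ((8 * c * G + 8 * P) / (c * (1 - N x))) := by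
          rw [hK1def, mul_div_assoc]
        rw [h12']
        exact add_le_add le_rfl h12
      have h13 : T1 ≤ 2 / (c * (1 - N x)) * ‖x - z‖⁻¹ := by
        rw [hT1def]
        gcongr
        rw [inv_eq_one_div, div_le_div_iff₀ hp hD]
        linarith
      calc ‖L‖ * ‖M0 N x z‖ ≤ (4 * CS * G + K1 / (c * (1 - N x))) * (2 * G * T1) := by gcongr
        _ = 8 * CS * G ^ 2 * T1 + K1 / (c * (1 - N x)) * (2 * G) * T1 := by ring
        _ ≤ 8 * CS * G ^ 2 * T1 + K1 / (c * (1 - N x)) * (2 * G) *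
            (2 / (c * (1 - N x)) * ‖x - z‖⁻¹) := by gcongr
        _ = _ := by
          rw [hT3v]
          field_simp
          ring
  rw [hprod, hggT]
  have h14 : ‖((m c N x z : ℝ) : ℂ) * dbar j (fun x => M0 N x z) x‖ ≤
      2 * H * T1 + 2 * G * T2 + T0 := by
    rw [norm_mul]
    exact (mul_le_of_le_one_left (norm_nonneg _) hm1).trans hA
  have h15 : ‖dbar j (fun x => ((m c N x z : ℝ) : ℂ)) x * M0 N x z‖ ≤
      8 * CS * G ^ 2 * T1 + 4 * G * K1 / c ^ 2 * T3 := by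
    rw [norm_mul]
    exact (mul_le_mul_of_nonneg_right hm2 (norm_nonneg _)).trans hkey
  refine (norm_add_le _ _).trans ((add_le_add h14 h15).trans ?_)
  have a1 : 0 ≤ 8 * CS * G ^ 2 := by positivity
  have a2 : 0 ≤ 4 * G * K1 / c ^ 2 := by positivity
  have b1 : (2 * H + 8 * CS * G ^ 2) * T1 ≤ C * T1 := by
    apply mul_le_mul_of_nonneg_right _ hT1; rw [hCdef]; linarith
  have b2 : (2 * G) * T2 ≤ C * T2 := by
    apply mul_le_mul_of_nonneg_right _ hT2; rw [hCdef]; linarith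
  have b3 : (4 * G * K1 / c ^ 2) * T3 ≤ C * T3 := by
    apply mul_le_mul_of_nonneg_right _ hT3; rw [hCdef]; linarith
  have b0 : 1 * T0 ≤ C * T0 := by
    apply mul_le_mul_of_nonneg_right _ hT0; rw [hCdef]; linarith
  linarith

end Pool.Agent.N289.CV
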