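import Pool.Agent.N289.CV.Est
import Pool.Agent.N289.CV.S1
import Pool.Agent.N289.CV.S14
import Pool.Agent.N289.CV.S15
set_option autoImplicit false
namespace Pool.Agent.N289.CV
open MeasureTheory Set Filter Topology

theorem dbar_continuousOn {g : E → ℂ} {S : Set E} (hS : IsOpen S)
    (hg : ContDiffOn ℝ ((⊤ : ℕ∞) : WithTop ℕ∞) g S) (j : Fin 2) : ContinuousOn (dbar j g) S := by
  have h := hg.continuousOn_fderiv_of_isOpen hS (by exact_mod_cast le_top)
  unfold dbar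
  exact continuousOn_const.mul ((h.clm_apply continuousOn_const).add
    (continuousOn_const.mul (h.clm_apply continuousOn_const)))

theorem M_slice {N : E → ℝ} (hN : Good N) {c : ℝ} (hc : 0 < c) : ∀ z, N z < 1 →
    ContDiffOn ℝ ((⊤ : ℕ∞) : WithTop ℕ∞) (fun x => M c N x z) {x | N x < 1} := by
  intro z hz
  have h1 : ContDiffOn ℝ ((⊤ : ℕ∞) : WithTop ℕ∞) (fun x : E => ((x, z) : E × E)) {x | N x < 1} :=
    (contDiff_id.prodMk contDiff_const).contDiffOn
  have h2 : MapsTo (fun x : E => ((x, z) : E × E)) {x | N x < 1} {p | N p.1 < 1 ∧ N p.2 < 1} := by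
    intro x hx
    exact ⟨hx, hz⟩
  have h4 := M_contDiffOn hN hc
  have h3 := h4.comp h1 h2
  exact h3

theorem good_main {N : E → ℝ} (hN : Good N) :
    ∃ C : ℝ, 0 ≤ C ∧ ∀ (f : Fin 2 → E → ℂ) (B : ℝ),
      (∀ j, ContDiffOn ℝ ((⊤ : ℕ∞) : WithTop ℕ∞) (f j) {x | N x < 1}) →
      (∀ x, N x < 1 → dbar 0 (f 1) x = dbar 1 (f 0) x) →
      (∀ x, N x < 1 → ∀ j, ‖f j x‖ ≤ B) →
      ∃ u : E → ℂ, ContDiffOn ℝ ((⊤ : ℕ∞) : WithTop ℕ∞) u {x | N x < 1} ∧
        (∀ x, N x < 1 → ∀ j, dbar j u x = f j x) ∧ ∀ x, N x < 1 → ‖u x‖ ≤ C * B := by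
  obtain ⟨κ, hκ⟩ := exists_BMid
  obtain ⟨c, hc, B0, hB0, hest⟩ := est hN
  obtain ⟨C1, hC1, hM⟩ := dbar_M_le hN hc
  obtain ⟨cl, hcl, hlow⟩ := hN.lower
  set R : ℝ := 1 / cl with hR
  have hΩR : ∀ x : E, N x < 1 → x ∈ Metric.ball (0:E) R := by
    intro x hx
    rw [mem_ball_zero_iff, hR, lt_div_iff₀ hcl]
    have := hlow x
    linarith [mul_comm cl ‖x‖]
  obtain ⟨B3, hB3, hB3'⟩ := unif_inv_pow 3 le_rfl R
  have hΩ := isOpen_Om hN
  have hΩm := hΩ.measurableSet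
  have hMc : ∀ z, N z < 1 → ContDiffOn ℝ ((⊤ : ℕ∞) : WithTop ℕ∞) (fun x => M c N x z) {x | N x < 1} :=
    M_slice hN hc
  have hMm : ∀ j z, N z < 1 → AEStronglyMeasurable (fun x => dbar j (fun x => M c N x z) x)
      (volume.restrict {x | N x < 1}) := fun j z hz =>
    (dbar_continuousOn hΩ (hMc z hz) j).aestronglyMeasurable hΩm
  have h3 : ∀ z, N z < 1 → ∫⁻ x in {x | N x < 1}, ENNReal.ofReal ((‖x - z‖⁻¹) ^ 3) ≤ B3 := by
    intro z hz
    have hz' := hΩR z hz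
    rw [mem_ball_zero_iff] at hz'
    exact (lintegral_mono_set (fun x hx => hΩR x hx)).trans (hB3' z hz'.le)
  have hMi : ∀ j z, N z < 1 → ∫⁻ x in {x | N x < 1}, ‖dbar j (fun x => M c N x z) x‖ₑ ≤
      ENNReal.ofReal C1 * (B3 + B0) := by
    intro j z hz
    calc ∫⁻ x in {x | N x < 1}, ‖dbar j (fun x => M c N x z) x‖ₑ
        ≤ ∫⁻ x in {x | N x < 1}, ENNReal.ofReal C1 * (ENNReal.ofReal ((‖x - z‖⁻¹) ^ 3) +
          (Reg c N z).indicator (fun x => ENNReal.ofReal (gg c N x z)) x) := by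
          refine setLIntegral_mono' hΩm ?_
          intro x hx
          have h := hM x z j hx hz
          rw [← ofReal_norm_eq_enorm]
          refine (ENNReal.ofReal_le_ofReal h).trans ?_
          rw [ENNReal.ofReal_mul hC1]
          gcongr
          refine ENNReal.ofReal_add_le.trans ?_
          gcongr
          by_cases hx : x ∈ Reg c N z
          · rw [indicator_of_mem hx, indicator_of_mem hx]
          · rw [indicator_of_notMem hx, indicator_of_notMem hx]; simp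
      _ = ENNReal.ofReal C1 * ((∫⁻ x in {x | N x < 1}, ENNReal.ofReal ((‖x - z‖⁻¹) ^ 3)) +
          ∫⁻ x in {x | N x < 1}, (Reg c N z).indicator (fun x => ENNReal.ofReal (gg c N x z)) x) := by
          rw [lintegral_const_mul' _ _ ENNReal.ofReal_ne_top, lintegral_add_left]
          fun_prop
      _ ≤ _ := by
          gcongr
          · exact h3 z hz
          · refine (setLIntegral_le_lintegral _ _).trans ?_
            exact (lintegral_indicator_le _ _).trans (hest z hz)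
  have hfin : ENNReal.ofReal C1 * (B3 + B0) < ⊤ :=
    ENNReal.mul_lt_top ENNReal.ofReal_lt_top (ENNReal.add_lt_top.mpr ⟨hB3.lt_top, hB0.lt_top⟩)
  have hint : ∀ j z, N z < 1 → IntegrableOn (fun x => dbar j (fun x => M c N x z) x) {x | N x < 1} := by
    intro j z hz
    exact ⟨hMm j z hz, (hMi j z hz).trans_lt hfin⟩
  set Ct : ENNReal := ENNReal.ofReal C1 * (B3 + B0) + B3 + (ENNReal.ofReal C1 * (B3 + B0) + B3) with hCt
  have hCt' : Ct ≠ ⊤ := by
    simp only [hCt, ne_eq, ENNReal.add_eq_top, not_or]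
    exact ⟨⟨hfin.ne, hB3⟩, hfin.ne, hB3⟩
  refine ⟨κ⁻¹ * Ct.toReal, mul_nonneg (inv_nonneg.mpr hκ.1.le) ENNReal.toReal_nonneg, ?_⟩
  intro f B hf hclo hB
  obtain ⟨hu1, hu2⟩ := repr hN hc hκ hint f hf hclo B hB
  refine ⟨_, hu1, hu2, ?_⟩
  intro z hz
  have hB0' : 0 ≤ B := (norm_nonneg _).trans (hB z hz 0)
  rw [norm_mul, norm_inv, Complex.norm_real, Real.norm_of_nonneg hκ.1.le, mul_assoc]
  gcongr
  · exact inv_nonneg.mpr hκ.1.le
  have hb : ∀ j z, N z < 1 → ∫⁻ x in {x | N x < 1}, ‖bk j (x - z)‖ₑ ≤ B3 := by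
    intro j z hz
    refine (lintegral_mono ?_).trans (h3 z hz)
    intro x
    simp only
    rw [← ofReal_norm_eq_enorm]
    exact ENNReal.ofReal_le_ofReal (bk_norm_le j (x - z))
  have hbm : ∀ j, AEMeasurable (fun x : E => ‖bk j (x - z)‖ₑ) (volume.restrict {x | N x < 1}) := by
    intro j
    exact ((bk_measurable j).comp (by fun_prop : Measurable (fun x : E => x - z))).enorm.aemeasurable
  have key : ‖∫ x in {x | N x < 1},
        (f 0 x * (dbar 1 (fun x => M c N x z) x - bk 0 (x - z))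
          - f 1 x * (dbar 0 (fun x => M c N x z) x + bk 1 (x - z)))‖ₑ ≤ ENNReal.ofReal B * Ct := by
    refine (enorm_integral_le_lintegral_enorm _).trans ?_
    calc ∫⁻ x in {x | N x < 1}, ‖(f 0 x * (dbar 1 (fun x => M c N x z) x - bk 0 (x - z))
          - f 1 x * (dbar 0 (fun x => M c N x z) x + bk 1 (x - z)))‖ₑ
        ≤ ∫⁻ x in {x | N x < 1}, ENNReal.ofReal B * ((‖dbar 1 (fun x => M c N x z) x‖ₑ + ‖bk 0 (x - z)‖ₑ) +
          (‖dbar 0 (fun x => M c N x z) x‖ₑ + ‖bk 1 (x - z)‖ₑ)) := by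
          refine setLIntegral_mono' hΩm ?_
          intro x hx
          have e : ∀ j, ‖f j x‖ₑ ≤ ENNReal.ofReal B := fun j => by
            rw [← ofReal_norm_eq_enorm]; exact ENNReal.ofReal_le_ofReal (hB x hx j)
          refine enorm_sub_le.trans ?_
          rw [enorm_mul, enorm_mul, mul_add]
          have h0 := e 0
          have h1 := e 1
          have h2 : ‖dbar 1 (fun x => M c N x z) x - bk 0 (x - z)‖ₑ ≤
            ‖dbar 1 (fun x => M c N x z) x‖ₑ + ‖bk 0 (x - z)‖ₑ := enorm_sub_le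
          have h3 : ‖dbar 0 (fun x => M c N x z) x + bk 1 (x - z)‖ₑ ≤
            ‖dbar 0 (fun x => M c N x z) x‖ₑ + ‖bk 1 (x - z)‖ₑ := enorm_add_le _ _
          gcongr
      _ = ENNReal.ofReal B * (((∫⁻ x in {x | N x < 1}, ‖dbar 1 (fun x => M c N x z) x‖ₑ) +
            ∫⁻ x in {x | N x < 1}, ‖bk 0 (x - z)‖ₑ) +
          ((∫⁻ x in {x | N x < 1}, ‖dbar 0 (fun x => M c N x z) x‖ₑ) + ∫⁻ x in {x | N x < 1}, ‖bk 1 (x - z)‖ₑ)) := by
          have hs : AEMeasurable (fun x => ‖dbar 1 (fun x => M c N x z) x‖ₑ + ‖bk 0 (x - z)‖ₑ)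
              (volume.restrict {x | N x < 1}) := (hMm 1 z hz).enorm.add (hbm 0)
          rw [lintegral_const_mul' _ _ ENNReal.ofReal_ne_top, lintegral_add_left' hs,
            lintegral_add_left' (hMm 1 z hz).enorm, lintegral_add_left' (hMm 0 z hz).enorm]
      _ ≤ ENNReal.ofReal B * Ct := by
          rw [hCt]
          gcongr
          · exact hMi 1 z hz
          · exact hb 0 z hz
          · exact hMi 0 z hz
          · exact hb 1 z hz
  have h5 := ENNReal.toReal_mono (ENNReal.mul_ne_top ENNReal.ofReal_ne_top hCt') key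
  rw [toReal_enorm, ENNReal.toReal_mul, ENNReal.toReal_ofReal hB0'] at h5
  linarith [mul_comm B Ct.toReal]

theorem dbar_comp_add (g : E → ℂ) (a x : E) (j : Fin 2) : dbar j (fun y => g (y + a)) x = dbar j g (x + a) := by
  unfold dbar
  rw [fderiv_comp_add_right]

/-- The theorem for all domains of S04099. -/
theorem main_thm (Ω : Set E) (ho : IsOpen Ω) (hne : Ω.Nonempty) (hb : Bornology.IsBounded Ω) (hc : Convex ℝ Ω)
    (hρ : ∃ ρ : E → ℝ, ContDiff ℝ ((⊤ : ℕ∞) : WithTop ℕ∞) ρ ∧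
        Ω = {x | ρ x < 0} ∧ ∀ x, ρ x = 0 → fderiv ℝ ρ x ≠ 0) :
    ∃ C : ℝ, 0 ≤ C ∧ ∀ f : Fin 2 → E → ℂ, ∀ M : ℝ,
      (∀ j, ContDiffOn ℝ ((⊤ : ℕ∞) : WithTop ℕ∞) (f j) Ω) →
      (∀ x ∈ Ω, dbar 0 (f 1) x = dbar 1 (f 0) x) →
      (∀ x ∈ Ω, ∀ j, ‖f j x‖ ≤ M) →
      ∃ u : E → ℂ, ContDiffOn ℝ ((⊤ : ℕ∞) : WithTop ℕ∞) u Ω ∧
        (∀ x ∈ Ω, ∀ j : Fin 2, dbar j u x = f j x) ∧ ∀ x ∈ Ω, ‖u x‖ ≤ C * M := by
  obtain ⟨a, ha⟩ := hne
  obtain ⟨ρ, hρ, hΩ, hd⟩ := hρ
  have hcont : Continuous (fun x : E => x + a) := by fun_prop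
  have hcd : ContDiff ℝ ((⊤ : ℕ∞) : WithTop ℕ∞) (fun x : E => x + a) := contDiff_id.add contDiff_const
  obtain ⟨N, hN, hΩN⟩ := exists_good ((fun x => x + a) ⁻¹' Ω) (ho.preimage hcont) (by
      obtain ⟨R, hR⟩ := hb.subset_closedBall a
      refine (Metric.isBounded_closedBall (x := (0:E)) (r := R)).subset ?_
      intro x hx
      have := hR hx
      simpa [dist_eq_norm] using this) (by
      intro x hx y hy s t hs ht hst
      have := hc hx hy hs ht hst
      have e : s • (x + a) + t • (y + a) = s • x + t • y + a := by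
        have : s • a + t • a = a := by rw [← add_smul, hst, one_smul]
        rw [smul_add, smul_add]
        calc s • x + s • a + (t • y + t • a) = s • x + t • y + (s • a + t • a) := by abel
          _ = _ := by rw [this]
      rw [e] at this
      exact this) (by simpa using ha) (fun x => ρ (x + a)) (hρ.comp hcd) (by
      ext x; simp [hΩ]) (by
      intro x hx
      rw [fderiv_comp_add_right]
      exact hd _ hx)
  obtain ⟨C, hC, H⟩ := good_main hN
  refine ⟨C, hC, fun f M hf hcl hM => ?_⟩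
  have hmem : ∀ x, N x < 1 ↔ x + a ∈ Ω := by
    intro x
    have : x ∈ (fun x => x + a) ⁻¹' Ω ↔ x ∈ {x | N x < 1} := by rw [hΩN]
    simpa using this.symm
  obtain ⟨u, hu1, hu2, hu3⟩ := H (fun j x => f j (x + a)) M (fun j => by
      refine (hf j).comp hcd.contDiffOn ?_
      intro x hx
      exact (hmem x).mp hx) (by
      intro x hx
      rw [dbar_comp_add, dbar_comp_add]
      exact hcl _ ((hmem x).mp hx)) (fun x hx j => hM _ ((hmem x).mp hx) j)
  have hmem' : ∀ x ∈ Ω, N (x + -a) < 1 := by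
    intro x hx
    rw [hmem]; simpa using hx
  refine ⟨fun x => u (x + -a), ?_, ?_, ?_⟩
  · refine hu1.comp (contDiff_id.add contDiff_const).contDiffOn ?_
    intro x hx
    exact hmem' x hx
  · intro x hx j
    rw [dbar_comp_add, hu2 _ (hmem' x hx)]
    simp
  · intro x hx
    exact hu3 _ (hmem' x hx)

end Pool.Agent.N289.CV
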