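import Pool.Agent.N289.CV.Basic

/-!
Facts about the kernels `M` and `M0`: smoothness, `∂̄_z M0`, and the Koppelman identities.
-/

set_option autoImplicit false

namespace Pool.Agent.N289.CV

open MeasureTheory Set Filter Topology

namespace S13

/-! ### Calculus of `dbar` -/

noncomputable def D (j : Fin 2) (L : E →L[ℝ] ℂ) : ℂ :=
  (1/2 : ℂ) * (L (Pi.single j (1 : ℂ)) + Complex.I * L (Pi.single j Complex.I))

theorem dbar_eq {g : E → ℂ} {g' : E →L[ℝ] ℂ} {x : E} (h : HasFDerivAt g g' x) (j : Fin 2) :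
    dbar j g x = D j g' := by
  rw [dbar, h.fderiv, D]

theorem dbar_congr {f g : E → ℂ} {x : E} (h : f =ᶠ[𝓝 x] g) (j : Fin 2) :
    dbar j f x = dbar j g x := by
  rw [dbar, dbar, h.fderiv_eq]

theorem dbar_const (a : ℂ) (x : E) (j : Fin 2) : dbar j (fun _ => a) x = 0 := by
  rw [dbar_eq (hasFDerivAt_const a x), D]; simp

theorem dbar_add {f g : E → ℂ} {x : E} (hf : DifferentiableAt ℝ f x) (hg : DifferentiableAt ℝ g x)
    (j : Fin 2) : dbar j (fun x => f x + g x) x = dbar j f x + dbar j g x := by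
  rw [dbar_eq (hf.hasFDerivAt.fun_add hg.hasFDerivAt), dbar, dbar, D]
  simp only [add_apply]; ring

theorem dbar_sub {f g : E → ℂ} {x : E} (hf : DifferentiableAt ℝ f x) (hg : DifferentiableAt ℝ g x)
    (j : Fin 2) : dbar j (fun x => f x - g x) x = dbar j f x - dbar j g x := by
  rw [dbar_eq (hf.hasFDerivAt.fun_sub hg.hasFDerivAt), dbar, dbar, D]
  simp only [sub_apply]; ring

theorem dbar_mul {f g : E → ℂ} {x : E} (hf : DifferentiableAt ℝ f x) (hg : DifferentiableAt ℝ g x)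
    (j : Fin 2) : dbar j (fun x => f x * g x) x = f x * dbar j g x + dbar j f x * g x := by
  rw [dbar_eq (hf.hasFDerivAt.fun_mul hg.hasFDerivAt), dbar, dbar, D]
  simp only [add_apply, smul_apply, smul_eq_mul]; ring

theorem diff_div {f g : E → ℂ} {x : E} (hf : DifferentiableAt ℝ f x) (hg : DifferentiableAt ℝ g x)
    (h0 : g x ≠ 0) : DifferentiableAt ℝ (fun x => f x / g x) x := by
  have h1 : DifferentiableAt ℝ (fun x => (g x)⁻¹) x := hg.fun_inv h0
  simpa only [div_eq_mul_inv] using hf.fun_mul h1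

theorem dbar_div {f g : E → ℂ} {x : E} (hf : DifferentiableAt ℝ f x) (hg : DifferentiableAt ℝ g x)
    (h0 : g x ≠ 0) (j : Fin 2) :
    dbar j (fun x => f x / g x) x = (dbar j f x * g x - f x * dbar j g x) / (g x) ^ 2 := by
  have h1 : dbar j (fun x => (f x / g x) * g x) x = dbar j f x := by
    refine dbar_congr ?_ j
    filter_upwards [hg.continuousAt.eventually_ne h0] with y hy
    exact div_mul_cancel₀ _ hy
  rw [dbar_mul (diff_div hf hg h0) hg] at h1
  rw [eq_div_iff (pow_ne_zero 2 h0), ← h1]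
  field_simp
  ring

/-- a real linear functional composed with coordinates -/
theorem dbar_conj (k j : Fin 2) (z x : E) :
    dbar j (fun x => (starRingEnd ℂ) (x k - z k)) x = if j = k then 1 else 0 := by
  have h : HasFDerivAt (fun x : E => (starRingEnd ℂ) (x k - z k))
      ((Complex.conjCLE : ℂ →L[ℝ] ℂ).comp (ContinuousLinearMap.proj (R := ℝ) k)) x := by
    have h1 : HasFDerivAt (fun x : E => x k - z k) (ContinuousLinearMap.proj (R := ℝ) k) x :=
      (ContinuousLinearMap.hasFDerivAt (ContinuousLinearMap.proj (R := ℝ) (φ := fun _ : Fin 2 => ℂ) k)).sub_const (z k)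
    exact (Complex.conjCLE : ℂ →L[ℝ] ℂ).hasFDerivAt.comp x h1
  rw [dbar_eq h, D]
  by_cases hjk : j = k
  · subst hjk
    simp
    norm_num
  · have : k ≠ j := fun h => hjk h.symm
    simp [hjk]

theorem dbar_coord (k j : Fin 2) (z x : E) : dbar j (fun x => x k - z k) x = 0 := by
  have h : HasFDerivAt (fun x : E => x k - z k) (ContinuousLinearMap.proj (R := ℝ) k) x :=
    (ContinuousLinearMap.hasFDerivAt (ContinuousLinearMap.proj (R := ℝ) (φ := fun _ : Fin 2 => ℂ) k)).sub_const (z k)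
  rw [dbar_eq h, D]
  by_cases hjk : j = k
  · subst hjk
    simp
  · have : k ≠ j := fun h => hjk h.symm
    simp [Pi.single_eq_of_ne this]

theorem dbar_conj' (k j : Fin 2) (z x : E) :
    dbar j (fun z => (starRingEnd ℂ) (x k - z k)) z = if j = k then -1 else 0 := by
  have h : HasFDerivAt (fun z : E => (starRingEnd ℂ) (x k - z k))
      ((Complex.conjCLE : ℂ →L[ℝ] ℂ).comp (-(ContinuousLinearMap.proj (R := ℝ) k))) z := by
    have h1 : HasFDerivAt (fun z : E => x k - z k) (-(ContinuousLinearMap.proj (R := ℝ) k)) z :=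
      (ContinuousLinearMap.hasFDerivAt (ContinuousLinearMap.proj (R := ℝ) (φ := fun _ : Fin 2 => ℂ) k)).const_sub (x k)
    exact (Complex.conjCLE : ℂ →L[ℝ] ℂ).hasFDerivAt.comp z h1
  rw [dbar_eq h, D]
  by_cases hjk : j = k
  · subst hjk
    simp
    norm_num
  · have : k ≠ j := fun h => hjk h.symm
    simp [hjk]

theorem dbar_coord' (k j : Fin 2) (z x : E) : dbar j (fun z => x k - z k) z = 0 := by
  have h : HasFDerivAt (fun z : E => x k - z k) (-(ContinuousLinearMap.proj (R := ℝ) k)) z :=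
    (ContinuousLinearMap.hasFDerivAt (ContinuousLinearMap.proj (R := ℝ) (φ := fun _ : Fin 2 => ℂ) k)).const_sub (x k)
  rw [dbar_eq h, D]
  by_cases hjk : j = k
  · subst hjk
    simp
  · have : k ≠ j := fun h => hjk h.symm
    simp [Pi.single_eq_of_ne this]

theorem diff_coord (k : Fin 2) (z x : E) : DifferentiableAt ℝ (fun x : E => x k - z k) x := by
  fun_prop

theorem diff_coord' (k : Fin 2) (z x : E) : DifferentiableAt ℝ (fun z : E => x k - z k) z := by
  fun_prop

theorem diff_conj (k : Fin 2) (z x : E) :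
    DifferentiableAt ℝ (fun x : E => (starRingEnd ℂ) (x k - z k)) x :=
  (Complex.conjCLE : ℂ →L[ℝ] ℂ).differentiableAt.comp x (diff_coord k z x)

theorem diff_conj' (k : Fin 2) (z x : E) :
    DifferentiableAt ℝ (fun z : E => (starRingEnd ℂ) (x k - z k)) z :=
  (Complex.conjCLE : ℂ →L[ℝ] ℂ).differentiableAt.comp z (diff_coord' k z x)

theorem sq_eq (x z : E) : ((sq (x - z) : ℝ) : ℂ) =
    (x 0 - z 0) * (starRingEnd ℂ) (x 0 - z 0) + (x 1 - z 1) * (starRingEnd ℂ) (x 1 - z 1) := by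
  rw [sq, Complex.mul_conj, Complex.mul_conj, Complex.normSq_eq_norm_sq, Complex.normSq_eq_norm_sq]
  push_cast
  rfl

theorem sq_ne {x z : E} (h : x ≠ z) : ((sq (x - z) : ℝ) : ℂ) ≠ 0 := by
  intro h0
  have h1 : sq (x - z) = 0 := by exact_mod_cast h0
  unfold sq at h1
  have h2 : ‖(x - z) 0‖ = 0 := by nlinarith [sq_nonneg ‖(x - z) 0‖, sq_nonneg ‖(x - z) 1‖]
  have h3 : ‖(x - z) 1‖ = 0 := by nlinarith [sq_nonneg ‖(x - z) 0‖, sq_nonneg ‖(x - z) 1‖]
  apply h
  have h4 : x - z = 0 := by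
    funext i
    fin_cases i
    · exact norm_eq_zero.1 h2
    · exact norm_eq_zero.1 h3
  exact sub_eq_zero.1 h4

theorem Phi_self (N : E → ℝ) (x : E) : Phi N x x = 0 := by simp [Phi]

theorem ne_of_Phi {N : E → ℝ} {x z : E} (h : Phi N x z ≠ 0) : x ≠ z := by
  rintro rfl
  exact h (Phi_self N x)

theorem Phi_ne {N : E → ℝ} (hN : Good N) {x z : E} (h : N z < N x) : Phi N x z ≠ 0 := by
  have hx : x ≠ 0 := hN.ne_zero ((hN.nonneg z).trans_lt h)
  have h1 := le_norm_Phi hN hx z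
  have h2 : 0 < ‖Phi N x z‖ := by linarith
  exact norm_pos_iff.1 h2

theorem x_ne {N : E → ℝ} (hN : Good N) {x z : E} (h : N z < N x) : x ≠ 0 :=
  hN.ne_zero ((hN.nonneg z).trans_lt h)

/-! derivatives in `x` -/

theorem w_diff {N : E → ℝ} (hN : Good N) (j : Fin 2) {x : E} (hx : x ≠ 0) :
    DifferentiableAt ℝ (w N j) x :=
  (w_contDiffAt hN j hx).differentiableAt (by simp)

theorem Phi_diff {N : E → ℝ} (hN : Good N) {x : E} (hx : x ≠ 0) (z : E) :
    DifferentiableAt ℝ (fun x => Phi N x z) x :=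
  ((w_diff hN 0 hx).fun_mul (diff_coord 0 z x)).fun_add ((w_diff hN 1 hx).fun_mul (diff_coord 1 z x))

theorem A_diff {N : E → ℝ} (hN : Good N) {x : E} (hx : x ≠ 0) (z : E) :
    DifferentiableAt ℝ (fun x => A N x z) x :=
  ((w_diff hN 0 hx).fun_mul (diff_conj 1 z x)).fun_sub ((w_diff hN 1 hx).fun_mul (diff_conj 0 z x))

theorem sq_diff (x z : E) : DifferentiableAt ℝ (fun x : E => ((sq (x - z) : ℝ) : ℂ)) x := by
  simp only [sq_eq]
  exact ((diff_coord 0 z x).fun_mul (diff_conj 0 z x)).fun_add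
    ((diff_coord 1 z x).fun_mul (diff_conj 1 z x))

theorem dbar_Phi {N : E → ℝ} (hN : Good N) {x : E} (hx : x ≠ 0) (z : E) (k : Fin 2) :
    dbar k (fun x => Phi N x z) x =
      dbar k (w N 0) x * (x 0 - z 0) + dbar k (w N 1) x * (x 1 - z 1) := by
  unfold Phi
  rw [dbar_add ((w_diff hN 0 hx).fun_mul (diff_coord 0 z x))
      ((w_diff hN 1 hx).fun_mul (diff_coord 1 z x)),
    dbar_mul (w_diff hN 0 hx) (diff_coord 0 z x), dbar_mul (w_diff hN 1 hx) (diff_coord 1 z x),
    dbar_coord, dbar_coord]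
  ring

theorem dbar_A {N : E → ℝ} (hN : Good N) {x : E} (hx : x ≠ 0) (z : E) (k : Fin 2) :
    dbar k (fun x => A N x z) x =
      dbar k (w N 0) x * (starRingEnd ℂ) (x 1 - z 1) - dbar k (w N 1) x * (starRingEnd ℂ) (x 0 - z 0)
      + (w N 0 x * (if k = 1 then 1 else 0) - w N 1 x * (if k = 0 then 1 else 0)) := by
  unfold A
  rw [dbar_sub ((w_diff hN 0 hx).fun_mul (diff_conj 1 z x))
      ((w_diff hN 1 hx).fun_mul (diff_conj 0 z x)),
    dbar_mul (w_diff hN 0 hx) (diff_conj 1 z x), dbar_mul (w_diff hN 1 hx) (diff_conj 0 z x),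
    dbar_conj, dbar_conj]
  ring

theorem dbar_sq (x z : E) (k : Fin 2) :
    dbar k (fun x : E => ((sq (x - z) : ℝ) : ℂ)) x = x k - z k := by
  simp only [sq_eq]
  rw [dbar_add ((diff_coord 0 z x).fun_mul (diff_conj 0 z x))
      ((diff_coord 1 z x).fun_mul (diff_conj 1 z x)),
    dbar_mul (diff_coord 0 z x) (diff_conj 0 z x), dbar_mul (diff_coord 1 z x) (diff_conj 1 z x),
    dbar_conj, dbar_conj, dbar_coord, dbar_coord]
  fin_cases k <;> simp

/-! derivatives in `z` -/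

theorem Phi_diff' (N : E → ℝ) (x z : E) : DifferentiableAt ℝ (fun z => Phi N x z) z := by
  unfold Phi
  exact ((differentiableAt_const _).fun_mul (diff_coord' 0 z x)).fun_add
    ((differentiableAt_const _).fun_mul (diff_coord' 1 z x))

theorem A_diff' (N : E → ℝ) (x z : E) : DifferentiableAt ℝ (fun z => A N x z) z := by
  unfold A
  exact ((differentiableAt_const _).fun_mul (diff_conj' 1 z x)).fun_sub
    ((differentiableAt_const _).fun_mul (diff_conj' 0 z x))

theorem sq_diff' (x z : E) : DifferentiableAt ℝ (fun z : E => ((sq (x - z) : ℝ) : ℂ)) z := by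
  simp only [sq_eq]
  exact ((diff_coord' 0 z x).fun_mul (diff_conj' 0 z x)).fun_add
    ((diff_coord' 1 z x).fun_mul (diff_conj' 1 z x))

theorem dbar_Phi' (N : E → ℝ) (x z : E) (k : Fin 2) : dbar k (fun z => Phi N x z) z = 0 := by
  unfold Phi
  rw [dbar_add ((differentiableAt_const _).fun_mul (diff_coord' 0 z x))
      ((differentiableAt_const _).fun_mul (diff_coord' 1 z x)),
    dbar_mul (differentiableAt_const _) (diff_coord' 0 z x),
    dbar_mul (differentiableAt_const _) (diff_coord' 1 z x),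
    dbar_coord', dbar_coord', dbar_const, dbar_const]
  ring

theorem dbar_A' (N : E → ℝ) (x z : E) (k : Fin 2) : dbar k (fun z => A N x z) z =
      -(w N 0 x * (if k = 1 then 1 else 0) - w N 1 x * (if k = 0 then 1 else 0)) := by
  unfold A
  rw [dbar_sub ((differentiableAt_const _).fun_mul (diff_conj' 1 z x))
      ((differentiableAt_const _).fun_mul (diff_conj' 0 z x)),
    dbar_mul (differentiableAt_const _) (diff_conj' 1 z x),
    dbar_mul (differentiableAt_const _) (diff_conj' 0 z x),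
    dbar_conj', dbar_conj', dbar_const, dbar_const]
  fin_cases k <;> simp

theorem dbar_sq' (x z : E) (k : Fin 2) :
    dbar k (fun z : E => ((sq (x - z) : ℝ) : ℂ)) z = -(x k - z k) := by
  simp only [sq_eq]
  rw [dbar_add ((diff_coord' 0 z x).fun_mul (diff_conj' 0 z x))
      ((diff_coord' 1 z x).fun_mul (diff_conj' 1 z x)),
    dbar_mul (diff_coord' 0 z x) (diff_conj' 0 z x), dbar_mul (diff_coord' 1 z x) (diff_conj' 1 z x),
    dbar_conj', dbar_conj', dbar_coord', dbar_coord']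
  fin_cases k <;> simp

/-! smoothness -/

abbrev top : WithTop ℕ∞ := ((⊤ : ℕ∞) : WithTop ℕ∞)

theorem cd_coord (k : Fin 2) (p : E × E) : ContDiffAt ℝ top (fun p : E × E => p.1 k - p.2 k) p := by
  fun_prop

theorem cd_conj (k : Fin 2) (p : E × E) :
    ContDiffAt ℝ top (fun p : E × E => (starRingEnd ℂ) (p.1 k - p.2 k)) p :=
  (Complex.conjCLE : ℂ →L[ℝ] ℂ).contDiff.contDiffAt.comp p (cd_coord k p)

theorem cd_sq (p : E × E) : ContDiffAt ℝ top (fun p : E × E => ((sq (p.1 - p.2) : ℝ) : ℂ)) p := by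
  simp only [sq_eq]
  exact ((cd_coord 0 p).mul (cd_conj 0 p)).add ((cd_coord 1 p).mul (cd_conj 1 p))

theorem cd_w {N : E → ℝ} (hN : Good N) (j : Fin 2) {p : E × E} (hx : p.1 ≠ 0) :
    ContDiffAt ℝ top (fun p : E × E => w N j p.1) p :=
  ContDiffAt.comp (g := w N j) (f := Prod.fst) p (w_contDiffAt hN j hx) contDiffAt_fst

theorem cd_A {N : E → ℝ} (hN : Good N) {p : E × E} (hx : p.1 ≠ 0) :
    ContDiffAt ℝ top (fun p : E × E => A N p.1 p.2) p :=
  ((cd_w hN 0 hx).mul (cd_conj 1 p)).sub ((cd_w hN 1 hx).mul (cd_conj 0 p))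

theorem cd_Phi {N : E → ℝ} (hN : Good N) {p : E × E} (hx : p.1 ≠ 0) :
    ContDiffAt ℝ top (fun p : E × E => Phi N p.1 p.2) p :=
  ((cd_w hN 0 hx).mul (cd_coord 0 p)).add ((cd_w hN 1 hx).mul (cd_coord 1 p))

theorem cd_M0 {N : E → ℝ} (hN : Good N) {p : E × E} (hx : p.1 ≠ 0) (h : Phi N p.1 p.2 ≠ 0) :
    ContDiffAt ℝ top (fun p : E × E => M0 N p.1 p.2) p :=
by
  have h1 := (cd_A hN hx).mul (((cd_Phi hN hx).mul (cd_sq p)).fun_inv
    (mul_ne_zero h (sq_ne (ne_of_Phi h))))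
  simpa only [M0, div_eq_mul_inv] using h1

theorem cd_N {N : E → ℝ} (hN : Good N) {p : E × E} (hx : p.1 ≠ 0) :
    ContDiffAt ℝ top (fun p : E × E => N p.1) p :=
  ContDiffAt.comp (g := N) (f := Prod.fst) p (hN.contDiffAt hx) contDiffAt_fst

theorem cd_m {N : E → ℝ} (hN : Good N) {c : ℝ} (hc : 0 < c) {p : E × E} (hx : p.1 ≠ 0)
    (h1 : N p.1 < 1) : ContDiffAt ℝ top (fun p : E × E => m c N p.1 p.2) p := by
  have hs : ContDiff ℝ top Real.smoothTransition := Real.smoothTransition.contDiff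
  have h2 : ContDiffAt ℝ top (fun p : E × E => 4 * N p.1 - 1) p :=
    (contDiffAt_const.mul (cd_N hN hx)).sub contDiffAt_const
  have h3 : ContDiffAt ℝ top
      (fun p : E × E => 4 * ‖Phi N p.1 p.2‖ ^ 2 / (c * (1 - N p.1)) ^ 2 - 1) p := by
    refine ContDiffAt.sub (ContDiffAt.div ?_ ?_ ?_) contDiffAt_const
    · exact contDiffAt_const.mul ((cd_Phi hN hx).norm_sq ℝ)
    · exact (contDiffAt_const.mul (contDiffAt_const.sub (cd_N hN hx))).pow 2
    · have : 0 < c * (1 - N p.1) := mul_pos hc (by linarith)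
      positivity
  exact (hs.contDiffAt.comp p h2).mul (hs.contDiffAt.comp p h3)

theorem M_eq_mul (c : ℝ) (N : E → ℝ) (x z : E) : M c N x z = ((m c N x z : ℝ) : ℂ) * M0 N x z := by
  rw [M, M0, mul_div_assoc]

end S13

open S13 in
theorem M_contDiffOn {N : E → ℝ} (hN : Good N) {c : ℝ} (hc : 0 < c) :
    ContDiffOn ℝ ((⊤ : ℕ∞) : WithTop ℕ∞) (Function.uncurry (M c N)) {p | N p.1 < 1 ∧ N p.2 < 1} := by
  intro p hp
  apply ContDiffAt.contDiffWithinAt
  obtain ⟨hp1, hp2⟩ := hp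
  have hNc : ContinuousAt (fun p : E × E => N p.1) p := (hN.cont.comp continuous_fst).continuousAt
  by_cases h4 : N p.1 < 1 / 4
  · refine (contDiffAt_const (c := (0 : ℂ))).congr_of_eventuallyEq ?_
    filter_upwards [hNc.eventually_lt_const h4] with q hq
    have : m c N q.1 q.2 = 0 := by
      rw [m, Real.smoothTransition.zero_of_nonpos (by linarith), zero_mul]
    simp [Function.uncurry, M, this]
  · have hx : p.1 ≠ 0 := hN.ne_zero (by linarith)
    by_cases hΦ : Phi N p.1 p.2 = 0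
    · refine (contDiffAt_const (c := (0 : ℂ))).congr_of_eventuallyEq ?_
      have hc1 : ContinuousAt
          (fun p : E × E => 4 * ‖Phi N p.1 p.2‖ ^ 2 / (c * (1 - N p.1)) ^ 2 - 1) p := by
        have h1 : ContinuousAt (fun p : E × E => Phi N p.1 p.2) p := (cd_Phi hN hx).continuousAt
        have h2 : 0 < c * (1 - N p.1) := mul_pos hc (by linarith)
        exact ((continuousAt_const.mul (h1.norm.pow 2)).div
          ((continuousAt_const.mul (continuousAt_const.sub hNc)).pow 2)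
          (pow_pos h2 2).ne').sub continuousAt_const
      have h3 : 4 * ‖Phi N p.1 p.2‖ ^ 2 / (c * (1 - N p.1)) ^ 2 - 1 < 0 := by
        rw [hΦ]; simp
      filter_upwards [hc1.eventually_lt_const h3] with q hq
      have : m c N q.1 q.2 = 0 := by
        rw [m, Real.smoothTransition.zero_of_nonpos hq.le, mul_zero]
      simp [Function.uncurry, M, this]
    · have h1 : ContDiffAt ℝ top (fun p : E × E => ((m c N p.1 p.2 : ℝ) : ℂ)) p :=
        Complex.ofRealCLM.contDiff.contDiffAt.comp p (cd_m hN hc hx hp1)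
      have h2 := h1.mul (cd_M0 hN hx hΦ)
      refine h2.congr_of_eventuallyEq (Eventually.of_forall fun q => ?_)
      exact M_eq_mul c N q.1 q.2

open S13 in
theorem M0_contDiffOn {N : E → ℝ} (hN : Good N) :
    ContDiffOn ℝ ((⊤ : ℕ∞) : WithTop ℕ∞) (Function.uncurry (M0 N)) {p | N p.2 < N p.1} := by
  intro p hp
  exact (cd_M0 hN (x_ne hN hp) (Phi_ne hN hp)).contDiffWithinAt

open S13 in
theorem M_eq_M0 {N : E → ℝ} (hN : Good N) {c : ℝ} (hc : 0 < c) {r : ℝ} (hr : r < 1) :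
    ∃ r' : ℝ, r < r' ∧ r' < 1 ∧ ∀ x z, r' < N x → N x < 1 → N z < r → M c N x z = M0 N x z := by
  set ε : ℝ := min (1/2) ((1 - r) / (1 + 2 * c)) with hε
  have h1 : 0 < 1 + 2 * c := by linarith
  have hε1 : ε ≤ 1/2 := min_le_left _ _
  have hε2 : ε * (1 + 2 * c) ≤ 1 - r := by
    rw [← le_div_iff₀ h1]; exact min_le_right _ _
  have hε0 : 0 < ε := lt_min (by norm_num) (div_pos (by linarith) h1)
  have hcε : 0 < c * ε := mul_pos hc hε0
  refine ⟨1 - ε, by linarith, by linarith, fun x z hx1 hx2 hz => ?_⟩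
  have hx : x ≠ 0 := hN.ne_zero (by linarith)
  have h2 := le_norm_Phi hN hx z
  have h3 : 2 * (c * (1 - N x)) ≤ 2 * ‖Phi N x z‖ := by
    have : c * (1 - N x) ≤ c * ε := by
      apply mul_le_mul_of_nonneg_left _ hc.le; linarith
    linarith
  have h4 : 0 < c * (1 - N x) := mul_pos hc (by linarith)
  have h5 : m c N x z = 1 := by
    rw [m, Real.smoothTransition.one_of_one_le (by linarith), Real.smoothTransition.one_of_one_le,
      one_mul]
    have : 2 ≤ 4 * ‖Phi N x z‖ ^ 2 / (c * (1 - N x)) ^ 2 := by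
      rw [le_div_iff₀ (pow_pos h4 2)]
      nlinarith [norm_nonneg (Phi N x z)]
    linarith
  rw [M_eq_mul, h5, Complex.ofReal_one, one_mul]

open S13 in
theorem dbar_z_M0 {N : E → ℝ} (hN : Good N) {x z : E} (h : N z < N x) :
    dbar 0 (M0 N x) z = bk 1 (x - z) ∧ dbar 1 (M0 N x) z = - bk 0 (x - z) := by
  have hΦ := Phi_ne hN h
  have hs := sq_ne (ne_of_Phi hΦ)
  have hd : DifferentiableAt ℝ (fun z => Phi N x z * ((sq (x - z) : ℝ) : ℂ)) z :=
    (Phi_diff' N x z).fun_mul (sq_diff' x z)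
  have key : ∀ k, dbar k (M0 N x) z =
      (-(w N 0 x * (if k = 1 then 1 else 0) - w N 1 x * (if k = 0 then 1 else 0)) *
        (Phi N x z * ((sq (x - z) : ℝ) : ℂ)) - A N x z * (Phi N x z * (-(x k - z k)))) /
        (Phi N x z * ((sq (x - z) : ℝ) : ℂ)) ^ 2 := by
    intro k
    have h1 : M0 N x = fun z => A N x z / (Phi N x z * ((sq (x - z) : ℝ) : ℂ)) := rfl
    rw [h1, dbar_div (A_diff' N x z) hd (mul_ne_zero hΦ hs), dbar_A',
      dbar_mul (Phi_diff' N x z) (sq_diff' x z), dbar_Phi', dbar_sq', zero_mul, add_zero]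
  have hs2 : (Phi N x z * ((sq (x - z) : ℝ) : ℂ)) ^ 2 ≠ 0 := pow_ne_zero 2 (mul_ne_zero hΦ hs)
  constructor
  · rw [key, bk, div_eq_div_iff hs2 (pow_ne_zero 2 hs)]
    simp only [Fin.isValue, zero_ne_one, if_false, if_true, Pi.sub_apply, sq_eq]
    rw [A, Phi]
    ring
  · rw [key, bk, ← neg_div, div_eq_div_iff hs2 (pow_ne_zero 2 hs)]
    simp only [Fin.isValue, one_ne_zero, if_false, if_true, Pi.sub_apply, sq_eq]
    rw [A, Phi]
    ring

open S13 in
/-- The Koppelman kernel is holomorphic in `z`. -/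
theorem kop {N : E → ℝ} (hN : Good N) {x z : E} (h : N z < N x) :
    dbar 1 (fun x => M0 N x z) x - bk 0 (x - z) =
      - (w N 0 x * dbar 1 (w N 1) x - w N 1 x * dbar 1 (w N 0) x) / (Phi N x z) ^ 2 ∧
    dbar 0 (fun x => M0 N x z) x + bk 1 (x - z) =
      - (w N 0 x * dbar 0 (w N 1) x - w N 1 x * dbar 0 (w N 0) x) / (Phi N x z) ^ 2 := by
  have hx := x_ne hN h
  have hΦ := Phi_ne hN h
  have hs := sq_ne (ne_of_Phi hΦ)
  have hd : DifferentiableAt ℝ (fun x => Phi N x z * ((sq (x - z) : ℝ) : ℂ)) x :=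
    (Phi_diff hN hx z).fun_mul (sq_diff x z)
  have key : ∀ k, dbar k (fun x => M0 N x z) x =
      ((dbar k (w N 0) x * (starRingEnd ℂ) (x 1 - z 1) -
          dbar k (w N 1) x * (starRingEnd ℂ) (x 0 - z 0)
        + (w N 0 x * (if k = 1 then 1 else 0) - w N 1 x * (if k = 0 then 1 else 0))) *
        (Phi N x z * ((sq (x - z) : ℝ) : ℂ)) - A N x z * (Phi N x z * (x k - z k) +
          (dbar k (w N 0) x * (x 0 - z 0) + dbar k (w N 1) x * (x 1 - z 1)) *
            ((sq (x - z) : ℝ) : ℂ))) /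
        (Phi N x z * ((sq (x - z) : ℝ) : ℂ)) ^ 2 := by
    intro k
    have h1 : (fun x => M0 N x z) =
      fun x => A N x z / (Phi N x z * ((sq (x - z) : ℝ) : ℂ)) := rfl
    rw [h1, dbar_div (A_diff hN hx z) hd (mul_ne_zero hΦ hs), dbar_A hN hx,
      dbar_mul (Phi_diff hN hx z) (sq_diff x z), dbar_Phi hN hx, dbar_sq]
  have hs2 : (Phi N x z * ((sq (x - z) : ℝ) : ℂ)) ^ 2 ≠ 0 := pow_ne_zero 2 (mul_ne_zero hΦ hs)
  constructor
  · rw [key, bk, div_sub_div _ _ hs2 (pow_ne_zero 2 hs),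
      div_eq_div_iff (mul_ne_zero hs2 (pow_ne_zero 2 hs)) (pow_ne_zero 2 hΦ)]
    simp only [Fin.isValue, one_ne_zero, if_false, if_true, Pi.sub_apply, sq_eq]
    rw [A, Phi]
    ring
  · rw [key, bk, div_add_div _ _ hs2 (pow_ne_zero 2 hs),
      div_eq_div_iff (mul_ne_zero hs2 (pow_ne_zero 2 hs)) (pow_ne_zero 2 hΦ)]
    simp only [Fin.isValue, zero_ne_one, if_false, if_true, Pi.sub_apply, sq_eq]
    rw [A, Phi]
    ring

end Pool.Agent.N289.CV
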