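import Pool.Agent.N289.CV.S3

/-!
The Bochner-Martinelli identity on `ℂ²` (with unspecified constant `κ > 0`).
-/

set_option autoImplicit false

namespace Pool.Agent.N289.CV

open MeasureTheory Set Filter Topology

theorem bk_norm_le (j : Fin 2) (y : E) : ‖bk j y‖ ≤ (‖y‖⁻¹) ^ 3 := S3.bk_le j y

theorem integrableOn_norm_inv_pow (k : ℕ) (hk : k ≤ 3) (R : ℝ) :
    IntegrableOn (fun y : E => (‖y‖⁻¹) ^ k) (Metric.ball 0 R) := by
  have h := (integrableOn_fun_norm_addHaar (volume : Measure E)
    (f := fun r : ℝ => (r⁻¹) ^ k) (r := R)).2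
  apply h
  rw [S3.finrank_E]
  have h2 : IntegrableOn (fun y : ℝ => y ^ (3 - k)) (Ioo 0 R) := by
    have : IntegrableOn (fun y : ℝ => y ^ (3 - k)) (Icc 0 R) :=
      (continuous_pow (3 - k)).continuousOn.integrableOn_compact isCompact_Icc
    exact this.mono_set Ioo_subset_Icc_self
  refine h2.congr_fun ?_ measurableSet_Ioo
  intro y hy
  have hy' : y ≠ 0 := hy.1.ne'
  simp only [smul_eq_mul]
  obtain ⟨n, hn⟩ := Nat.exists_eq_add_of_le hk
  have h3 : 3 - k = n := by omega
  rw [h3, show (4 - 1 : ℕ) = k + n by omega, pow_add, inv_pow]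
  field_simp

namespace S2

/-- polar coordinates -/
theorem polar (h : E → ℂ) (hh : Integrable h) :
    ∫ y, h y = ∫ ω : Metric.sphere (0:E) 1, (∫ r in Ioi (0:ℝ), ((r ^ 3 : ℝ) : ℂ) * h (r • (ω : E)))
      ∂((volume : Measure E).toSphere) := by
  have e0 : ∫ y, h y = ∫ x : ({(0)}ᶜ : Set E), h x.1 ∂((volume : Measure E).comap (↑)) := by
    rw [integral_subtype_comap (measurableSet_singleton _).compl h, restrict_compl_singleton]
  have hd : Module.finrank ℝ E - 1 = 3 := by rw [S3.finrank_E]
  have hmp := (volume : Measure E).measurePreserving_homeomorphUnitSphereProd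
  rw [hd] at hmp
  set g : Metric.sphere (0:E) 1 × Ioi (0:ℝ) → ℂ := fun p => h ((p.2 : ℝ) • (p.1 : E)) with hg
  have hgc : ∀ x : ({(0)}ᶜ : Set E), g (homeomorphUnitSphereProd E x) = h x.1 := by
    intro x
    simp only [hg]
    have hx : ‖(x : E)‖ ≠ 0 := norm_ne_zero_iff.mpr x.2
    simp [smul_smul, hx]
  have e1 : ∫ x : ({(0)}ᶜ : Set E), h x.1 ∂((volume : Measure E).comap (↑))
      = ∫ p, g p ∂((volume : Measure E).toSphere.prod (Measure.volumeIoiPow 3)) := by
    rw [← hmp.integral_comp (Homeomorph.measurableEmbedding _) g]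
    simp only [hgc]
  have hgi : Integrable g ((volume : Measure E).toSphere.prod (Measure.volumeIoiPow 3)) := by
    rw [← hmp.integrable_comp_emb (Homeomorph.measurableEmbedding _)]
    have : (g ∘ (homeomorphUnitSphereProd E)) = (fun x : ({(0)}ᶜ : Set E) => h x.1) := by
      funext x; exact hgc x
    rw [this]
    have h3 : IntegrableOn h ({(0)}ᶜ : Set E) := hh.integrableOn
    exact (integrableOn_iff_comap_subtypeVal (measurableSet_singleton _).compl).1 h3
  rw [e0, e1, integral_prod g hgi]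
  congr 1
  funext ω
  simp only [Measure.volumeIoiPow, ENNReal.ofReal]
  rw [integral_withDensity_eq_integral_smul]
  · rw [integral_subtype_comap measurableSet_Ioi
      (fun a : ℝ => Real.toNNReal (a ^ 3) • h (a • (ω : E)))]
    apply setIntegral_congr_fun measurableSet_Ioi
    intro x hx
    have hx' : (0:ℝ) ≤ x ^ 3 := pow_nonneg (le_of_lt hx) _
    simp only
    rw [NNReal.smul_def, Real.coe_toNNReal _ hx', Complex.real_smul]
  · exact (measurable_subtype_coe.pow_const _).real_toNNReal

theorem sq_smul (r : ℝ) (y : E) : sq (r • y) = r ^ 2 * sq y := by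
  unfold sq
  simp only [Pi.smul_apply, norm_smul, Real.norm_eq_abs, mul_pow, sq_abs]
  ring

theorem sq_cmul (c : ℂ) (y : E) : sq (c • y) = ‖c‖ ^ 2 * sq y := by
  unfold sq
  simp only [Pi.smul_apply, norm_smul, mul_pow]
  ring

theorem sq_pos {y : E} (hy : y ≠ 0) : 0 < sq y := by
  have h1 := S3.norm_le_sqrt y
  have : 0 < ‖y‖ := norm_pos_iff.mpr hy
  exact lt_of_lt_of_le (by positivity) h1

/-- the real-linear functionals sum up -/
theorem dbar_sum (L : E →L[ℝ] ℂ) (y : E) :
    ((1/2 : ℂ) * (L (Pi.single 0 (1 : ℂ)) + Complex.I * L (Pi.single 0 Complex.I))) * (starRingEnd ℂ) (y 0)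
     + ((1/2 : ℂ) * (L (Pi.single 1 (1 : ℂ)) + Complex.I * L (Pi.single 1 Complex.I))) * (starRingEnd ℂ) (y 1)
     = (1/2 : ℂ) * (L y + Complex.I * L (Complex.I • y)) := by
  have key : ∀ z : E, L z = (z 0).re * L (Pi.single 0 1) + (z 0).im * L (Pi.single 0 Complex.I)
      + (z 1).re * L (Pi.single 1 1) + (z 1).im * L (Pi.single 1 Complex.I) := by
    intro z
    have hz : z = (z 0).re • (Pi.single 0 (1:ℂ) : E) + (z 0).im • (Pi.single 0 Complex.I : E)
        + (z 1).re • (Pi.single 1 (1:ℂ) : E) + (z 1).im • (Pi.single 1 Complex.I : E) := by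
      funext i
      fin_cases i
      · simp [Complex.re_add_im]
      · simp [Complex.re_add_im]
    conv_lhs => rw [hz]
    simp only [map_add, map_smul, Complex.real_smul]
  rw [key y, key (Complex.I • y)]
  have h0 : (starRingEnd ℂ) (y 0) = (y 0).re - Complex.I * (y 0).im := by
    apply Complex.ext <;> simp
  have h1 : (starRingEnd ℂ) (y 1) = (y 1).re - Complex.I * (y 1).im := by
    apply Complex.ext <;> simp
  rw [h0, h1]
  simp only [Pi.smul_apply, smul_eq_mul, Complex.mul_re, Complex.mul_im, Complex.I_re, Complex.I_im,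
    zero_mul, one_mul, zero_sub, zero_add, add_zero, Complex.ofReal_neg]
  ring_nf
  simp only [Complex.I_sq]
  ring

/-- the integrand decomposed -/
theorem integrand (G : E → ℂ) (y : E) :
    dbar 0 G y * bk 0 y + dbar 1 G y * bk 1 y
      = (1/2 : ℂ) * (fderiv ℝ G y y / ((sq y : ℝ) : ℂ) ^ 2)
        + (Complex.I / 2) * (fderiv ℝ G y (Complex.I • y) / ((sq y : ℝ) : ℂ) ^ 2) := by
  have h := dbar_sum (fderiv ℝ G y) y
  unfold dbar bk
  rw [mul_div_assoc', mul_div_assoc', ← add_div, h]
  ring

theorem meas_inv : Measurable (fun y : E => (((sq y : ℝ) : ℂ) ^ 2)⁻¹) := by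
  have h : Measurable (fun y : E => ((sq y : ℝ) : ℂ) ^ 2) :=
    (Complex.continuous_ofReal.comp S3.continuous_sq).measurable.pow_const 2
  exact h.inv

/-- bound -/
theorem bound {G : E → ℂ} (hG : ContDiff ℝ 1 G) (hs : HasCompactSupport G) :
    ∃ C R : ℝ, 0 ≤ C ∧ ∀ (y : E) (v : E), ‖v‖ = ‖y‖ →
      ‖fderiv ℝ G y v / ((sq y : ℝ) : ℂ) ^ 2‖ ≤ C * ((Iio R).indicator (fun r : ℝ => (r⁻¹) ^ 3) ‖y‖) := by
  have hcf : Continuous (fderiv ℝ G) := hG.continuous_fderiv (by simp)
  have hsf : HasCompactSupport (fderiv ℝ G) := hs.fderiv ℝ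
  obtain ⟨C, hC⟩ := hsf.exists_bound_of_continuous hcf
  obtain ⟨R, hR⟩ := hsf.isBounded.subset_ball (0:E)
  have hC0 : 0 ≤ C := (norm_nonneg _).trans (hC 0)
  refine ⟨C, R, hC0, fun y v hv => ?_⟩
  by_cases hy : ‖y‖ < R
  · simp only [Set.indicator, mem_Iio, hy, if_true]
    by_cases hy0 : y = 0
    · subst hy0
      have : v = 0 := by rw [← norm_eq_zero, hv, norm_zero]
      subst this
      simp
    have hyp : 0 < ‖y‖ := norm_pos_iff.mpr hy0
    have h1 := S3.norm_le_sqrt y
    have h3 : 0 < sq y := sq_pos hy0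
    rw [norm_div, norm_pow, Complex.norm_real, Real.norm_of_nonneg h3.le, div_le_iff₀ (by positivity)]
    have h4 : (‖y‖ ^ 2) ^ 2 ≤ sq y ^ 2 := by gcongr
    have h5 : ‖fderiv ℝ G y v‖ ≤ C * ‖y‖ := by
      rw [← hv]
      exact (ContinuousLinearMap.le_opNorm _ _).trans (by gcongr; exact hC y)
    calc ‖fderiv ℝ G y v‖ ≤ C * ‖y‖ := h5
      _ = C * (‖y‖⁻¹) ^ 3 * (‖y‖ ^ 2) ^ 2 := by field_simp
      _ ≤ C * (‖y‖⁻¹) ^ 3 * sq y ^ 2 := by gcongr
  · have : fderiv ℝ G y = 0 := by
      by_contra hne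
      have h1 : y ∈ tsupport (fderiv ℝ G) := subset_tsupport _ hne
      have := hR h1
      rw [mem_ball_zero_iff] at this
      exact hy this
    rw [this]
    simp [Set.indicator, hy]

theorem int_rad {G : E → ℂ} (hG : ContDiff ℝ 1 G) (hs : HasCompactSupport G) :
    Integrable (fun y : E => fderiv ℝ G y y / ((sq y : ℝ) : ℂ) ^ 2) := by
  obtain ⟨C, R, hC, h⟩ := bound hG hs
  refine Integrable.mono' ((S3.integrable_ind R).const_mul C) ?_ (ae_of_all _ fun y => h y y rfl)
  have hcf : Continuous (fderiv ℝ G) := hG.continuous_fderiv (by simp)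
  have : Continuous (fun y => fderiv ℝ G y y) := hcf.clm_apply continuous_id
  simp only [div_eq_mul_inv]
  exact (this.measurable.mul meas_inv).aestronglyMeasurable

theorem int_ang {G : E → ℂ} (hG : ContDiff ℝ 1 G) (hs : HasCompactSupport G) :
    Integrable (fun y : E => fderiv ℝ G y (Complex.I • y) / ((sq y : ℝ) : ℂ) ^ 2) := by
  obtain ⟨C, R, hC, h⟩ := bound hG hs
  refine Integrable.mono' ((S3.integrable_ind R).const_mul C) ?_
    (ae_of_all _ fun y => h y (Complex.I • y) (by rw [norm_smul]; simp))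
  have hcf : Continuous (fderiv ℝ G) := hG.continuous_fderiv (by simp)
  have : Continuous (fun y => fderiv ℝ G y (Complex.I • y)) :=
    hcf.clm_apply (continuous_id.const_smul Complex.I)
  simp only [div_eq_mul_inv]
  exact (this.measurable.mul meas_inv).aestronglyMeasurable

/-- one-dimensional fundamental theorem on rays -/
theorem ray {G : E → ℂ} (hG : ContDiff ℝ 1 G) (hs : HasCompactSupport G) (v : E) (hv : ‖v‖ = 1) :
    ∫ r in Ioi (0:ℝ), fderiv ℝ G (r • v) v = - G 0 := by
  have hd : ∀ r : ℝ, HasDerivAt (fun r : ℝ => G (r • v)) (fderiv ℝ G (r • v) v) r := by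
    intro r
    have h1 : HasFDerivAt G (fderiv ℝ G (r • v)) (r • v) :=
      (hG.differentiable (by simp) _).hasFDerivAt
    have h2 : HasDerivAt (fun r : ℝ => r • v) v r := by
      simpa using (hasDerivAt_id r).smul_const v
    exact h1.comp_hasDerivAt r h2
  obtain ⟨R, hR⟩ := hs.isBounded.subset_ball (0:E)
  have hz : ∀ r : ℝ, max R 0 ≤ r → G (r • v) = 0 := by
    intro r hr
    by_contra hne
    have h1 : r • v ∈ tsupport G := subset_tsupport _ hne
    have := hR h1
    rw [mem_ball_zero_iff, norm_smul, hv, mul_one, Real.norm_of_nonneg ((le_max_right _ _).trans hr)] at this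
    exact absurd this (not_lt.mpr ((le_max_left _ _).trans hr))
  have hcf : Continuous (fderiv ℝ G) := hG.continuous_fderiv (by simp)
  have hcc : Continuous (fun r : ℝ => fderiv ℝ G (r • v) v) := by fun_prop
  have hsupp : HasCompactSupport (fun r : ℝ => fderiv ℝ G (r • v) v) := by
    have hsf : HasCompactSupport (fderiv ℝ G) := hs.fderiv ℝ
    obtain ⟨R', hR'⟩ := hsf.isBounded.subset_ball (0:E)
    refine HasCompactSupport.of_support_subset_isCompact (isCompact_Icc (a := -R') (b := R')) ?_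
    intro r hr
    rw [Function.mem_support] at hr
    have h1 : r • v ∈ tsupport (fderiv ℝ G) := by
      apply subset_tsupport _
      rw [Function.mem_support]
      intro h0
      apply hr
      rw [h0]; rfl
    have := hR' h1
    rw [mem_ball_zero_iff, norm_smul, hv, mul_one, Real.norm_eq_abs] at this
    exact ⟨(abs_lt.1 this).1.le, (abs_lt.1 this).2.le⟩
  have hint : IntegrableOn (fun r : ℝ => fderiv ℝ G (r • v) v) (Ioi 0) :=
    (hcc.integrable_of_hasCompactSupport hsupp).integrableOn
  have h := integral_Ioi_of_hasDerivAt_of_tendsto' (a := (0:ℝ)) (m := (0:ℂ))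
    (f := fun r : ℝ => G (r • v)) (f' := fun r : ℝ => fderiv ℝ G (r • v) v)
    (fun r _ => hd r) hint ?_
  · rw [h]; simp
  · apply tendsto_const_nhds.congr'
    filter_upwards [eventually_ge_atTop (max R 0)] with r hr
    exact (hz r hr).symm

theorem radial {G : E → ℂ} (hG : ContDiff ℝ 1 G) (hs : HasCompactSupport G) :
    ∫ y : E, fderiv ℝ G y y / ((sq y : ℝ) : ℂ) ^ 2
      = -(((∫ ω : Metric.sphere (0:E) 1, ((sq (ω : E)) ^ 2)⁻¹ ∂((volume : Measure E).toSphere) : ℝ)) : ℂ) * G 0 := by
  rw [polar _ (int_rad hG hs)]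
  have key : ∀ ω : Metric.sphere (0:E) 1,
      (∫ r in Ioi (0:ℝ), ((r ^ 3 : ℝ) : ℂ) * (fderiv ℝ G (r • (ω : E)) (r • (ω : E)) / ((sq (r • (ω : E)) : ℝ) : ℂ) ^ 2))
        = ((((sq (ω : E)) ^ 2)⁻¹ : ℝ) : ℂ) * (- G 0) := by
    intro ω
    have hω : ‖(ω : E)‖ = 1 := by simpa using ω.2
    have hω0 : (ω : E) ≠ 0 := by
      intro h; rw [h, norm_zero] at hω; exact zero_ne_one hω
    have hp := sq_pos hω0
    rw [← ray hG hs (ω : E) hω, ← integral_const_mul]
    apply setIntegral_congr_fun measurableSet_Ioi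
    intro r hr
    have hr' : (r : ℂ) ≠ 0 := by exact_mod_cast (ne_of_gt hr)
    have hp' : ((sq (ω : E) : ℝ) : ℂ) ≠ 0 := by exact_mod_cast hp.ne'
    simp only [sq_smul, map_smul, Complex.real_smul, Complex.ofReal_mul, Complex.ofReal_pow,
      Complex.ofReal_inv]
    field_simp
  simp only [key]
  rw [integral_mul_const, integral_complex_ofReal]
  ring

theorem kpos : 0 < ∫ ω : Metric.sphere (0:E) 1, ((sq (ω : E)) ^ 2)⁻¹ ∂((volume : Measure E).toSphere) := by
  have hc : Continuous (fun ω : Metric.sphere (0:E) 1 => ((sq (ω : E)) ^ 2)⁻¹) := by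
    have h1 : Continuous (fun ω : Metric.sphere (0:E) 1 => (sq (ω : E)) ^ 2) :=
      (S3.continuous_sq.comp continuous_subtype_val).pow 2
    refine h1.inv₀ ?_
    intro ω
    have hω : ‖(ω : E)‖ = 1 := by simpa using ω.2
    have hω0 : (ω : E) ≠ 0 := by
      intro h; rw [h, norm_zero] at hω; exact zero_ne_one hω
    exact (pow_pos (sq_pos hω0) 2).ne'
  have hpos : ∀ ω : Metric.sphere (0:E) 1, 0 < ((sq (ω : E)) ^ 2)⁻¹ := by
    intro ω
    have hω : ‖(ω : E)‖ = 1 := by simpa using ω.2
    have hω0 : (ω : E) ≠ 0 := by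
      intro h; rw [h, norm_zero] at hω; exact zero_ne_one hω
    have := sq_pos hω0
    positivity
  have hint : Integrable (fun ω : Metric.sphere (0:E) 1 => ((sq (ω : E)) ^ 2)⁻¹) ((volume : Measure E).toSphere) :=
    hc.integrable_of_hasCompactSupport (HasCompactSupport.of_compactSpace _)
  rw [integral_pos_iff_support_of_nonneg (fun ω => (hpos ω).le) hint]
  have : Function.support (fun ω : Metric.sphere (0:E) 1 => ((sq (ω : E)) ^ 2)⁻¹) = univ := by
    ext ω; simp only [Function.mem_support, mem_univ, iff_true]; exact (hpos ω).ne'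
  rw [this]
  rw [pos_iff_ne_zero, ne_eq, Measure.measure_univ_eq_zero]
  haveI : Nontrivial E := inferInstance
  exact Measure.toSphere_ne_zero _

theorem angular {G : E → ℂ} (hG : ContDiff ℝ 1 G) (hs : HasCompactSupport G) :
    ∫ y : E, fderiv ℝ G y (Complex.I • y) / ((sq y : ℝ) : ℂ) ^ 2 = 0 := by
  set h : E → ℂ := fun y => fderiv ℝ G y (Complex.I • y) / ((sq y : ℝ) : ℂ) ^ 2 with hh
  have hcf : Continuous (fderiv ℝ G) := hG.continuous_fderiv (by simp)
  set c : ℝ → ℂ := fun t => Complex.exp (t * Complex.I) with hc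
  have hc1 : ∀ t, ‖c t‖ = 1 := fun t => Complex.norm_exp_ofReal_mul_I t
  have hc0 : ∀ t, c t ≠ 0 := fun t => Complex.exp_ne_zero _
  have hcc : Continuous c := by fun_prop
  -- invariance
  have inv : ∀ t, ∫ y : E, h (c t • y) = ∫ y, h y := by
    intro t
    have hmp1 : MeasurePreserving (fun z : ℂ => c t * z) volume volume := by
      have := (rotation (⟨c t, mem_sphere_zero_iff_norm.2 (hc1 t)⟩ : Circle)).measurePreserving
      exact this
    have hmp : MeasurePreserving (fun (y : E) (i : Fin 2) => c t * y i) volume volume :=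
      volume_preserving_pi (fun _ => hmp1)
    have hemb : MeasurableEmbedding (fun (y : E) (i : Fin 2) => c t * y i) := by
      have : (fun (y : E) (i : Fin 2) => c t * y i) = (Homeomorph.smulOfNeZero (c t) (hc0 t) : E ≃ₜ E) := by
        funext y i; rfl
      rw [this]
      exact Homeomorph.measurableEmbedding _
    exact hmp.integral_comp hemb h
  -- pointwise derivative
  have hval : ∀ t y, h (c t • y) = fderiv ℝ G (c t • y) (Complex.I • (c t • y)) / ((sq y : ℝ) : ℂ) ^ 2 := by
    intro t y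
    simp only [hh, sq_cmul, hc1, one_pow, one_mul]
  have hder : ∀ y t, HasDerivAt (fun t : ℝ => G (c t • y)) (fderiv ℝ G (c t • y) (Complex.I • (c t • y))) t := by
    intro y t
    have h1 : HasFDerivAt G (fderiv ℝ G (c t • y)) (c t • y) :=
      (hG.differentiable (by simp) _).hasFDerivAt
    have h2 : HasDerivAt c (c t * Complex.I) t := by
      have h3 : HasDerivAt (fun t : ℝ => (t : ℂ) * Complex.I) Complex.I t := by
        simpa using (Complex.ofRealCLM.hasDerivAt (x := t)).mul_const Complex.I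
      exact h3.cexp
    have h3 : HasDerivAt (fun t : ℝ => c t • y) (Complex.I • (c t • y)) t := by
      refine (h2.smul_const y).congr_deriv ?_
      rw [smul_smul, mul_comm]
    exact h1.comp_hasDerivAt t h3
  have hz : ∀ y, ∫ t in (0:ℝ)..(2 * Real.pi), h (c t • y) = 0 := by
    intro y
    simp only [hval, div_eq_mul_inv]
    rw [intervalIntegral.integral_mul_const]
    rw [intervalIntegral.integral_eq_sub_of_hasDerivAt (fun t _ => hder y t)]
    · have e1 : c (2 * Real.pi) = 1 := by
        simp only [hc]; push_cast; exact Complex.exp_two_pi_mul_I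
      have e0 : c 0 = 1 := by simp [hc]
      rw [e1, e0, sub_self, zero_mul]
    · apply Continuous.intervalIntegrable
      fun_prop
  obtain ⟨C, R, hC, hb⟩ := bound hG hs
  have hswap : ∫ t in (0:ℝ)..(2 * Real.pi), ∫ y : E, h (c t • y) = ∫ y : E, ∫ t in (0:ℝ)..(2 * Real.pi), h (c t • y) := by
    have h2p : (0:ℝ) ≤ 2 * Real.pi := by positivity
    simp only [intervalIntegral.integral_of_le h2p]
    rw [integral_integral_swap]
    have hbi : Integrable (fun p : ℝ × E => C * (Iio R).indicator (fun r : ℝ => (r⁻¹) ^ 3) ‖p.2‖)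
        ((volume.restrict (Ioc 0 (2 * Real.pi))).prod volume) :=
      ((S3.integrable_ind R).const_mul C).comp_snd (volume.restrict (Ioc 0 (2 * Real.pi)))
    refine Integrable.mono' hbi ?_ (ae_of_all _ ?_)
    · have : Measurable (fun p : ℝ × E => fderiv ℝ G (c p.1 • p.2) (Complex.I • (c p.1 • p.2)) * (((sq p.2 : ℝ) : ℂ) ^ 2)⁻¹) := by
        have h1 : Continuous (fun p : ℝ × E => fderiv ℝ G (c p.1 • p.2) (Complex.I • (c p.1 • p.2))) := by
          have h2 : Continuous (fun p : ℝ × E => c p.1 • p.2) := by fun_prop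
          exact (hcf.comp h2).clm_apply (h2.const_smul Complex.I)
        exact h1.measurable.mul (meas_inv.comp measurable_snd)
      refine this.aestronglyMeasurable.congr (ae_of_all _ ?_)
      rintro ⟨t, y⟩
      simp only [Function.uncurry]
      rw [hval, div_eq_mul_inv]
    · rintro ⟨t, y⟩
      simp only [Function.uncurry]
      have hn : ‖c t • y‖ = ‖y‖ := by rw [norm_smul, hc1, one_mul]
      have := hb (c t • y) (Complex.I • (c t • y)) (by rw [norm_smul]; simp)
      rw [hn] at this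
      exact this
  simp only [inv, hz] at hswap
  rw [intervalIntegral.integral_const, integral_zero, sub_zero] at hswap
  have hp : (2 * Real.pi : ℝ) ≠ 0 := by positivity
  exact (smul_eq_zero.1 hswap).resolve_left hp

end S2

open S2 in
theorem exists_BMid : ∃ κ : ℝ, BMid κ := by
  refine ⟨(1/2) * ∫ ω : Metric.sphere (0:E) 1, ((sq (ω : E)) ^ 2)⁻¹ ∂((volume : Measure E).toSphere), ?_, ?_⟩
  · exact mul_pos (by norm_num) kpos
  · intro g hg hs z
    set G : E → ℂ := fun y => g (z + y) with hGdef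
    have hG : ContDiff ℝ 1 G := hg.comp (contDiff_const.add contDiff_id)
    have hGs : HasCompactSupport G := hs.comp_homeomorph (Homeomorph.addLeft z)
    have hd : ∀ j y, dbar j g (z + y) = dbar j G y := by
      intro j y
      unfold dbar
      rw [hGdef, fderiv_comp_add_left]
    simp only [hd, integrand]
    rw [integral_add ((int_rad hG hGs).const_mul _) ((int_ang hG hGs).const_mul _),
      integral_const_mul, integral_const_mul, radial hG hGs, angular hG hGs]
    have : G 0 = g z := by simp [hGdef]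
    rw [this]
    push_cast
    ring

end Pool.Agent.N289.CV
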